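import Pool.Agent.Work.BV.GaussLS
import Pool.Agent.Work.BV.Vaughan
import Pool.Agent.Work.BV.Primes
import Pool.Agent.Work.BV.DivSum

/-! # Module BadCount: few primitive characters have a large prime sum at a given height

`J`-th power of the prime sum and the multiplicative large sieve: for `Q ^ 2 ≤ u ^ J` the number of
primitive characters of modulus at most `Q` with `‖psiC χ u‖ > u / T` is at most
`C (log u) ^ J T ^ (2 J)`. -/

namespace Pool.Agent.HL

open Finset Pool.Agent.BV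
open scoped ArithmeticFunction.vonMangoldt

noncomputable section

/-- coefficients of the `J`-th power of the prime sum over `n ≤ u` -/
def powCoef (u : ℕ) : ℕ → ℕ → ℝ
  | 0 => fun n => if n = 1 then 1 else 0
  | J + 1 => fun n => ∑ p ∈ n.divisorsAntidiagonal, (if p.1 ≤ u then Λ p.1 else 0) * powCoef u J p.2

lemma powCoef_succ (u J n : ℕ) : powCoef u (J + 1) n =
    ∑ p ∈ n.divisorsAntidiagonal, (if p.1 ≤ u then Λ p.1 else 0) * powCoef u J p.2 := rfl

lemma powCoef_nonneg (u J n : ℕ) : 0 ≤ powCoef u J n := by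
  induction J generalizing n with
  | zero => unfold powCoef; split_ifs <;> norm_num
  | succ J ih =>
    unfold powCoef
    refine sum_nonneg fun p _ => mul_nonneg ?_ (ih _)
    split_ifs
    · exact ArithmeticFunction.vonMangoldt_nonneg
    · exact le_rfl

lemma powCoef_zero_of_lt {u : ℕ} (J n : ℕ) (hn : u ^ J < n) : powCoef u J n = 0 := by
  induction J generalizing n with
  | zero => unfold powCoef; rw [if_neg]; simpa using (by simpa using hn : 1 < n).ne'
  | succ J ih =>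
    unfold powCoef
    refine sum_eq_zero fun p hp => ?_
    rw [Nat.mem_divisorsAntidiagonal] at hp
    by_cases h : p.1 ≤ u
    · rw [ih, mul_zero]
      by_contra h2
      push Not at h2
      have : p.1 * p.2 ≤ u ^ (J + 1) := by
        rw [pow_succ, mul_comm (u ^ J)]
        exact Nat.mul_le_mul h h2
      omega
    · rw [if_neg h, zero_mul]

lemma powCoef_le (u J n : ℕ) (hn : 1 ≤ n) : powCoef u J n ≤ (Real.log n) ^ J := by
  induction J generalizing n with
  | zero => unfold powCoef; split_ifs <;> simp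
  | succ J ih =>
    unfold powCoef
    have hl : 0 ≤ Real.log n := Real.log_natCast_nonneg n
    calc ∑ p ∈ n.divisorsAntidiagonal, (if p.1 ≤ u then Λ p.1 else 0) * powCoef u J p.2
        ≤ ∑ p ∈ n.divisorsAntidiagonal, Λ p.1 * (Real.log n) ^ J := by
          refine sum_le_sum fun p hp => ?_
          rw [Nat.mem_divisorsAntidiagonal] at hp
          have hp2 : 1 ≤ p.2 := Nat.pos_of_ne_zero (by
            rintro h; rw [h, mul_zero] at hp; omega)
          have hp1 : 1 ≤ p.1 := Nat.pos_of_ne_zero (by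
            rintro h; rw [h, zero_mul] at hp; omega)
          have h1 : powCoef u J p.2 ≤ (Real.log n) ^ J := by
            refine (ih _ hp2).trans (pow_le_pow_left₀ (Real.log_natCast_nonneg _) ?_ _)
            refine Real.log_le_log (by exact_mod_cast hp2) ?_
            exact_mod_cast hp.1 ▸ Nat.le_mul_of_pos_left p.2 hp1
          have h2 : (if p.1 ≤ u then Λ p.1 else 0 : ℝ) ≤ Λ p.1 := by
            split_ifs
            · exact le_rfl
            · exact ArithmeticFunction.vonMangoldt_nonneg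
          exact mul_le_mul h2 h1 (powCoef_nonneg _ _ _) ArithmeticFunction.vonMangoldt_nonneg
      _ = (∑ d ∈ n.divisors, Λ d) * (Real.log n) ^ J := by
          rw [← sum_mul, Nat.sum_divisorsAntidiagonal (fun d _ => (Λ d : ℝ))]
      _ = (Real.log n) ^ (J + 1) := by
          rw [ArithmeticFunction.vonMangoldt_sum, pow_succ, mul_comm]

/-- product formula for a completely multiplicative weight -/
lemma powCoef_sum {u : ℕ} (w : ℕ → ℂ) (h1 : w 1 = 1)
    (hw : ∀ a b, w (a * b) = w a * w b) (J : ℕ) :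
    ∑ n ∈ Icc 1 (u ^ J), (powCoef u J n : ℂ) * w n = (∑ n ∈ Icc 1 u, ((Λ n : ℝ) : ℂ) * w n) ^ J := by
  induction J with
  | zero => simp [powCoef, h1]
  | succ J ih =>
    have e1 : ∑ n ∈ Icc 1 (u ^ (J + 1)), (powCoef u (J + 1) n : ℂ) * w n =
        ∑ n ∈ Icc 1 (u ^ (J + 1)), ∑ p ∈ n.divisorsAntidiagonal,
          (((if p.1 ≤ u then Λ p.1 else 0 : ℝ) : ℂ) * w p.1) * ((powCoef u J p.2 : ℂ) * w p.2) := by
      refine sum_congr rfl fun n _ => ?_
      rw [powCoef_succ]
      rw [Complex.ofReal_sum, sum_mul]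
      refine sum_congr rfl fun p hp => ?_
      rw [Nat.mem_divisorsAntidiagonal] at hp
      rw [← hp.1, hw, Complex.ofReal_mul]
      ring
    rw [e1, vaughan_sum_conv (fun a => ((if a ≤ u then Λ a else 0 : ℝ) : ℂ) * w a)
      (fun b => (powCoef u J b : ℂ) * w b)]
    have e2 : ∀ a ∈ Icc 1 (u ^ (J + 1)), ∑ b ∈ Icc 1 (u ^ (J + 1) / a),
        (((if a ≤ u then Λ a else 0 : ℝ) : ℂ) * w a) * ((powCoef u J b : ℂ) * w b) =
        (if a ≤ u then ((Λ a : ℝ) : ℂ) * w a else 0) *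
          ∑ b ∈ Icc 1 (u ^ J), (powCoef u J b : ℂ) * w b := by
      intro a ha
      rw [mem_Icc] at ha
      by_cases h : a ≤ u
      · rw [← mul_sum]
        simp only [h, if_true]
        congr 1
        symm
        refine sum_subset ?_ ?_
        · intro b hb
          rw [mem_Icc] at hb ⊢
          refine ⟨hb.1, hb.2.trans ?_⟩
          rw [Nat.le_div_iff_mul_le ha.1, pow_succ]
          exact Nat.mul_le_mul_left _ h
        · intro b _ hb
          rw [mem_Icc] at hb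
          by_cases hb0 : b = 0
          · subst hb0
            have : powCoef u J 0 = 0 := by
              cases J with
              | zero => simp [powCoef]
              | succ J => simp [powCoef]
            simp [this]
          · rw [powCoef_zero_of_lt J b (by omega)]
            simp
      · simp [h]
    rw [sum_congr rfl e2, ← sum_mul, ih, pow_succ, mul_comm, ← sum_filter]
    congr 1
    refine sum_congr ?_ fun _ _ => rfl
    ext n
    simp only [mem_filter, mem_Icc]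
    constructor
    · rintro ⟨⟨h1, -⟩, h2⟩; exact ⟨h1, h2⟩
    · rintro ⟨h1, h2⟩
      exact ⟨⟨h1, h2.trans (Nat.le_self_pow (Nat.succ_ne_zero J) u)⟩, h2⟩

lemma powCoef_sum_real (u J : ℕ) :
    ∑ n ∈ Icc 1 (u ^ J), powCoef u J n = (psi u) ^ J := by
  have h := powCoef_sum (u := u) (fun _ => 1) rfl (by simp) J
  have h2 : ((∑ n ∈ Icc 1 (u ^ J), powCoef u J n : ℝ) : ℂ) = (((psi u) ^ J : ℝ) : ℂ) := by
    unfold psi
    push_cast
    simpa using h
  exact_mod_cast h2

lemma powCoef_sq_sum (u J : ℕ) :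
    ∑ n ∈ Icc 1 (u ^ J), (powCoef u J n) ^ 2 ≤ ((J : ℝ) * Real.log u) ^ J * (psi u) ^ J := by
  rw [← powCoef_sum_real, mul_sum]
  refine sum_le_sum fun n hn => ?_
  rw [mem_Icc] at hn
  rw [sq]
  refine mul_le_mul_of_nonneg_right ?_ (powCoef_nonneg _ _ _)
  refine (powCoef_le u J n hn.1).trans (pow_le_pow_left₀ (Real.log_natCast_nonneg _) ?_ _)
  rw [← Real.log_pow]
  refine Real.log_le_log (by exact_mod_cast hn.1) ?_
  exact_mod_cast hn.2

lemma psi_le_mul (u : ℕ) : psi u ≤ (Real.log 4 + 4) * u := by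
  rw [primes_psi_eq]
  exact Chebyshev.psi_le_const_mul_self (by positivity)

/-- **Few bad characters.** -/
theorem bad_count (J : ℕ) : ∃ C : ℝ, 0 < C ∧ ∀ (Q u : ℕ) (T : ℝ), 1 ≤ Q → 3 ≤ u → 0 < T →
    (Q : ℝ) ^ 2 ≤ (u : ℝ) ^ J →
    ∑ q ∈ Icc 1 Q, (((prim q).filter (fun χ => (u : ℝ) / T < ‖psiC χ u‖)).card : ℝ) ≤
      C * (Real.log u) ^ J * T ^ (2 * J) := by
  set B : ℝ := Real.log 4 + 4 with hB
  have hB0 : 0 < B := by positivity
  refine ⟨40 * ((J : ℝ) + 1) ^ J * B ^ J, by positivity, ?_⟩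
  intro Q u T hQ hu hT hQu
  have hu1 : 1 ≤ u := by omega
  have huR : (0 : ℝ) < u := by exact_mod_cast (by omega : 0 < u)
  have hlog : 0 ≤ Real.log u := Real.log_natCast_nonneg u
  have key := large_sieve Q hQ 0 (u ^ J) (fun n => (powCoef u J n : ℂ))
  have e0 : Ioc 0 (0 + u ^ J) = Icc 1 (u ^ J) := by
    ext n; simp only [mem_Ioc, mem_Icc]; omega
  rw [e0] at key
  have h1 : ∀ q ∈ Icc 1 Q, (((prim q).filter (fun χ => (u : ℝ) / T < ‖psiC χ u‖)).card : ℝ) *
      ((u : ℝ) / T) ^ (2 * J) ≤ (q : ℝ) / q.totient *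
      ∑ χ ∈ prim q, ‖∑ n ∈ Icc 1 (u ^ J), (powCoef u J n : ℂ) * χ (n : ZMod q)‖ ^ 2 := by
    intro q hq
    rw [mem_Icc] at hq
    have hφ : (0 : ℝ) < q.totient := by exact_mod_cast Nat.totient_pos.2 (by omega)
    have hq1 : (1 : ℝ) ≤ (q : ℝ) / q.totient := by
      rw [le_div_iff₀ hφ, one_mul]
      exact_mod_cast Nat.totient_le q
    have e1 : ∀ χ ∈ prim q, ‖∑ n ∈ Icc 1 (u ^ J), (powCoef u J n : ℂ) * χ (n : ZMod q)‖ ^ 2 =
        ‖psiC χ u‖ ^ (2 * J) := by
      intro χ _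
      rw [powCoef_sum (fun n => χ (n : ZMod q)) (by simp) (fun a b => by push_cast; rw [map_mul]) J]
      rw [norm_pow, ← pow_mul, mul_comm J 2]
      rfl
    rw [sum_congr rfl e1]
    calc (((prim q).filter (fun χ => (u : ℝ) / T < ‖psiC χ u‖)).card : ℝ) * ((u : ℝ) / T) ^ (2 * J)
        = ∑ χ ∈ (prim q).filter (fun χ => (u : ℝ) / T < ‖psiC χ u‖), ((u : ℝ) / T) ^ (2 * J) := by
          rw [sum_const, nsmul_eq_mul]
      _ ≤ ∑ χ ∈ (prim q).filter (fun χ => (u : ℝ) / T < ‖psiC χ u‖), ‖psiC χ u‖ ^ (2 * J) := by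
          refine sum_le_sum fun χ hχ => pow_le_pow_left₀ (by positivity) ?_ _
          exact (mem_filter.1 hχ).2.le
      _ ≤ ∑ χ ∈ prim q, ‖psiC χ u‖ ^ (2 * J) :=
          sum_le_sum_of_subset_of_nonneg (filter_subset _ _) fun _ _ _ => by positivity
      _ ≤ (q : ℝ) / q.totient * ∑ χ ∈ prim q, ‖psiC χ u‖ ^ (2 * J) :=
          le_mul_of_one_le_left (sum_nonneg fun _ _ => by positivity) hq1
  have h2 := (sum_le_sum h1).trans key
  rw [← sum_mul] at h2
  have h3 : ∑ n ∈ Icc 1 (u ^ J), ‖(powCoef u J n : ℂ)‖ ^ 2 ≤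
      ((J : ℝ) * Real.log u) ^ J * (B * u) ^ J := by
    have e : ∀ n ∈ Icc 1 (u ^ J), ‖(powCoef u J n : ℂ)‖ ^ 2 = (powCoef u J n) ^ 2 := by
      intro n _
      rw [Complex.norm_real, Real.norm_eq_abs, sq_abs]
    rw [sum_congr rfl e]
    refine (powCoef_sq_sum u J).trans ?_
    refine mul_le_mul_of_nonneg_left ?_ (by positivity)
    refine pow_le_pow_left₀ ?_ (psi_le_mul u) _
    exact sum_nonneg fun _ _ => ArithmeticFunction.vonMangoldt_nonneg
  have h4 : (20 : ℝ) * (((u ^ J : ℕ) : ℝ) + (Q : ℝ) ^ 2) ≤ 40 * (u : ℝ) ^ J := by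
    push_cast
    linarith
  have h5 : (∑ q ∈ Icc 1 Q, (((prim q).filter (fun χ => (u : ℝ) / T < ‖psiC χ u‖)).card : ℝ)) *
      ((u : ℝ) / T) ^ (2 * J) ≤ 40 * (u : ℝ) ^ J * (((J : ℝ) * Real.log u) ^ J * (B * u) ^ J) := by
    refine h2.trans (mul_le_mul h4 h3 (sum_nonneg fun _ _ => by positivity) (by positivity))
  have h6 : (0 : ℝ) < ((u : ℝ) / T) ^ (2 * J) := by positivity
  rw [← le_div_iff₀ h6] at h5
  refine h5.trans ?_
  have h7 : 40 * (u : ℝ) ^ J * (((J : ℝ) * Real.log u) ^ J * (B * u) ^ J) / ((u : ℝ) / T) ^ (2 * J) =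
      40 * (J : ℝ) ^ J * B ^ J * (Real.log u) ^ J * T ^ (2 * J) := by
    rw [div_pow, mul_pow, mul_pow]
    have : (u : ℝ) ^ (2 * J) = (u : ℝ) ^ J * (u : ℝ) ^ J := by rw [← pow_add]; congr 1; ring
    rw [this]
    field_simp
  rw [h7]
  have h8 : (J : ℝ) ^ J ≤ ((J : ℝ) + 1) ^ J := pow_le_pow_left₀ (by positivity) (by linarith) _
  gcongr

theorem badcount (J B : ℕ) (hJ : 1 ≤ J) : ∃ C : ℝ, 0 < C ∧ ∀ x u R : ℕ, 3 ≤ x → 1 ≤ u → u ≤ x →
    1 ≤ R → R ^ 2 ≤ u ^ J →
    ∑ r ∈ Icc 1 R, (((prim r).filter (fun χ => (u : ℝ) / (Real.log x) ^ B < ‖psiC χ u‖)).card : ℝ) ≤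
      C * (Real.log x) ^ (2 * J * (B + 1)) := by
  obtain ⟨C, hC, h⟩ := bad_count J
  refine ⟨C + ((2 : ℝ) ^ J) ^ 2, by positivity, ?_⟩
  intro x u R hx hu hux hR hRu
  have hlx : 1 ≤ Real.log x := by
    have h3 : (3 : ℝ) ≤ x := by exact_mod_cast hx
    have he := Real.exp_one_lt_d9
    rw [Real.le_log_iff_exp_le (by linarith)]
    linarith
  have hlx0 : 0 < Real.log x := by linarith
  by_cases hu3 : 3 ≤ u
  · have h1 := h R u ((Real.log x) ^ B) hR hu3 (by positivity) (by exact_mod_cast hRu)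
    refine h1.trans ?_
    have h2 : (Real.log u) ^ J ≤ (Real.log x) ^ J := by
      refine pow_le_pow_left₀ (Real.log_natCast_nonneg _) ?_ _
      exact Real.log_le_log (by exact_mod_cast (by omega : 0 < u)) (by exact_mod_cast hux)
    calc C * (Real.log u) ^ J * ((Real.log x) ^ B) ^ (2 * J)
        ≤ C * (Real.log x) ^ J * ((Real.log x) ^ B) ^ (2 * J) := by gcongr
      _ = C * (Real.log x) ^ (J + B * (2 * J)) := by rw [← pow_mul, mul_assoc, ← pow_add]
      _ ≤ C * (Real.log x) ^ (2 * J * (B + 1)) := by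
          refine mul_le_mul_of_nonneg_left (pow_le_pow_right₀ hlx ?_) hC.le
          nlinarith
      _ ≤ _ := by
          refine mul_le_mul_of_nonneg_right ?_ (by positivity)
          have : (0 : ℝ) ≤ ((2 : ℝ) ^ J) ^ 2 := by positivity
          linarith
  · have hR2 : R ≤ 2 ^ J := by
      have h1 : R ^ 2 ≤ 2 ^ J := hRu.trans (Nat.pow_le_pow_left (by omega) J)
      nlinarith
    have h2 : ∑ r ∈ Icc 1 R,
        (((prim r).filter (fun χ => (u : ℝ) / (Real.log x) ^ B < ‖psiC χ u‖)).card : ℝ) ≤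
        ((2 : ℝ) ^ J) ^ 2 := by
      have h3 : ∀ r ∈ Icc 1 R,
          (((prim r).filter (fun χ => (u : ℝ) / (Real.log x) ^ B < ‖psiC χ u‖)).card : ℝ) ≤
          (2 : ℝ) ^ J := by
        intro r hr
        rw [mem_Icc] at hr
        have h4 := card_prim_le r hr.1
        have h5 := card_filter_le (prim r) (fun χ => (u : ℝ) / (Real.log x) ^ B < ‖psiC χ u‖)
        have h6 : ((prim r).filter (fun χ => (u : ℝ) / (Real.log x) ^ B < ‖psiC χ u‖)).card ≤ 2 ^ J :=
          h5.trans (h4.trans ((Nat.totient_le r).trans (hr.2.trans hR2)))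
        exact_mod_cast h6
      refine (sum_le_sum h3).trans ?_
      rw [sum_const, nsmul_eq_mul, Nat.card_Icc, Nat.add_sub_cancel, sq]
      refine mul_le_mul_of_nonneg_right ?_ (by positivity)
      exact_mod_cast hR2
    refine h2.trans ?_
    have h3 : (1 : ℝ) ≤ (Real.log x) ^ (2 * J * (B + 1)) := one_le_pow₀ hlx
    have h4 : (0 : ℝ) ≤ ((2 : ℝ) ^ J) ^ 2 := by positivity
    nlinarith [mul_le_mul_of_nonneg_left h3 h4, mul_pos hC (by linarith : (0 : ℝ) < (Real.log x) ^ (2 * J * (B + 1)))]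

end

end Pool.Agent.HL
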