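import Pool.Agent.Work.MP_92f640_nt.HL.Defs
import Pool.Agent.Work.MP_92f640_nt.HL.BadCount

/-! # Module Bset: the exceptional moduli

`B = { r / g : 1 ≤ r ≤ √x, (log x)^(A+B₁+1) < r, some χ ∈ prim r is bad (BadC), g ∣ r, 1 ≤ g ≤ (log x)^B₁ }`.
Cardinality: for every grid point `u = gr η i ∈ [x^(ε/8), x]` apply `badcount` with `J = ⌈8/ε⌉₊` (then
`u^J ≥ x ≥ R²`, `R = ⌊√x⌋₊`); number of `i` with `gr η i ≤ x`: `(1+η)^i < x + 1`, and
`log (1+η) ≥ η/2`, so `i ≤ 4 (log x)^(B₈+1)`; times `(log x)^B₁` values `g`.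
Elements: `r/g > (log x)^(A+B₁+1)/(log x)^B₁ > (log x)^A`.
Good: let `r ∣ q s`, `s ≤ (log x)^B₁`, `r > (log x)^(A+B₁+1)`, `χ ∈ prim r` bad. Then
`r ≤ q s ≤ x^(1/2-ε) (log x)^B₁ ≤ √x`, and `g = gcd r s ≤ s` satisfies `r / g ∣ q` (coprime to `s / g`),
and `r / g ∈ B`, contradiction. -/

namespace Pool.Agent.HL

open Finset Pool.Agent.BV

/-- number of grid points up to `x` -/
lemma bset_grid (x B : ℕ) (hx : 3 ≤ x) (i : ℕ)
    (hi : (gr (1 / (Real.log x) ^ B) i : ℝ) ≤ x) : (i : ℝ) ≤ 4 * (Real.log x) ^ (B + 1) := by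
  have hx3 : (3 : ℝ) ≤ x := by exact_mod_cast hx
  have hlx : 1 ≤ Real.log x := by
    have he := Real.exp_one_lt_d9
    rw [Real.le_log_iff_exp_le (by linarith)]
    linarith
  set L := Real.log x with hL
  set η : ℝ := 1 / L ^ B with hη
  have hLB : 1 ≤ L ^ B := one_le_pow₀ hlx
  have hη0 : 0 < η := by positivity
  have hη1 : η ≤ 1 := by rw [hη, div_le_one (by positivity)]; exact hLB
  have h1 : (1 + η) ^ i < x + 1 := by
    have h2 := Nat.lt_floor_add_one ((1 + η) ^ i)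
    unfold gr at hi
    linarith
  have h2 : (i : ℝ) * Real.log (1 + η) < 2 * L := by
    have h3 : Real.log ((1 + η) ^ i) < Real.log (x + 1) := Real.log_lt_log (by positivity) h1
    rw [Real.log_pow] at h3
    have h4 : Real.log ((x : ℝ) + 1) ≤ 2 * L := by
      have h5 : (x : ℝ) + 1 ≤ (x : ℝ) ^ 2 := by nlinarith
      have h6 := Real.log_le_log (by positivity) h5
      rw [Real.log_pow] at h6
      push_cast at h6
      exact h6
    linarith
  have h3 : η / 2 ≤ Real.log (1 + η) := by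
    have h4 := Real.one_sub_inv_le_log_of_pos (show 0 < 1 + η by positivity)
    have h5 : η / 2 ≤ 1 - (1 + η)⁻¹ := by
      have : 1 - (1 + η)⁻¹ = η / (1 + η) := by field_simp; ring
      rw [this]
      exact div_le_div_of_nonneg_left hη0.le (by positivity) (by linarith)
    linarith
  have h4 : (i : ℝ) * (η / 2) ≤ 2 * L := by
    have := mul_le_mul_of_nonneg_left h3 (Nat.cast_nonneg (α := ℝ) i)
    linarith
  have h5 : (i : ℝ) * (η / 2) * (2 * L ^ B) = i := by rw [hη]; field_simp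
  calc (i : ℝ) = (i : ℝ) * (η / 2) * (2 * L ^ B) := h5.symm
    _ ≤ 2 * L * (2 * L ^ B) := mul_le_mul_of_nonneg_right h4 (by positivity)
    _ = 4 * L ^ (B + 1) := by ring

/-- `(log x) ^ B ≤ x ^ ε` for large `x` -/
lemma bset_log (B : ℕ) (ε : ℝ) (hε : 0 < ε) : ∃ x₀ : ℕ, ∀ x : ℕ, x₀ ≤ x →
    (Real.log x) ^ B ≤ (x : ℝ) ^ ε := by
  have h := (isLittleO_log_rpow_rpow_atTop (B : ℝ) hε).bound (show (0 : ℝ) < 1 by norm_num)
  have h2 := (tendsto_natCast_atTop_atTop (R := ℝ)).eventually h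
  obtain ⟨x₀, hx₀⟩ := Filter.eventually_atTop.1 h2
  refine ⟨max x₀ 1, fun x hx => ?_⟩
  have h3 := hx₀ x (le_trans (le_max_left _ _) hx)
  have hx1 : (1 : ℝ) ≤ x := by exact_mod_cast le_trans (le_max_right _ _) hx
  rw [Real.rpow_natCast, one_mul, Real.norm_of_nonneg (by have := Real.log_nonneg hx1; positivity),
    Real.norm_of_nonneg (by positivity)] at h3
  exact h3

lemma bset_log_large (K : ℝ) : ∃ x₀ : ℕ, ∀ x : ℕ, x₀ ≤ x → K ≤ Real.log x := by
  have h := (Real.tendsto_log_atTop.comp (tendsto_natCast_atTop_atTop (R := ℝ))).eventually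
    (Filter.eventually_ge_atTop K)
  obtain ⟨x₀, hx₀⟩ := Filter.eventually_atTop.1 h
  exact ⟨x₀, fun x hx => hx₀ x hx⟩

theorem bset (ε : ℝ) (hε : 0 < ε) (B₁ B₈ B₉ : ℕ) : ∃ C : ℕ, ∀ A : ℕ, ∃ x₀ : ℕ, ∀ x : ℕ, x₀ ≤ x →
    ∃ B : Finset ℕ, (B.card : ℝ) ≤ (Real.log x) ^ C ∧ (∀ b ∈ B, (Real.log x) ^ A < (b : ℝ)) ∧
      ∀ q : ℕ, 1 ≤ q → (q : ℝ) ≤ (x : ℝ) ^ (1 / 2 - ε) → (∀ b ∈ B, ¬ b ∣ q) →
        Good x ((x : ℝ) ^ (ε / 8)) ((Real.log x) ^ (A + B₁ + 1)) ((Real.log x) ^ B₁) B₈ B₉ q := by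
  classical
  set J : ℕ := ⌈8 / ε⌉₊ with hJ
  have hJ1 : 1 ≤ J := Nat.one_le_ceil_iff.2 (by positivity)
  have hJε : 1 ≤ ε / 8 * J := by
    have h1 : 8 / ε ≤ J := Nat.le_ceil _
    have h2 : ε / 8 * (8 / ε) = 1 := by field_simp
    rw [← h2]
    exact mul_le_mul_of_nonneg_left h1 (by positivity)
  obtain ⟨C₀, hC₀, hcount⟩ := badcount J B₉ hJ1
  obtain ⟨x₁, hx₁⟩ := bset_log B₁ ε hε
  obtain ⟨x₂, hx₂⟩ := bset_log_large (5 * C₀)
  refine ⟨B₈ + 1 + 2 * J * (B₉ + 1) + B₁ + 1, fun A => ⟨max 3 (max x₁ x₂), fun x hx => ?_⟩⟩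
  have hx3 : 3 ≤ x := le_trans (le_max_left _ _) hx
  have hlog := hx₁ x (le_trans (le_trans (le_max_left _ _) (le_max_right _ _)) hx)
  have hlarge := hx₂ x (le_trans (le_trans (le_max_right _ _) (le_max_right _ _)) hx)
  have hx3R : (3 : ℝ) ≤ x := by exact_mod_cast hx3
  have hx1R : (1 : ℝ) ≤ x := by linarith
  have hx0R : (0 : ℝ) < x := by linarith
  have hlx : 1 ≤ Real.log x := by
    have he := Real.exp_one_lt_d9
    rw [Real.le_log_iff_exp_le (by linarith)]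
    linarith
  set L := Real.log x with hL
  have hL0 : 0 < L := by linarith
  set η : ℝ := 1 / L ^ B₈ with hη
  set R : ℕ := Nat.sqrt x with hR
  have hR1 : 1 ≤ R := Nat.sqrt_pos.2 (by omega)
  have hRx : R ^ 2 ≤ x := Nat.sqrt_le' x
  set lo : ℝ := (x : ℝ) ^ (ε / 8) with hlo
  -- the grid
  set N : ℕ := ⌊4 * L ^ (B₈ + 1)⌋₊ with hN
  set I : Finset ℕ := (range (N + 1)).filter (fun i => lo ≤ gr η i ∧ (gr η i : ℝ) ≤ x) with hI
  have hIcard : (I.card : ℝ) ≤ 5 * L ^ (B₈ + 1) := by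
    have h1 : (I.card : ℝ) ≤ N + 1 := by
      have : I.card ≤ N + 1 := (card_filter_le _ _).trans (by rw [card_range])
      exact_mod_cast this
    have h2 : (N : ℝ) ≤ 4 * L ^ (B₈ + 1) := Nat.floor_le (by positivity)
    have h3 : 1 ≤ L ^ (B₈ + 1) := one_le_pow₀ hlx
    linarith
  -- bad conductors
  set Rb : Finset ℕ := (Icc 1 R).filter (fun r => ∃ χ ∈ prim r, BadC x lo B₈ B₉ χ) with hRb
  have hRbcard : (Rb.card : ℝ) ≤ 5 * L ^ (B₈ + 1) * (C₀ * L ^ (2 * J * (B₉ + 1))) := by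
    have h1 : ∀ i ∈ I, ∑ r ∈ Icc 1 R,
        (((prim r).filter (fun χ => (gr η i : ℝ) / L ^ B₉ < ‖psiC χ (gr η i)‖)).card : ℝ) ≤
        C₀ * L ^ (2 * J * (B₉ + 1)) := by
      intro i hi
      rw [hI, mem_filter] at hi
      obtain ⟨-, hi1, hi2⟩ := hi
      have hu1 : 1 ≤ gr η i := by
        have : (1 : ℝ) ≤ gr η i := le_trans (Real.one_le_rpow hx1R (by positivity)) hi1
        exact_mod_cast this
      refine hcount x (gr η i) R hx3 hu1 (by exact_mod_cast hi2) hR1 ?_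
      have h2 : (x : ℝ) ≤ (gr η i : ℝ) ^ J := by
        calc (x : ℝ) = (x : ℝ) ^ (1 : ℝ) := (Real.rpow_one _).symm
          _ ≤ (x : ℝ) ^ (ε / 8 * J) := Real.rpow_le_rpow_of_exponent_le hx1R hJε
          _ = lo ^ J := by rw [Real.rpow_mul hx0R.le, Real.rpow_natCast]
          _ ≤ (gr η i : ℝ) ^ J := pow_le_pow_left₀ (by positivity) hi1 _
      have h3 : x ≤ (gr η i) ^ J := by exact_mod_cast h2
      exact hRx.trans h3
    have h2 : (Rb.card : ℝ) ≤ ∑ r ∈ Icc 1 R, ∑ i ∈ I,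
        (((prim r).filter (fun χ => (gr η i : ℝ) / L ^ B₉ < ‖psiC χ (gr η i)‖)).card : ℝ) := by
      rw [hRb, card_filter]
      push_cast
      refine sum_le_sum fun r hr => ?_
      split_ifs with h
      · obtain ⟨χ, hχ, i, hi1, hi2, hi3⟩ := h
        have hiI : i ∈ I := by
          rw [hI, mem_filter, mem_range]
          refine ⟨?_, hi1, hi2⟩
          have := bset_grid x B₈ hx3 i hi2
          exact Nat.lt_succ_of_le (Nat.le_floor this)
        refine le_trans ?_ (single_le_sum (f := fun i =>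
          (((prim r).filter (fun χ => (gr η i : ℝ) / L ^ B₉ < ‖psiC χ (gr η i)‖)).card : ℝ))
          (fun _ _ => by positivity) hiI)
        have : 0 < ((prim r).filter (fun χ => (gr η i : ℝ) / L ^ B₉ < ‖psiC χ (gr η i)‖)).card :=
          card_pos.2 ⟨χ, mem_filter.2 ⟨hχ, hi3⟩⟩
        exact_mod_cast this
      · exact sum_nonneg fun _ _ => by positivity
    rw [sum_comm] at h2
    refine h2.trans ((sum_le_sum h1).trans ?_)
    rw [sum_const, nsmul_eq_mul]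
    exact mul_le_mul_of_nonneg_right hIcard (by positivity)
  -- the exceptional set
  set G : ℕ := ⌊L ^ B₁⌋₊ with hG
  set P : Finset (ℕ × ℕ) := (Rb ×ˢ Icc 1 G).filter (fun p => L ^ (A + B₁ + 1) < (p.1 : ℝ) ∧ p.2 ∣ p.1)
    with hP
  refine ⟨P.image (fun p => p.1 / p.2), ?_, ?_, ?_⟩
  · have h1 : ((P.image (fun p => p.1 / p.2)).card : ℝ) ≤ Rb.card * G := by
      have h2 : (P.image (fun p => p.1 / p.2)).card ≤ Rb.card * G := by
        refine card_image_le.trans ((card_filter_le _ _).trans ?_)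
        rw [card_product, Nat.card_Icc, Nat.add_sub_cancel]
      exact_mod_cast h2
    have h3 : (G : ℝ) ≤ L ^ B₁ := Nat.floor_le (by positivity)
    calc ((P.image (fun p => p.1 / p.2)).card : ℝ) ≤ Rb.card * G := h1
      _ ≤ 5 * L ^ (B₈ + 1) * (C₀ * L ^ (2 * J * (B₉ + 1))) * L ^ B₁ :=
          mul_le_mul hRbcard h3 (by positivity) (by positivity)
      _ = 5 * C₀ * L ^ (B₈ + 1 + 2 * J * (B₉ + 1) + B₁) := by ring
      _ ≤ L * L ^ (B₈ + 1 + 2 * J * (B₉ + 1) + B₁) := by gcongr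
      _ = L ^ (B₈ + 1 + 2 * J * (B₉ + 1) + B₁ + 1) := by ring
  · intro b hb
    obtain ⟨p, hp, rfl⟩ := mem_image.1 hb
    rw [hP, mem_filter, mem_product, mem_Icc] at hp
    obtain ⟨⟨hp1, hp2, hp3⟩, hp4, hp5⟩ := hp
    have hg0 : (0 : ℝ) < p.2 := by exact_mod_cast hp2
    have hg : (p.2 : ℝ) ≤ L ^ B₁ := by
      have h3 : (G : ℝ) ≤ L ^ B₁ := Nat.floor_le (by positivity)
      have : (p.2 : ℝ) ≤ G := by exact_mod_cast hp3
      linarith
    rw [Nat.cast_div hp5 hg0.ne', lt_div_iff₀ hg0]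
    calc L ^ A * p.2 ≤ L ^ A * L ^ B₁ := by gcongr
      _ ≤ L ^ A * L ^ B₁ * L := le_mul_of_one_le_right (by positivity) hlx
      _ = L ^ (A + B₁ + 1) := by ring
      _ < p.1 := hp4
  · intro q hq hqx hqB s hs hsS r hr hrR χ hχ hbad
    have hs0 : (0 : ℝ) < s := by exact_mod_cast hs
    have hqs : q * s ≠ 0 := Nat.mul_ne_zero (by omega) (by omega)
    have hr1 : 1 ≤ r := Nat.pos_of_dvd_of_pos hr (Nat.pos_of_ne_zero hqs)
    have hrle : (r : ℝ) ≤ (x : ℝ) ^ (1 / 2 : ℝ) := by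
      calc (r : ℝ) ≤ ((q * s : ℕ) : ℝ) := by
            exact_mod_cast Nat.le_of_dvd (Nat.pos_of_ne_zero hqs) hr
        _ = q * s := by push_cast; ring
        _ ≤ (x : ℝ) ^ (1 / 2 - ε) * (x : ℝ) ^ ε :=
            mul_le_mul hqx (hsS.trans hlog) hs0.le (by positivity)
        _ = (x : ℝ) ^ (1 / 2 : ℝ) := by
            rw [← Real.rpow_add hx0R]; congr 1; ring
    have hrR2 : r ≤ R := by
      rw [hR, Nat.le_sqrt']
      have h1 : (r : ℝ) ^ 2 ≤ x := by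
        calc (r : ℝ) ^ 2 ≤ ((x : ℝ) ^ (1 / 2 : ℝ)) ^ 2 := pow_le_pow_left₀ (by positivity) hrle 2
          _ = x := by
              rw [← Real.rpow_natCast, ← Real.rpow_mul hx0R.le]
              norm_num
      exact_mod_cast h1
    set g := Nat.gcd r s with hg
    have hg1 : 1 ≤ g := Nat.gcd_pos_of_pos_left s hr1
    have hgr : g ∣ r := Nat.gcd_dvd_left r s
    have hgs : g ∣ s := Nat.gcd_dvd_right r s
    have hgG : g ≤ G := by
      refine Nat.le_floor ?_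
      have : (g : ℝ) ≤ s := by exact_mod_cast Nat.le_of_dvd hs hgs
      exact this.trans hsS
    refine hqB (r / g) ?_ ?_
    · refine mem_image.2 ⟨(r, g), ?_, rfl⟩
      rw [hP, mem_filter, mem_product, mem_Icc, hRb, mem_filter, mem_Icc]
      exact ⟨⟨⟨⟨hr1, hrR2⟩, χ, hχ, hbad⟩, hg1, hgG⟩, hrR, hgr⟩
    · have hcop : Nat.Coprime (r / g) (s / g) := Nat.coprime_div_gcd_div_gcd hg1
      have h2 : r / g ∣ q * (s / g) := by
        rw [← Nat.mul_div_assoc q hgs]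
        exact Nat.div_dvd_div hgr hr
      exact hcop.dvd_of_dvd_mul_right h2

end Pool.Agent.HL
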