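import Pool.Agent.Work.MP_92f640_nt.HL.Defs
import Pool.Agent.Work.BV.GaussLS

/-! # Module Circle: the `L²` inequality

`cv_comm`: reindexing `k ↦ n - k`.

`circle`: let `N > 2 x` (e.g. `N = 2 x + 1`), `α_j = j / (q N)`, `j < N`. Put
`P_j = ∑_{a < q} H_a(α_j) G_{a'}(α_j)`, `H_a`, `G_a` the sums over the classes mod `q` as in `VV`,
`a' = (q - a) % q`. Expanding, `P_j = ∑_k R(k) e(j k / N)`, where `R(k)` is the sum of
`h(n₁) g(n₂)` over `n₁, n₂ ∈ [1, x]` with `n₁ + n₂ = q k` (so `0 < k < N`), and for `q m ≤ x` one has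
`R(m) = cv h g (q m)`. Parseval mod `N` (`gaussLS_parseval`, or a direct geometric sum):
`∑_k |R(k)|² = (1/N) ∑_j |P_j|²`, Cauchy: `|P_j|² ≤ VV q x h α_j * VV q x g α_j ≤ K * VV q x g α_j`
(`a ↦ a'` permutes `range q`), and Parseval again for each class: the integers `n ≡ a` mod `q` in
`[1, x]`, `n = a + q u`, have `u < N` distinct mod `N`, so
`∑_j ‖G_a(α_j)‖² = N ∑_{n ≡ a} ‖g n‖²`. -/

namespace Pool.Agent.HL

open Finset Pool.Agent.BV

theorem cv_comm (f g : ℕ → ℂ) (n : ℕ) : cv f g n = cv g f n := by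
  unfold cv
  refine Finset.sum_nbij' (fun k => n - k) (fun k => n - k) ?_ ?_ ?_ ?_ ?_
  · intro k hk; simp only [mem_Ico] at hk ⊢; omega
  · intro k hk; simp only [mem_Ico] at hk ⊢; omega
  · intro k hk; simp only [mem_Ico] at hk ⊢; omega
  · intro k hk; simp only [mem_Ico] at hk ⊢; omega
  · intro k hk
    simp only [mem_Ico] at hk
    have : n - (n - k) = k := by omega
    rw [this, mul_comm]

theorem circ_sum_range {N : ℕ} [NeZero N] {E : Type*} [AddCommMonoid E] (F : ZMod N → E) :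
    ∑ j ∈ range N, F (j : ZMod N) = ∑ n : ZMod N, F n := by
  refine Finset.sum_nbij' (fun j => (j : ZMod N)) (fun n => n.val) ?_ ?_ ?_ ?_ ?_
  · intro j _; simp
  · intro n _; simpa using ZMod.val_lt n
  · intro j hj; simpa using ZMod.val_cast_of_lt (mem_range.1 hj)
  · intro n _; simp
  · intro j _; rfl

/-- Parseval for a finite set of frequencies distinct mod `N` -/
theorem circ_parseval {N : ℕ} [NeZero N] (S : Finset ℕ) (u : ℕ → ℕ) (hu : ∀ n ∈ S, u n < N)
    (inj : ∀ n ∈ S, ∀ m ∈ S, u n = u m → n = m) (c : ℕ → ℂ) :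
    ∑ j ∈ range N, ‖∑ n ∈ S, c n * e (u n * ((j : ℝ) / N))‖ ^ 2 = N * ∑ n ∈ S, ‖c n‖ ^ 2 := by
  classical
  have key : ∀ n ∈ S, ∀ m ∈ S, (u n : ZMod N) = (u m : ZMod N) → n = m := by
    intro n hn m hm h
    have h1 := (ZMod.natCast_eq_natCast_iff _ _ _).1 h
    exact inj n hn m hm (Nat.ModEq.eq_of_lt_of_lt h1 (hu n hn) (hu m hm))
  set f : ZMod N → ℂ := fun b => ∑ n ∈ S.filter (fun n => (u n : ZMod N) = b), c n with hf
  have h1 := gaussLS_parseval f
  have h2 : ∀ j : ZMod N, ∑ b, f b * ZMod.stdAddChar (j * b) =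
      ∑ n ∈ S, c n * ZMod.stdAddChar (j * (u n : ZMod N)) := by
    intro j
    rw [← Finset.sum_fiberwise S (fun n => (u n : ZMod N))
      (fun n => c n * ZMod.stdAddChar (j * (u n : ZMod N)))]
    refine sum_congr rfl fun b _ => ?_
    rw [hf, Finset.sum_mul]
    refine sum_congr rfl fun n hn => ?_
    rw [(mem_filter.1 hn).2]
  have h3 : ∑ b, ‖f b‖ ^ 2 = ∑ n ∈ S, ‖c n‖ ^ 2 := by
    rw [← Finset.sum_fiberwise S (fun n => (u n : ZMod N)) (fun n => ‖c n‖ ^ 2)]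
    refine sum_congr rfl fun b _ => ?_
    simp only [hf]
    have hcard : (S.filter (fun n => (u n : ZMod N) = b)).card ≤ 1 := by
      rw [Finset.card_le_one]
      intro n hn m hm
      rw [mem_filter] at hn hm
      exact key n hn.1 m hm.1 (hn.2.trans hm.2.symm)
    rcases Nat.le_one_iff_eq_zero_or_eq_one.1 hcard with h0 | h0
    · rw [Finset.card_eq_zero] at h0
      simp [h0]
    · obtain ⟨n, hn⟩ := Finset.card_eq_one.1 h0
      simp [hn]
  rw [h3] at h1
  rw [← h1, ← circ_sum_range]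
  refine sum_congr rfl fun j _ => ?_
  rw [h2]
  congr 2
  refine sum_congr rfl fun n _ => ?_
  rw [gaussLS_e, mul_comm ((u n : ZMod N)) _]

/-- the sum over a class -/
noncomputable def circS (q x : ℕ) (f : ℕ → ℂ) (α : ℝ) (a : ℕ) : ℂ :=
  ∑ n ∈ (Icc 1 x).filter (fun n => n % q = a), f n * e (n * α)

theorem circ_neg_mod {q : ℕ} (_hq : 1 ≤ q) {a : ℕ} (ha : a < q) (n : ℕ) :
    q ∣ a + n ↔ n % q = (q - a) % q := by
  constructor
  · intro h
    have h1 : a + n ≡ a + (q - a) [MOD q] := by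
      rw [Nat.add_sub_cancel' ha.le]
      exact ((Nat.modEq_zero_iff_dvd.2 h).trans (Nat.modEq_zero_iff_dvd.2 dvd_rfl).symm)
    exact Nat.ModEq.add_left_cancel' a h1
  · intro h
    have h1 : a + n ≡ a + (q - a) [MOD q] := Nat.ModEq.add_left a h
    rw [Nat.add_sub_cancel' ha.le] at h1
    exact Nat.modEq_zero_iff_dvd.1 (h1.trans (Nat.modEq_zero_iff_dvd.2 dvd_rfl))

theorem circ_pairs (q x : ℕ) (hq : 1 ≤ q) (h g : ℕ → ℂ) (α : ℝ) :
    ∑ p ∈ ((Icc 1 x) ×ˢ (Icc 1 x)).filter (fun p => q ∣ p.1 + p.2),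
      h p.1 * g p.2 * e (((p.1 + p.2 : ℕ) : ℝ) * α) =
    ∑ a ∈ range q, circS q x h α a * circS q x g α ((q - a) % q) := by
  rw [← Finset.sum_fiberwise_of_maps_to (s := ((Icc 1 x) ×ˢ (Icc 1 x)).filter
    (fun p => q ∣ p.1 + p.2)) (t := range q) (g := fun p => p.1 % q)
    (fun p _ => mem_range.2 (Nat.mod_lt _ (by omega)))]
  refine sum_congr rfl fun a ha => ?_
  rw [mem_range] at ha
  unfold circS
  rw [Finset.sum_mul_sum, ← Finset.sum_product']
  refine sum_congr ?_ ?_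
  · ext p
    simp only [mem_filter, mem_product]
    constructor
    · rintro ⟨⟨⟨h1, h2⟩, h3⟩, h4⟩
      refine ⟨⟨h1, h4⟩, h2, ?_⟩
      rw [← circ_neg_mod hq ha, ← h4]
      have : (p.1 % q + p.2) % q = 0 := by
        rw [Nat.mod_add_mod]; exact Nat.mod_eq_zero_of_dvd h3
      exact Nat.dvd_of_mod_eq_zero this
    · rintro ⟨⟨h1, h4⟩, h2, h5⟩
      refine ⟨⟨⟨h1, h2⟩, ?_⟩, h4⟩
      rw [← circ_neg_mod hq ha, ← h4] at h5
      have : (p.1 % q + p.2) % q = 0 := Nat.mod_eq_zero_of_dvd h5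
      rw [Nat.mod_add_mod] at this
      exact Nat.dvd_of_mod_eq_zero this
  · intro p _
    have : (((p.1 + p.2 : ℕ) : ℝ) * α) = (p.1 : ℝ) * α + (p.2 : ℝ) * α := by push_cast; ring
    rw [this, add_e_add]
    ring

theorem circ_perm (q : ℕ) (hq : 1 ≤ q) (F : ℕ → ℝ) :
    ∑ a ∈ range q, F ((q - a) % q) = ∑ a ∈ range q, F a := by
  have hinv : ∀ a < q, (q - (q - a) % q) % q = a := by
    intro a ha
    rcases Nat.eq_zero_or_pos a with h0 | h0
    · subst h0; simp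
    · rw [Nat.mod_eq_of_lt (by omega : q - a < q)]
      rw [Nat.mod_eq_of_lt (by omega : q - (q - a) < q)]
      omega
  refine Finset.sum_nbij' (fun a => (q - a) % q) (fun a => (q - a) % q) ?_ ?_ ?_ ?_ ?_
  · intro a _; exact mem_range.2 (Nat.mod_lt _ (by omega))
  · intro a _; exact mem_range.2 (Nat.mod_lt _ (by omega))
  · intro a ha; exact hinv a (mem_range.1 ha)
  · intro a ha; exact hinv a (mem_range.1 ha)
  · intro a _; rfl

theorem circ_cauchy (q x : ℕ) (hq : 1 ≤ q) (h g : ℕ → ℂ) (α : ℝ) :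
    ‖∑ a ∈ range q, circS q x h α a * circS q x g α ((q - a) % q)‖ ^ 2 ≤
      VV q x h α * VV q x g α := by
  have h1 : ‖∑ a ∈ range q, circS q x h α a * circS q x g α ((q - a) % q)‖ ≤
      ∑ a ∈ range q, ‖circS q x h α a‖ * ‖circS q x g α ((q - a) % q)‖ := by
    refine (norm_sum_le _ _).trans (le_of_eq ?_)
    exact sum_congr rfl fun a _ => norm_mul _ _
  calc _ ≤ (∑ a ∈ range q, ‖circS q x h α a‖ * ‖circS q x g α ((q - a) % q)‖) ^ 2 :=
        pow_le_pow_left₀ (norm_nonneg _) h1 2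
    _ ≤ (∑ a ∈ range q, ‖circS q x h α a‖ ^ 2) *
          ∑ a ∈ range q, ‖circS q x g α ((q - a) % q)‖ ^ 2 :=
        Finset.sum_mul_sq_le_sq_mul_sq _ _ _
    _ = _ := by
        rw [circ_perm q hq (fun a => ‖circS q x g α a‖ ^ 2)]
        rfl

/-- the mean value of `VV` over the points `j / (q N)` -/
theorem circ_mean (q x N : ℕ) (hq : 1 ≤ q) [NeZero N] (hN : x < N) (g : ℕ → ℂ) :
    ∑ j ∈ range N, VV q x g (((j : ℝ) / N) / q) = N * ∑ n ∈ Icc 1 x, ‖g n‖ ^ 2 := by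
  unfold VV
  rw [sum_comm, ← Finset.sum_fiberwise_of_maps_to (s := Icc 1 x) (t := range q)
    (g := fun n => n % q) (fun n _ => mem_range.2 (Nat.mod_lt _ (by omega))), mul_sum]
  refine sum_congr rfl fun a _ => ?_
  rw [← circ_parseval ((Icc 1 x).filter (fun n => n % q = a)) (fun n => n / q) ?_ ?_ g]
  · refine sum_congr rfl fun j _ => ?_
    congr 1
    have hq0 : (q : ℝ) ≠ 0 := by positivity
    have h1 : ∑ n ∈ (Icc 1 x).filter (fun n => n % q = a), g n * e (n * (((j : ℝ) / N) / q)) =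
        (∑ n ∈ (Icc 1 x).filter (fun n => n % q = a), g n * e (((n / q : ℕ) : ℝ) *
          ((j : ℝ) / N))) * e (a * (((j : ℝ) / N) / q)) := by
      rw [sum_mul]
      refine sum_congr rfl fun n hn => ?_
      have hn2 := (mem_filter.1 hn).2
      have h3 : (n : ℝ) = ((n / q : ℕ) : ℝ) * q + a := by
        have := Nat.div_add_mod n q
        rw [hn2] at this
        have h4 : ((q * (n / q) + a : ℕ) : ℝ) = (n : ℝ) := by rw [this]
        push_cast at h4
        linarith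
      have h5 : (n : ℝ) * (((j : ℝ) / N) / q) =
          ((n / q : ℕ) : ℝ) * ((j : ℝ) / N) + a * (((j : ℝ) / N) / q) := by
        rw [h3]
        generalize ((n / q : ℕ) : ℝ) = y
        field_simp
      rw [h5, add_e_add, mul_assoc]
    rw [h1, norm_mul]
    have h6 : ‖e (a * (((j : ℝ) / N) / q))‖ = 1 := by
      have h7 : e (a * (((j : ℝ) / N) / q)) =
          Complex.exp ((2 * Real.pi * (a * (((j : ℝ) / N) / q)) : ℝ) * Complex.I) := by
        unfold e; push_cast; rfl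
      rw [h7, Complex.norm_exp_ofReal_mul_I]
    rw [h6, mul_one]
  · intro n hn
    have := (mem_Icc.1 (mem_filter.1 hn).1).2
    have h2 := Nat.div_le_self n q
    omega
  · intro n hn m hm hnm
    have h1 := Nat.div_add_mod n q
    have h2 := Nat.div_add_mod m q
    rw [(mem_filter.1 hn).2] at h1
    rw [(mem_filter.1 hm).2] at h2
    rw [hnm] at h1
    omega

/-- the coefficient `R(k)` -/
noncomputable def circR (q x : ℕ) (h g : ℕ → ℂ) (k : ℕ) : ℂ :=
  ∑ p ∈ (((Icc 1 x) ×ˢ (Icc 1 x)).filter (fun p => q ∣ p.1 + p.2)).filter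
    (fun p => (p.1 + p.2) / q = k), h p.1 * g p.2

theorem circ_expand (q x N : ℕ) (hq : 1 ≤ q) [NeZero N] (hN : 2 * x < N) (h g : ℕ → ℂ) (j : ℕ) :
    ∑ k ∈ range N, circR q x h g k * e (k * ((j : ℝ) / N)) =
    ∑ a ∈ range q, circS q x h (((j : ℝ) / N) / q) a *
      circS q x g (((j : ℝ) / N) / q) ((q - a) % q) := by
  rw [← circ_pairs q x hq]
  have hmap : ∀ p ∈ ((Icc 1 x) ×ˢ (Icc 1 x)).filter (fun p => q ∣ p.1 + p.2),
      (p.1 + p.2) / q ∈ range N := by
    intro p hp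
    simp only [mem_filter, mem_product, mem_Icc] at hp
    have := Nat.div_le_self (p.1 + p.2) q
    rw [mem_range]
    omega
  rw [← Finset.sum_fiberwise_of_maps_to hmap]
  refine sum_congr rfl fun k _ => ?_
  unfold circR
  rw [sum_mul]
  refine sum_congr rfl fun p hp => ?_
  rw [mem_filter] at hp
  have h1 := (mem_filter.1 hp.1).2
  have h2 : p.1 + p.2 = q * k := by rw [← hp.2, Nat.mul_div_cancel' h1]
  rw [h2]
  congr 2
  have hq0 : (q : ℝ) ≠ 0 := by positivity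
  push_cast
  field_simp

theorem circR_eq (q x : ℕ) (hq : 1 ≤ q) (h g : ℕ → ℂ) (m : ℕ) (hm : q * m ≤ x) :
    circR q x h g m = cv h g (q * m) := by
  unfold circR cv
  refine Finset.sum_nbij' (fun p => p.1) (fun k => (k, q * m - k)) ?_ ?_ ?_ ?_ ?_
  · intro p hp
    simp only [mem_filter, mem_product, mem_Icc] at hp
    obtain ⟨⟨⟨⟨h1, h2⟩, h3, h4⟩, h5⟩, h6⟩ := hp
    have h7 : p.1 + p.2 = q * m := by rw [← h6, Nat.mul_div_cancel' h5]
    rw [mem_Ico]
    omega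
  · intro k hk
    rw [mem_Ico] at hk
    have h1 : k + (q * m - k) = q * m := by omega
    simp only [mem_filter, mem_product, mem_Icc, h1]
    refine ⟨⟨⟨⟨hk.1, by omega⟩, by omega, by omega⟩, dvd_mul_right _ _⟩, ?_⟩
    exact Nat.mul_div_cancel_left m (by omega)
  · intro p hp
    simp only [mem_filter, mem_product, mem_Icc] at hp
    obtain ⟨⟨⟨⟨h1, h2⟩, h3, h4⟩, h5⟩, h6⟩ := hp
    have h7 : p.1 + p.2 = q * m := by rw [← h6, Nat.mul_div_cancel' h5]
    ext
    · rfl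
    · simp only; omega
  · intro k _; rfl
  · intro p hp
    simp only [mem_filter, mem_product, mem_Icc] at hp
    obtain ⟨⟨⟨⟨h1, h2⟩, h3, h4⟩, h5⟩, h6⟩ := hp
    have h7 : p.1 + p.2 = q * m := by rw [← h6, Nat.mul_div_cancel' h5]
    have h8 : q * m - p.1 = p.2 := by omega
    simp only [h8]

theorem circle (q x : ℕ) (hq : 1 ≤ q) (h g : ℕ → ℂ) (K : ℝ) (hK : ∀ α, VV q x h α ≤ K) :
    ∑ m ∈ Icc 1 (x / q), ‖cv h g (q * m)‖ ^ 2 ≤ K * ∑ n ∈ Icc 1 x, ‖g n‖ ^ 2 := by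
  have hNe : NeZero (2 * x + 1) := ⟨by omega⟩
  set N := 2 * x + 1 with hN
  have h1 : ∑ m ∈ Icc 1 (x / q), ‖cv h g (q * m)‖ ^ 2 ≤ ∑ k ∈ range N, ‖circR q x h g k‖ ^ 2 := by
    have h2 : ∑ m ∈ Icc 1 (x / q), ‖cv h g (q * m)‖ ^ 2 =
        ∑ m ∈ Icc 1 (x / q), ‖circR q x h g m‖ ^ 2 := by
      refine sum_congr rfl fun m hm => ?_
      rw [circR_eq q x hq]
      have := (mem_Icc.1 hm).2
      calc q * m ≤ q * (x / q) := Nat.mul_le_mul_left q this
        _ ≤ x := Nat.mul_div_le x q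
    rw [h2]
    refine sum_le_sum_of_subset_of_nonneg ?_ (fun _ _ _ => by positivity)
    intro m hm
    have := (mem_Icc.1 hm).2
    have h3 := Nat.div_le_self x q
    rw [mem_range]
    omega
  have h4 := circ_parseval (N := N) (range N) (fun k => k) (fun n hn => mem_range.1 hn)
    (fun n _ m _ hnm => hnm) (circR q x h g)
  have h5 : ∑ j ∈ range N, ‖∑ n ∈ range N, circR q x h g n * e (n * ((j : ℝ) / N))‖ ^ 2 ≤
      K * (N * ∑ n ∈ Icc 1 x, ‖g n‖ ^ 2) := by
    rw [← circ_mean q x N hq (by omega) g, mul_sum]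
    refine sum_le_sum fun j _ => ?_
    rw [circ_expand q x N hq (by omega)]
    refine (circ_cauchy q x hq h g _).trans ?_
    exact mul_le_mul_of_nonneg_right (hK _) (sum_nonneg fun _ _ => by positivity)
  rw [h4] at h5
  have hN0 : (0 : ℝ) < N := by positivity
  have h6 : (N : ℝ) * ∑ k ∈ range N, ‖circR q x h g k‖ ^ 2 ≤
      N * (K * ∑ n ∈ Icc 1 x, ‖g n‖ ^ 2) := by
    calc _ ≤ _ := h5
      _ = _ := by ring
  exact h1.trans (le_of_mul_le_mul_left h6 hN0)

end Pool.Agent.HL
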