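import Mathlib
import Pool.Agent.Work.BV.Defs
import Pool.Agent.Work.BV.Additive
import Pool.Agent.Work.MP_92f640_nt.Defs

/-! # Half level: definitions

`e t = exp (2 π i t)` is from `BV.Defs`. All limits of summation are natural numbers. -/

namespace Pool.Agent.HL

open Finset Pool.Agent.BV
open scoped ArithmeticFunction.vonMangoldt ArithmeticFunction.Moebius

noncomputable section

/-- the von Mangoldt function on the integers coprime to `q` -/
def FL (q n : ℕ) : ℂ := if n.Coprime q then ((Λ n : ℝ) : ℂ) else 0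

/-- the Ramanujan sum `c_s(n)` -/
def ram (s n : ℕ) : ℂ := ∑ b ∈ (range s).filter (fun b => b.Coprime s), e (n * ((b : ℝ) / s))

/-- the model of the von Mangoldt function -/
def TM (q Q n : ℕ) : ℂ :=
  if n.Coprime q then ((q : ℂ) / (q.totient : ℂ)) *
    ∑ s ∈ (Icc 1 Q).filter (fun s => s.Coprime q), ((μ s : ℤ) : ℂ) / (s.totient : ℂ) * ram s n
  else 0

/-- the truncated singular series of `q m` -/
def Sg (q Q m : ℕ) : ℝ :=
  ∑ s ∈ (Icc 1 Q).filter (fun s => s.Coprime q),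
    ((μ s : ℤ) : ℝ) ^ 2 / (s.totient : ℝ) ^ 2 * (ram s (q * m)).re

/-- additive convolution -/
def cv (f g : ℕ → ℂ) (n : ℕ) : ℂ := ∑ k ∈ Ico 1 n, f k * g (n - k)

/-- the sum over residue classes `a` mod `q` of the square of the exponential sum of `f` over the
class -/
def VV (q x : ℕ) (f : ℕ → ℂ) (α : ℝ) : ℝ :=
  ∑ a ∈ range q, ‖∑ n ∈ (Icc 1 x).filter (fun n => n % q = a), f n * e (n * α)‖ ^ 2

/-- twists mod `q`: periodic, supported on the integers coprime to `q`, of `ℓ²` norm at most `1` -/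
structure Tw (q : ℕ) (φ : ℕ → ℂ) : Prop where
  per : ∀ n, φ n = φ (n % q)
  cop : ∀ n, ¬ n.Coprime q → φ n = 0
  l2 : ∑ a ∈ range q, ‖φ a‖ ^ 2 ≤ 1

/-- bound for geometric sums with `Y` terms and ratio `e β` -/
def gm (Y β : ℝ) : ℝ := if 2 * Y * |β - round β| ≤ 1 then Y else 1 / (2 * |β - round β|)

/-- the geometric grid -/
def gr (η : ℝ) (i : ℕ) : ℕ := ⌊(1 + η) ^ i⌋₊

/-- a character is bad if one of its prime sums up to a grid point in `[lo, x]` is large -/
def BadC (x lo : ℝ) (B8 B9 : ℕ) {r : ℕ} (χ : DirichletCharacter ℂ r) : Prop :=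
  ∃ i : ℕ, lo ≤ gr (1 / (Real.log x) ^ B8) i ∧ (gr (1 / (Real.log x) ^ B8) i : ℝ) ≤ x ∧
    (gr (1 / (Real.log x) ^ B8) i : ℝ) / (Real.log x) ^ B9 <
      ‖psiC χ (gr (1 / (Real.log x) ^ B8) i)‖

/-- `q` is good: no bad character of conductor `> R0` and conductor dividing `q s`, `s ≤ S1` -/
def Good (x lo R0 S1 : ℝ) (B8 B9 q : ℕ) : Prop :=
  ∀ s : ℕ, 1 ≤ s → (s : ℝ) ≤ S1 → ∀ r : ℕ, r ∣ q * s → R0 < r → ∀ χ ∈ prim r, ¬ BadC x lo B8 B9 χ

/-- the difference between the primes and the model, in a residue class -/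
def EE (q Q s c y : ℕ) : ℂ :=
  ∑ n ∈ (Icc 1 y).filter (fun n => n ≡ c [MOD q * s]), (FL q n - TM q Q n)

end

end Pool.Agent.HL
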