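import Pool.Agent.Work.MP_92f640_nt.HL.Defs

/-! # Module Dual

Let `F a = ∑_{n ≤ x, n % q = a} f n e(n α)`, `V = ∑_a ‖F a‖²`. If `V = 0` done; otherwise
`φ n = conj (F (n % q)) / √V` (and `F a = 0` for `a` not coprime to `q`, because `n % q = a` then
`n.Coprime q ↔ a.Coprime q`). The sum in `h` is `√V`. -/

namespace Pool.Agent.HL

open Finset Pool.Agent.BV

theorem VV_nonneg (q x : ℕ) (f : ℕ → ℂ) (α : ℝ) : 0 ≤ VV q x f α :=
  Finset.sum_nonneg fun _ _ => by positivity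

theorem VV_le (q x : ℕ) (hq : 1 ≤ q) (f : ℕ → ℂ) (hf : ∀ n, ¬ n.Coprime q → f n = 0) (α K : ℝ)
    (hK : 0 ≤ K) (h : ∀ φ, Tw q φ → ‖∑ n ∈ Icc 1 x, f n * φ n * e (n * α)‖ ≤ K) :
    VV q x f α ≤ K ^ 2 := by
  set F : ℕ → ℂ := fun a => ∑ n ∈ (Icc 1 x).filter (fun n => n % q = a), f n * e (n * α) with hF
  set V := VV q x f α with hV
  have hVF : V = ∑ a ∈ range q, ‖F a‖ ^ 2 := rfl
  have hV0 : 0 ≤ V := VV_nonneg q x f α
  rcases hV0.eq_or_lt with h0 | hpos
  · rw [← h0]; positivity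
  have hs : 0 < Real.sqrt V := Real.sqrt_pos.2 hpos
  have hsc : ((Real.sqrt V : ℝ) : ℂ) ≠ 0 := by exact_mod_cast hs.ne'
  have hss : Real.sqrt V * Real.sqrt V = V := Real.mul_self_sqrt hV0
  set φ : ℕ → ℂ := fun n => (starRingEnd ℂ) (F (n % q)) / (Real.sqrt V : ℂ) with hφ
  have hTw : Tw q φ := by
    refine ⟨?_, ?_, ?_⟩
    · intro n
      simp only [hφ, Nat.mod_mod]
    · intro n hn
      have : F (n % q) = 0 := by
        refine sum_eq_zero fun m hm => ?_
        have h1 := (mem_filter.1 hm).2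
        rw [hf m, zero_mul]
        intro h2
        apply hn
        have h3 : (m % q).Coprime q := by
          rw [Nat.Coprime, ← Nat.gcd_rec]
          exact (Nat.coprime_comm.1 h2)
        rw [h1] at h3
        rw [Nat.Coprime, ← Nat.gcd_rec] at h3
        exact Nat.coprime_comm.1 h3
      simp only [hφ, this, map_zero, zero_div]
    · have h1 : ∀ a ∈ range q, ‖φ a‖ ^ 2 = ‖F a‖ ^ 2 / V := by
        intro a ha
        simp only [hφ, Nat.mod_eq_of_lt (mem_range.1 ha), norm_div, RCLike.norm_conj,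
          Complex.norm_real, Real.norm_eq_abs, abs_of_pos hs, div_pow]
        rw [sq (Real.sqrt V), hss]
      rw [sum_congr rfl h1, ← sum_div, ← hVF, div_self hpos.ne']
  have h1 := h φ hTw
  have h2 : ∑ n ∈ Icc 1 x, f n * φ n * e (n * α) = ((Real.sqrt V : ℝ) : ℂ) := by
    rw [← Finset.sum_fiberwise_of_maps_to (s := Icc 1 x) (t := range q)
      (g := fun n => n % q) (fun n _ => mem_range.2 (Nat.mod_lt _ (by omega)))]
    have h3 : ∀ a ∈ range q, ∑ n ∈ (Icc 1 x).filter (fun n => n % q = a),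
        f n * φ n * e (n * α) = ((‖F a‖ ^ 2 : ℝ) : ℂ) / (Real.sqrt V : ℂ) := by
      intro a _
      have h4 : ∀ n ∈ (Icc 1 x).filter (fun n => n % q = a), f n * φ n * e (n * α) =
          (f n * e (n * α)) * ((starRingEnd ℂ) (F a) / (Real.sqrt V : ℂ)) := by
        intro n hn
        simp only [hφ, (mem_filter.1 hn).2]
        ring
      rw [sum_congr rfl h4, ← sum_mul]
      have h5 : ((‖F a‖ ^ 2 : ℝ) : ℂ) = F a * (starRingEnd ℂ) (F a) := by
        rw [Complex.mul_conj, Complex.normSq_eq_norm_sq]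
      rw [h5, mul_div_assoc]
    rw [sum_congr rfl h3, ← sum_div, ← Complex.ofReal_sum, ← hVF, div_eq_iff hsc]
    rw [← Complex.ofReal_mul, hss]
  rw [h2, Complex.norm_real, Real.norm_eq_abs, abs_of_pos hs] at h1
  calc V = Real.sqrt V ^ 2 := by rw [sq, hss]
    _ ≤ K ^ 2 := pow_le_pow_left₀ hs.le h1 2

theorem VV_sub_le (q x : ℕ) (f g : ℕ → ℂ) (α : ℝ) :
    VV q x (fun n => f n - g n) α ≤ 2 * VV q x f α + 2 * VV q x g α := by
  unfold VV
  rw [mul_sum, mul_sum, ← sum_add_distrib]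
  refine sum_le_sum fun a _ => ?_
  have h1 : ∑ n ∈ (Icc 1 x).filter (fun n => n % q = a), (f n - g n) * e (n * α) =
      (∑ n ∈ (Icc 1 x).filter (fun n => n % q = a), f n * e (n * α)) -
      ∑ n ∈ (Icc 1 x).filter (fun n => n % q = a), g n * e (n * α) := by
    rw [← sum_sub_distrib]
    exact sum_congr rfl fun n _ => sub_mul _ _ _
  rw [h1]
  have h2 := norm_sub_le (∑ n ∈ (Icc 1 x).filter (fun n => n % q = a), f n * e (n * α))
    (∑ n ∈ (Icc 1 x).filter (fun n => n % q = a), g n * e (n * α))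
  have h3 := pow_le_pow_left₀ (norm_nonneg _) h2 2
  nlinarith [sq_nonneg (‖∑ n ∈ (Icc 1 x).filter (fun n => n % q = a), f n * e (n * α)‖ -
    ‖∑ n ∈ (Icc 1 x).filter (fun n => n % q = a), g n * e (n * α)‖)]

end Pool.Agent.HL
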