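import Pool.Agent.Work.MP_92f640_nt.HL.Defs
import Pool.Agent.Work.BV.Farey
import Pool.Agent.Work.BV.DivSum

/-! # Module TL2

`dual_large_sieve` for the points `b/s`, `s ≤ Q` coprime to `q` (spacing `1/(Q² + 1)`, see
`farey_spacing`), coefficients `(q/φ(q)) μ(s)/φ(s)`:
`∑_{n ≤ x} ‖TM‖² ≤ 10 (x + Q² + 1) (q/φ(q))² ∑_{s ≤ Q} 1/φ(s)`; `sum_inv_totient` (for `3 ≤ x`, extend the sum to
`s ≤ x`), and `q/φ(q) ≤ 2 (1 + log q)` from `DivSum_totient`. -/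

namespace Pool.Agent.HL

open Finset Pool.Agent.BV
open scoped ArithmeticFunction.vonMangoldt ArithmeticFunction.Moebius

theorem ratio_le (q : ℕ) (hq : 1 ≤ q) : (q : ℝ) / q.totient ≤ 2 * (1 + Real.log q) := by
  have hq0 : (0 : ℝ) < q := by exact_mod_cast hq
  have h1 := DivSum_totient q (by omega)
  have h2 : ∑ d ∈ q.divisors, ((d : ℝ))⁻¹ ≤ ∑ i ∈ Icc 1 q, ((i : ℝ))⁻¹ := by
    apply sum_le_sum_of_subset_of_nonneg
    · intro d hd
      exact mem_Icc.mpr ⟨Nat.pos_of_mem_divisors hd, Nat.divisor_le hd⟩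
    · intros; positivity
  have h3 := DivSum_H q
  calc (q : ℝ) / q.totient = q * (1 / q.totient) := by ring
    _ ≤ q * (2 * ((q : ℝ))⁻¹ * ∑ d ∈ q.divisors, ((d : ℝ))⁻¹) :=
        mul_le_mul_of_nonneg_left h1 hq0.le
    _ = 2 * ∑ d ∈ q.divisors, ((d : ℝ))⁻¹ := by field_simp
    _ ≤ 2 * (1 + Real.log q) := by linarith

/-- the points `b/s`, `s ≤ Q` coprime to `q` -/
def TL2_S (q Q : ℕ) : Finset (Σ _ : ℕ, ℕ) :=
  ((Icc 1 Q).filter (fun s => s.Coprime q)).sigma (fun s => (range s).filter (fun b => b.Coprime s))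

/-- the coefficients -/
noncomputable def TL2_c (q : ℕ) (p : Σ _ : ℕ, ℕ) : ℂ :=
  ((q : ℂ) / (q.totient : ℂ)) * (((μ p.1 : ℤ) : ℂ) / (p.1.totient : ℂ))

lemma TL2_eq (q Q n : ℕ) (h : n.Coprime q) :
    TM q Q n = ∑ p ∈ TL2_S q Q, TL2_c q p * e (n * ((p.2 : ℝ) / p.1)) := by
  rw [TM, if_pos h, TL2_S, sum_sigma, mul_sum]
  refine sum_congr rfl fun s _ => ?_
  rw [ram, mul_sum, mul_sum]
  refine sum_congr rfl fun b _ => ?_
  simp only [TL2_c]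
  ring

lemma TL2_coef (q Q : ℕ) : ∑ p ∈ TL2_S q Q, ‖TL2_c q p‖ ^ 2 ≤
    ((q : ℝ) / q.totient) ^ 2 * ∑ s ∈ Icc 1 Q, (1 : ℝ) / s.totient := by
  rw [TL2_S, sum_sigma, mul_sum]
  refine (sum_le_sum_of_subset_of_nonneg (filter_subset _ _)
    (fun _ _ _ => by positivity)).trans ?_
  refine sum_le_sum fun s hs => ?_
  have hs1 : 0 < s := (mem_Icc.mp hs).1
  have hφ : (0 : ℝ) < s.totient := by exact_mod_cast Nat.totient_pos.2 hs1
  have hc : ((range s).filter (fun b => b.Coprime s)).card = s.totient := by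
    rw [Nat.totient_eq_card_coprime]
    congr 1
    ext b
    simp only [mem_filter, mem_range, Nat.coprime_comm]
  have hμ : ‖((μ s : ℤ) : ℂ)‖ ≤ 1 := by
    have h1 := ArithmeticFunction.abs_moebius_le_one (n := s)
    have h2 : ‖((μ s : ℤ) : ℂ)‖ = ((|μ s| : ℤ) : ℝ) := by
      rw [Complex.norm_intCast]
      push_cast
      rfl
    rw [h2]
    exact_mod_cast h1
  simp only [TL2_c]
  rw [sum_const, hc, nsmul_eq_mul, norm_mul, norm_div, norm_div, Complex.norm_natCast,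
    Complex.norm_natCast, Complex.norm_natCast, mul_pow, div_pow ‖((μ s : ℤ) : ℂ)‖]
  have h2 : ‖((μ s : ℤ) : ℂ)‖ ^ 2 ≤ 1 := by
    have := pow_le_pow_left₀ (norm_nonneg _) hμ 2
    simpa using this
  calc (s.totient : ℝ) * (((q : ℝ) / q.totient) ^ 2 *
        (‖((μ s : ℤ) : ℂ)‖ ^ 2 / (s.totient : ℝ) ^ 2))
      ≤ (s.totient : ℝ) * (((q : ℝ) / q.totient) ^ 2 * (1 / (s.totient : ℝ) ^ 2)) := by
        gcongr
    _ = _ := by field_simp

theorem T_l2 : ∃ C : ℝ, 0 < C ∧ ∀ x q Q : ℕ, 3 ≤ x → 1 ≤ q → q ≤ x → 1 ≤ Q → Q ^ 2 ≤ x →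
    ∑ n ∈ Icc 1 x, ‖TM q Q n‖ ^ 2 ≤ C * x * (Real.log x) ^ 3 := by
  obtain ⟨C, hC, hsum⟩ := sum_inv_totient
  refine ⟨480 * C, by positivity, ?_⟩
  intro x q Q hx hq hqx hQ hQx
  have hl := DivSum_log x hx
  have hx1 : (1 : ℝ) ≤ x := by exact_mod_cast (by omega : 1 ≤ x)
  have hQ1 : (1 : ℝ) ≤ Q := by exact_mod_cast hQ
  have hQ2 : ((Q : ℝ)) ^ 2 ≤ x := by exact_mod_cast hQx
  have hQle : Q ≤ x := le_trans (Nat.le_self_pow (by norm_num) Q) hQx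
  have hIcc : Icc 1 x = Ioc 0 (0 + x) := by
    ext; simp only [mem_Icc, mem_Ioc]; omega
  have h1 : ∑ n ∈ Icc 1 x, ‖TM q Q n‖ ^ 2 ≤
      ∑ n ∈ Ioc 0 (0 + x), ‖∑ p ∈ TL2_S q Q, TL2_c q p * e (n * ((p.2 : ℝ) / p.1))‖ ^ 2 := by
    rw [hIcc]
    refine sum_le_sum fun n _ => ?_
    by_cases h : n.Coprime q
    · rw [TL2_eq q Q n h]
    · rw [TM, if_neg h]
      simp
  have hδ : (0 : ℝ) < 1 / ((Q : ℝ) ^ 2 + 1) := by positivity
  have hδ1 : (1 : ℝ) / ((Q : ℝ) ^ 2 + 1) ≤ 1 / 2 := by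
    apply one_div_le_one_div_of_le (by norm_num)
    nlinarith
  have h2 := dual_large_sieve (TL2_S q Q) (fun p => (p.2 : ℝ) / p.1) (1 / ((Q : ℝ) ^ 2 + 1)) hδ hδ1
    (by
      intro r hr s hs hrs k
      rw [TL2_S, mem_sigma, mem_filter] at hr hs
      refine farey_spacing hr.1.1 hs.1.1 hr.2 hs.2 ?_ k
      rintro ⟨h3, h4⟩
      apply hrs
      obtain ⟨a, b⟩ := r
      obtain ⟨c, d⟩ := s
      simp only at h3 h4
      subst h3
      subst h4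
      rfl) 0 x (TL2_c q)
  have h3 := TL2_coef q Q
  have h4 : ∑ s ∈ Icc 1 Q, (1 : ℝ) / s.totient ≤ C * Real.log x :=
    (sum_le_sum_of_subset_of_nonneg (Icc_subset_Icc_right hQle)
      (fun _ _ _ => by positivity)).trans (hsum x hx)
  have h5 : (q : ℝ) / q.totient ≤ 4 * Real.log x := by
    have h6 := ratio_le q hq
    have h7 : Real.log q ≤ Real.log x :=
      Real.log_le_log (by exact_mod_cast hq) (by exact_mod_cast hqx)
    linarith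
  have h6 : ((q : ℝ) / q.totient) ^ 2 ≤ (4 * Real.log x) ^ 2 :=
    pow_le_pow_left₀ (by positivity) h5 2
  have h7 : ((q : ℝ) / q.totient) ^ 2 * ∑ s ∈ Icc 1 Q, (1 : ℝ) / s.totient ≤
      (4 * Real.log x) ^ 2 * (C * Real.log x) :=
    mul_le_mul h6 h4 (by positivity) (by positivity)
  have h8 : (10 : ℝ) * (x + 1 / (1 / ((Q : ℝ) ^ 2 + 1))) ≤ 30 * x := by
    rw [one_div_one_div]
    linarith
  refine h1.trans (h2.trans ?_)
  calc (10 : ℝ) * (x + 1 / (1 / ((Q : ℝ) ^ 2 + 1))) * ∑ p ∈ TL2_S q Q, ‖TL2_c q p‖ ^ 2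
      ≤ 30 * x * ((4 * Real.log x) ^ 2 * (C * Real.log x)) :=
        mul_le_mul h8 (h3.trans h7) (by positivity) (by positivity)
    _ = _ := by ring

end Pool.Agent.HL
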