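import Pool.Agent.Work.MP_92f640_nt.HL.TClass
import Pool.Agent.Work.MP_92f640_nt.HL.TL2
import Pool.Agent.Work.BV.DivSum

/-! # Module EEVar

`c` not coprime to `q`: `EE = 0` (`FL` and `TM` vanish). `c` coprime to `q s`: `EE q Q s c y` is
`psiA (q s) c y - y/φ(q s)` up to `4 (q/φ(q)) Q²` (`T_class`). `c` coprime to `q`, not to `s`: the `FL`-part is a sum of
`Λ(n)` over `n` not coprime to `q s`, total over `c` at most `2 (log x)²` (`coprime_defect`), the `TM`-part is
`≤ 4 (q/φ(q)) Q²` (`T_class`). -/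

namespace Pool.Agent.HL

open Finset Pool.Agent.BV
open scoped ArithmeticFunction.vonMangoldt

private lemma eevar_cop {q s c n : ℕ} (h : n ≡ c [MOD q * s]) : n.Coprime q ↔ c.Coprime q := by
  have h1 : n ≡ c [MOD q] := h.of_mul_right s
  unfold Nat.Coprime
  rw [Nat.gcd_comm n q, Nat.gcd_comm c q, Nat.gcd_rec q n, Nat.gcd_rec q c, h1]

private lemma eevar_cop' {m c n : ℕ} (h : n ≡ c [MOD m]) : n.Coprime m ↔ c.Coprime m := by
  unfold Nat.Coprime
  rw [Nat.gcd_comm n m, Nat.gcd_comm c m, Nat.gcd_rec m n, Nat.gcd_rec m c, h]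

private lemma eevar_FL {q s c y : ℕ} (hc : c.Coprime q) :
    ∑ n ∈ (Icc 1 y).filter (fun n => n ≡ c [MOD q * s]), FL q n =
      ((psiA (q * s) c y : ℝ) : ℂ) := by
  unfold psiA
  rw [Complex.ofReal_sum]
  refine Finset.sum_congr rfl fun n hn => ?_
  rw [mem_filter] at hn
  rw [FL, if_pos ((eevar_cop hn.2).2 hc)]

private lemma eevar_zero {q Q s c y : ℕ} (hc : ¬ c.Coprime q) : EE q Q s c y = 0 := by
  unfold EE
  refine Finset.sum_eq_zero fun n hn => ?_
  rw [mem_filter] at hn
  have : ¬ n.Coprime q := fun h => hc ((eevar_cop hn.2).1 h)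
  rw [FL, TM, if_neg this, if_neg this, sub_zero]

private lemma eevar_psiA_nonneg (m c y : ℕ) : 0 ≤ psiA m c y :=
  Finset.sum_nonneg fun _ _ => ArithmeticFunction.vonMangoldt_nonneg

theorem ee_var (x q Q s y : ℕ) (hx : 3 ≤ x) (hq : 1 ≤ q) (hs : 1 ≤ s) (hsQ : s ≤ Q)
    (hqs : q * s ≤ x) (hy : y ≤ x) :
    ∑ c ∈ range (q * s), ‖EE q Q s c y‖ ^ 2 ≤
      2 * ∑ c ∈ (range (q * s)).filter (fun c => c.Coprime (q * s)),
        |psiA (q * s) c y - (y : ℝ) / (q * s).totient| ^ 2 +
      8 * (Real.log x) ^ 4 + 32 * ((q * s : ℕ) : ℝ) * ((q : ℝ) / q.totient) ^ 2 * (Q : ℝ) ^ 4 := by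
  have hm : 0 < q * s := Nat.mul_pos hq hs
  set R : ℝ := ((q : ℝ) / q.totient) ^ 2 * (Q : ℝ) ^ 4 with hR
  set T : ℝ := 4 * ((q : ℝ) / q.totient) * (Q : ℝ) ^ 2 with hT
  have hT0 : 0 ≤ T := by positivity
  have hTR : 2 * T ^ 2 = 32 * R := by rw [hT, hR]; ring
  set V : ℕ → ℝ := fun c => if c.Coprime (q * s) then
    |psiA (q * s) c y - (y : ℝ) / (q * s).totient| ^ 2 else 0 with hV
  set D : ℕ → ℝ := fun c => if ¬ c.Coprime (q * s) then psiA (q * s) c y else 0 with hD
  have hD0 : ∀ c, 0 ≤ D c := by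
    intro c
    rw [hD]
    simp only
    split_ifs
    · exact le_rfl
    · exact eevar_psiA_nonneg _ _ _
  have key : ∀ c, ‖EE q Q s c y‖ ^ 2 ≤ 2 * V c + 2 * D c ^ 2 + 32 * R := by
    intro c
    by_cases hc : c.Coprime q
    · have h1 : EE q Q s c y = ((psiA (q * s) c y : ℝ) : ℂ) -
          ∑ n ∈ (Icc 1 y).filter (fun n => n ≡ c [MOD q * s]), TM q Q n := by
        rw [EE, Finset.sum_sub_distrib, eevar_FL hc]
      have h2 := T_class q Q s c y hq hs hsQ hc
      rw [← hT] at h2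
      by_cases hc' : c.Coprime (q * s)
      · rw [if_pos hc'] at h2
        have h3 : EE q Q s c y = ((psiA (q * s) c y - (y : ℝ) / (q * s).totient : ℝ) : ℂ) -
            (∑ n ∈ (Icc 1 y).filter (fun n => n ≡ c [MOD q * s]), TM q Q n -
              (y : ℂ) / ((q * s).totient : ℂ)) := by
          rw [h1]
          push_cast
          ring
        have h4 : ‖EE q Q s c y‖ ≤ |psiA (q * s) c y - (y : ℝ) / (q * s).totient| + T := by
          rw [h3]
          refine (norm_sub_le _ _).trans (add_le_add ?_ h2)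
          rw [Complex.norm_real, Real.norm_eq_abs]
        have hVc : V c = |psiA (q * s) c y - (y : ℝ) / (q * s).totient| ^ 2 := by
          rw [hV]; simp only; rw [if_pos hc']
        calc ‖EE q Q s c y‖ ^ 2 ≤ (|psiA (q * s) c y - (y : ℝ) / (q * s).totient| + T) ^ 2 := by
              gcongr
          _ ≤ 2 * (|psiA (q * s) c y - (y : ℝ) / (q * s).totient| ^ 2 + T ^ 2) := add_sq_le
          _ = 2 * V c + 32 * R := by rw [hVc, mul_add, hTR]
          _ ≤ _ := by have := sq_nonneg (D c); linarith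
      · rw [if_neg hc', sub_zero] at h2
        have h4 : ‖EE q Q s c y‖ ≤ psiA (q * s) c y + T := by
          rw [h1]
          refine (norm_sub_le _ _).trans (add_le_add ?_ h2)
          rw [Complex.norm_real, Real.norm_eq_abs, abs_of_nonneg (eevar_psiA_nonneg _ _ _)]
        have hDc : D c = psiA (q * s) c y := by
          rw [hD]; simp only; rw [if_pos hc']
        have hVc : V c = 0 := by
          rw [hV]; simp only; rw [if_neg hc']
        calc ‖EE q Q s c y‖ ^ 2 ≤ (psiA (q * s) c y + T) ^ 2 := by gcongr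
          _ ≤ 2 * (psiA (q * s) c y ^ 2 + T ^ 2) := add_sq_le
          _ = 2 * V c + 2 * D c ^ 2 + 32 * R := by rw [hDc, hVc, mul_add, hTR]; ring
    · rw [eevar_zero hc, norm_zero]
      have h1 : 0 ≤ V c := by
        rw [hV]; simp only; split_ifs <;> positivity
      have h2 : 0 ≤ R := by positivity
      have h3 := sq_nonneg (D c)
      have : (0 : ℝ) ^ 2 = 0 := by norm_num
      linarith
  have hDsum : ∑ c ∈ range (q * s), D c ≤ 2 * (Real.log x) ^ 2 := by
    have h1 : ∑ c ∈ range (q * s), D c =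
        ∑ n ∈ (Icc 1 y).filter (fun n => ¬ n.Coprime (q * s)), (Λ n : ℝ) := by
      rw [hD]
      simp only
      rw [← Finset.sum_filter]
      have hmaps : ∀ n ∈ (Icc 1 y).filter (fun n => ¬ n.Coprime (q * s)),
          n % (q * s) ∈ (range (q * s)).filter (fun c => ¬ c.Coprime (q * s)) := by
        intro n hn
        rw [mem_filter] at hn ⊢
        refine ⟨mem_range.2 (Nat.mod_lt _ hm), fun h => hn.2 ?_⟩
        exact (eevar_cop' (Nat.mod_modEq n (q * s)).symm).2 h
      rw [← Finset.sum_fiberwise_of_maps_to hmaps]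
      refine Finset.sum_congr rfl fun c hc => ?_
      rw [mem_filter, mem_range] at hc
      unfold psiA
      refine Finset.sum_congr ?_ fun _ _ => rfl
      ext n
      simp only [mem_filter]
      constructor
      · rintro ⟨h1, h2⟩
        refine ⟨⟨h1, fun h => hc.2 ((eevar_cop' h2).1 h)⟩, ?_⟩
        rw [Nat.ModEq, Nat.mod_eq_of_lt hc.1] at h2
        exact h2
      · rintro ⟨⟨h1, _⟩, h3⟩
        refine ⟨h1, ?_⟩
        rw [Nat.ModEq, h3, Nat.mod_eq_of_lt hc.1]
    rw [h1]
    refine le_trans ?_ (coprime_defect (q * s) x hm hqs hx)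
    refine Finset.sum_le_sum_of_subset_of_nonneg ?_ fun _ _ _ =>
      ArithmeticFunction.vonMangoldt_nonneg
    exact Finset.filter_subset_filter _ (Finset.Icc_subset_Icc_right hy)
  have hD2 : ∑ c ∈ range (q * s), D c ^ 2 ≤ 4 * (Real.log x) ^ 4 := by
    calc ∑ c ∈ range (q * s), D c ^ 2 ≤ ∑ c ∈ range (q * s), D c * (2 * (Real.log x) ^ 2) := by
          refine Finset.sum_le_sum fun c hc => ?_
          rw [sq]
          refine mul_le_mul_of_nonneg_left ?_ (hD0 c)
          exact (Finset.single_le_sum (fun i _ => hD0 i) hc).trans hDsum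
      _ = (∑ c ∈ range (q * s), D c) * (2 * (Real.log x) ^ 2) := by rw [Finset.sum_mul]
      _ ≤ (2 * (Real.log x) ^ 2) * (2 * (Real.log x) ^ 2) := by gcongr
      _ = _ := by ring
  calc ∑ c ∈ range (q * s), ‖EE q Q s c y‖ ^ 2
      ≤ ∑ c ∈ range (q * s), (2 * V c + 2 * D c ^ 2 + 32 * R) :=
        Finset.sum_le_sum fun c _ => key c
    _ = 2 * ∑ c ∈ range (q * s), V c + 2 * ∑ c ∈ range (q * s), D c ^ 2 +
        ((q * s : ℕ) : ℝ) * (32 * R) := by
        rw [Finset.sum_add_distrib, Finset.sum_add_distrib, Finset.mul_sum, Finset.mul_sum,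
          Finset.sum_const, Finset.card_range, nsmul_eq_mul]
    _ ≤ 2 * ∑ c ∈ range (q * s), V c + 2 * (4 * (Real.log x) ^ 4) +
        ((q * s : ℕ) : ℝ) * (32 * R) := by gcongr
    _ = _ := by
        rw [hV, hR]
        simp only
        rw [← Finset.sum_filter]
        ring

end Pool.Agent.HL
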