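import Pool.Agent.Work.MP_92f640_nt.HL.Defs
import Pool.Agent.Work.BV.Primes

/-! # Module Evt: asymptotic comparison of powers of `log x` and of `x` (natural `x`) -/

namespace Pool.Agent.HL

open Filter Finset Pool.Agent.BV

/-- `log x ≥ M` eventually -/
theorem evt_log (M : ℝ) : ∀ᶠ x : ℕ in atTop, M ≤ Real.log x := by
  have h : Tendsto (fun x : ℕ => Real.log (x : ℝ)) atTop atTop :=
    Real.tendsto_log_atTop.comp tendsto_natCast_atTop_atTop
  exact h.eventually_ge_atTop M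

/-- `c (log x)^k ≤ x^δ` eventually -/
theorem evt_pow (c : ℝ) (k : ℕ) (δ : ℝ) (hδ : 0 < δ) :
    ∀ᶠ x : ℕ in atTop, c * (Real.log x) ^ k ≤ (x : ℝ) ^ δ := by
  obtain ⟨C, hC, h⟩ := primes_logpow k (δ / 2) (by linarith)
  have h2 : Tendsto (fun x : ℕ => ((x : ℝ)) ^ (δ / 2)) atTop atTop :=
    (tendsto_rpow_atTop (by linarith)).comp tendsto_natCast_atTop_atTop
  filter_upwards [h2.eventually_ge_atTop (|c| * C), eventually_ge_atTop 1] with x hx hx1
  have hx1' : (1 : ℝ) ≤ x := by exact_mod_cast hx1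
  have h3 := h x hx1'
  have h0 : 0 ≤ Real.log x := Real.log_natCast_nonneg x
  have hp : (0 : ℝ) ≤ (x : ℝ) ^ (δ / 2) := by positivity
  calc c * (Real.log x) ^ k ≤ |c| * (Real.log x) ^ k := by
        gcongr
        exact le_abs_self c
    _ ≤ |c| * (C * (x : ℝ) ^ (δ / 2)) := by gcongr
    _ = (|c| * C) * (x : ℝ) ^ (δ / 2) := by ring
    _ ≤ (x : ℝ) ^ (δ / 2) * (x : ℝ) ^ (δ / 2) := by gcongr
    _ = (x : ℝ) ^ δ := by
        rw [← Real.rpow_add (by linarith)]
        congr 1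
        ring

end Pool.Agent.HL
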