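import Pool.Agent.Work.MP_92f640_nt.HL.Defs

/-! # Module Major

`α = b/(q s) + θ/q`, `|θ| ≤ Θ`. In the class `a` mod `q` split `n` into the classes `c` mod `q s`,
`c % q = a` (`s` of them, Cauchy: factor `s`): `e(n α) = e(b c/(q s)) e(n θ/q)`, and by Abel summation
`‖∑_{n ≤ x, n ≡ c} h(n) e(n θ/q)‖ ≤ ‖E(x)‖ + (2πΘ/q) ∑_{y < x} ‖E(y)‖` (`‖e t - 1‖ ≤ 2π|t|`), square, Cauchy, sum over
`c < q s`. -/

namespace Pool.Agent.HL

open Finset Pool.Agent.BV

/-- Abel summation for exponential sums. -/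
private lemma major_abel (f : ℕ → ℂ) (β : ℝ) (x : ℕ) :
    ∑ n ∈ Icc 1 x, f n * e (n * β) = (∑ n ∈ Icc 1 x, f n) * e (x * β) +
      ∑ y ∈ range x, (∑ n ∈ Icc 1 y, f n) * (e (y * β) - e ((y + 1 : ℕ) * β)) := by
  induction x with
  | zero => simp
  | succ x ih =>
    rw [Finset.sum_Icc_succ_top (by omega), Finset.sum_Icc_succ_top (by omega), ih,
      Finset.sum_range_succ]
    ring

private lemma major_e_sub (β : ℝ) (y : ℕ) :
    ‖e (y * β) - e ((y + 1 : ℕ) * β)‖ ≤ 2 * Real.pi * |β| := by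
  have h1 : e ((y + 1 : ℕ) * β) = e (y * β) * e β := by
    rw [← add_e_add]; congr 1; push_cast; ring
  have h2 : e (y * β) - e (y * β) * e β = e (y * β) * (1 - e β) := by ring
  rw [h1, h2, norm_mul, add_norm_e, one_mul, norm_sub_rev]
  have h3 : e β = Complex.exp (Complex.I * ((2 * Real.pi * β : ℝ) : ℂ)) := by
    unfold e
    congr 1
    push_cast
    ring
  rw [h3]
  refine (Real.norm_exp_I_mul_ofReal_sub_one_le).trans ?_
  rw [Real.norm_eq_abs, abs_mul, abs_mul, abs_of_pos Real.pi_pos, abs_two]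

private lemma major_abel_norm (f : ℕ → ℂ) (β : ℝ) (x : ℕ) :
    ‖∑ n ∈ Icc 1 x, f n * e (n * β)‖ ≤ ‖∑ n ∈ Icc 1 x, f n‖ +
      2 * Real.pi * |β| * ∑ y ∈ range x, ‖∑ n ∈ Icc 1 y, f n‖ := by
  rw [major_abel]
  refine (norm_add_le _ _).trans (add_le_add ?_ ?_)
  · rw [norm_mul, add_norm_e, mul_one]
  · refine (norm_sum_le _ _).trans ?_
    rw [Finset.mul_sum]
    refine Finset.sum_le_sum fun y _ => ?_
    rw [norm_mul, mul_comm]
    exact mul_le_mul_of_nonneg_right (major_e_sub β y) (norm_nonneg _)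

theorem major (x q Q s : ℕ) (hq : 1 ≤ q) (hs : 1 ≤ s) (α Θ Kv : ℝ) (b : ℤ)
    (hα : |q * α - b / s| ≤ Θ)
    (hv : ∀ y ≤ x, ∑ c ∈ range (q * s), ‖EE q Q s c y‖ ^ 2 ≤ Kv) :
    VV q x (fun n => FL q n - TM q Q n) α ≤
      2 * s * (1 + (2 * Real.pi * Θ * x / q) ^ 2) * Kv := by
  have hq0 : (0 : ℝ) < q := by exact_mod_cast hq
  have hs0 : (0 : ℝ) < s := by exact_mod_cast hs
  have hΘ : 0 ≤ Θ := (abs_nonneg _).trans hα
  set θ : ℝ := q * α - b / s with hθ
  set β : ℝ := θ / q with hβ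
  have hαeq : α = b / (q * s) + β := by
    rw [hβ, hθ]; field_simp; ring
  set h : ℕ → ℂ := fun n => FL q n - TM q Q n with hh
  -- the sum over a class modulo `q s`
  set G : ℕ → ℂ := fun c => ∑ n ∈ (Icc 1 x).filter (fun n => n ≡ c [MOD q * s]), h n * e (n * α)
    with hG
  have hGn : ∀ c, ‖G c‖ ≤ ‖EE q Q s c x‖ +
      2 * Real.pi * |β| * ∑ y ∈ range x, ‖EE q Q s c y‖ := by
    intro c
    have h1 : G c = e (c * (b / (q * s))) *
        ∑ n ∈ Icc 1 x, (if n ≡ c [MOD q * s] then h n else 0) * e (n * β) := by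
      rw [hG]
      simp only
      rw [Finset.sum_filter, Finset.mul_sum]
      refine Finset.sum_congr rfl fun n _ => ?_
      split_ifs with hn
      · have h2 : e (n * α) = e (c * (b / (q * s))) * e (n * β) := by
          rw [← add_e_add, hαeq]
          obtain ⟨k, hk⟩ := (Nat.modEq_iff_dvd.1 hn)
          have h3 : (n : ℝ) = c - (q * s) * k := by
            have : ((c : ℤ) : ℝ) - ((n : ℤ) : ℝ) = ((q * s : ℕ) : ℤ) * k := by
              exact_mod_cast congrArg (Int.cast : ℤ → ℝ) hk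
            push_cast at this
            linarith
          have h4 : (n : ℝ) * (b / (q * s) + β) = c * (b / (q * s)) + n * β - ((k * b : ℤ) : ℝ) := by
            rw [mul_add, h3]
            push_cast
            field_simp
            ring
          rw [h4, add_e_sub_int]
        rw [h2]; ring
      · simp
    rw [h1, norm_mul, add_norm_e, one_mul]
    refine (major_abel_norm _ β x).trans ?_
    have h5 : ∀ y, ∑ n ∈ Icc 1 y, (if n ≡ c [MOD q * s] then h n else 0) = EE q Q s c y := by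
      intro y
      rw [EE, Finset.sum_filter]
    simp only [h5]
    exact le_rfl
  have hβΘ : |β| ≤ Θ / q := by
    rw [hβ, abs_div, abs_of_pos hq0]
    exact div_le_div_of_nonneg_right hα hq0.le
  have hG2 : ∀ c, ‖G c‖ ^ 2 ≤ 2 * ‖EE q Q s c x‖ ^ 2 +
      2 * (2 * Real.pi * Θ / q) ^ 2 * (x * ∑ y ∈ range x, ‖EE q Q s c y‖ ^ 2) := by
    intro c
    have hS0 : 0 ≤ ∑ y ∈ range x, ‖EE q Q s c y‖ := Finset.sum_nonneg fun _ _ => norm_nonneg _
    have h1 : ‖G c‖ ≤ ‖EE q Q s c x‖ + (2 * Real.pi * Θ / q) * ∑ y ∈ range x, ‖EE q Q s c y‖ := by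
      refine (hGn c).trans (add_le_add le_rfl (mul_le_mul_of_nonneg_right ?_ hS0))
      rw [mul_div_assoc]
      exact mul_le_mul_of_nonneg_left hβΘ (by positivity)
    have h2 : (∑ y ∈ range x, ‖EE q Q s c y‖) ^ 2 ≤ x * ∑ y ∈ range x, ‖EE q Q s c y‖ ^ 2 := by
      have := sq_sum_le_card_mul_sum_sq (s := range x) (f := fun y => ‖EE q Q s c y‖)
      rwa [Finset.card_range] at this
    calc ‖G c‖ ^ 2 ≤ (‖EE q Q s c x‖ + (2 * Real.pi * Θ / q) *
          ∑ y ∈ range x, ‖EE q Q s c y‖) ^ 2 := by gcongr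
      _ ≤ 2 * (‖EE q Q s c x‖ ^ 2 + ((2 * Real.pi * Θ / q) *
          ∑ y ∈ range x, ‖EE q Q s c y‖) ^ 2) := add_sq_le
      _ = 2 * ‖EE q Q s c x‖ ^ 2 + 2 * (2 * Real.pi * Θ / q) ^ 2 *
          (∑ y ∈ range x, ‖EE q Q s c y‖) ^ 2 := by ring
      _ ≤ _ := by gcongr
  -- splitting of the classes modulo `q`
  have hsplit : ∀ a, a < q → ∑ n ∈ (Icc 1 x).filter (fun n => n % q = a), h n * e (n * α) =
      ∑ c ∈ (range (q * s)).filter (fun c => c % q = a), G c := by
    intro a ha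
    have hqs : 0 < q * s := Nat.mul_pos hq hs
    have hmaps : ∀ n ∈ (Icc 1 x).filter (fun n => n % q = a),
        n % (q * s) ∈ (range (q * s)).filter (fun c => c % q = a) := by
      intro n hn
      rw [mem_filter] at hn ⊢
      refine ⟨mem_range.2 (Nat.mod_lt _ hqs), ?_⟩
      rw [Nat.mod_mul_right_mod, hn.2]
    rw [← Finset.sum_fiberwise_of_maps_to hmaps]
    refine Finset.sum_congr rfl fun c hc => ?_
    rw [hG]
    simp only
    refine Finset.sum_congr ?_ fun _ _ => rfl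
    rw [mem_filter, mem_range] at hc
    ext n
    simp only [mem_filter]
    constructor
    · rintro ⟨⟨h1, _⟩, h3⟩
      refine ⟨h1, ?_⟩
      rw [Nat.ModEq, h3, Nat.mod_eq_of_lt hc.1]
    · rintro ⟨h1, h2⟩
      have h3 : n % (q * s) = c := by
        rw [Nat.ModEq, Nat.mod_eq_of_lt hc.1] at h2
        exact h2
      refine ⟨⟨h1, ?_⟩, h3⟩
      rw [← hc.2, ← h3, Nat.mod_mul_right_mod]
  have hcard : ∀ a, a < q → ((range (q * s)).filter (fun c => c % q = a)).card ≤ s := by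
    intro a ha
    have h1 : (range (q * s)).filter (fun c => c % q = a) ⊆
        (range s).image (fun i => q * i + a) := by
      intro c hc
      rw [mem_filter, mem_range] at hc
      rw [mem_image]
      refine ⟨c / q, mem_range.2 (Nat.div_lt_of_lt_mul hc.1), ?_⟩
      have := Nat.div_add_mod c q
      rw [hc.2] at this
      exact this
    refine (Finset.card_le_card h1).trans (Finset.card_image_le.trans ?_)
    rw [Finset.card_range]
  have hKv0 : 0 ≤ Kv := (Finset.sum_nonneg fun _ _ => by positivity).trans (hv 0 (Nat.zero_le _))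
  have hVV : VV q x h α ≤ s * ∑ c ∈ range (q * s), ‖G c‖ ^ 2 := by
    unfold VV
    calc ∑ a ∈ range q, ‖∑ n ∈ (Icc 1 x).filter (fun n => n % q = a), h n * e (n * α)‖ ^ 2
        ≤ ∑ a ∈ range q, s * ∑ c ∈ (range (q * s)).filter (fun c => c % q = a), ‖G c‖ ^ 2 := by
          refine Finset.sum_le_sum fun a ha => ?_
          rw [mem_range] at ha
          rw [hsplit a ha]
          have h1 : ‖∑ c ∈ (range (q * s)).filter (fun c => c % q = a), G c‖ ≤
              ∑ c ∈ (range (q * s)).filter (fun c => c % q = a), ‖G c‖ := norm_sum_le _ _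
          have h2 := sq_sum_le_card_mul_sum_sq (s := (range (q * s)).filter (fun c => c % q = a))
            (f := fun c => ‖G c‖)
          have h3 : (((range (q * s)).filter (fun c => c % q = a)).card : ℝ) ≤ s := by
            exact_mod_cast hcard a ha
          calc _ ≤ (∑ c ∈ (range (q * s)).filter (fun c => c % q = a), ‖G c‖) ^ 2 := by gcongr
            _ ≤ _ := h2
            _ ≤ _ := by gcongr
      _ = s * ∑ a ∈ range q, ∑ c ∈ (range (q * s)).filter (fun c => c % q = a), ‖G c‖ ^ 2 := by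
          rw [Finset.mul_sum]
      _ = s * ∑ c ∈ range (q * s), ‖G c‖ ^ 2 := by
          congr 1
          exact Finset.sum_fiberwise_of_maps_to (fun c _ => mem_range.2 (Nat.mod_lt _ hq)) _
  refine hVV.trans ?_
  have hsum : ∑ c ∈ range (q * s), ‖G c‖ ^ 2 ≤
      2 * Kv + 2 * (2 * Real.pi * Θ / q) ^ 2 * (x * (x * Kv)) := by
    calc ∑ c ∈ range (q * s), ‖G c‖ ^ 2
        ≤ ∑ c ∈ range (q * s), (2 * ‖EE q Q s c x‖ ^ 2 +
          2 * (2 * Real.pi * Θ / q) ^ 2 * (x * ∑ y ∈ range x, ‖EE q Q s c y‖ ^ 2)) :=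
          Finset.sum_le_sum fun c _ => hG2 c
      _ = 2 * ∑ c ∈ range (q * s), ‖EE q Q s c x‖ ^ 2 +
          2 * (2 * Real.pi * Θ / q) ^ 2 *
            (x * ∑ y ∈ range x, ∑ c ∈ range (q * s), ‖EE q Q s c y‖ ^ 2) := by
          rw [Finset.sum_add_distrib, ← Finset.mul_sum, ← Finset.mul_sum, ← Finset.mul_sum,
            Finset.sum_comm]
      _ ≤ _ := by
          have h1 : ∑ y ∈ range x, ∑ c ∈ range (q * s), ‖EE q Q s c y‖ ^ 2 ≤ x * Kv := by
            calc _ ≤ ∑ y ∈ range x, Kv :=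
                  Finset.sum_le_sum fun y hy => hv y (mem_range.1 hy).le
              _ = _ := by rw [Finset.sum_const, Finset.card_range, nsmul_eq_mul]
          have h2 := hv x le_rfl
          gcongr
  calc (s : ℝ) * ∑ c ∈ range (q * s), ‖G c‖ ^ 2
      ≤ s * (2 * Kv + 2 * (2 * Real.pi * Θ / q) ^ 2 * (x * (x * Kv))) := by gcongr
    _ = _ := by ring

end Pool.Agent.HL
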