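import Pool.Agent.Work.MP_92f640_nt.HL.MinSum

/-! # Module TypeII

Cauchy over `k`: `‖∑ a_k S_k‖² ≤ ∑ ‖a_k‖² ∑_k ‖S_k‖²`, and
`∑_k ‖S_k‖² = ∑_{c, c'} g_c conj(g_c') ∑_{k ∈ (X₁, 2 X₁], k ≤ x / max c c'} φ(ck) conj φ(c'k) e(k(c-c')α)`.
Split `k` into classes `k₀` mod `q`: the class sums are bounded by `gm (X₁/q + 1) (q (c - c') α)`
(`class_le`, `gm_mono`, `gm_neg`) and `∑_{k₀ < q} ‖φ(c k₀)‖ ‖φ(c' k₀)‖ ≤ 1` (Cauchy-Schwarz; `c`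
coprime to `q` permutes the classes, for `c` not coprime to `q` all terms vanish). Then
`‖g_c‖ ‖g_c'‖ ≤ (‖g_c‖² + ‖g_c'‖²)/2` and `gm_block` with `β = q α`, `γ = -q α c`. -/

namespace Pool.Agent.HL

open Finset Pool.Agent.BV

namespace TypeII

lemma tw_mod {q : ℕ} {φ : ℕ → ℂ} (hφ : Tw q φ) (c k : ℕ) : φ (c * k) = φ (c * (k % q)) := by
  rw [hφ.per (c * k), hφ.per (c * (k % q))]
  congr 1
  exact Nat.ModEq.mul_left c (Nat.mod_modEq k q).symm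

lemma tw_col {q : ℕ} {φ : ℕ → ℂ} (hφ : Tw q φ) (c : ℕ) :
    ∑ k ∈ range q, ‖φ (c * k)‖ ^ 2 ≤ 1 := by
  by_cases h : c.Coprime q
  · have h1 : ∑ k ∈ range q, ‖φ (c * k)‖ ^ 2 =
        ∑ a ∈ (range q).image (fun k => c * k % q), ‖φ a‖ ^ 2 := by
      rw [sum_image]
      · exact sum_congr rfl fun k _ => by rw [hφ.per (c * k)]
      · intro k hk k' hk' hkk
        have hk1 := mem_range.mp hk
        have hk2 := mem_range.mp hk'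
        have h2 : k ≡ k' [MOD q] := Nat.ModEq.cancel_left_of_coprime (Nat.Coprime.symm h) hkk
        have h3 : k % q = k' % q := h2
        rwa [Nat.mod_eq_of_lt hk1, Nat.mod_eq_of_lt hk2] at h3
    rw [h1]
    refine (sum_le_sum_of_subset_of_nonneg ?_ fun _ _ _ => by positivity).trans hφ.l2
    intro a ha
    obtain ⟨k, hk, rfl⟩ := mem_image.mp ha
    exact mem_range.mpr (Nat.mod_lt _ (lt_of_le_of_lt (Nat.zero_le _) (mem_range.mp hk)))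
  · rw [sum_eq_zero]
    · exact zero_le_one
    · intro k _
      rw [hφ.cop _ fun h2 => h (Nat.Coprime.coprime_mul_right h2)]
      simp

lemma tw_pair {q : ℕ} {φ : ℕ → ℂ} (hφ : Tw q φ) (c c' : ℕ) :
    ∑ k ∈ range q, ‖φ (c * k)‖ * ‖φ (c' * k)‖ ≤ 1 := by
  have h1 := sum_mul_sq_le_sq_mul_sq (range q) (fun k => ‖φ (c * k)‖) (fun k => ‖φ (c' * k)‖)
  have h2 : (∑ k ∈ range q, ‖φ (c * k)‖ ^ 2) * ∑ k ∈ range q, ‖φ (c' * k)‖ ^ 2 ≤ 1 * 1 :=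
    mul_le_mul (tw_col hφ c) (tw_col hφ c') (sum_nonneg fun _ _ => by positivity) zero_le_one
  nlinarith

lemma inner2 {q : ℕ} (hq : 1 ≤ q) {φ : ℕ → ℂ} (hφ : Tw q φ) (c c' u v : ℕ) (β : ℝ) :
    ‖∑ k ∈ Ioc u v, φ (c * k) * (starRingEnd ℂ) (φ (c' * k)) * e (k * β)‖ ≤
      gm (((v - u : ℕ) : ℝ) / q + 1) (q * β) := by
  have h0 : (0 : ℝ) ≤ gm (((v - u : ℕ) : ℝ) / q + 1) (q * β) := gm_nonneg (by positivity) _
  have h1 : ∑ k ∈ Ioc u v, φ (c * k) * (starRingEnd ℂ) (φ (c' * k)) * e (k * β) =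
      ∑ k₀ ∈ range q, φ (c * k₀) * (starRingEnd ℂ) (φ (c' * k₀)) *
        ∑ k ∈ (Ioc u v).filter (fun n => n ≡ k₀ [MOD q]), e (k * β) := by
    rw [← sum_fiberwise_of_maps_to (g := fun k => k % q) (t := range q)
      (fun k _ => mem_range.mpr (Nat.mod_lt _ hq))]
    refine sum_congr rfl fun k₀ hk₀ => ?_
    rw [mul_sum]
    have h2 : (Ioc u v).filter (fun n => n % q = k₀) =
        (Ioc u v).filter (fun n => n ≡ k₀ [MOD q]) := by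
      apply filter_congr
      intro n _
      unfold Nat.ModEq
      rw [Nat.mod_eq_of_lt (mem_range.mp hk₀)]
    rw [h2]
    refine sum_congr rfl fun k hk => ?_
    have h3 : k % q = k₀ := by
      have := (mem_filter.mp hk).2
      unfold Nat.ModEq at this
      rwa [Nat.mod_eq_of_lt (mem_range.mp hk₀)] at this
    rw [tw_mod hφ c k, tw_mod hφ c' k, h3]
  rw [h1]
  calc _ ≤ ∑ k₀ ∈ range q, ‖φ (c * k₀) * (starRingEnd ℂ) (φ (c' * k₀)) *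
        ∑ k ∈ (Ioc u v).filter (fun n => n ≡ k₀ [MOD q]), e (k * β)‖ := norm_sum_le _ _
    _ ≤ ∑ k₀ ∈ range q, ‖φ (c * k₀)‖ * ‖φ (c' * k₀)‖ *
        gm (((v - u : ℕ) : ℝ) / q + 1) (q * β) := by
      refine sum_le_sum fun k₀ _ => ?_
      rw [norm_mul, norm_mul, RCLike.norm_conj]
      exact mul_le_mul_of_nonneg_left (class_le q k₀ u v hq β) (by positivity)
    _ = (∑ k₀ ∈ range q, ‖φ (c * k₀)‖ * ‖φ (c' * k₀)‖) *
        gm (((v - u : ℕ) : ℝ) / q + 1) (q * β) := by rw [sum_mul]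
    _ ≤ 1 * gm (((v - u : ℕ) : ℝ) / q + 1) (q * β) :=
      mul_le_mul_of_nonneg_right (tw_pair hφ c c') h0
    _ = _ := one_mul _

/-- the sum over `c` -/
noncomputable def SK (x X₂ : ℕ) (φ : ℕ → ℂ) (α : ℝ) (g : ℕ → ℂ) (k : ℕ) : ℂ :=
  ∑ c ∈ Ioc X₂ (2 * X₂), (if c * k ≤ x then g c * (φ (c * k) * e ((c * k : ℕ) * α)) else 0)

lemma pair_le {q : ℕ} (hq : 1 ≤ q) {φ : ℕ → ℂ} (hφ : Tw q φ) (x X₁ : ℕ) (α : ℝ) (g : ℕ → ℂ)
    {c c' : ℕ} (hc : 0 < c) (_hc' : 0 < c') :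
    ‖∑ k ∈ Ioc X₁ (2 * X₁), (if c * k ≤ x then g c * (φ (c * k) * e ((c * k : ℕ) * α)) else 0) *
      (starRingEnd ℂ)
        (if c' * k ≤ x then g c' * (φ (c' * k) * e ((c' * k : ℕ) * α)) else 0)‖ ≤
      ‖g c‖ * ‖g c'‖ * gm ((X₁ : ℝ) / q + 1) (q * (((c : ℝ) - c') * α)) := by
  have h1 : ∑ k ∈ Ioc X₁ (2 * X₁),
      (if c * k ≤ x then g c * (φ (c * k) * e ((c * k : ℕ) * α)) else 0) *
      (starRingEnd ℂ)
        (if c' * k ≤ x then g c' * (φ (c' * k) * e ((c' * k : ℕ) * α)) else 0) =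
      g c * (starRingEnd ℂ) (g c') *
        ∑ k ∈ Ioc X₁ (min (2 * X₁) (x / max c c')),
          φ (c * k) * (starRingEnd ℂ) (φ (c' * k)) * e (k * (((c : ℝ) - c') * α)) := by
    have h2 : Ioc X₁ (min (2 * X₁) (x / max c c')) =
        (Ioc X₁ (2 * X₁)).filter (fun k => c * k ≤ x ∧ c' * k ≤ x) := by
      ext k
      simp only [mem_Ioc, mem_filter, le_min_iff, Nat.le_div_iff_mul_le (lt_max_of_lt_left hc)]
      constructor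
      · rintro ⟨h3, h4, h5⟩
        refine ⟨⟨h3, h4⟩, le_trans ?_ h5, le_trans ?_ h5⟩
        · rw [mul_comm]
          exact Nat.mul_le_mul_left _ (le_max_left _ _)
        · rw [mul_comm]
          exact Nat.mul_le_mul_left _ (le_max_right _ _)
      · rintro ⟨⟨h3, h4⟩, h5, h6⟩
        refine ⟨h3, h4, ?_⟩
        rcases max_choice c c' with h7 | h7 <;> rw [h7, mul_comm] <;> assumption
    rw [h2, mul_sum, sum_filter]
    refine sum_congr rfl fun k _ => ?_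
    by_cases h5 : c * k ≤ x
    · by_cases h6 : c' * k ≤ x
      · rw [if_pos h5, if_pos h6, if_pos ⟨h5, h6⟩]
        have h7 : e (k * (((c : ℝ) - c') * α)) =
            e ((c * k : ℕ) * α) * (starRingEnd ℂ) (e ((c' * k : ℕ) * α)) := by
          rw [← add_e_neg, ← add_e_add]
          congr 1
          push_cast
          ring
        rw [h7, map_mul, map_mul]
        ring
      · rw [if_neg h6, if_neg (fun h : c * k ≤ x ∧ c' * k ≤ x => h6 h.2), map_zero, mul_zero]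
    · rw [if_neg h5, if_neg (fun h : c * k ≤ x ∧ c' * k ≤ x => h5 h.1), zero_mul]
  rw [h1, norm_mul, norm_mul, RCLike.norm_conj]
  refine mul_le_mul_of_nonneg_left ((inner2 hq hφ c c' _ _ _).trans ?_) (by positivity)
  refine gm_mono (by positivity) ?_ _
  have h3 : ((min (2 * X₁) (x / max c c') - X₁ : ℕ) : ℝ) ≤ (X₁ : ℝ) := by
    have : min (2 * X₁) (x / max c c') - X₁ ≤ X₁ := by omega
    exact_mod_cast this
  gcongr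

lemma sum_sq {q : ℕ} (hq : 1 ≤ q) {φ : ℕ → ℂ} (hφ : Tw q φ) (x X₁ X₂ : ℕ) (α : ℝ) (g : ℕ → ℂ) :
    ∑ k ∈ Ioc X₁ (2 * X₁), ‖SK x X₂ φ α g k‖ ^ 2 ≤
      ∑ c ∈ Ioc X₂ (2 * X₂), ∑ c' ∈ Ioc X₂ (2 * X₂),
        ‖g c‖ * ‖g c'‖ * gm ((X₁ : ℝ) / q + 1) (q * (((c : ℝ) - c') * α)) := by
  have h1 : ((∑ k ∈ Ioc X₁ (2 * X₁), ‖SK x X₂ φ α g k‖ ^ 2 : ℝ) : ℂ) =
      ∑ c ∈ Ioc X₂ (2 * X₂), ∑ c' ∈ Ioc X₂ (2 * X₂), ∑ k ∈ Ioc X₁ (2 * X₁),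
        (if c * k ≤ x then g c * (φ (c * k) * e ((c * k : ℕ) * α)) else 0) *
      (starRingEnd ℂ)
        (if c' * k ≤ x then g c' * (φ (c' * k) * e ((c' * k : ℕ) * α)) else 0) := by
    rw [Complex.ofReal_sum]
    calc _ = ∑ k ∈ Ioc X₁ (2 * X₁), ∑ c ∈ Ioc X₂ (2 * X₂), ∑ c' ∈ Ioc X₂ (2 * X₂),
          (if c * k ≤ x then g c * (φ (c * k) * e ((c * k : ℕ) * α)) else 0) *
          (starRingEnd ℂ)
            (if c' * k ≤ x then g c' * (φ (c' * k) * e ((c' * k : ℕ) * α)) else 0) := by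
          refine sum_congr rfl fun k _ => ?_
          rw [Complex.ofReal_pow, ← Complex.conj_mul', mul_comm, SK, map_sum, sum_mul_sum]
      _ = _ := by
          rw [sum_comm]
          refine sum_congr rfl fun c _ => ?_
          rw [sum_comm]
  have h2 : (0 : ℝ) ≤ ∑ k ∈ Ioc X₁ (2 * X₁), ‖SK x X₂ φ α g k‖ ^ 2 :=
    sum_nonneg fun _ _ => by positivity
  rw [← abs_of_nonneg h2, ← Real.norm_eq_abs, ← Complex.norm_real, h1]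
  refine (norm_sum_le _ _).trans (sum_le_sum fun c hc => ?_)
  refine (norm_sum_le _ _).trans (sum_le_sum fun c' hc' => ?_)
  exact pair_le hq hφ x X₁ α g (lt_of_le_of_lt (Nat.zero_le _) (mem_Ioc.mp hc).1)
    (lt_of_le_of_lt (Nat.zero_le _) (mem_Ioc.mp hc').1)

lemma sym_le (X₂ : ℕ) (g : ℕ → ℂ) (G : ℕ → ℕ → ℝ) (h0 : ∀ c c', 0 ≤ G c c')
    (hG : ∀ c c', G c c' = G c' c) {B : ℝ} (hB : ∀ c, ∑ c' ∈ Ioc X₂ (2 * X₂), G c c' ≤ B) :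
    ∑ c ∈ Ioc X₂ (2 * X₂), ∑ c' ∈ Ioc X₂ (2 * X₂), ‖g c‖ * ‖g c'‖ * G c c' ≤
      (∑ c ∈ Ioc X₂ (2 * X₂), ‖g c‖ ^ 2) * B := by
  have h1 : ∑ c ∈ Ioc X₂ (2 * X₂), ∑ c' ∈ Ioc X₂ (2 * X₂), ‖g c‖ * ‖g c'‖ * G c c' ≤
      ∑ c ∈ Ioc X₂ (2 * X₂), ∑ c' ∈ Ioc X₂ (2 * X₂),
        (‖g c‖ ^ 2 * G c c' / 2 + ‖g c'‖ ^ 2 * G c c' / 2) := by
    refine sum_le_sum fun c _ => sum_le_sum fun c' _ => ?_
    have h2 : ‖g c‖ * ‖g c'‖ ≤ (‖g c‖ ^ 2 + ‖g c'‖ ^ 2) / 2 := by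
      nlinarith [sq_nonneg (‖g c‖ - ‖g c'‖)]
    have h3 := mul_le_mul_of_nonneg_right h2 (h0 c c')
    linarith
  have h2 : ∑ c ∈ Ioc X₂ (2 * X₂), ∑ c' ∈ Ioc X₂ (2 * X₂), ‖g c'‖ ^ 2 * G c c' / 2 =
      ∑ c ∈ Ioc X₂ (2 * X₂), ∑ c' ∈ Ioc X₂ (2 * X₂), ‖g c‖ ^ 2 * G c c' / 2 := by
    rw [sum_comm]
    refine sum_congr rfl fun c _ => sum_congr rfl fun c' _ => ?_
    rw [hG c' c]
  have h3 : ∑ c ∈ Ioc X₂ (2 * X₂), ∑ c' ∈ Ioc X₂ (2 * X₂), ‖g c‖ ^ 2 * G c c' / 2 ≤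
      (∑ c ∈ Ioc X₂ (2 * X₂), ‖g c‖ ^ 2) * B / 2 := by
    rw [sum_mul, sum_div]
    refine sum_le_sum fun c _ => ?_
    rw [← sum_div, ← mul_sum]
    have := mul_le_mul_of_nonneg_left (hB c) (by positivity : (0 : ℝ) ≤ ‖g c‖ ^ 2)
    linarith
  refine h1.trans ?_
  simp only [sum_add_distrib]
  rw [h2]
  linarith

end TypeII

theorem typeII (x q X₁ X₂ s : ℕ) (φ : ℕ → ℂ) (α : ℝ) (b : ℤ) (a g : ℕ → ℂ) (hq : 1 ≤ q)
    (hφ : Tw q φ) (hs : 1 ≤ s) (hbs : IsCoprime b (s : ℤ))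
    (hα : |q * α - b / s| ≤ 1 / (s : ℝ) ^ 2) :
    ‖∑ k ∈ Ioc X₁ (2 * X₁), ∑ c ∈ Ioc X₂ (2 * X₂),
        (if c * k ≤ x then a k * g c * (φ (c * k) * e ((c * k : ℕ) * α)) else 0)‖ ^ 2 ≤
      8 * (∑ k ∈ Ioc X₁ (2 * X₁), ‖a k‖ ^ 2) * (∑ c ∈ Ioc X₂ (2 * X₂), ‖g c‖ ^ 2) *
        (((X₂ : ℝ) / s + 1) * ((X₁ : ℝ) / q + 1 + s * (1 + Real.log s))) := by
  have h1 : ∑ k ∈ Ioc X₁ (2 * X₁), ∑ c ∈ Ioc X₂ (2 * X₂),
        (if c * k ≤ x then a k * g c * (φ (c * k) * e ((c * k : ℕ) * α)) else 0) =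
      ∑ k ∈ Ioc X₁ (2 * X₁), a k * TypeII.SK x X₂ φ α g k := by
    refine sum_congr rfl fun k _ => ?_
    rw [TypeII.SK, mul_sum]
    refine sum_congr rfl fun c _ => ?_
    rw [mul_ite, mul_zero, mul_assoc]
  have h2 : ‖∑ k ∈ Ioc X₁ (2 * X₁), a k * TypeII.SK x X₂ φ α g k‖ ^ 2 ≤
      (∑ k ∈ Ioc X₁ (2 * X₁), ‖a k‖ ^ 2) *
        ∑ k ∈ Ioc X₁ (2 * X₁), ‖TypeII.SK x X₂ φ α g k‖ ^ 2 := by
    refine le_trans ?_ (sum_mul_sq_le_sq_mul_sq _ _ _)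
    refine pow_le_pow_left₀ (norm_nonneg _) ?_ 2
    refine (norm_sum_le _ _).trans (le_of_eq ?_)
    exact sum_congr rfl fun k _ => norm_mul _ _
  have hY : (0 : ℝ) ≤ (X₁ : ℝ) / q + 1 := by positivity
  have h3 : ∑ k ∈ Ioc X₁ (2 * X₁), ‖TypeII.SK x X₂ φ α g k‖ ^ 2 ≤
      (∑ c ∈ Ioc X₂ (2 * X₂), ‖g c‖ ^ 2) *
        (8 * ((X₂ : ℝ) / s + 1) * ((X₁ : ℝ) / q + 1 + s * (1 + Real.log s))) := by
    refine (TypeII.sum_sq hq hφ x X₁ X₂ α g).trans ?_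
    refine TypeII.sym_le X₂ g
      (fun c c' => gm ((X₁ : ℝ) / q + 1) (q * (((c : ℝ) - c') * α))) ?_ ?_ ?_
    · exact fun c c' => gm_nonneg hY _
    · intro c c'
      show gm _ _ = gm _ _
      rw [← gm_neg]
      congr 1
      ring
    · intro c
      have h4 := gm_block (q * α) (-(q * α * c)) b s hs hbs hα X₂ X₂ ((X₁ : ℝ) / q + 1) hY
      rw [← two_mul] at h4
      refine le_trans (le_of_eq ?_) h4
      refine sum_congr rfl fun c' _ => ?_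
      rw [← gm_neg]
      congr 1
      ring
  rw [h1]
  refine h2.trans ?_
  have h5 := mul_le_mul_of_nonneg_left h3
    (sum_nonneg fun k _ => by positivity : (0 : ℝ) ≤ ∑ k ∈ Ioc X₁ (2 * X₁), ‖a k‖ ^ 2)
  refine h5.trans (le_of_eq ?_)
  ring

end Pool.Agent.HL
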