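import Pool.Agent.Work.MP_92f640_nt.HL.TypeI
import Pool.Agent.Work.MP_92f640_nt.HL.TypeII
import Pool.Agent.Work.BV.L_Vaughan
import Pool.Agent.Work.BV.DivSum

/-! # Module Minor: the minor arc estimate

Vaughan (`Pool.Agent.Work.BV.vaughan U V`, `sum_conv` in `BV/L_Vaughan.lean`) with
`U = V = ⌊x^(1/8)⌋₊ + 1`, `G n = φ n e(n α)` for `n ≤ x`. Since `φ` vanishes off the integers coprime
to `q`, `FL q n * φ n = Λ(n) φ(n)`. `‖φ n‖ ≤ 1`.
* `FF V`: trivial, `≤ V log V`.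
* `log * GG U`: `typeI_log`, `W = 1`, `D = U`; `ζ * CC U V`: `typeI`, `W = log x`, `D = U V`.
* `LF V * BB U`: dyadic blocks `c ∈ (2^i V, 2^(i+1) V]`, `k ∈ (2^j U, 2^(j+1) U]`, at most `C (log x)²` of
them, those with `2^i V 2^j U ≤ x` only; in each apply `typeII` with the LARGER of the two ranges in
the role of `k` (both orders are possible, the lemma has arbitrary coefficients). With `X₁ ≥ X₂`,
`X₁ X₂ ≤ x`, `X₂ ≥ x^(1/8)`:
`X₁ X₂ (X₂/s + 1)(X₁/q + 1 + s(1 + log s)) ≤ 4 log x * (x²/q) (1/s + q/√x + x^(-1/8) + q s/x)`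
(`X₂ ≤ √x`), and the coefficient sums are `≤ C X (log x)^3` (`tau_sq_sum`, `abs_BB_le`, `LF_le`).
* If `q s > x` the bound is trivial. -/

namespace Pool.Agent.HL

open Finset Pool.Agent.BV
open Pool.Agent.Work.BV (FF GG BB LF CC vaughan sum_conv FF_nonneg FF_le FF_apply abs_GG_le
  GG_of_lt abs_CC_le CC_of_lt LF_nonneg LF_le LF_apply BB_of_le abs_BB_le)
open scoped ArithmeticFunction.vonMangoldt ArithmeticFunction.zeta

namespace Minor

/-- the saving -/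
noncomputable def T (x q s : ℕ) : ℝ :=
  1 / Real.sqrt s + (x : ℝ) ^ (-(1 / 16) : ℝ) + Real.sqrt (q / Real.sqrt x) +
    Real.sqrt (q * s / x)

lemma y_facts {x : ℕ} (hx : 3 ≤ x) : ∃ y : ℝ, 1 ≤ y ∧ y ^ 16 = x ∧
    (x : ℝ) ^ (-(1 / 16) : ℝ) = y⁻¹ ∧ Real.sqrt x = y ^ 8 := by
  have hx0 : (0 : ℝ) < x := by
    have : (3 : ℝ) ≤ x := by exact_mod_cast hx
    linarith
  have hx1 : (1 : ℝ) ≤ x := by
    have : (3 : ℝ) ≤ x := by exact_mod_cast hx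
    linarith
  have h16 : ((x : ℝ) ^ (1 / 16 : ℝ)) ^ 16 = x := by
    rw [← Real.rpow_natCast, ← Real.rpow_mul hx0.le]
    norm_num
  refine ⟨(x : ℝ) ^ (1 / 16 : ℝ), Real.one_le_rpow hx1 (by norm_num), h16, ?_, ?_⟩
  · rw [Real.rpow_neg hx0.le]
  · rw [Real.sqrt_eq_iff_mul_self_eq hx0.le (by positivity)]
    rw [← pow_add]
    exact h16.symm

lemma FL_mul {q : ℕ} {φ : ℕ → ℂ} (hφ : Tw q φ) (n : ℕ) :
    FL q n * φ n = ((Λ n : ℝ) : ℂ) * φ n := by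
  unfold FL
  split_ifs with h
  · rfl
  · rw [hφ.cop n h]; simp

lemma norm_le_one {q : ℕ} (hq : 1 ≤ q) {φ : ℕ → ℂ} (hφ : Tw q φ) (n : ℕ) : ‖φ n‖ ≤ 1 := by
  have h1 : ‖φ (n % q)‖ ^ 2 ≤ ∑ a ∈ range q, ‖φ a‖ ^ 2 :=
    single_le_sum (f := fun a => ‖φ a‖ ^ 2) (fun _ _ => by positivity)
      (mem_range.mpr (Nat.mod_lt _ hq))
  rw [hφ.per n]
  exact (sq_le_one_iff₀ (norm_nonneg _)).mp (h1.trans hφ.l2)

lemma sum_periodic (q : ℕ) (f : ℕ → ℝ) (hf : ∀ n, f n = f (n % q)) (m : ℕ) :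
    ∑ n ∈ range (m * q), f n = m * ∑ a ∈ range q, f a := by
  induction m with
  | zero => simp
  | succ m ih =>
    rw [Nat.succ_mul, sum_range_add, ih]
    have h1 : ∀ x ∈ range q, f (m * q + x) = f x := by
      intro x _
      rw [hf (m * q + x), Nat.mul_add_mod', ← hf x]
    rw [sum_congr rfl h1]
    push_cast
    ring

lemma sum_norm {q x : ℕ} (hq : 1 ≤ q) (hqx : q ≤ x) {φ : ℕ → ℂ} (hφ : Tw q φ) :
    ∑ n ∈ Icc 1 x, ‖φ n‖ ≤ 2 * ((x : ℝ) / Real.sqrt q) := by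
  have hq0 : (0 : ℝ) < q := by exact_mod_cast hq
  have hs0 : 0 < Real.sqrt q := Real.sqrt_pos.mpr hq0
  have hss : Real.sqrt q * Real.sqrt q = q := Real.mul_self_sqrt hq0.le
  have h1 : ∑ n ∈ Icc 1 x, ‖φ n‖ ≤ ∑ n ∈ range ((x / q + 1) * q), ‖φ n‖ := by
    refine sum_le_sum_of_subset_of_nonneg ?_ fun _ _ _ => norm_nonneg _
    intro n hn
    rw [mem_range]
    have h2 := Nat.lt_div_mul_add (a := x) (b := q) hq
    have h3 := (mem_Icc.mp hn).2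
    rw [add_mul, one_mul]
    omega
  have h2 : ∑ a ∈ range q, ‖φ a‖ ≤ Real.sqrt q := by
    have := TypeI.tw_l1 hφ 1
    simpa using this
  have h3 : ∑ n ∈ range ((x / q + 1) * q), ‖φ n‖ = ((x / q + 1 : ℕ) : ℝ) * ∑ a ∈ range q, ‖φ a‖ :=
    sum_periodic q (fun n => ‖φ n‖) (fun n => by rw [hφ.per n]) _
  have h4 : ((x / q + 1 : ℕ) : ℝ) ≤ 2 * (x / q) := by
    push_cast
    have h5 : ((x / q : ℕ) : ℝ) ≤ (x : ℝ) / q := Nat.cast_div_le
    have h6 : (1 : ℝ) ≤ (x : ℝ) / q := by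
      rw [le_div_iff₀ hq0, one_mul]
      exact_mod_cast hqx
    linarith
  calc _ ≤ _ := h1
    _ = _ := h3
    _ ≤ (2 * (x / q)) * Real.sqrt q := by gcongr
    _ = 2 * ((x : ℝ) / Real.sqrt q) := by
      have h7 : (x : ℝ) / q = x / (Real.sqrt q * Real.sqrt q) := by rw [hss]
      rw [h7]
      field_simp

/-- the trivial bound -/
lemma triv {q x : ℕ} (hq : 1 ≤ q) (hqx : q ≤ x) {φ : ℕ → ℂ} (hφ : Tw q φ) (α : ℝ) :
    ‖∑ n ∈ Icc 1 x, FL q n * φ n * e (n * α)‖ ≤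
      2 * ((x : ℝ) / Real.sqrt q) * Real.log x := by
  calc _ ≤ ∑ n ∈ Icc 1 x, ‖FL q n * φ n * e (n * α)‖ := norm_sum_le _ _
    _ ≤ ∑ n ∈ Icc 1 x, ‖φ n‖ * Real.log x := by
      refine sum_le_sum fun n hn => ?_
      rw [FL_mul hφ, norm_mul, norm_mul, add_norm_e, mul_one, Complex.norm_real, Real.norm_eq_abs,
        abs_of_nonneg ArithmeticFunction.vonMangoldt_nonneg, mul_comm]
      refine mul_le_mul_of_nonneg_left ?_ (norm_nonneg _)
      refine ArithmeticFunction.vonMangoldt_le_log.trans ?_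
      exact Real.log_le_log (by exact_mod_cast (mem_Icc.mp hn).1)
        (by exact_mod_cast (mem_Icc.mp hn).2)
    _ = (∑ n ∈ Icc 1 x, ‖φ n‖) * Real.log x := by rw [sum_mul]
    _ ≤ _ := mul_le_mul_of_nonneg_right (sum_norm hq hqx hφ) (Real.log_natCast_nonneg x)

lemma rearr (x D : ℕ) (φ : ℕ → ℂ) (α : ℝ) (f w : ℕ → ℂ) (hDx : D ≤ x)
    (hw : ∀ d, D < d → d ≤ x → w d = 0) :
    ∑ a ∈ Icc 1 x, ∑ b ∈ Icc 1 x,
        f a * w b * (if a * b ≤ x then φ (a * b) * e ((a * b : ℕ) * α) else 0) =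
      ∑ d ∈ Icc 1 D, w d * ∑ k ∈ Icc 1 (x / d), f k * (φ (d * k) * e ((d * k : ℕ) * α)) := by
  rw [sum_comm, ← sum_subset (Icc_subset_Icc_right hDx)]
  · refine sum_congr rfl fun d hd => ?_
    have hd1 : 0 < d := (mem_Icc.mp hd).1
    rw [mul_sum]
    have h1 : Icc 1 (x / d) = (Icc 1 x).filter (fun k => k * d ≤ x) := by
      ext k
      simp only [mem_Icc, mem_filter]
      rw [Nat.le_div_iff_mul_le hd1]
      constructor
      · rintro ⟨h1, h2⟩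
        exact ⟨⟨h1, (Nat.le_mul_of_pos_right k hd1).trans h2⟩, h2⟩
      · rintro ⟨⟨h1, _⟩, h2⟩
        exact ⟨h1, h2⟩
    rw [h1, sum_filter]
    refine sum_congr rfl fun k _ => ?_
    split_ifs
    · rw [mul_comm d k]
      ring
    · simp
  · intro d hd1 hd2
    have h1 : w d = 0 := by
      simp only [mem_Icc] at hd1 hd2
      exact hw d (by omega) hd1.2
    refine sum_eq_zero fun a _ => ?_
    rw [h1]
    ring

lemma dyadic (V I : ℕ) (f : ℕ → ℂ) :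
    ∑ c ∈ Ioc V (2 ^ I * V), f c =
      ∑ i ∈ range I, ∑ c ∈ Ioc (2 ^ i * V) (2 * (2 ^ i * V)), f c := by
  induction I with
  | zero => simp
  | succ I ih =>
    rw [sum_range_succ, ← ih]
    have h1 : 2 ^ (I + 1) * V = 2 * (2 ^ I * V) := by ring
    have h2 : V ≤ 2 ^ I * V := Nat.le_mul_of_pos_left V (by positivity)
    rw [h1, sum_Ioc_consecutive f h2 (by omega)]

lemma dyadic' {x V I : ℕ} (hV : x ≤ 2 ^ I * V) (f : ℕ → ℂ) (h0 : ∀ c, c ≤ V → f c = 0)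
    (h1 : ∀ c, x < c → f c = 0) :
    ∑ c ∈ Icc 1 x, f c =
      ∑ i ∈ range I, ∑ c ∈ Ioc (2 ^ i * V) (2 * (2 ^ i * V)), f c := by
  rw [← dyadic]
  apply sum_congr_of_eq_on_inter
  · intro a ha ha'
    apply h0
    rw [mem_Icc] at ha
    rw [mem_Ioc] at ha'
    by_contra h2
    exact ha' ⟨by omega, by omega⟩
  · intro a ha ha'
    apply h1
    rw [mem_Ioc] at ha
    rw [mem_Icc] at ha'
    by_contra h2
    exact ha' ⟨by omega, by omega⟩
  · intros; rfl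

lemma typeII_sum {x V U N : ℕ} (hV : x ≤ 2 ^ N * V) (hU : x ≤ 2 ^ N * U) (f g h : ℕ → ℂ)
    (hf : ∀ c, c ≤ V → f c = 0) (hg : ∀ k, k ≤ U → g k = 0) (hh : ∀ n, x < n → h n = 0) {B : ℝ}
    (hB : ∀ i < N, ∀ j < N, ‖∑ c ∈ Ioc (2 ^ i * V) (2 * (2 ^ i * V)),
      ∑ k ∈ Ioc (2 ^ j * U) (2 * (2 ^ j * U)), f c * g k * h (c * k)‖ ≤ B) :
    ‖∑ c ∈ Icc 1 x, ∑ k ∈ Icc 1 x, f c * g k * h (c * k)‖ ≤ (N : ℝ) ^ 2 * B := by
  have h1 : ∑ c ∈ Icc 1 x, ∑ k ∈ Icc 1 x, f c * g k * h (c * k) =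
      ∑ i ∈ range N, ∑ j ∈ range N, ∑ c ∈ Ioc (2 ^ i * V) (2 * (2 ^ i * V)),
        ∑ k ∈ Ioc (2 ^ j * U) (2 * (2 ^ j * U)), f c * g k * h (c * k) := by
    rw [dyadic' hV]
    · refine sum_congr rfl fun i _ => ?_
      conv_rhs => rw [sum_comm]
      refine sum_congr rfl fun c hc => ?_
      have hc0 : 0 < c := lt_of_le_of_lt (Nat.zero_le _) (mem_Ioc.mp hc).1
      rw [dyadic' hU]
      · intro k hk
        rw [hg k hk]
        ring
      · intro k hk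
        rw [hh (c * k) (lt_of_lt_of_le hk (Nat.le_mul_of_pos_left k hc0))]
        ring
    · intro c hc
      refine sum_eq_zero fun k _ => ?_
      rw [hf c hc]
      ring
    · intro c hc
      refine sum_eq_zero fun k hk => ?_
      have hk0 : 0 < k := (mem_Icc.mp hk).1
      rw [hh (c * k) (lt_of_lt_of_le hc (Nat.le_mul_of_pos_right c hk0))]
      ring
  rw [h1]
  calc _ ≤ ∑ i ∈ range N, ∑ j ∈ range N, B := by
        refine (norm_sum_le _ _).trans (sum_le_sum fun i hi => ?_)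
        refine (norm_sum_le _ _).trans (sum_le_sum fun j hj => ?_)
        exact hB i (mem_range.mp hi) j (mem_range.mp hj)
    _ = _ := by
      simp only [sum_const, card_range, nsmul_eq_mul]
      ring

lemma T_nonneg (x q s : ℕ) : 0 ≤ T x q s := by
  unfold T
  positivity

lemma T_sq {x q s : ℕ} {y : ℝ} (hy1 : (x : ℝ) ^ (-(1 / 16) : ℝ) = y⁻¹)
    (hy8 : Real.sqrt x = y ^ 8) (hy : 1 ≤ y) :
    1 / (s : ℝ) + (y⁻¹) ^ 2 + q / y ^ 8 + q * s / x ≤ T x q s ^ 2 := by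
  unfold T
  rw [hy1, hy8]
  set A : ℝ := 1 / Real.sqrt s with hA
  set D : ℝ := Real.sqrt (q / y ^ 8) with hD
  set E : ℝ := Real.sqrt (q * s / x) with hE
  have hA2 : A ^ 2 = 1 / (s : ℝ) := by
    rw [hA, div_pow, one_pow, Real.sq_sqrt (Nat.cast_nonneg s)]
  have hD2 : D ^ 2 = q / y ^ 8 := Real.sq_sqrt (by positivity)
  have hE2 : E ^ 2 = q * s / x := Real.sq_sqrt (by positivity)
  rw [← hA2, ← hD2, ← hE2]
  have h1 : 0 ≤ A := by positivity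
  have h2 : 0 ≤ y⁻¹ := by positivity
  have h3 : 0 ≤ D := Real.sqrt_nonneg _
  have h4 : 0 ≤ E := Real.sqrt_nonneg _
  nlinarith [mul_nonneg h1 h2, mul_nonneg h1 h3, mul_nonneg h1 h4, mul_nonneg h2 h3,
    mul_nonneg h2 h4, mul_nonneg h3 h4]

lemma block_alg {x q s X₁ X₂ : ℕ} {y : ℝ} (hx : 3 ≤ x) (hq : 1 ≤ q) (hs : 1 ≤ s) (hsx : s ≤ x)
    (hy : 1 ≤ y) (hyx : y ^ 16 = x) (h12 : X₁ * X₂ ≤ x) (h21 : X₂ ≤ X₁)
    (h8 : y ^ 2 ≤ X₂) :
    (X₁ : ℝ) * X₂ * (((X₂ : ℝ) / s + 1) * ((X₁ : ℝ) / q + 1 + s * (1 + Real.log s))) ≤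
      4 * Real.log x * ((x : ℝ) ^ 2 / q) *
        (1 / (s : ℝ) + (y⁻¹) ^ 2 + q / y ^ 8 + q * s / x) := by
  have hL := TypeI.one_le_log hx
  set L := Real.log x with hLd
  have hx0 : (0 : ℝ) < x := by
    have : (3 : ℝ) ≤ x := by exact_mod_cast hx
    linarith
  have hq0 : (0 : ℝ) < q := by exact_mod_cast hq
  have hs1 : (1 : ℝ) ≤ s := by exact_mod_cast hs
  have hs0 : (0 : ℝ) < s := by linarith
  have hy0 : 0 < y := by linarith
  have hP : (X₁ : ℝ) * X₂ ≤ x := by exact_mod_cast h12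
  have hP0 : (0 : ℝ) ≤ (X₁ : ℝ) * X₂ := by positivity
  have h21' : (X₂ : ℝ) ≤ X₁ := by exact_mod_cast h21
  have hls : Real.log s ≤ L := Real.log_le_log hs0 (by exact_mod_cast hsx)
  have hls0 : 0 ≤ Real.log s := Real.log_nonneg hs1
  have hR : 1 + s * (1 + Real.log s) ≤ 4 * s * L := by nlinarith
  have hR0 : 0 ≤ 1 + s * (1 + Real.log s) := by positivity
  have hX2 : (X₂ : ℝ) ≤ y ^ 8 := by
    have h3 : (X₂ : ℝ) ^ 2 ≤ (y ^ 8) ^ 2 := by
      rw [← pow_mul]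
      norm_num
      rw [hyx]
      calc (X₂ : ℝ) ^ 2 = X₂ * X₂ := sq _
        _ ≤ X₁ * X₂ := by gcongr
        _ ≤ x := hP
    exact (sq_le_sq₀ (by positivity) (by positivity)).mp h3
  have hX1 : (X₁ : ℝ) ≤ x * (y⁻¹) ^ 2 := by
    rw [inv_pow, ← div_eq_mul_inv, le_div_iff₀ (by positivity)]
    calc (X₁ : ℝ) * y ^ 2 ≤ X₁ * X₂ := by gcongr
      _ ≤ x := hP
  have ea : (X₁ : ℝ) * X₂ * ((X₂ : ℝ) / s * (X₁ / q)) ≤ 4 * L * ((x : ℝ) ^ 2 / q * (1 / s)) := by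
    have h3 : (X₁ : ℝ) * X₂ * ((X₂ : ℝ) / s * (X₁ / q)) = ((X₁ : ℝ) * X₂) ^ 2 / q * (1 / s) := by
      field_simp
    rw [h3]
    have h4 : ((X₁ : ℝ) * X₂) ^ 2 / q * (1 / s) ≤ (x : ℝ) ^ 2 / q * (1 / s) := by gcongr
    have h5 : 0 ≤ (x : ℝ) ^ 2 / q * (1 / s) := by positivity
    nlinarith
  have eb : (X₁ : ℝ) * X₂ * ((X₂ : ℝ) / s * (1 + s * (1 + Real.log s))) ≤
      4 * L * ((x : ℝ) ^ 2 / q * (q / y ^ 8)) := by
    calc (X₁ : ℝ) * X₂ * ((X₂ : ℝ) / s * (1 + s * (1 + Real.log s)))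
        ≤ x * (y ^ 8 / s * (4 * s * L)) := by gcongr
      _ = 4 * L * (x * y ^ 8) := by field_simp
      _ = 4 * L * ((x : ℝ) ^ 2 / q * (q / y ^ 8)) := by
        have h3 : (x : ℝ) ^ 2 / q * (q / y ^ 8) = x * y ^ 8 := by
          rw [div_mul_div_comm, mul_comm (q : ℝ) (y ^ 8), mul_div_mul_right _ _ hq0.ne',
            div_eq_iff (by positivity)]
          rw [← hyx]
          ring
        rw [h3]
  have ec : (X₁ : ℝ) * X₂ * ((X₁ : ℝ) / q) ≤ 4 * L * ((x : ℝ) ^ 2 / q * (y⁻¹) ^ 2) := by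
    have h3 : (X₁ : ℝ) * X₂ * ((X₁ : ℝ) / q) ≤ x * ((x * (y⁻¹) ^ 2) / q) := by gcongr
    have h4 : (x : ℝ) * ((x * (y⁻¹) ^ 2) / q) = (x : ℝ) ^ 2 / q * (y⁻¹) ^ 2 := by
      field_simp
    have h5 : 0 ≤ (x : ℝ) ^ 2 / q * (y⁻¹) ^ 2 := by positivity
    rw [h4] at h3
    nlinarith
  have ed : (X₁ : ℝ) * X₂ * (1 + s * (1 + Real.log s)) ≤
      4 * L * ((x : ℝ) ^ 2 / q * (q * s / x)) := by
    calc (X₁ : ℝ) * X₂ * (1 + s * (1 + Real.log s)) ≤ x * (4 * s * L) := by gcongr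
      _ = 4 * L * ((x : ℝ) ^ 2 / q * (q * s / x)) := by field_simp
  have e1 : (X₁ : ℝ) * X₂ * (((X₂ : ℝ) / s + 1) * ((X₁ : ℝ) / q + 1 + s * (1 + Real.log s))) =
      (X₁ : ℝ) * X₂ * ((X₂ : ℝ) / s * (X₁ / q)) +
      (X₁ : ℝ) * X₂ * ((X₂ : ℝ) / s * (1 + s * (1 + Real.log s))) +
      (X₁ : ℝ) * X₂ * ((X₁ : ℝ) / q) + (X₁ : ℝ) * X₂ * (1 + s * (1 + Real.log s)) := by ring
  rw [e1]
  have e2 : 4 * L * ((x : ℝ) ^ 2 / q) * (1 / (s : ℝ) + (y⁻¹) ^ 2 + q / y ^ 8 + q * s / x) =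
      4 * L * ((x : ℝ) ^ 2 / q * (1 / s)) + 4 * L * ((x : ℝ) ^ 2 / q * (q / y ^ 8)) +
      4 * L * ((x : ℝ) ^ 2 / q * (y⁻¹) ^ 2) + 4 * L * ((x : ℝ) ^ 2 / q * (q * s / x)) := by ring
  rw [e2]
  linarith

lemma block {x q X₁ X₂ s : ℕ} {φ : ℕ → ℂ} {α y : ℝ} {b : ℤ} {a g : ℕ → ℂ} {K₁ K₂ : ℝ}
    (hx : 3 ≤ x) (hq : 1 ≤ q) (hφ : Tw q φ) (hs : 1 ≤ s) (hsx : s ≤ x)
    (hbs : IsCoprime b (s : ℤ)) (hα : |q * α - b / s| ≤ 1 / (s : ℝ) ^ 2) (hy : 1 ≤ y)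
    (hyx : y ^ 16 = x) (hy1 : (x : ℝ) ^ (-(1 / 16) : ℝ) = y⁻¹) (hy8 : Real.sqrt x = y ^ 8)
    (h21 : X₂ ≤ X₁) (h12 : X₁ * X₂ ≤ x) (h8 : y ^ 2 ≤ X₂) (hK₁ : 0 ≤ K₁) (hK₂ : 0 ≤ K₂)
    (hA : ∑ k ∈ Ioc X₁ (2 * X₁), ‖a k‖ ^ 2 ≤ K₁ * X₁)
    (hG : ∑ c ∈ Ioc X₂ (2 * X₂), ‖g c‖ ^ 2 ≤ K₂ * X₂) :
    ‖∑ k ∈ Ioc X₁ (2 * X₁), ∑ c ∈ Ioc X₂ (2 * X₂),
        (if c * k ≤ x then a k * g c * (φ (c * k) * e ((c * k : ℕ) * α)) else 0)‖ ^ 2 ≤
      32 * (K₁ * K₂) * Real.log x * ((x : ℝ) / Real.sqrt q * T x q s) ^ 2 := by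
  have hL := TypeI.one_le_log hx
  have hq0 : (0 : ℝ) < q := by exact_mod_cast hq
  have hs1 : (1 : ℝ) ≤ s := by exact_mod_cast hs
  have hls0 : 0 ≤ Real.log s := Real.log_nonneg hs1
  have h1 := typeII x q X₁ X₂ s φ α b a g hq hφ hs hbs hα
  have h2 := block_alg hx hq hs hsx hy hyx h12 h21 h8
  have h3 : 1 / (s : ℝ) + (y⁻¹) ^ 2 + q / y ^ 8 + q * s / x ≤ T x q s ^ 2 := T_sq hy1 hy8 hy
  refine h1.trans ?_
  have h4 : 0 ≤ ((X₂ : ℝ) / s + 1) * ((X₁ : ℝ) / q + 1 + s * (1 + Real.log s)) := by positivity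
  have hA0 : 0 ≤ ∑ k ∈ Ioc X₁ (2 * X₁), ‖a k‖ ^ 2 := by positivity
  have hG0 : 0 ≤ ∑ c ∈ Ioc X₂ (2 * X₂), ‖g c‖ ^ 2 := by positivity
  calc 8 * (∑ k ∈ Ioc X₁ (2 * X₁), ‖a k‖ ^ 2) * (∑ c ∈ Ioc X₂ (2 * X₂), ‖g c‖ ^ 2) *
        (((X₂ : ℝ) / s + 1) * ((X₁ : ℝ) / q + 1 + s * (1 + Real.log s)))
      ≤ 8 * (K₁ * X₁) * (K₂ * X₂) *
        (((X₂ : ℝ) / s + 1) * ((X₁ : ℝ) / q + 1 + s * (1 + Real.log s))) := by gcongr
    _ = 8 * (K₁ * K₂) * ((X₁ : ℝ) * X₂ *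
        (((X₂ : ℝ) / s + 1) * ((X₁ : ℝ) / q + 1 + s * (1 + Real.log s)))) := by ring
    _ ≤ 8 * (K₁ * K₂) * (4 * Real.log x * ((x : ℝ) ^ 2 / q) *
        (1 / (s : ℝ) + (y⁻¹) ^ 2 + q / y ^ 8 + q * s / x)) := by gcongr
    _ ≤ 8 * (K₁ * K₂) * (4 * Real.log x * ((x : ℝ) ^ 2 / q) * T x q s ^ 2) := by gcongr
    _ = _ := by
      rw [mul_pow, div_pow, Real.sq_sqrt hq0.le]
      ring

lemma log_two_mul {x k : ℕ} (hx : 3 ≤ x) (hk : 1 ≤ k) (hkx : k ≤ 2 * x) :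
    Real.log k ≤ 2 * Real.log x := by
  have hL := TypeI.one_le_log hx
  have hx0 : (0 : ℝ) < x := by
    have : (3 : ℝ) ≤ x := by exact_mod_cast hx
    linarith
  have h1 : Real.log k ≤ Real.log (2 * x) :=
    Real.log_le_log (by exact_mod_cast hk) (by exact_mod_cast hkx)
  rw [Real.log_mul (by norm_num) hx0.ne'] at h1
  have h2 := Real.log_two_lt_d9
  linarith

lemma LF_sum {x V X : ℕ} (hx : 3 ≤ x) (hX : X ≤ x) :
    ∑ k ∈ Ioc X (2 * X), ‖((LF V k : ℝ) : ℂ)‖ ^ 2 ≤ 4 * (Real.log x) ^ 2 * X := by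
  calc _ ≤ ∑ k ∈ Ioc X (2 * X), (2 * Real.log x) ^ 2 := by
        refine sum_le_sum fun k hk => ?_
        rw [Complex.norm_real, Real.norm_eq_abs, abs_of_nonneg (LF_nonneg V k)]
        refine pow_le_pow_left₀ (LF_nonneg V k) ?_ 2
        rw [mem_Ioc] at hk
        exact (LF_le V k).trans (log_two_mul hx (by omega) (by omega))
    _ = _ := by
      rw [sum_const, Nat.card_Ioc, nsmul_eq_mul]
      have h1 : 2 * X - X = X := by omega
      rw [h1]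
      ring

lemma BB_sum {C : ℝ} (hC : ∀ x N : ℕ, 3 ≤ x → N ≤ 2 * x →
    ∑ n ∈ Icc 1 N, (n.divisors.card : ℝ) ^ 2 ≤ C * N * (Real.log x) ^ 3) {x U X : ℕ}
    (hx : 3 ≤ x) (hX : X ≤ x) :
    ∑ k ∈ Ioc X (2 * X), ‖((BB U k : ℝ) : ℂ)‖ ^ 2 ≤ 2 * C * (Real.log x) ^ 3 * X := by
  calc _ ≤ ∑ k ∈ Ioc X (2 * X), (k.divisors.card : ℝ) ^ 2 := by
        refine sum_le_sum fun k hk => ?_
        rw [Complex.norm_real, Real.norm_eq_abs]
        exact pow_le_pow_left₀ (abs_nonneg _) (abs_BB_le U k) 2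
    _ ≤ ∑ k ∈ Icc 1 (2 * X), (k.divisors.card : ℝ) ^ 2 := by
        refine sum_le_sum_of_subset_of_nonneg ?_ fun _ _ _ => by positivity
        intro k hk
        rw [mem_Ioc] at hk
        rw [mem_Icc]
        omega
    _ ≤ C * (2 * X : ℕ) * (Real.log x) ^ 3 := hC x (2 * X) hx (by omega)
    _ = _ := by
      push_cast
      ring

lemma N_le {x : ℕ} (hx : 3 ≤ x) : ((Nat.log 2 x + 1 : ℕ) : ℝ) ≤ 3 * Real.log x := by
  have hL := TypeI.one_le_log hx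
  have h1 : (2 : ℝ) ^ (Nat.log 2 x) ≤ x := by
    exact_mod_cast Nat.pow_log_le_self 2 (by omega)
  have h2 : Real.log ((2 : ℝ) ^ (Nat.log 2 x)) ≤ Real.log x :=
    Real.log_le_log (by positivity) h1
  rw [Real.log_pow] at h2
  have h3 := Real.log_two_gt_d9
  push_cast
  have h4 : (0 : ℝ) ≤ (Nat.log 2 x : ℝ) := Nat.cast_nonneg _
  nlinarith

/-- the type II part -/
lemma two {C : ℝ} (hC0 : 0 < C) (hC : ∀ x N : ℕ, 3 ≤ x → N ≤ 2 * x →
    ∑ n ∈ Icc 1 N, (n.divisors.card : ℝ) ^ 2 ≤ C * N * (Real.log x) ^ 3)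
    {x q s V U : ℕ} {φ : ℕ → ℂ} {α y : ℝ} {b : ℤ}
    (hx : 3 ≤ x) (hq : 1 ≤ q) (hφ : Tw q φ) (hs : 1 ≤ s) (hsx : s ≤ x)
    (hbs : IsCoprime b (s : ℤ)) (hα : |q * α - b / s| ≤ 1 / (s : ℝ) ^ 2) (hy : 1 ≤ y)
    (hyx : y ^ 16 = x) (hy1 : (x : ℝ) ^ (-(1 / 16) : ℝ) = y⁻¹) (hy8 : Real.sqrt x = y ^ 8)
    (hV : y ^ 2 ≤ V) (hU : y ^ 2 ≤ U) :
    ‖∑ c ∈ Icc 1 x, ∑ k ∈ Icc 1 x, ((LF V c : ℝ) : ℂ) * ((BB U k : ℝ) : ℂ) *
        (if c * k ≤ x then φ (c * k) * e ((c * k : ℕ) * α) else 0)‖ ≤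
      144 * (C + 1) * (Real.log x) ^ 5 * ((x : ℝ) / Real.sqrt q * T x q s) := by
  have hL := TypeI.one_le_log hx
  set L := Real.log x with hLd
  set M : ℝ := (x : ℝ) / Real.sqrt q * T x q s with hM
  have hM0 : 0 ≤ M := mul_nonneg (by positivity) (T_nonneg x q s)
  have hy2 : 1 ≤ y ^ 2 := one_le_pow₀ hy
  have hV1 : 1 ≤ V := by exact_mod_cast hy2.trans hV
  have hU1 : 1 ≤ U := by exact_mod_cast hy2.trans hU
  set N := Nat.log 2 x + 1 with hN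
  have hxN : x ≤ 2 ^ N := (Nat.lt_pow_succ_log_self (by norm_num) x).le
  have hNL := N_le hx
  have hNN : ((N : ℕ) : ℝ) ^ 2 ≤ (3 * L) ^ 2 := pow_le_pow_left₀ (Nat.cast_nonneg _) hNL 2
  have hB : ∀ i < N, ∀ j < N, ‖∑ c ∈ Ioc (2 ^ i * V) (2 * (2 ^ i * V)),
      ∑ k ∈ Ioc (2 ^ j * U) (2 * (2 ^ j * U)), ((LF V c : ℝ) : ℂ) * ((BB U k : ℝ) : ℂ) *
        (fun n : ℕ => if n ≤ x then φ n * e ((n : ℕ) * α) else 0) (c * k)‖ ≤
          16 * (C + 1) * L ^ 3 * M := by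
    intro i _ j _
    have hX8 : y ^ 2 ≤ ((2 ^ i * V : ℕ) : ℝ) :=
      hV.trans (by exact_mod_cast Nat.le_mul_of_pos_left V (by positivity))
    have hY8 : y ^ 2 ≤ ((2 ^ j * U : ℕ) : ℝ) :=
      hU.trans (by exact_mod_cast Nat.le_mul_of_pos_left U (by positivity))
    generalize 2 ^ i * V = X at hX8 ⊢
    generalize 2 ^ j * U = Y at hY8 ⊢
    have hX1 : 1 ≤ X := by exact_mod_cast hy2.trans hX8
    have hY1 : 1 ≤ Y := by exact_mod_cast hy2.trans hY8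
    by_cases hXY : X * Y ≤ x
    · have hXx : X ≤ x := (Nat.le_mul_of_pos_right X hY1).trans hXY
      have hYx : Y ≤ x := (Nat.le_mul_of_pos_left Y hX1).trans hXY
      have hf := LF_sum (V := V) hx hXx
      have hg := BB_sum hC (U := U) hx hYx
      have hbound : ‖∑ c ∈ Ioc X (2 * X), ∑ k ∈ Ioc Y (2 * Y),
          ((LF V c : ℝ) : ℂ) * ((BB U k : ℝ) : ℂ) *
          (fun n : ℕ => if n ≤ x then φ n * e ((n : ℕ) * α) else 0) (c * k)‖ ^ 2 ≤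
          256 * C * L ^ 6 * M ^ 2 := by
        rcases le_total Y X with h | h
        · have hb := block (a := fun c => ((LF V c : ℝ) : ℂ)) (g := fun k => ((BB U k : ℝ) : ℂ))
            hx hq hφ hs hsx hbs hα hy hyx hy1 hy8 h hXY hY8 (by positivity) (by positivity) hf hg
          have he : ∑ c ∈ Ioc X (2 * X), ∑ k ∈ Ioc Y (2 * Y),
              ((LF V c : ℝ) : ℂ) * ((BB U k : ℝ) : ℂ) *
              (fun n : ℕ => if n ≤ x then φ n * e ((n : ℕ) * α) else 0) (c * k) =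
              ∑ k ∈ Ioc X (2 * X), ∑ c ∈ Ioc Y (2 * Y),
              (if c * k ≤ x then ((LF V k : ℝ) : ℂ) * ((BB U c : ℝ) : ℂ) *
                (φ (c * k) * e ((c * k : ℕ) * α)) else 0) := by
            refine sum_congr rfl fun c _ => sum_congr rfl fun k _ => ?_
            rw [mul_comm k c]
            simp only [mul_ite, mul_zero]
          rw [he]
          refine hb.trans (le_of_eq ?_)
          ring
        · have hb := block (a := fun k => ((BB U k : ℝ) : ℂ)) (g := fun c => ((LF V c : ℝ) : ℂ))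
            hx hq hφ hs hsx hbs hα hy hyx hy1 hy8 h (by rwa [mul_comm] at hXY) hX8
            (by positivity) (by positivity) hg hf
          have he : ∑ c ∈ Ioc X (2 * X), ∑ k ∈ Ioc Y (2 * Y),
              ((LF V c : ℝ) : ℂ) * ((BB U k : ℝ) : ℂ) *
              (fun n : ℕ => if n ≤ x then φ n * e ((n : ℕ) * α) else 0) (c * k) =
              ∑ k ∈ Ioc Y (2 * Y), ∑ c ∈ Ioc X (2 * X),
              (if c * k ≤ x then ((BB U k : ℝ) : ℂ) * ((LF V c : ℝ) : ℂ) *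
                (φ (c * k) * e ((c * k : ℕ) * α)) else 0) := by
            rw [sum_comm]
            refine sum_congr rfl fun k _ => sum_congr rfl fun c _ => ?_
            simp only [mul_ite, mul_zero]
            rw [mul_comm ((LF V c : ℝ) : ℂ)]
          rw [he]
          refine hb.trans (le_of_eq ?_)
          ring
      refine (sq_le_sq₀ (norm_nonneg _) (by positivity)).mp (hbound.trans ?_)
      have h5 : C ≤ (C + 1) ^ 2 := by nlinarith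
      calc 256 * C * L ^ 6 * M ^ 2 ≤ 256 * (C + 1) ^ 2 * L ^ 6 * M ^ 2 := by gcongr
        _ = _ := by ring
    · have h0 : ∑ c ∈ Ioc X (2 * X), ∑ k ∈ Ioc Y (2 * Y),
          ((LF V c : ℝ) : ℂ) * ((BB U k : ℝ) : ℂ) *
          (fun n : ℕ => if n ≤ x then φ n * e ((n : ℕ) * α) else 0) (c * k) = 0 := by
        refine sum_eq_zero fun c hc => sum_eq_zero fun k hk => ?_
        have h6 : X * Y ≤ c * k :=
          Nat.mul_le_mul (mem_Ioc.mp hc).1.le (mem_Ioc.mp hk).1.le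
        have h7 : ¬ c * k ≤ x := fun h => hXY (h6.trans h)
        simp only [if_neg h7, mul_zero]
      rw [h0, norm_zero]
      positivity
  have h := typeII_sum (x := x) (V := V) (U := U) (N := N)
    (hxN.trans (Nat.le_mul_of_pos_right _ hV1)) (hxN.trans (Nat.le_mul_of_pos_right _ hU1))
    (fun c => ((LF V c : ℝ) : ℂ)) (fun k => ((BB U k : ℝ) : ℂ))
    (fun n : ℕ => if n ≤ x then φ n * e ((n : ℕ) * α) else 0)
    (fun c hc => by simp [LF_apply, hc]) (fun k hk => by simp [BB_of_le hk])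
    (fun n hn => by simp [not_le.mpr hn]) hB
  refine h.trans ?_
  calc (N : ℝ) ^ 2 * (16 * (C + 1) * L ^ 3 * M) ≤ (3 * L) ^ 2 * (16 * (C + 1) * L ^ 3 * M) := by
        gcongr
    _ = _ := by ring

lemma q_le {x q : ℕ} {y : ℝ} (hqx : q ^ 2 ≤ x) (hy : 1 ≤ y) (hyx : y ^ 16 = x) :
    (q : ℝ) ≤ y ^ 8 := by
  have h1 : (q : ℝ) ^ 2 ≤ (y ^ 8) ^ 2 := by
    rw [← pow_mul]
    norm_num
    rw [hyx]
    exact_mod_cast hqx
  exact (sq_le_sq₀ (by positivity) (by positivity)).mp h1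

lemma typeI_alg {x q s D : ℕ} {y : ℝ} (hx : 3 ≤ x) (hq : 1 ≤ q) (hs : 1 ≤ s)
    (hqs : q * s ≤ x) (hqx : q ^ 2 ≤ x) (hy : 1 ≤ y) (hyx : y ^ 16 = x)
    (hy1 : (x : ℝ) ^ (-(1 / 16) : ℝ) = y⁻¹) (hD : (D : ℝ) ≤ 4 * y ^ 4) :
    Real.sqrt q * ((x : ℝ) / (q * s) + D + s) ≤ 4 * ((x : ℝ) / Real.sqrt q * T x q s) := by
  have hx0 : (0 : ℝ) < x := by
    have : (3 : ℝ) ≤ x := by exact_mod_cast hx
    linarith
  have hq0 : (0 : ℝ) < q := by exact_mod_cast hq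
  have hs1 : (1 : ℝ) ≤ s := by exact_mod_cast hs
  have hs0 : (0 : ℝ) < s := by linarith
  have hy0 : 0 < y := by linarith
  have hsq : 0 < Real.sqrt q := Real.sqrt_pos.mpr hq0
  have hss : Real.sqrt q * Real.sqrt q = q := Real.mul_self_sqrt hq0.le
  have hqy := q_le hqx hy hyx
  set R : ℝ := (x : ℝ) / Real.sqrt q with hR
  have hR0 : 0 < R := by positivity
  have e1 : Real.sqrt q * ((x : ℝ) / (q * s) + D + s) =
      R * (1 / s + q * D / x + q * s / x) := by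
    have h1 : Real.sqrt q = R * (q / x) := by
      rw [hR, div_mul_div_comm, mul_comm (x : ℝ) q, mul_div_mul_right _ _ hx0.ne', eq_div_iff hsq.ne']
      exact hss
    rw [h1]
    field_simp
  rw [e1]
  have h2 : 1 / (s : ℝ) ≤ 1 / Real.sqrt s := by
    refine one_div_le_one_div_of_le (Real.sqrt_pos.mpr hs0) ?_
    rw [Real.sqrt_le_left hs0.le]
    nlinarith
  have h3 : (q : ℝ) * D / x ≤ 4 * y⁻¹ := by
    rw [div_le_iff₀ hx0, ← hyx]
    calc (q : ℝ) * D ≤ y ^ 8 * (4 * y ^ 4) := by gcongr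
      _ = 4 * y ^ 12 := by ring
      _ ≤ 4 * y ^ 15 := by
        have : y ^ 12 ≤ y ^ 15 := pow_le_pow_right₀ hy (by norm_num)
        linarith
      _ = 4 * y⁻¹ * y ^ 16 := by
        field_simp
  have h4 : (q : ℝ) * s / x ≤ Real.sqrt (q * s / x) := by
    have h5 : (q : ℝ) * s / x ≤ 1 := by
      rw [div_le_one hx0]
      exact_mod_cast hqs
    refine Real.le_sqrt_of_sq_le ?_
    have h6 : 0 ≤ (q : ℝ) * s / x := by positivity
    nlinarith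
  have h5 : 0 ≤ 1 / Real.sqrt (s : ℝ) := by positivity
  have h6 : 0 ≤ Real.sqrt (q * s / x) := Real.sqrt_nonneg _
  have h7 : 0 ≤ Real.sqrt (q / Real.sqrt x) := Real.sqrt_nonneg _
  have h8 : 1 / (s : ℝ) + q * D / x + q * s / x ≤ 4 * T x q s := by
    unfold T
    rw [hy1]
    linarith
  calc R * (1 / s + q * D / x + q * s / x) ≤ R * (4 * T x q s) := by gcongr
    _ = _ := by ring

lemma one {x q V : ℕ} {φ : ℕ → ℂ} {α y : ℝ} (s : ℕ) (hx : 3 ≤ x) (hq : 1 ≤ q)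
    (hqx : q ^ 2 ≤ x) (hφ : Tw q φ) (hy : 1 ≤ y) (hyx : y ^ 16 = x)
    (hy1 : (x : ℝ) ^ (-(1 / 16) : ℝ) = y⁻¹) (hV : (V : ℝ) ≤ 2 * y ^ 2) :
    ‖∑ n ∈ Icc 1 x, ((FF V n : ℝ) : ℂ) * (if n ≤ x then φ n * e (n * α) else 0)‖ ≤
      2 * Real.log x * ((x : ℝ) / Real.sqrt q * T x q s) := by
  have hL := TypeI.one_le_log hx
  have hx0 : (0 : ℝ) < x := by
    have : (3 : ℝ) ≤ x := by exact_mod_cast hx
    linarith
  have hq0 : (0 : ℝ) < q := by exact_mod_cast hq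
  have hy0 : 0 < y := by linarith
  have hsq : 0 < Real.sqrt q := Real.sqrt_pos.mpr hq0
  have hqy := q_le hqx hy hyx
  have hsqy : Real.sqrt q ≤ y ^ 4 := by
    rw [Real.sqrt_le_left (by positivity)]
    calc (q : ℝ) ≤ y ^ 8 := hqy
      _ = (y ^ 4) ^ 2 := by ring
  have h1 : ‖∑ n ∈ Icc 1 x, ((FF V n : ℝ) : ℂ) * (if n ≤ x then φ n * e (n * α) else 0)‖ ≤
      V * Real.log x := by
    calc _ ≤ ∑ n ∈ Icc 1 x, ‖((FF V n : ℝ) : ℂ) * (if n ≤ x then φ n * e (n * α) else 0)‖ :=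
          norm_sum_le _ _
      _ ≤ ∑ n ∈ Icc 1 x, (if n ≤ V then Real.log x else 0) := by
        refine sum_le_sum fun n hn => ?_
        rw [if_pos (mem_Icc.mp hn).2, norm_mul, norm_mul, add_norm_e, mul_one, Complex.norm_real,
          Real.norm_eq_abs, abs_of_nonneg (FF_nonneg V n), FF_apply]
        have h2 := norm_le_one hq hφ n
        split_ifs with h
        · have h3 : Λ n ≤ Real.log x := by
            refine ArithmeticFunction.vonMangoldt_le_log.trans ?_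
            exact Real.log_le_log (by exact_mod_cast (mem_Icc.mp hn).1)
              (by exact_mod_cast (mem_Icc.mp hn).2)
          calc Λ n * ‖φ n‖ ≤ Real.log x * 1 := by
                gcongr
            _ = _ := mul_one _
        · simp
      _ = ∑ n ∈ (Icc 1 x).filter (fun n => n ≤ V), Real.log x := by rw [sum_filter]
      _ ≤ ∑ n ∈ Icc 1 V, Real.log x := by
        refine sum_le_sum_of_subset_of_nonneg ?_ fun _ _ _ => by positivity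
        intro n hn
        rw [mem_filter, mem_Icc] at hn
        exact mem_Icc.mpr ⟨hn.1.1, hn.2⟩
      _ = V * Real.log x := by
        rw [sum_const, Nat.card_Icc, nsmul_eq_mul, Nat.add_sub_cancel]
  refine h1.trans ?_
  have h2 : y ^ 2 ≤ (x : ℝ) / Real.sqrt q * y⁻¹ := by
    rw [← div_eq_mul_inv, div_div, le_div_iff₀ (by positivity), ← hyx]
    calc y ^ 2 * (Real.sqrt q * y) ≤ y ^ 2 * (y ^ 4 * y) := by gcongr
      _ = y ^ 7 := by ring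
      _ ≤ y ^ 16 := pow_le_pow_right₀ hy (by norm_num)
  have h3 : y⁻¹ ≤ T x q s := by
    unfold T
    rw [hy1]
    have h5 : 0 ≤ 1 / Real.sqrt (s : ℝ) := by positivity
    have h6 : 0 ≤ Real.sqrt (q * s / x) := Real.sqrt_nonneg _
    have h7 : 0 ≤ Real.sqrt (q / Real.sqrt x) := Real.sqrt_nonneg _
    linarith
  calc (V : ℝ) * Real.log x ≤ 2 * y ^ 2 * Real.log x := by gcongr
    _ ≤ 2 * ((x : ℝ) / Real.sqrt q * y⁻¹) * Real.log x := by gcongr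
    _ ≤ 2 * ((x : ℝ) / Real.sqrt q * T x q s) * Real.log x := by gcongr
    _ = _ := by ring

end Minor

theorem minorF : ∃ C : ℝ, 0 < C ∧ ∀ (x q s : ℕ) (φ : ℕ → ℂ) (α : ℝ) (b : ℤ), 3 ≤ x → 1 ≤ q →
    q ^ 2 ≤ x → Tw q φ → 1 ≤ s → s ≤ x → IsCoprime b (s : ℤ) →
    |q * α - b / s| ≤ 1 / (s : ℝ) ^ 2 →
    ‖∑ n ∈ Icc 1 x, FL q n * φ n * e (n * α)‖ ≤
      C * ((x : ℝ) / Real.sqrt q) * (Real.log x) ^ 6 *
        (1 / Real.sqrt s + (x : ℝ) ^ (-(1 / 16) : ℝ) + Real.sqrt (q / Real.sqrt x) +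
          Real.sqrt (q * s / x)) := by
  obtain ⟨C₁, hC₁, H₁⟩ := typeI
  obtain ⟨C₂, hC₂, H₂⟩ := typeI_log
  obtain ⟨C, hC, HC⟩ := tau_sq_sum
  refine ⟨2 + 4 * C₁ + 4 * C₂ + 144 * (C + 1), by positivity, ?_⟩
  intro x q s φ α b hx hq hqx hφ hs hsx hbs hα
  obtain ⟨y, hy, hyx, hy1, hy8⟩ := Minor.y_facts hx
  have hL := TypeI.one_le_log hx
  have hTd : 1 / Real.sqrt s + (x : ℝ) ^ (-(1 / 16) : ℝ) + Real.sqrt (q / Real.sqrt x) +
          Real.sqrt (q * s / x) = Minor.T x q s := rfl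
  rw [hTd]
  have hx0 : (0 : ℝ) < x := by
    have : (3 : ℝ) ≤ x := by exact_mod_cast hx
    linarith
  have hqx' : q ≤ x := (Nat.le_self_pow (by norm_num) q).trans hqx
  set L := Real.log x with hLd
  set R : ℝ := (x : ℝ) / Real.sqrt q with hR
  have hR0 : 0 ≤ R := by positivity
  have hT0 := Minor.T_nonneg x q s
  have hRT : 0 ≤ R * Minor.T x q s := mul_nonneg hR0 hT0
  have hL6 : L ≤ L ^ 6 := le_self_pow₀ hL (by norm_num)
  have hL26 : L ^ 2 ≤ L ^ 6 := pow_le_pow_right₀ hL (by norm_num)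
  have hL56 : L ^ 5 ≤ L ^ 6 := pow_le_pow_right₀ hL (by norm_num)
  by_cases hqs : q * s ≤ x
  · -- the main case
    have hy2 : 1 ≤ y ^ 2 := one_le_pow₀ hy
    set U := ⌊y ^ 2⌋₊ + 1 with hU
    have hU1 : y ^ 2 ≤ U := by
      rw [hU]
      push_cast
      exact (Nat.lt_floor_add_one _).le
    have hU2 : (U : ℝ) ≤ 2 * y ^ 2 := by
      rw [hU]
      push_cast
      have := Nat.floor_le (by positivity : 0 ≤ y ^ 2)
      linarith
    set h : ℕ → ℂ := fun n => if n ≤ x then φ n * e ((n : ℕ) * α) else 0 with hh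
    have hh0 : ∀ n, x < n → h n = 0 := fun n hn => by
      simp only [hh, if_neg (not_le.mpr hn)]
    have e1 : ∑ n ∈ Icc 1 x, FL q n * φ n * e (n * α) =
        ∑ n ∈ Icc 1 x, ((Λ n : ℝ) : ℂ) * h n := by
      refine sum_congr rfl fun n hn => ?_
      rw [Minor.FL_mul hφ, hh]
      simp only [if_pos (mem_Icc.mp hn).2]
      ring
    have e2 : ∑ n ∈ Icc 1 x, ((Λ n : ℝ) : ℂ) * h n =
        ∑ n ∈ Icc 1 x, ((FF U n : ℝ) : ℂ) * h n +
        ∑ n ∈ Icc 1 x, (((ArithmeticFunction.log * GG U) n : ℝ) : ℂ) * h n -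
        ∑ n ∈ Icc 1 x, ((((ζ : ArithmeticFunction ℝ) * CC U U) n : ℝ) : ℂ) * h n +
        ∑ n ∈ Icc 1 x, (((LF U * BB U) n : ℝ) : ℂ) * h n := by
      rw [← sum_add_distrib, ← sum_sub_distrib, ← sum_add_distrib]
      refine sum_congr rfl fun n _ => ?_
      have h1 := congrArg (fun f : ArithmeticFunction ℝ => f n) (vaughan U U)
      simp only [ArithmeticFunction.add_apply, sub_eq_add_neg, ArithmeticFunction.neg_apply] at h1
      rw [h1]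
      push_cast
      ring
    have b1 : ‖∑ n ∈ Icc 1 x, ((FF U n : ℝ) : ℂ) * h n‖ ≤ 2 * L * (R * Minor.T x q s) :=
      Minor.one s hx hq hqx hφ hy hyx hy1 hU2
    have b2 : ‖∑ n ∈ Icc 1 x, (((ArithmeticFunction.log * GG U) n : ℝ) : ℂ) * h n‖ ≤
        4 * C₂ * L ^ 2 * (R * Minor.T x q s) := by
      rw [sum_conv _ _ h x hh0]
      have h1 := Minor.rearr x (min U x) φ α (fun k => ((Real.log k : ℝ) : ℂ))
        (fun d => ((GG U d : ℝ) : ℂ)) (min_le_right _ _) (fun d hd hdx => by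
          have : U < d := by
            rcases min_lt_iff.mp hd with h | h
            · exact h
            · omega
          simp [GG_of_lt this])
      have h2 : ∑ a ∈ Icc 1 x, ∑ b ∈ Icc 1 x,
          ((ArithmeticFunction.log a : ℝ) : ℂ) * ((GG U b : ℝ) : ℂ) * h (a * b) =
          ∑ d ∈ Icc 1 (min U x), ((GG U d : ℝ) : ℂ) * ∑ k ∈ Icc 1 (x / d),
            ((Real.log k : ℝ) : ℂ) * (φ (d * k) * e ((d * k : ℕ) * α)) := by
        rw [← h1]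
        rfl
      rw [h2]
      have h3 := H₂ x q (min U x) s φ α b (fun d => ((GG U d : ℝ) : ℂ)) 1 hx hq hφ
        (min_le_right _ _) hs hsx hbs hα zero_le_one (fun d _ => by
          rw [Complex.norm_real, Real.norm_eq_abs]
          exact abs_GG_le U d)
      have h4 : ((min U x : ℕ) : ℝ) ≤ 4 * y ^ 4 := by
        have h5 : ((min U x : ℕ) : ℝ) ≤ U := by exact_mod_cast min_le_left _ _
        have h6 : y ^ 2 ≤ y ^ 4 := pow_le_pow_right₀ hy (by norm_num)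
        linarith
      have h5 := Minor.typeI_alg hx hq hs hqs hqx hy hyx hy1 h4
      refine h3.trans ?_
      calc C₂ * 1 * Real.sqrt q * ((x : ℝ) / (q * s) + (min U x : ℕ) + s) * L ^ 2
          = C₂ * L ^ 2 * (Real.sqrt q * ((x : ℝ) / (q * s) + (min U x : ℕ) + s)) := by ring
        _ ≤ C₂ * L ^ 2 * (4 * (R * Minor.T x q s)) := by gcongr
        _ = _ := by ring
    have b3 : ‖∑ n ∈ Icc 1 x, ((((ζ : ArithmeticFunction ℝ) * CC U U) n : ℝ) : ℂ) * h n‖ ≤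
        4 * C₁ * L ^ 2 * (R * Minor.T x q s) := by
      rw [sum_conv _ _ h x hh0]
      have h1 := Minor.rearr x (min (U * U) x) φ α
        (fun k => (((ζ : ArithmeticFunction ℝ) k : ℝ) : ℂ))
        (fun d => ((CC U U d : ℝ) : ℂ)) (min_le_right _ _) (fun d hd hdx => by
          have : U * U < d := by
            rcases min_lt_iff.mp hd with h | h
            · exact h
            · omega
          simp [CC_of_lt this])
      have h2 : ∑ a ∈ Icc 1 x, ∑ b ∈ Icc 1 x,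
          (((ζ : ArithmeticFunction ℝ) a : ℝ) : ℂ) * ((CC U U b : ℝ) : ℂ) * h (a * b) =
          ∑ d ∈ Icc 1 (min (U * U) x), ((CC U U d : ℝ) : ℂ) * ∑ k ∈ Icc 1 (x / d),
            φ (d * k) * e ((d * k : ℕ) * α) := by
        refine h1.trans ?_
        refine sum_congr rfl fun d _ => ?_
        congr 1
        refine sum_congr rfl fun k hk => ?_
        have hk0 : k ≠ 0 := by
          have := (mem_Icc.mp hk).1
          omega
        rw [ArithmeticFunction.natCoe_apply, ArithmeticFunction.zeta_apply_ne hk0]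
        simp
      rw [h2]
      have h3 := H₁ x q (min (U * U) x) s φ α b (fun d => ((CC U U d : ℝ) : ℂ)) L hx hq hφ
        (min_le_right _ _) hs hsx hbs hα (by linarith) (fun d hd => by
          rw [Complex.norm_real, Real.norm_eq_abs]
          refine (abs_CC_le U U d).trans ?_
          rw [mem_Icc] at hd
          exact Real.log_le_log (by exact_mod_cast hd.1)
            (by exact_mod_cast hd.2.trans (min_le_right _ _)))
      have h4 : ((min (U * U) x : ℕ) : ℝ) ≤ 4 * y ^ 4 := by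
        have h5 : ((min (U * U) x : ℕ) : ℝ) ≤ (U : ℝ) * U := by
          exact_mod_cast min_le_left _ _
        have h6 : (U : ℝ) * U ≤ (2 * y ^ 2) * (2 * y ^ 2) := by gcongr
        have h7 : (2 * y ^ 2) * (2 * y ^ 2) = 4 * y ^ 4 := by ring
        linarith
      have h5 := Minor.typeI_alg hx hq hs hqs hqx hy hyx hy1 h4
      refine h3.trans ?_
      calc C₁ * L * Real.sqrt q * ((x : ℝ) / (q * s) + (min (U * U) x : ℕ) + s) * L
          = C₁ * L ^ 2 * (Real.sqrt q * ((x : ℝ) / (q * s) + (min (U * U) x : ℕ) + s)) := by ring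
        _ ≤ C₁ * L ^ 2 * (4 * (R * Minor.T x q s)) := by gcongr
        _ = _ := by ring
    have b4 : ‖∑ n ∈ Icc 1 x, (((LF U * BB U) n : ℝ) : ℂ) * h n‖ ≤
        144 * (C + 1) * L ^ 5 * (R * Minor.T x q s) := by
      rw [sum_conv _ _ h x hh0]
      exact Minor.two hC HC hx hq hφ hs hsx hbs hα hy hyx hy1 hy8 hU1 hU1
    rw [e1, e2]
    have key : ∀ a b c d : ℂ, ‖a + b - c + d‖ ≤ ‖a‖ + ‖b‖ + ‖c‖ + ‖d‖ := by
      intro a b c d
      calc ‖a + b - c + d‖ ≤ ‖a + b - c‖ + ‖d‖ := norm_add_le _ _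
        _ ≤ ‖a + b‖ + ‖c‖ + ‖d‖ := by gcongr; exact norm_sub_le _ _
        _ ≤ ‖a‖ + ‖b‖ + ‖c‖ + ‖d‖ := by gcongr; exact norm_add_le _ _
    refine (key _ _ _ _).trans ?_
    have c1 : 2 * L * (R * Minor.T x q s) ≤ 2 * L ^ 6 * (R * Minor.T x q s) := by gcongr
    have c2 : 4 * C₂ * L ^ 2 * (R * Minor.T x q s) ≤ 4 * C₂ * L ^ 6 * (R * Minor.T x q s) := by
      gcongr
    have c3 : 4 * C₁ * L ^ 2 * (R * Minor.T x q s) ≤ 4 * C₁ * L ^ 6 * (R * Minor.T x q s) := by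
      gcongr
    have c4 : 144 * (C + 1) * L ^ 5 * (R * Minor.T x q s) ≤
        144 * (C + 1) * L ^ 6 * (R * Minor.T x q s) := by gcongr
    calc _ ≤ 2 * L ^ 6 * (R * Minor.T x q s) + 4 * C₂ * L ^ 6 * (R * Minor.T x q s) +
          4 * C₁ * L ^ 6 * (R * Minor.T x q s) + 144 * (C + 1) * L ^ 6 * (R * Minor.T x q s) := by
          linarith
      _ = _ := by ring
  · -- the trivial case
    have h1 : 1 ≤ Minor.T x q s := by
      have h2 : 1 ≤ Real.sqrt ((q : ℝ) * s / x) := by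
        rw [Real.one_le_sqrt, le_div_iff₀ hx0, one_mul]
        exact_mod_cast (not_le.mp hqs).le
      unfold Minor.T
      have h5 : 0 ≤ 1 / Real.sqrt (s : ℝ) := by positivity
      have h6 : 0 ≤ (x : ℝ) ^ (-(1 / 16) : ℝ) := by positivity
      have h7 : 0 ≤ Real.sqrt ((q : ℝ) / Real.sqrt x) := Real.sqrt_nonneg _
      linarith
    refine (Minor.triv hq hqx' hφ α).trans ?_
    calc 2 * R * L ≤ (2 + 4 * C₁ + 4 * C₂ + 144 * (C + 1)) * R * L := by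
          gcongr
          nlinarith
      _ ≤ (2 + 4 * C₁ + 4 * C₂ + 144 * (C + 1)) * R * L ^ 6 := by gcongr
      _ = (2 + 4 * C₁ + 4 * C₂ + 144 * (C + 1)) * R * L ^ 6 * 1 := by ring
      _ ≤ (2 + 4 * C₁ + 4 * C₂ + 144 * (C + 1)) * R * L ^ 6 * Minor.T x q s := by gcongr

end Pool.Agent.HL
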