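import Mathlib

/-! # Module SupArith: arithmetic for SupVV -/

namespace Pool.Agent.HL

/-- arithmetic of the major arcs -/
theorem sup_major_arith (B'' B₁ B₂ : ℕ) (X L q s ρ Qr : ℝ) (hL : 1000 ≤ L) (hX : 1 ≤ X)
    (hq : 1 ≤ q) (hs : 1 ≤ s) (hqX : q ^ 2 ≤ X) (hsL : s ≤ L ^ B₁) (hρ0 : 0 ≤ ρ) (hρ : ρ ≤ 4 * L)
    (hQ0 : 0 ≤ Qr) (hQ : Qr ≤ 2 * L ^ B₁)
    (hbig : 2000000 * L ^ (B'' + 6 * B₁ + 2 * B₂ + 4) ≤ X) :
    2 * s * (1 + (2 * Real.pi * (L ^ B₂)) ^ 2) *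
      (2 * (X ^ 2 / (q * s * L ^ (B'' + 2 * B₂ + 2))) + 8 * L ^ 4 + 32 * (q * s) * ρ ^ 2 * Qr ^ 4) ≤
    X ^ 2 / (q * L ^ B'') := by
  have hL0 : 0 < L := by linarith
  have hL1 : 1 ≤ L := by linarith
  have hX0 : 0 < X := by linarith
  have hq0 : 0 < q := by linarith
  have hs0 : 0 < s := by linarith
  have hpi : Real.pi ^ 2 ≤ 10 := by nlinarith [Real.pi_lt_d2, Real.pi_pos]
  have hB1 : 1 ≤ L ^ B₁ := one_le_pow₀ hL1
  have hB2 : 1 ≤ L ^ B₂ := one_le_pow₀ hL1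
  have hT : 1 + (2 * Real.pi * (L ^ B₂)) ^ 2 ≤ 41 * L ^ (2 * B₂) := by
    have e1 : L ^ (2 * B₂) = (L ^ B₂) ^ 2 := by rw [mul_comm, pow_mul]
    rw [e1]
    nlinarith [one_le_pow₀ hB2 (n := 2), sq_nonneg (L ^ B₂)]
  have hT0 : 0 ≤ 1 + (2 * Real.pi * (L ^ B₂)) ^ 2 := by positivity
  set T := 1 + (2 * Real.pi * (L ^ B₂)) ^ 2 with hTdef
  -- first part
  have h1 : 2 * s * T * (2 * (X ^ 2 / (q * s * L ^ (B'' + 2 * B₂ + 2)))) ≤
      1 / 2 * (X ^ 2 / (q * L ^ B'')) := by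
    have e1 : 2 * s * T * (2 * (X ^ 2 / (q * s * L ^ (B'' + 2 * B₂ + 2)))) =
        (4 * T / (L ^ (2 * B₂) * L ^ 2)) * (X ^ 2 / (q * L ^ B'')) := by
      have : L ^ (B'' + 2 * B₂ + 2) = L ^ B'' * (L ^ (2 * B₂) * L ^ 2) := by ring
      rw [this]
      field_simp
      ring
    rw [e1]
    refine mul_le_mul_of_nonneg_right ?_ (by positivity)
    rw [div_le_iff₀ (by positivity)]
    have : (328 : ℝ) ≤ L ^ 2 := by nlinarith
    have h3 : 0 ≤ L ^ (2 * B₂) := by positivity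
    nlinarith [mul_le_mul_of_nonneg_left this h3]
  -- second part
  have h2 : 8 * L ^ 4 + 32 * (q * s) * ρ ^ 2 * Qr ^ 4 ≤ 8200 * q * L ^ (5 * B₁ + 4) := by
    have a1 : ρ ^ 2 ≤ (4 * L) ^ 2 := pow_le_pow_left₀ hρ0 hρ 2
    have a2 : Qr ^ 4 ≤ (2 * L ^ B₁) ^ 4 := pow_le_pow_left₀ hQ0 hQ 4
    have a3 : 32 * (q * s) * ρ ^ 2 * Qr ^ 4 ≤ 32 * (q * L ^ B₁) * (4 * L) ^ 2 * (2 * L ^ B₁) ^ 4 := by
      gcongr
    have a4 : 32 * (q * L ^ B₁) * (4 * L) ^ 2 * (2 * L ^ B₁) ^ 4 = 8192 * q * L ^ (5 * B₁ + 2) := by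
      ring
    have a5 : L ^ (5 * B₁ + 2) ≤ L ^ (5 * B₁ + 4) := pow_le_pow_right₀ hL1 (by omega)
    have a6 : L ^ 4 ≤ L ^ (5 * B₁ + 4) := pow_le_pow_right₀ hL1 (by omega)
    have a7 : 0 ≤ L ^ (5 * B₁ + 4) := by positivity
    calc 8 * L ^ 4 + 32 * (q * s) * ρ ^ 2 * Qr ^ 4
        ≤ 8 * (q * L ^ (5 * B₁ + 4)) + 8192 * q * L ^ (5 * B₁ + 4) := by
          refine add_le_add ?_ ?_
          · nlinarith
          · rw [a4] at a3
            refine a3.trans ?_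
            gcongr
      _ = 8200 * q * L ^ (5 * B₁ + 4) := by ring
  have h3 : 2 * s * T * (8 * L ^ 4 + 32 * (q * s) * ρ ^ 2 * Qr ^ 4) ≤
      1 / 2 * (X ^ 2 / (q * L ^ B'')) := by
    have b1 : 2 * s * T * (8 * L ^ 4 + 32 * (q * s) * ρ ^ 2 * Qr ^ 4) ≤
        2 * L ^ B₁ * (41 * L ^ (2 * B₂)) * (8200 * q * L ^ (5 * B₁ + 4)) := by
      gcongr
    refine b1.trans ?_
    rw [← mul_div_assoc, le_div_iff₀ (by positivity)]
    have b2 : 2 * L ^ B₁ * (41 * L ^ (2 * B₂)) * (8200 * q * L ^ (5 * B₁ + 4)) * (q * L ^ B'') =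
        672400 * (q ^ 2 * L ^ (B'' + 6 * B₁ + 2 * B₂ + 4)) := by ring
    rw [b2]
    have b3 : q ^ 2 * L ^ (B'' + 6 * B₁ + 2 * B₂ + 4) ≤ X * L ^ (B'' + 6 * B₁ + 2 * B₂ + 4) := by
      gcongr
    nlinarith
  calc 2 * s * T * (2 * (X ^ 2 / (q * s * L ^ (B'' + 2 * B₂ + 2))) + 8 * L ^ 4 +
        32 * (q * s) * ρ ^ 2 * Qr ^ 4)
      = 2 * s * T * (2 * (X ^ 2 / (q * s * L ^ (B'' + 2 * B₂ + 2)))) +
        2 * s * T * (8 * L ^ 4 + 32 * (q * s) * ρ ^ 2 * Qr ^ 4) := by ring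
    _ ≤ 1 / 2 * (X ^ 2 / (q * L ^ B'')) + 1 / 2 * (X ^ 2 / (q * L ^ B'')) := add_le_add h1 h3
    _ = X ^ 2 / (q * L ^ B'') := by ring

/-- arithmetic of the minor arcs, prime part -/
theorem sup_minor_arith (B'' : ℕ) (X L q C σ : ℝ) (hL : 1 ≤ L)
    (hq : 1 ≤ q) (hσ0 : 0 ≤ σ) (hσ : σ ≤ 4 / L ^ (B'' + 14))
    (hbig : 128 * C ^ 2 ≤ L) :
    2 * (C * (X / Real.sqrt q) * L ^ 6 * σ) ^ 2 ≤ 1 / 4 * (X ^ 2 / (q * L ^ B'')) := by
  have hL0 : 0 < L := by linarith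
  have hq0 : 0 < q := by linarith
  have e1 : (C * (X / Real.sqrt q) * L ^ 6 * σ) ^ 2 = C ^ 2 * (X ^ 2 / q) * L ^ 12 * σ ^ 2 := by
    have : Real.sqrt q ^ 2 = q := Real.sq_sqrt hq0.le
    rw [mul_pow, mul_pow, mul_pow, div_pow, this]
    ring
  rw [e1]
  have h1 : σ ^ 2 ≤ (4 / L ^ (B'' + 14)) ^ 2 := pow_le_pow_left₀ hσ0 hσ 2
  calc 2 * (C ^ 2 * (X ^ 2 / q) * L ^ 12 * σ ^ 2)
      ≤ 2 * (C ^ 2 * (X ^ 2 / q) * L ^ 12 * (4 / L ^ (B'' + 14)) ^ 2) := by gcongr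
    _ = (32 * C ^ 2) * ((X ^ 2 / q) / L ^ (2 * B'' + 16)) := by
        have : L ^ (2 * B'' + 28) = L ^ 12 * L ^ (2 * B'' + 16) := by ring
        rw [div_pow, ← pow_mul, show (B'' + 14) * 2 = 2 * B'' + 28 by ring, this]
        field_simp
        ring
    _ ≤ (1 / 4 * L) * ((X ^ 2 / q) / L ^ (2 * B'' + 16)) := by
        refine mul_le_mul_of_nonneg_right ?_ (by positivity)
        linarith
    _ ≤ 1 / 4 * (X ^ 2 / (q * L ^ B'')) := by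
        rw [div_div, mul_assoc]
        refine mul_le_mul_of_nonneg_left ?_ (by norm_num)
        rw [← mul_div_assoc, div_le_div_iff₀ (by positivity) (by positivity)]
        have h2 : L * L ^ B'' ≤ L ^ (2 * B'' + 16) := by
          rw [← pow_succ']
          exact pow_le_pow_right₀ hL (by omega)
        calc L * X ^ 2 * (q * L ^ B'') = X ^ 2 * q * (L * L ^ B'') := by ring
          _ ≤ X ^ 2 * q * L ^ (2 * B'' + 16) := by gcongr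
          _ = X ^ 2 * (q * L ^ (2 * B'' + 16)) := by ring

/-- arithmetic of the minor arcs, model part -/
theorem sup_minorT_arith (B'' B₁ : ℕ) (X L q ρ φs S Qr : ℝ) (hL : 1000 ≤ L) (hX : 1 ≤ X)
    (hq : 1 ≤ q) (hqX : q ≤ X) (hρ0 : 0 ≤ ρ) (hρ : ρ ≤ 4 * L) (hB₁ : B'' + 6 ≤ B₁)
    (hφ0 : 0 ≤ φs) (hφ : φs ≤ 4 * L / L ^ B₁)
    (hS : S = X / (q * L ^ (3 * B₁ + B'' + 10))) (hQ0 : 0 ≤ Qr) (hQ : Qr ≤ 2 * L ^ B₁) :
    2 * (ρ * Real.sqrt q * ((X / q + 1) * φs + S * Qr ^ 2)) ^ 2 ≤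
      1 / 4 * (X ^ 2 / (q * L ^ B'')) := by
  have hL0 : 0 < L := by linarith
  have hL1 : 1 ≤ L := by linarith
  have hq0 : 0 < q := by linarith
  have hX0 : 0 < X := by linarith
  have hXq : 1 ≤ X / q := by rw [le_div_iff₀ hq0]; linarith
  have h1 : (X / q + 1) * φs ≤ 8 * (X / q) * (L / L ^ B₁) := by
    calc (X / q + 1) * φs ≤ (X / q + X / q) * (4 * L / L ^ B₁) := by gcongr
      _ = 8 * (X / q) * (L / L ^ B₁) := by ring
  have h1' : L / L ^ B₁ ≤ 1 / L ^ (B'' + 5) := by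
    rw [div_le_div_iff₀ (by positivity) (by positivity), ← pow_succ', one_mul]
    exact pow_le_pow_right₀ hL1 (by omega)
  have hS0 : 0 ≤ S := by rw [hS]; positivity
  have h2 : S * Qr ^ 2 ≤ 4 * (X / q) * (1 / L ^ (B'' + 5)) := by
    have a1 : Qr ^ 2 ≤ (2 * L ^ B₁) ^ 2 := pow_le_pow_left₀ hQ0 hQ 2
    calc S * Qr ^ 2 ≤ S * (2 * L ^ B₁) ^ 2 := by gcongr
      _ = 4 * (X / q) * (1 / L ^ (B₁ + B'' + 10)) := by
          rw [hS]
          have : L ^ (3 * B₁ + B'' + 10) = (L ^ B₁) ^ 2 * L ^ (B₁ + B'' + 10) := by ring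
          rw [this]
          field_simp
          ring
      _ ≤ 4 * (X / q) * (1 / L ^ (B'' + 5)) := by
          have : L ^ (B'' + 5) ≤ L ^ (B₁ + B'' + 10) := pow_le_pow_right₀ hL1 (by omega)
          gcongr
  have h3 : (X / q + 1) * φs + S * Qr ^ 2 ≤ 12 * (X / q) * (1 / L ^ (B'' + 5)) := by
    calc (X / q + 1) * φs + S * Qr ^ 2
        ≤ 8 * (X / q) * (1 / L ^ (B'' + 5)) + 4 * (X / q) * (1 / L ^ (B'' + 5)) := by
          refine add_le_add (h1.trans ?_) h2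
          gcongr
      _ = _ := by ring
  have h30 : 0 ≤ (X / q + 1) * φs + S * Qr ^ 2 := by positivity
  calc 2 * (ρ * Real.sqrt q * ((X / q + 1) * φs + S * Qr ^ 2)) ^ 2
      ≤ 2 * (4 * L * Real.sqrt q * (12 * (X / q) * (1 / L ^ (B'' + 5)))) ^ 2 := by gcongr
    _ = 4608 * ((X ^ 2 / q) / (L ^ (2 * B'' + 8))) := by
        have e1 : Real.sqrt q ^ 2 = q := Real.sq_sqrt hq0.le
        have e2 : L ^ (2 * B'' + 8) = (L ^ (B'' + 5)) ^ 2 / L ^ 2 := by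
          rw [eq_div_iff (by positivity)]; ring
        have e3 : (4 * L * Real.sqrt q * (12 * (X / q) * (1 / L ^ (B'' + 5)))) ^ 2 =
            2304 * L ^ 2 * Real.sqrt q ^ 2 * (X / q) ^ 2 / (L ^ (B'' + 5)) ^ 2 := by
          field_simp
          ring
        rw [e3, e1, e2]
        field_simp
        ring
    _ ≤ 1 / 4 * (X ^ 2 / (q * L ^ B'')) := by
        rw [div_div, ← mul_div_assoc, ← mul_div_assoc, div_le_div_iff₀ (by positivity) (by positivity)]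
        have h4 : 18432 * L ^ B'' ≤ L ^ (2 * B'' + 8) := by
          have : L ^ (2 * B'' + 8) = L ^ B'' * L ^ (B'' + 8) := by ring
          rw [this, mul_comm]
          refine mul_le_mul_of_nonneg_left ?_ (by positivity)
          calc (18432 : ℝ) ≤ L ^ 2 := by nlinarith
            _ ≤ L ^ (B'' + 8) := pow_le_pow_right₀ hL1 (by omega)
        calc 4608 * X ^ 2 * (q * L ^ B'') = 1 / 4 * X ^ 2 * (q * (18432 * L ^ B'')) := by ring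
          _ ≤ 1 / 4 * X ^ 2 * (q * L ^ (2 * B'' + 8)) := by gcongr

end Pool.Agent.HL
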