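import Pool.Agent.Work.MP_92f640_nt.HL.MinSum

/-! # Module TMinor: the model on the minor arcs

`TM q Q n * φ n = (q/φ(q)) ∑_{t ≤ Q, (t,q)=1} μ(t)/φ(t) ∑_b e(n b/t) φ n` for all `n` (`φ` vanishes off the
integers coprime to `q`). Split `n` into the classes `a` mod `q`: the class sum is
`≤ gm (x/q + 1) (q (b/t + α))` (`class_le`) and `∑_a ‖φ a‖ ≤ √q`.
If `q b/t + b'/s` is not an integer, its distance to the integers is `≥ 1/(s t)`, and
`|q α - b'/s| ≤ 1/(s S) ≤ 1/(2 s Q)`, so `gm ≤ s t ≤ S Q`; there are `φ(t)` values `b`, total `≤ S Q²`.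
If it is an integer then `t = s` (both fractions are reduced) and `b` is unique: at most one term, with
weight `1/φ(s)`. -/

namespace Pool.Agent.HL

open Finset Pool.Agent.BV
open scoped ArithmeticFunction.Moebius

theorem tmi_twist (x q : ℕ) (φ : ℕ → ℂ) (γ : ℝ) (hq : 1 ≤ q) (hφ : Tw q φ) :
    ‖∑ n ∈ Icc 1 x, φ n * e (n * γ)‖ ≤ Real.sqrt q * gm ((x : ℝ) / q + 1) (q * γ) := by
  have h1 : ∑ n ∈ Icc 1 x, φ n * e (n * γ) =
      ∑ a ∈ range q, φ a * ∑ n ∈ (Ioc 0 x).filter (fun n => n ≡ a [MOD q]), e (n * γ) := by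
    rw [← Finset.sum_fiberwise_of_maps_to (s := Icc 1 x) (t := range q)
      (g := fun n => n % q) (fun n _ => mem_range.2 (Nat.mod_lt _ (by omega)))]
    refine Finset.sum_congr rfl fun a ha => ?_
    rw [Finset.mul_sum]
    have ha' := mem_range.1 ha
    have hset : (Icc 1 x).filter (fun n => n % q = a) =
        (Ioc 0 x).filter (fun n => n ≡ a [MOD q]) := by
      ext n
      simp only [mem_filter, mem_Icc, mem_Ioc, Nat.ModEq, Nat.mod_eq_of_lt ha', Nat.succ_le_iff]
    rw [hset]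
    refine Finset.sum_congr rfl fun n hn => ?_
    have h2 : n % q = a := by
      have := (mem_filter.1 hn).2
      rwa [Nat.ModEq, Nat.mod_eq_of_lt ha'] at this
    rw [hφ.per n, h2]
  set G := gm ((x : ℝ) / q + 1) (q * γ) with hG
  have hG0 : 0 ≤ G := gm_nonneg (by positivity) _
  have h2 : ‖∑ n ∈ Icc 1 x, φ n * e (n * γ)‖ ≤ (∑ a ∈ range q, ‖φ a‖) * G := by
    rw [h1, Finset.sum_mul]
    refine (norm_sum_le _ _).trans (Finset.sum_le_sum fun a _ => ?_)
    rw [norm_mul]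
    apply mul_le_mul_of_nonneg_left _ (norm_nonneg _)
    simpa using class_le q a 0 x hq γ
  refine h2.trans (mul_le_mul_of_nonneg_right ?_ hG0)
  apply Real.le_sqrt_of_sq_le
  refine (sq_sum_le_card_mul_sum_sq).trans ?_
  rw [card_range]
  have h3 := hφ.l2
  have h4 : (0 : ℝ) ≤ q := Nat.cast_nonneg q
  nlinarith

/-- distance of a fraction which is not an integer to the nearest integer -/
theorem tmi_dist (k : ℤ) (t : ℕ) (ht : 1 ≤ t) (h : ¬ (t : ℤ) ∣ k) (m : ℤ) :
    1 / (t : ℝ) ≤ |(k : ℝ) / t - m| := by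
  have ht' : (0 : ℝ) < t := by exact_mod_cast ht
  have h1 : (k : ℝ) / t - m = ((k - t * m : ℤ) : ℝ) / t := by
    push_cast
    field_simp
  rw [h1, abs_div, abs_of_pos ht']
  apply div_le_div_of_nonneg_right _ ht'.le
  have h2 : k - t * m ≠ 0 := by
    intro h0
    exact h ⟨_, by linarith⟩
  exact_mod_cast Int.one_le_abs h2

/-- the bound away from the diagonal -/
theorem tmi_off (q Q s t : ℕ) (α S Y : ℝ) (b : ℤ) (b' : ℕ) (hY : 0 ≤ Y)
    (hs : 1 ≤ s) (hsS : (s : ℝ) ≤ S) (hQS : 2 * (Q : ℝ) ≤ S)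
    (hα : |q * α - b / s| ≤ 1 / (s * S)) (ht : 1 ≤ t) (htQ : t ≤ Q)
    (h : ¬ ((s * t : ℕ) : ℤ) ∣ (q : ℤ) * b' * s + b * t) :
    gm Y (q * ((b' : ℝ) / t + α)) ≤ S * Q := by
  have hs' : (1 : ℝ) ≤ s := by exact_mod_cast hs
  have ht' : (1 : ℝ) ≤ t := by exact_mod_cast ht
  have htQ' : (t : ℝ) ≤ Q := by exact_mod_cast htQ
  have hst : 0 < (s : ℝ) * t := by positivity
  have hS : 0 < S := by linarith
  have h2 : 1 / (2 * ((s : ℝ) * t)) ≤
      |q * ((b' : ℝ) / t + α) - round (q * ((b' : ℝ) / t + α))| := by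
    have h3 := tmi_dist ((q : ℤ) * b' * s + b * t) (s * t) (Nat.mul_pos hs ht) h
      (round (q * ((b' : ℝ) / t + α)))
    have h4 : (((q : ℤ) * b' * s + b * t : ℤ) : ℝ) / ((s * t : ℕ) : ℝ) =
        q * ((b' : ℝ) / t) + b / s := by
      push_cast
      field_simp
    rw [h4] at h3
    have h5 : |q * α - b / s| ≤ 1 / (2 * ((s : ℝ) * t)) := by
      refine hα.trans ?_
      apply one_div_le_one_div_of_le (by positivity)
      nlinarith
    have h6 : 1 / (((s * t : ℕ) : ℝ)) = 1 / (2 * ((s : ℝ) * t)) + 1 / (2 * ((s : ℝ) * t)) := by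
      push_cast
      field_simp
      ring
    rw [h6] at h3
    have h7 : (q : ℝ) * ((b' : ℝ) / t) + b / s - round (q * ((b' : ℝ) / t + α)) =
        (q * ((b' : ℝ) / t + α) - round (q * ((b' : ℝ) / t + α))) - (q * α - b / s) := by
      ring
    rw [h7] at h3
    have h8 := abs_sub (q * ((b' : ℝ) / t + α) - round (q * ((b' : ℝ) / t + α)) : ℝ)
      (q * α - b / s)
    linarith
  have h9 := gm_le_of_dist hY (by positivity) h2
  refine h9.trans ?_
  have h10 : 1 / (2 * (1 / (2 * ((s : ℝ) * t)))) = s * t := by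
    field_simp
  rw [h10]
  exact mul_le_mul hsS htQ' (by linarith) hS.le

/-- the diagonal case forces `t = s` -/
theorem tmi_diag (q s t : ℕ) (b : ℤ) (b' : ℕ) (hs : 1 ≤ s) (ht : 1 ≤ t) (htq : t.Coprime q)
    (hbt : b'.Coprime t) (hbs : IsCoprime b (s : ℤ))
    (h : ((s * t : ℕ) : ℤ) ∣ (q : ℤ) * b' * s + b * t) :
    t = s ∧ (s : ℤ) ∣ (q : ℤ) * b' + b := by
  have hsd : (s : ℤ) ∣ (q : ℤ) * b' * s + b * t := by
    refine dvd_trans ?_ h
    push_cast
    exact dvd_mul_right _ _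
  have htd : (t : ℤ) ∣ (q : ℤ) * b' * s + b * t := by
    refine dvd_trans ?_ h
    push_cast
    exact dvd_mul_left _ _
  have h1 : (s : ℤ) ∣ b * t := by
    have := dvd_sub hsd (dvd_mul_left (s : ℤ) ((q : ℤ) * b'))
    simpa using this
  have h2 : (s : ℤ) ∣ t := by
    exact hbs.symm.dvd_of_dvd_mul_left h1
  have h3 : (t : ℤ) ∣ (q : ℤ) * b' * s := by
    have := dvd_sub htd (dvd_mul_left (t : ℤ) b)
    simpa using this
  have h4 : t ∣ q * b' * s := by exact_mod_cast h3
  have h5 : t ∣ s := by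
    have h6 : t.Coprime (q * b') := htq.mul_right hbt.symm
    exact h6.dvd_of_dvd_mul_left h4
  have h7 : s ∣ t := by exact_mod_cast h2
  have h8 : t = s := Nat.dvd_antisymm h5 h7
  subst h8
  refine ⟨rfl, ?_⟩
  have h9 : ((t : ℤ) * t) ∣ t * ((q : ℤ) * b' + b) := by
    have : (t : ℤ) * ((q : ℤ) * b' + b) = (q : ℤ) * b' * t + b * t := by ring
    rw [this]
    exact_mod_cast h
  exact (mul_dvd_mul_iff_left (by exact_mod_cast (by omega : t ≠ 0))).1 h9

theorem T_minor (x q Q s : ℕ) (φ : ℕ → ℂ) (α S : ℝ) (b : ℤ) (hq : 1 ≤ q) (hQ : 1 ≤ Q)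
    (hφ : Tw q φ) (hs : 1 ≤ s) (hsS : (s : ℝ) ≤ S) (hQS : 2 * (Q : ℝ) ≤ S)
    (hbs : IsCoprime b (s : ℤ)) (hα : |q * α - b / s| ≤ 1 / (s * S)) :
    ‖∑ n ∈ Icc 1 x, TM q Q n * φ n * e (n * α)‖ ≤
      ((q : ℝ) / q.totient) * Real.sqrt q *
        (((x : ℝ) / q + 1) / s.totient + S * (Q : ℝ) ^ 2) := by
  set K : ℂ := (q : ℂ) / (q.totient : ℂ) with hK
  have hKn : ‖K‖ = (q : ℝ) / q.totient := by
    rw [hK, norm_div]; simp
  set Y : ℝ := (x : ℝ) / q + 1 with hY
  have hY0 : 0 ≤ Y := by positivity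
  set D := (Icc 1 Q).filter (fun t => t.Coprime q) with hD
  set Bt : ℕ → Finset ℕ := fun t => (range t).filter (fun b => b.Coprime t) with hBt
  have hBcard : ∀ t, 1 ≤ t → ((Bt t).card : ℝ) = t.totient := by
    intro t _
    have h3 : (Bt t).card = t.totient := by
      unfold Nat.totient
      congr 1
      ext b
      simp only [hBt, mem_filter, mem_range, Nat.coprime_comm]
    rw [h3]
  have hexp : ∑ n ∈ Icc 1 x, TM q Q n * φ n * e (n * α) =
      K * ∑ t ∈ D, ((μ t : ℤ) : ℂ) / (t.totient : ℂ) * ∑ b' ∈ Bt t,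
        ∑ n ∈ Icc 1 x, φ n * e (n * ((b' : ℝ) / t + α)) := by
    have h1 : ∀ n ∈ Icc 1 x, TM q Q n * φ n * e (n * α) =
        K * ∑ t ∈ D, ((μ t : ℤ) : ℂ) / (t.totient : ℂ) * ∑ b' ∈ Bt t,
          φ n * e (n * ((b' : ℝ) / t + α)) := by
      intro n _
      by_cases hn : n.Coprime q
      · unfold TM
        rw [if_pos hn, mul_assoc, mul_assoc, Finset.sum_mul]
        congr 1
        refine Finset.sum_congr rfl fun t _ => ?_
        rw [mul_assoc]
        congr 1
        unfold ram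
        rw [Finset.sum_mul]
        refine Finset.sum_congr rfl fun b' _ => ?_
        rw [mul_add, add_e_add]
        ring
      · rw [hφ.cop n hn]
        simp
    rw [Finset.sum_congr rfl h1, ← Finset.mul_sum]
    congr 1
    rw [Finset.sum_comm]
    refine Finset.sum_congr rfl fun t _ => ?_
    rw [← Finset.mul_sum]
    congr 1
    rw [Finset.sum_comm]
  rw [hexp, norm_mul, hKn, mul_assoc]
  apply mul_le_mul_of_nonneg_left _ (by positivity)
  have hw : ∀ t, 1 ≤ t → ‖((μ t : ℤ) : ℂ) / (t.totient : ℂ)‖ ≤ 1 / (t.totient : ℝ) := by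
    intro t ht
    have h0 : (0 : ℝ) < t.totient := by exact_mod_cast Nat.totient_pos.2 ht
    rw [norm_div]
    have h1 : ‖((μ t : ℤ) : ℂ)‖ ≤ 1 := by
      rw [Complex.norm_intCast]
      exact_mod_cast ArithmeticFunction.abs_moebius_le_one
    have h2 : ‖(t.totient : ℂ)‖ = (t.totient : ℝ) := by simp
    rw [h2]
    exact div_le_div_of_nonneg_right h1 h0.le
  have hsq : 0 ≤ Real.sqrt q := Real.sqrt_nonneg _
  have hstep : ‖∑ t ∈ D, ((μ t : ℤ) : ℂ) / (t.totient : ℂ) * ∑ b' ∈ Bt t,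
        ∑ n ∈ Icc 1 x, φ n * e (n * ((b' : ℝ) / t + α))‖ ≤
      Real.sqrt q * ∑ t ∈ D, 1 / (t.totient : ℝ) * ∑ b' ∈ Bt t,
        gm Y (q * ((b' : ℝ) / t + α)) := by
    rw [Finset.mul_sum]
    refine (norm_sum_le _ _).trans (Finset.sum_le_sum fun t ht => ?_)
    have ht1 : 1 ≤ t := (mem_Icc.1 (mem_filter.1 ht).1).1
    rw [norm_mul]
    have h1 : ‖∑ b' ∈ Bt t, ∑ n ∈ Icc 1 x, φ n * e (n * ((b' : ℝ) / t + α))‖ ≤
        Real.sqrt q * ∑ b' ∈ Bt t, gm Y (q * ((b' : ℝ) / t + α)) := by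
      rw [Finset.mul_sum]
      exact (norm_sum_le _ _).trans (Finset.sum_le_sum fun b' _ => tmi_twist x q φ _ hq hφ)
    calc _ ≤ 1 / (t.totient : ℝ) *
          (Real.sqrt q * ∑ b' ∈ Bt t, gm Y (q * ((b' : ℝ) / t + α))) :=
          mul_le_mul (hw t ht1) h1 (norm_nonneg _) (by positivity)
      _ = _ := by ring
  refine hstep.trans (mul_le_mul_of_nonneg_left ?_ hsq)
  -- the main estimate
  have hS : 0 ≤ S := by
    have : (1 : ℝ) ≤ s := by exact_mod_cast hs
    linarith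
  classical
  set P : ℕ → ℕ → Prop := fun t b' => ((s * t : ℕ) : ℤ) ∣ (q : ℤ) * b' * s + b * t with hP
  have hone : ∀ t ∈ D, ∀ b' ∈ Bt t, gm Y (q * ((b' : ℝ) / t + α)) ≤
      S * Q + if P t b' then Y else 0 := by
    intro t ht b' _
    obtain ⟨ht1, ht2⟩ := mem_Icc.1 (mem_filter.1 ht).1
    by_cases hp : P t b'
    · rw [if_pos hp]
      have := gm_le hY0 (q * ((b' : ℝ) / t + α))
      have h2 : 0 ≤ S * (Q : ℝ) := by positivity
      linarith
    · rw [if_neg hp, add_zero]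
      exact tmi_off q Q s t α S Y b b' hY0 hs hsS hQS hα ht1 ht2 hp
  have hsum1 : ∑ t ∈ D, 1 / (t.totient : ℝ) * ∑ b' ∈ Bt t, gm Y (q * ((b' : ℝ) / t + α)) ≤
      ∑ t ∈ D, (S * Q + if t = s then Y / s.totient else 0) := by
    refine Finset.sum_le_sum fun t ht => ?_
    obtain ⟨ht1, ht2⟩ := mem_Icc.1 (mem_filter.1 ht).1
    have htq : t.Coprime q := (mem_filter.1 ht).2
    have h0 : (0 : ℝ) < t.totient := by exact_mod_cast Nat.totient_pos.2 ht1
    have h1 : ∑ b' ∈ Bt t, gm Y (q * ((b' : ℝ) / t + α)) ≤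
        t.totient * (S * Q) + if t = s then Y else 0 := by
      refine (Finset.sum_le_sum (hone t ht)).trans ?_
      rw [Finset.sum_add_distrib, Finset.sum_const, nsmul_eq_mul, hBcard t ht1]
      refine add_le_add le_rfl ?_
      by_cases hts : t = s
      · rw [if_pos hts, ← Finset.sum_filter, Finset.sum_const, nsmul_eq_mul]
        have hcard : ((Bt t).filter (fun b' => P t b')).card ≤ 1 := by
          rw [Finset.card_le_one]
          intro b1 hb1 b2 hb2
          rw [mem_filter] at hb1 hb2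
          have hc1 := (mem_filter.1 hb1.1)
          have hc2 := (mem_filter.1 hb2.1)
          have hd1 := (tmi_diag q s t b b1 hs ht1 htq hc1.2 hbs hb1.2).2
          have hd2 := (tmi_diag q s t b b2 hs ht1 htq hc2.2 hbs hb2.2).2
          have h5 : (s : ℤ) ∣ (q : ℤ) * ((b1 : ℤ) - b2) := by
            have := dvd_sub hd1 hd2
            have h6 : (q : ℤ) * b1 + b - (q * b2 + b) = (q : ℤ) * ((b1 : ℤ) - b2) := by ring
            rwa [h6] at this
          have h7 : (s : ℤ) ∣ (b1 : ℤ) - b2 := by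
            have h8 : IsCoprime (s : ℤ) (q : ℤ) := by
              rw [← hts]
              exact Nat.isCoprime_iff_coprime.2 htq
            exact h8.dvd_of_dvd_mul_left h5
          have hr1 := mem_range.1 hc1.1
          have hr2 := mem_range.1 hc2.1
          rw [hts] at hr1 hr2
          have h9 : ((b2 : ℕ) : ℤ) ≡ b1 [ZMOD s] := Int.modEq_iff_dvd.2 h7
          have h10 : b2 ≡ b1 [MOD s] := (Int.natCast_modEq_iff).1 h9
          have h11 := h10
          rw [Nat.ModEq, Nat.mod_eq_of_lt hr2, Nat.mod_eq_of_lt hr1] at h11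
          exact h11.symm
        have : (((Bt t).filter (fun b' => P t b')).card : ℝ) ≤ 1 := by exact_mod_cast hcard
        nlinarith
      · rw [if_neg hts]
        apply le_of_eq
        refine Finset.sum_eq_zero fun b' hb' => ?_
        rw [if_neg]
        intro hp
        exact hts (tmi_diag q s t b b' hs ht1 htq (mem_filter.1 hb').2 hbs hp).1
    calc _ ≤ 1 / (t.totient : ℝ) * (t.totient * (S * Q) + if t = s then Y else 0) :=
          mul_le_mul_of_nonneg_left h1 (by positivity)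
      _ = S * Q + if t = s then Y / s.totient else 0 := by
          rw [mul_add]
          congr 1
          · field_simp
          · split_ifs with hts
            · rw [hts]; ring
            · ring
  refine hsum1.trans ?_
  rw [Finset.sum_add_distrib, Finset.sum_const, nsmul_eq_mul, add_comm]
  refine add_le_add ?_ ?_
  · rw [Finset.sum_ite_eq' D s]
    split_ifs
    · exact le_rfl
    · positivity
  · have h1 : (D.card : ℝ) ≤ Q := by
      have h2 : D.card ≤ Q := by
        refine (Finset.card_filter_le _ _).trans ?_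
        simp
      exact_mod_cast h2
    calc (D.card : ℝ) * (S * Q) ≤ Q * (S * Q) := mul_le_mul_of_nonneg_right h1 (by positivity)
      _ = S * (Q : ℝ) ^ 2 := by ring

end Pool.Agent.HL
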