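import Pool.Agent.Work.MP_92f640_nt.HL.Mass
import Pool.Agent.Work.BV.GaussLS
import Pool.Agent.Work.BV.SW
import Pool.Agent.Work.BV.Reduce
import Pool.Agent.Work.BV.Primes
import Pool.Agent.Work.Shared.PNT.Tauber

/-! # Module Var: variance of primes in the classes mod `q s` for good `q`

`k = q s ≤ x^(1/2-ε) (log x)^B₁ ≤ x^(1/2-ε/2)`: use `mass (ε/2)` (grid points `≥ x^(ε/8)`).
`psiC_prim'`: `‖psiC χ u - psiC χ.primitiveCharacter u‖ ≤ 2 (log x)²` for `u ≤ x`, `k ≤ x` (as `psiC_primitive`, with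
`coprime_defect k x`).
For `y < x/(log x)^B` (`B` large): trivial, `psiA k c y ≤ (y/k + 1) log x` and `y/φ(k)`, sum of squares over
`c < k`. For `y ≥ x/(log x)^B`: `psiA k c y - y/φ(k) = (psiA k c y - psiC 1 y/φ(k)) + (psiC 1 y - psi y)/φ(k) +
(psi y - y)/φ(k)`; `psiC_one`; `psi_sub_self_le` with `primes_psi_eq` (`BV/Primes.lean`); and by orthogonality
(`psiA_eq`, Parseval) `∑_{c coprime} |psiA k c y - psiC 1 y/φ(k)|² = (1/φ(k)) ∑_{χ ≠ 1} ‖psiC χ y‖²`.
Split the `χ ≠ 1` mod `k` by the conductor `r = χ.conductor`: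
`r ≤ (log x)^A₁`: at most `∑_{r ≤ R₀} φ(r) ≤ R₀²` characters, each `‖psiC χ y‖ ≤ C y/(log y)^A + 2 (log x)²` by
`siegel_walfisz` for `χ.primitiveCharacter ∈ prim r`, `r > 1` (`log y ≥ (log x)/2`);
`r > (log x)^A₁`: `r ∣ k = q s`, so `χ.primitiveCharacter` is not bad (Good), hence
`‖psiC χ (gr i)‖ ≤ gr i/(log x)^B₉ + 2 (log x)² ≤ 2 gr i/(log x)^B₉` for grid points `≥ x^(ε/8)`: `mass`.
Injectivity `χ ↦ (conductor, primitiveCharacter)` as in `sum_chars_le` (`BV/Reduce.lean`).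
Finally `1/φ(k) ≤ 2 (1 + log k)/k` (`DivSum_totient`): ask one or two more powers of `log x` from `mass`. -/

namespace Pool.Agent.HL

open Finset Pool.Agent.BV DirichletCharacter
open scoped ArithmeticFunction.vonMangoldt

lemma Var_ev (C δ : ℝ) (hδ : 0 < δ) (N : ℕ) :
    ∀ᶠ x : ℕ in Filter.atTop, C * (Real.log x) ^ N ≤ (x : ℝ) ^ δ := by
  have h1 := isLittleO_log_rpow_rpow_atTop (N : ℝ) hδ
  have hC : (0 : ℝ) < 1 / (|C| + 1) := by positivity
  have h2 : ∀ᶠ x : ℝ in Filter.atTop, ‖Real.log x ^ (N : ℝ)‖ ≤ (1 / (|C| + 1)) * ‖x ^ δ‖ :=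
    h1.bound hC
  have h3 := (tendsto_natCast_atTop_atTop (R := ℝ)).eventually h2
  filter_upwards [h3, Filter.eventually_ge_atTop 1] with x hx hx1
  have hx1' : (1 : ℝ) ≤ x := by exact_mod_cast hx1
  have hl : 0 ≤ Real.log x := Real.log_nonneg hx1'
  rw [Real.rpow_natCast, Real.norm_of_nonneg (by positivity), Real.norm_of_nonneg (by positivity)]
    at hx
  have h4 : C * Real.log x ^ N ≤ (|C| + 1) * Real.log x ^ N :=
    mul_le_mul_of_nonneg_right (by linarith [le_abs_self C]) (by positivity)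
  have h5 : (|C| + 1) * Real.log x ^ N ≤ (|C| + 1) * ((1 / (|C| + 1)) * (x : ℝ) ^ δ) :=
    mul_le_mul_of_nonneg_left hx (by positivity)
  have h6 : (|C| + 1) * ((1 / (|C| + 1)) * (x : ℝ) ^ δ) = (x : ℝ) ^ δ := by
    have : |C| + 1 ≠ 0 := by positivity
    field_simp
  linarith

lemma Var_psiC_classes {k : ℕ} [NeZero k] (χ : DirichletCharacter ℂ k) (y : ℕ) :
    psiC χ y = ∑ b : ZMod k, χ b * ((psiA k b.val y : ℝ) : ℂ) := by
  unfold psiC
  rw [← sum_fiberwise (Icc 1 y) (fun n : ℕ => (n : ZMod k))]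
  refine sum_congr rfl fun b _ => ?_
  have h1 : (Icc 1 y).filter (fun n : ℕ => (n : ZMod k) = b) =
      (Icc 1 y).filter (fun n => n ≡ b.val [MOD k]) := by
    refine filter_congr fun n _ => ?_
    rw [← ZMod.natCast_eq_natCast_iff, ZMod.natCast_zmod_val]
  unfold psiA
  rw [← h1]
  push_cast
  rw [mul_sum]
  refine sum_congr rfl fun n hn => ?_
  rw [(mem_filter.1 hn).2, mul_comm]

lemma Var_sum_range {k : ℕ} [NeZero k] (g : ℕ → ℝ) :
    ∑ b : ZMod k, g b.val = ∑ c ∈ range k, g c := by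
  refine sum_nbij' (fun b : ZMod k => b.val) (fun c : ℕ => (c : ZMod k)) ?_ ?_ ?_ ?_ ?_
  · intro b _
    exact mem_range.2 (ZMod.val_lt b)
  · intro c _
    exact mem_univ _
  · intro b _
    exact ZMod.natCast_zmod_val b
  · intro c hc
    exact ZMod.val_cast_of_lt (mem_range.1 hc)
  · intro b _
    rfl

lemma Var_sum_units {k : ℕ} [NeZero k] (g : ℕ → ℝ) :
    ∑ c ∈ (range k).filter (fun c => c.Coprime k), g c = ∑ u : (ZMod k)ˣ, g (u : ZMod k).val := by
  rw [sum_filter, ← Var_sum_range (fun c => if c.Coprime k then g c else 0)]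
  rw [gaussLS_sum_units (fun b : ZMod k => if b.val.Coprime k then g b.val else 0)]
  · refine sum_congr rfl fun u _ => ?_
    rw [if_pos]
    exact ZMod.val_coe_unit_coprime u
  · intro b hb
    rw [if_neg]
    intro h
    apply hb
    have := (ZMod.isUnit_iff_coprime b.val k).2 h
    rwa [ZMod.natCast_zmod_val] at this

lemma Var_orth {k : ℕ} [NeZero k] (y : ℕ) :
    ∑ χ : DirichletCharacter ℂ k, ‖psiC χ y‖ ^ 2 =
      k.totient * ∑ u : (ZMod k)ˣ, (psiA k (u : ZMod k).val y) ^ 2 := by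
  have h := gaussLS_orth (q := k) (fun b => ((psiA k b.val y : ℝ) : ℂ))
  have h1 : ∑ χ : DirichletCharacter ℂ k, ‖psiC χ y‖ ^ 2 =
      ∑ χ : DirichletCharacter ℂ k, ‖∑ b, χ⁻¹ b * ((psiA k b.val y : ℝ) : ℂ)‖ ^ 2 := by
    rw [← Equiv.sum_comp (Equiv.inv (DirichletCharacter ℂ k))]
    refine sum_congr rfl fun χ _ => ?_
    rw [Equiv.inv_apply, Var_psiC_classes]
  rw [h1, h]
  congr 1
  refine sum_congr rfl fun u _ => ?_
  rw [Complex.norm_real, Real.norm_eq_abs, sq_abs]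

lemma Var_one {k : ℕ} [NeZero k] (y : ℕ) :
    psiC (1 : DirichletCharacter ℂ k) y =
      ((∑ u : (ZMod k)ˣ, psiA k (u : ZMod k).val y : ℝ) : ℂ) := by
  rw [Var_psiC_classes, gaussLS_sum_units (fun b : ZMod k =>
    (1 : DirichletCharacter ℂ k) b * ((psiA k b.val y : ℝ) : ℂ))]
  · push_cast
    refine sum_congr rfl fun u _ => ?_
    rw [MulChar.one_apply u.isUnit, one_mul]
  · intro b hb
    rw [MulChar.map_nonunit _ hb, zero_mul]

open Classical in
lemma Var_parseval {k : ℕ} [NeZero k] (y : ℕ) :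
    ∑ c ∈ (range k).filter (fun c => c.Coprime k),
      (psiA k c y - (psiC (1 : DirichletCharacter ℂ k) y).re / k.totient) ^ 2 =
      (1 / (k.totient : ℝ)) *
        ∑ χ ∈ (univ : Finset (DirichletCharacter ℂ k)).erase 1, ‖psiC χ y‖ ^ 2 := by
  rw [Var_sum_units (fun c => (psiA k c y -
    (psiC (1 : DirichletCharacter ℂ k) y).re / k.totient) ^ 2)]
  have hφ : (0 : ℝ) < k.totient := by
    exact_mod_cast Nat.totient_pos.2 (Nat.pos_of_ne_zero (NeZero.ne k))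
  set S : ℝ := ∑ u : (ZMod k)ˣ, psiA k (u : ZMod k).val y with hS
  have h1 : psiC (1 : DirichletCharacter ℂ k) y = (S : ℂ) := Var_one y
  have h2 : (psiC (1 : DirichletCharacter ℂ k) y).re = S := by rw [h1, Complex.ofReal_re]
  have h3 := Var_orth (k := k) y
  rw [← add_sum_erase univ _ (mem_univ (1 : DirichletCharacter ℂ k)), h1, Complex.norm_real,
    Real.norm_eq_abs, sq_abs] at h3
  rw [h2]
  have h4 : ∑ u : (ZMod k)ˣ, (psiA k (u : ZMod k).val y - S / k.totient) ^ 2 =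
      ∑ u : (ZMod k)ˣ, (psiA k (u : ZMod k).val y) ^ 2 - S ^ 2 / k.totient := by
    have : ∀ u : (ZMod k)ˣ, (psiA k (u : ZMod k).val y - S / k.totient) ^ 2 =
        (psiA k (u : ZMod k).val y) ^ 2 - 2 * (S / k.totient) * psiA k (u : ZMod k).val y +
          (S / k.totient) ^ 2 := fun u => by ring
    rw [sum_congr rfl fun u _ => this u, sum_add_distrib, sum_sub_distrib, ← mul_sum, ← hS,
      sum_const, card_univ, ZMod.card_units_eq_totient, nsmul_eq_mul]
    field_simp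
    ring
  rw [h4]
  have h5 : ∑ u : (ZMod k)ˣ, (psiA k (u : ZMod k).val y) ^ 2 =
      (S ^ 2 + ∑ χ ∈ (univ : Finset (DirichletCharacter ℂ k)).erase 1, ‖psiC χ y‖ ^ 2) /
        k.totient := by
    rw [h3]
    field_simp
  rw [h5]
  field_simp
  ring

lemma Var_prim {k : ℕ} [NeZero k] (χ : DirichletCharacter ℂ k) (x u : ℕ) (hkx : k ≤ x)
    (hux : u ≤ x) (hx : 3 ≤ x) :
    ‖psiC χ u - psiC χ.primitiveCharacter u‖ ≤ 2 * (Real.log x) ^ 2 := by
  unfold psiC
  rw [← sum_sub_distrib]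
  have h1 : ∑ n ∈ Icc 1 u, (((Λ n : ℝ) : ℂ) * χ (n : ZMod k) -
      ((Λ n : ℝ) : ℂ) * χ.primitiveCharacter (n : ZMod χ.conductor)) =
      ∑ n ∈ (Icc 1 u).filter (fun n => ¬ n.Coprime k), (((Λ n : ℝ) : ℂ) * χ (n : ZMod k) -
      ((Λ n : ℝ) : ℂ) * χ.primitiveCharacter (n : ZMod χ.conductor)) := by
    symm
    apply sum_subset (filter_subset _ _)
    intro n hn hn'
    have h2 : n.Coprime k := by
      by_contra h
      exact hn' (mem_filter.2 ⟨hn, h⟩)
    have h3 : IsCoprime (n : ℤ) (k : ℤ) := Nat.isCoprime_iff_coprime.2 h2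
    have h4 := primitiveCharacter_apply_of_isCoprime χ h3
    simp only [Int.cast_natCast] at h4
    rw [h4, sub_self]
  rw [h1]
  refine (norm_sum_le _ _).trans ?_
  calc ∑ n ∈ (Icc 1 u).filter (fun n => ¬ n.Coprime k), ‖((Λ n : ℝ) : ℂ) * χ (n : ZMod k) -
      ((Λ n : ℝ) : ℂ) * χ.primitiveCharacter (n : ZMod χ.conductor)‖
      ≤ ∑ n ∈ (Icc 1 u).filter (fun n => ¬ n.Coprime k), (Λ n : ℝ) := by
        refine sum_le_sum fun n hn => ?_
        have h5 : χ (n : ZMod k) = 0 := by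
          apply MulChar.map_nonunit
          rw [ZMod.isUnit_iff_coprime]
          exact (mem_filter.1 hn).2
        rw [h5, mul_zero, zero_sub, norm_neg, norm_mul, Complex.norm_real,
          Real.norm_of_nonneg ArithmeticFunction.vonMangoldt_nonneg]
        exact mul_le_of_le_one_right ArithmeticFunction.vonMangoldt_nonneg
          (DirichletCharacter.norm_le_one _ _)
    _ ≤ ∑ n ∈ (Icc 1 x).filter (fun n => ¬ n.Coprime k), (Λ n : ℝ) := by
        refine sum_le_sum_of_subset_of_nonneg ?_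
          (fun _ _ _ => ArithmeticFunction.vonMangoldt_nonneg)
        intro n hn
        rw [mem_filter, mem_Icc] at hn ⊢
        exact ⟨⟨hn.1.1, hn.1.2.trans hux⟩, hn.2⟩
    _ ≤ _ := coprime_defect k x (Nat.pos_of_ne_zero (NeZero.ne k)) hkx hx

/-- the characters of small conductor -/
lemma Var_card {k : ℕ} [NeZero k] (R : ℝ) (hR : 0 ≤ R) (X : Finset (DirichletCharacter ℂ k))
    (hX : ∀ χ ∈ X, (χ.conductor : ℝ) ≤ R) : (X.card : ℝ) ≤ R ^ 2 := by
  classical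
  set Φ : DirichletCharacter ℂ k → (Σ r : ℕ, DirichletCharacter ℂ r) :=
    fun χ => ⟨χ.conductor, χ.primitiveCharacter⟩ with hΦ
  have hinj : Function.Injective Φ := by
    have hleft : ∀ χ : DirichletCharacter ℂ k,
        (fun p : (Σ r : ℕ, DirichletCharacter ℂ r) =>
          if h : p.1 ∣ k then changeLevel h p.2 else 1) (Φ χ) = χ := by
      intro χ
      simp only [hΦ, χ.conductor_dvd_level, dif_pos]
      exact changeLevel_primitiveCharacter χ
    intro a b hab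
    rw [← hleft a, ← hleft b, hab]
  have h1 : X.image Φ ⊆ (Icc 1 ⌊R⌋₊).sigma (fun r => prim r) := by
    intro p hp
    obtain ⟨χ, hχ, rfl⟩ := mem_image.1 hp
    rw [mem_sigma]
    refine ⟨mem_Icc.2 ⟨?_, Nat.le_floor (hX χ hχ)⟩, ?_⟩
    · exact Nat.pos_of_dvd_of_pos χ.conductor_dvd_level (Nat.pos_of_ne_zero (NeZero.ne k))
    · unfold prim
      rw [mem_filter]
      exact ⟨mem_univ _, primitiveCharacter_isPrimitive χ⟩
  have h2 : X.card ≤ ⌊R⌋₊ ^ 2 := by
    rw [← card_image_of_injective X hinj]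
    refine (card_le_card h1).trans ?_
    rw [card_sigma]
    calc ∑ r ∈ Icc 1 ⌊R⌋₊, (prim r).card ≤ ∑ r ∈ Icc 1 ⌊R⌋₊, ⌊R⌋₊ := by
          refine sum_le_sum fun r hr => ?_
          exact (card_prim_le r (mem_Icc.1 hr).1).trans
            ((Nat.totient_le r).trans (mem_Icc.1 hr).2)
      _ = ⌊R⌋₊ ^ 2 := by
          rw [sum_const, Nat.card_Icc, smul_eq_mul, Nat.add_sub_cancel, sq]
  calc (X.card : ℝ) ≤ ((⌊R⌋₊ ^ 2 : ℕ) : ℝ) := by exact_mod_cast h2
    _ = (⌊R⌋₊ : ℝ) ^ 2 := by push_cast; rfl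
    _ ≤ R ^ 2 := pow_le_pow_left₀ (by positivity) (Nat.floor_le hR) 2

lemma Var_totient (k : ℕ) (hk : k ≠ 0) :
    (1 : ℝ) / k.totient ≤ 2 * (1 + Real.log k) / k := by
  have h1 := DivSum_totient k hk
  have h2 : ∑ d ∈ k.divisors, ((d : ℝ))⁻¹ ≤ 1 + Real.log k := by
    refine le_trans ?_ (DivSum_H k)
    refine sum_le_sum_of_subset_of_nonneg ?_ (fun _ _ _ => by positivity)
    intro d hd
    have hd' := Nat.mem_divisors.1 hd
    exact mem_Icc.2 ⟨Nat.pos_of_mem_divisors hd, Nat.le_of_dvd (Nat.pos_of_ne_zero hk) hd'.1⟩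
  have hk0 : (0 : ℝ) < k := by exact_mod_cast Nat.pos_of_ne_zero hk
  calc (1 : ℝ) / k.totient ≤ 2 * ((k : ℝ))⁻¹ * ∑ d ∈ k.divisors, ((d : ℝ))⁻¹ := h1
    _ ≤ 2 * ((k : ℝ))⁻¹ * (1 + Real.log k) := mul_le_mul_of_nonneg_left h2 (by positivity)
    _ = 2 * (1 + Real.log k) / k := by
        field_simp

/-- trivial bound for the number of integers in a residue class -/
lemma Var_psiA_le (k c y : ℕ) (L : ℝ) (hL : Real.log y ≤ L) (hL0 : 0 ≤ L) :
    psiA k c y ≤ ((y : ℝ) / k + 1) * L := by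
  unfold psiA
  have h1 : ∀ n ∈ (Icc 1 y).filter (fun n => n ≡ c [MOD k]), (Λ n : ℝ) ≤ L := by
    intro n hn
    have hn' := mem_Icc.1 (mem_filter.1 hn).1
    have h2 : (Λ n : ℝ) ≤ Real.log n := ArithmeticFunction.vonMangoldt_le_log
    have h3 : Real.log n ≤ Real.log y :=
      Real.log_le_log (by exact_mod_cast hn'.1) (by exact_mod_cast hn'.2)
    linarith
  have h4 : (((Icc 1 y).filter (fun n => n ≡ c [MOD k])).card : ℝ) ≤ (y : ℝ) / k + 1 := by
    have h5 : ((Icc 1 y).filter (fun n => n ≡ c [MOD k])).card ≤ y / k + 1 := by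
      refine le_trans (card_le_card_of_injOn (t := range (y / k + 1)) (fun n => n / k) ?_ ?_)
        (le_of_eq (card_range _))
      · intro n hn
        have hn' := mem_Icc.1 (mem_filter.1 hn).1
        exact mem_coe.2 (mem_range.2 (Nat.lt_succ_of_le (Nat.div_le_div_right hn'.2)))
      · intro a ha b hb hab
        have ha' : a % k = c % k := (mem_filter.1 (mem_coe.1 ha)).2
        have hb' : b % k = c % k := (mem_filter.1 (mem_coe.1 hb)).2
        have hab' : a / k = b / k := hab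
        rw [← Nat.div_add_mod a k, ← Nat.div_add_mod b k, ha', hb', hab']
    have h8 : ((y / k : ℕ) : ℝ) ≤ (y : ℝ) / k := Nat.cast_div_le
    calc (((Icc 1 y).filter (fun n => n ≡ c [MOD k])).card : ℝ) ≤ ((y / k + 1 : ℕ) : ℝ) := by
          exact_mod_cast h5
      _ = ((y / k : ℕ) : ℝ) + 1 := by push_cast; rfl
      _ ≤ _ := by linarith
  calc ∑ n ∈ (Icc 1 y).filter (fun n => n ≡ c [MOD k]), (Λ n : ℝ)
      ≤ ∑ n ∈ (Icc 1 y).filter (fun n => n ≡ c [MOD k]), L := sum_le_sum h1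
    _ = (((Icc 1 y).filter (fun n => n ≡ c [MOD k])).card : ℝ) * L := by
        rw [sum_const, nsmul_eq_mul]
    _ ≤ _ := mul_le_mul_of_nonneg_right h4 hL0

/-- the case of small `y` -/
lemma Var_small (x k y M B₆ : ℕ) (L : ℝ) (hM : M = B₆ + 4) (hx0 : (0 : ℝ) < x) (hL100 : 100 ≤ L)
    (hk0 : (0 : ℝ) < k) (hkk : (k : ℝ) * k ≤ x) (hφ : (0 : ℝ) < k.totient)
    (hφk : (1 : ℝ) / k.totient ≤ 4 * L / k) (hlogy : Real.log y ≤ L)
    (e7 : 4 * L ^ (2 + B₆) ≤ x) (hy : (y : ℝ) < x / L ^ M) :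
    ∑ c ∈ (range k).filter (fun c => c.Coprime k), |psiA k c y - (y : ℝ) / k.totient| ^ 2 ≤
      (x : ℝ) ^ 2 / (k * L ^ B₆) := by
  have hL1 : 1 ≤ L := by linarith
  have hL0 : 0 < L := by linarith
  have hy0 : (0 : ℝ) ≤ y := by positivity
  have h1 : ∀ c : ℕ, |psiA k c y - (y : ℝ) / k.totient| ≤ (4 * y / k + 1) * L := by
    intro c
    have h2 := Var_psiA_le k c y L hlogy hL0.le
    have h3 : 0 ≤ psiA k c y := by
      unfold psiA
      exact sum_nonneg fun _ _ => ArithmeticFunction.vonMangoldt_nonneg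
    have h4 : (y : ℝ) / k.totient ≤ 4 * L / k * y := by
      rw [div_eq_mul_one_div, mul_comm]
      exact mul_le_mul_of_nonneg_right hφk hy0
    have h5 : 0 ≤ (y : ℝ) / k.totient := by positivity
    have h6 : 0 ≤ (y : ℝ) / k := by positivity
    have h7 : ((y : ℝ) / k + 1) * L ≤ (4 * y / k + 1) * L := by
      refine mul_le_mul_of_nonneg_right ?_ hL0.le
      rw [mul_div_assoc]
      linarith
    have h8 : 4 * L / k * y ≤ (4 * y / k + 1) * L := by
      have : (4 * (y : ℝ) / k + 1) * L = 4 * L / k * y + L := by ring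
      rw [this]
      linarith
    rw [abs_le]
    constructor <;> linarith
  have hcard : (((range k).filter (fun c => c.Coprime k)).card : ℝ) ≤ k := by
    have := card_filter_le (range k) (fun c => c.Coprime k)
    rw [card_range] at this
    exact_mod_cast this
  have hk2 : (k : ℝ) * (2 * L ^ 2) ≤ (x : ℝ) ^ 2 / (k * L ^ B₆) / 2 := by
    rw [div_div, le_div_iff₀ (by positivity)]
    calc (k : ℝ) * (2 * L ^ 2) * (k * L ^ B₆ * 2) = (k * k) * (4 * L ^ (2 + B₆)) := by ring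
      _ ≤ x * x := mul_le_mul hkk e7 (by positivity) hx0.le
      _ = (x : ℝ) ^ 2 := by ring
  have hy2 : (y : ℝ) ^ 2 ≤ (x / L ^ M) ^ 2 := pow_le_pow_left₀ hy0 hy.le 2
  have hk3 : 32 * L ^ 2 * (y : ℝ) ^ 2 / k ≤ (x : ℝ) ^ 2 / (k * L ^ B₆) / 2 := by
    calc 32 * L ^ 2 * (y : ℝ) ^ 2 / k ≤ 32 * L ^ 2 * (x / L ^ M) ^ 2 / k := by
          gcongr
      _ = 64 / L ^ (B₆ + 6) * ((x : ℝ) ^ 2 / (k * L ^ B₆) / 2) := by
          have h9 : L ^ M * L ^ M = L ^ 2 * (L ^ (B₆ + 6) * L ^ B₆) := by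
            rw [← pow_add, ← pow_add, ← pow_add]
            congr 1
            omega
          rw [div_pow, sq (L ^ M), h9]
          field_simp
          ring
      _ ≤ 1 * ((x : ℝ) ^ 2 / (k * L ^ B₆) / 2) := by
          refine mul_le_mul_of_nonneg_right ?_ (by positivity)
          rw [div_le_one (by positivity)]
          calc (64 : ℝ) ≤ L := by linarith
            _ = L ^ 1 := (pow_one L).symm
            _ ≤ L ^ (B₆ + 6) := pow_le_pow_right₀ hL1 (by omega)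
      _ = _ := one_mul _
  calc ∑ c ∈ (range k).filter (fun c => c.Coprime k), |psiA k c y - (y : ℝ) / k.totient| ^ 2
      ≤ ∑ c ∈ (range k).filter (fun c => c.Coprime k), ((4 * (y : ℝ) / k + 1) * L) ^ 2 :=
        sum_le_sum fun c _ => pow_le_pow_left₀ (abs_nonneg _) (h1 c) 2
    _ = ((range k).filter (fun c => c.Coprime k)).card * ((4 * (y : ℝ) / k + 1) * L) ^ 2 := by
        rw [sum_const, nsmul_eq_mul]
    _ ≤ k * ((4 * (y : ℝ) / k + 1) * L) ^ 2 :=
        mul_le_mul_of_nonneg_right hcard (by positivity)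
    _ ≤ k * (2 * ((4 * (y : ℝ) / k) ^ 2 + 1) * L ^ 2) := by
        refine mul_le_mul_of_nonneg_left ?_ hk0.le
        rw [mul_pow]
        refine mul_le_mul_of_nonneg_right ?_ (by positivity)
        nlinarith [sq_nonneg (4 * (y : ℝ) / k - 1)]
    _ = 32 * L ^ 2 * (y : ℝ) ^ 2 / k + k * (2 * L ^ 2) := by
        field_simp
        ring
    _ ≤ _ := by linarith

/-- the characters of small conductor: Siegel-Walfisz -/
lemma Var_S1 (x k y M A A₁ : ℕ) [NeZero k] (L C₁ : ℝ) (hA : A = M + A₁ + 1) (hL : L = Real.log x)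
    (hC₁ : 0 < C₁) (hx0 : (0 : ℝ) < x) (e2 : 3 ≤ x) (hL100 : 100 ≤ L) (hkx : k ≤ x) (hyx : y ≤ x)
    (hk1 : 1 ≤ k) (hy3 : 3 ≤ y) (hp1 : (0 : ℝ) < 2 ^ (A₁ + 1)) (hL2 : 2 ^ (A₁ + 1) ≤ L)
    (hLC : (C₁ * 2 ^ A + 1) ^ 2 ≤ L) (hlogy : L / 2 ≤ Real.log y)
    (hyA : (y : ℝ) / (Real.log y) ^ A ≤ 2 ^ A * x / L ^ A) (h2L : 2 * L ^ 2 ≤ x / L ^ A)
    (hSW : ∀ x : ℕ, 3 ≤ x → ∀ q : ℕ, 1 < q → (q : ℝ) ≤ (Real.log x) ^ (A₁ + 1) →
      ∀ χ ∈ prim q, ‖psiC χ x‖ ≤ C₁ * x / (Real.log x) ^ A)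
    (X₁ : Finset (DirichletCharacter ℂ k)) (hX1 : ∀ χ ∈ X₁, χ ≠ 1)
    (hX2 : ∀ χ ∈ X₁, (χ.conductor : ℝ) ≤ L ^ A₁) :
    ∑ χ ∈ X₁, ‖psiC χ y‖ ^ 2 ≤ (x : ℝ) ^ 2 / L ^ M := by
  classical
  have hL1 : 1 ≤ L := by linarith
  have hL0 : 0 < L := by linarith
  have h1 : ∀ χ ∈ X₁, ‖psiC χ y‖ ≤ (C₁ * 2 ^ A + 1) * x / L ^ A := by
    intro χ hχ
    have hχ2 := hX2 χ hχ
    have hne : χ ≠ 1 := hX1 χ hχ
    have hc1 : χ.conductor ≠ 1 := fun h => hne ((eq_one_iff_conductor_eq_one (χ := χ)).2 h)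
    have hc0 : 0 < χ.conductor :=
      Nat.pos_of_dvd_of_pos χ.conductor_dvd_level hk1
    have hmem : χ.primitiveCharacter ∈ prim χ.conductor := by
      unfold prim
      rw [mem_filter]
      exact ⟨mem_univ _, primitiveCharacter_isPrimitive χ⟩
    have hB : (χ.conductor : ℝ) ≤ (Real.log y) ^ (A₁ + 1) := by
      refine hχ2.trans ?_
      calc L ^ A₁ = L ^ A₁ * 1 := (mul_one _).symm
        _ ≤ L ^ A₁ * (L / 2 ^ (A₁ + 1)) := by
            refine mul_le_mul_of_nonneg_left ?_ (by positivity)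
            rw [le_div_iff₀ hp1]
            linarith
        _ = (L / 2) ^ (A₁ + 1) := by
            rw [div_pow, pow_succ L A₁]
            ring
        _ ≤ (Real.log y) ^ (A₁ + 1) := pow_le_pow_left₀ (by positivity) hlogy _
    have h2 := hSW y hy3 χ.conductor (by omega) hB χ.primitiveCharacter hmem
    have h3 := Var_prim χ x y hkx hyx e2
    rw [← hL] at h3
    have h4 : ‖psiC χ y‖ ≤ ‖psiC χ.primitiveCharacter y‖ +
        ‖psiC χ y - psiC χ.primitiveCharacter y‖ := by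
      calc ‖psiC χ y‖ = ‖psiC χ.primitiveCharacter y +
            (psiC χ y - psiC χ.primitiveCharacter y)‖ := by congr 1; ring
        _ ≤ _ := norm_add_le _ _
    have h5 : C₁ * y / (Real.log y) ^ A ≤ C₁ * (2 ^ A * x / L ^ A) := by
      rw [mul_div_assoc]
      exact mul_le_mul_of_nonneg_left hyA hC₁.le
    calc ‖psiC χ y‖ ≤ C₁ * (2 ^ A * x / L ^ A) + x / L ^ A := by linarith
      _ = (C₁ * 2 ^ A + 1) * x / L ^ A := by ring
  have h2 : (X₁.card : ℝ) ≤ (L ^ A₁) ^ 2 :=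
    Var_card (L ^ A₁) (by positivity) X₁ hX2
  calc ∑ χ ∈ X₁, ‖psiC χ y‖ ^ 2 ≤ ∑ χ ∈ X₁, ((C₁ * 2 ^ A + 1) * x / L ^ A) ^ 2 :=
        sum_le_sum fun χ hχ => pow_le_pow_left₀ (norm_nonneg _) (h1 χ hχ) 2
    _ = X₁.card * ((C₁ * 2 ^ A + 1) * x / L ^ A) ^ 2 := by rw [sum_const, nsmul_eq_mul]
    _ ≤ (L ^ A₁) ^ 2 * ((C₁ * 2 ^ A + 1) * x / L ^ A) ^ 2 :=
        mul_le_mul_of_nonneg_right h2 (by positivity)
    _ = (C₁ * 2 ^ A + 1) ^ 2 * (x ^ 2 / L ^ (2 * M + 2)) := by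
        have h6 : L ^ A = L ^ A₁ * L ^ (M + 1) := by
          rw [← pow_add]
          congr 1
          omega
        rw [h6]
        have h7 : L ^ (2 * M + 2) = (L ^ (M + 1)) ^ 2 := by
          rw [← pow_mul]
          congr 1
          ring
        rw [h7]
        field_simp
    _ ≤ L * (x ^ 2 / L ^ (2 * M + 2)) :=
        mul_le_mul_of_nonneg_right (by linarith) (by positivity)
    _ = x ^ 2 / L ^ (2 * M + 1) := by
        rw [pow_succ L (2 * M + 1)]
        field_simp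
    _ ≤ x ^ 2 / L ^ M :=
        div_le_div_of_nonneg_left (by positivity) (by positivity)
          (pow_le_pow_right₀ hL1 (by omega))

theorem var (ε : ℝ) (hε : 0 < ε) (B₁ B₆ : ℕ) : ∃ B₈ B₉ : ℕ, ∀ A₁ : ℕ, ∃ x₀ : ℕ, ∀ x : ℕ, x₀ ≤ x →
    ∀ q : ℕ, 1 ≤ q → (q : ℝ) ≤ (x : ℝ) ^ (1 / 2 - ε) →
    Good x ((x : ℝ) ^ (ε / 8)) ((Real.log x) ^ A₁) ((Real.log x) ^ B₁) B₈ B₉ q →
    ∀ s : ℕ, 1 ≤ s → (s : ℝ) ≤ (Real.log x) ^ B₁ → ∀ y : ℕ, y ≤ x →
    ∑ c ∈ (range (q * s)).filter (fun c => c.Coprime (q * s)),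
        |psiA (q * s) c y - (y : ℝ) / (q * s).totient| ^ 2 ≤
      (x : ℝ) ^ 2 / (((q * s : ℕ) : ℝ) * (Real.log x) ^ B₆) := by
  classical
  obtain ⟨M, hM⟩ : ∃ M : ℕ, M = B₆ + 4 := ⟨_, rfl⟩
  obtain ⟨B₈, B₉, x₁, hmass⟩ := mass (ε / 2) (by positivity) M
  refine ⟨B₈, B₉, fun A₁ => ?_⟩
  obtain ⟨A, hA⟩ : ∃ A : ℕ, A = M + A₁ + 1 := ⟨_, rfl⟩
  obtain ⟨C₁, hC₁, hSW⟩ := siegel_walfisz A (A₁ + 1)
  obtain ⟨C₂, hC₂, hPNT⟩ := Pool.Agent.Work.Shared.PNT.psi_sub_self_le (A : ℝ)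
  obtain ⟨K, hK⟩ : ∃ K : ℝ, K = 100 + 2 ^ (A₁ + 1) + (C₁ * 2 ^ A + 1) ^ 2 +
    (C₂ * 2 ^ A + 1) ^ 2 := ⟨_, rfl⟩
  have hev : ∀ᶠ x : ℕ in Filter.atTop, (x₁ ≤ x ∧ 3 ≤ x) ∧ K ≤ Real.log x ∧
      1 * (Real.log x) ^ B₁ ≤ (x : ℝ) ^ (ε / 2) ∧
      1 * (Real.log x) ^ M ≤ (x : ℝ) ^ ((1 : ℝ) / 2) ∧
      2 * (Real.log x) ^ (2 + B₉) ≤ (x : ℝ) ^ (ε / 8) ∧
      4 * (Real.log x) ^ (2 + B₆) ≤ (x : ℝ) ^ (1 : ℝ) ∧
      2 * (Real.log x) ^ (2 + A) ≤ (x : ℝ) ^ (1 : ℝ) := by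
    have h1 : ∀ᶠ x : ℕ in Filter.atTop, K ≤ Real.log x :=
      (Real.tendsto_log_atTop.comp tendsto_natCast_atTop_atTop).eventually_ge_atTop K
    filter_upwards [Filter.eventually_ge_atTop x₁, Filter.eventually_ge_atTop 3, h1,
      Var_ev 1 (ε / 2) (by positivity) B₁, Var_ev 1 (1 / 2) (by norm_num) M,
      Var_ev 2 (ε / 8) (by positivity) (2 + B₉), Var_ev 4 1 (by norm_num) (2 + B₆),
      Var_ev 2 1 (by norm_num) (2 + A)] with x a1 a2 a3 a4 a5 a6 a7 a8
    exact ⟨⟨a1, a2⟩, a3, a4, a5, a6, a7, a8⟩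
  obtain ⟨x₀, hx₀⟩ := Filter.eventually_atTop.1 hev
  refine ⟨x₀, ?_⟩
  intro x hx q hq1 hqx hgood s hs1 hsx y hyx
  obtain ⟨⟨e1, e2⟩, e3, e4, e5, e6, e7, e8⟩ := hx₀ x hx
  rw [one_mul] at e4 e5
  rw [Real.rpow_one] at e7 e8
  set L : ℝ := Real.log x with hL
  have hx3 : (3 : ℝ) ≤ x := by exact_mod_cast e2
  have hx0 : (0 : ℝ) < x := by linarith
  have hp1 : (0 : ℝ) < 2 ^ (A₁ + 1) := by positivity
  have hp2 : (0 : ℝ) ≤ (C₁ * 2 ^ A + 1) ^ 2 := by positivity
  have hp3 : (0 : ℝ) ≤ (C₂ * 2 ^ A + 1) ^ 2 := by positivity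
  have hL100 : 100 ≤ L := by linarith
  have hL1 : 1 ≤ L := by linarith
  have hL0 : 0 < L := by linarith
  obtain ⟨k, hk⟩ : ∃ k : ℕ, k = q * s := ⟨_, rfl⟩
  rw [← hk]
  have hk1 : 1 ≤ k := by rw [hk]; exact Nat.mul_pos hq1 hs1
  have : NeZero k := ⟨by omega⟩
  have hk0 : (0 : ℝ) < k := by exact_mod_cast hk1
  have hkx' : (k : ℝ) ≤ (x : ℝ) ^ (1 / 2 - ε / 2) := by
    rw [hk]
    push_cast
    calc (q : ℝ) * s ≤ (x : ℝ) ^ (1 / 2 - ε) * (x : ℝ) ^ (ε / 2) :=
          mul_le_mul hqx (hsx.trans e4) (by positivity) (by positivity)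
      _ = (x : ℝ) ^ (1 / 2 - ε / 2) := by
          rw [← Real.rpow_add hx0]
          congr 1
          ring
  have hkx2 : (k : ℝ) ≤ (x : ℝ) ^ ((1 : ℝ) / 2) :=
    hkx'.trans (Real.rpow_le_rpow_of_exponent_le (by linarith) (by linarith))
  have hsq : (x : ℝ) ^ ((1 : ℝ) / 2) * (x : ℝ) ^ ((1 : ℝ) / 2) = x := by
    rw [← Real.rpow_add hx0]
    norm_num
  have hs0 : 0 < (x : ℝ) ^ ((1 : ℝ) / 2) := by positivity
  have hkk : (k : ℝ) * k ≤ x := by
    rw [← hsq]
    exact mul_le_mul hkx2 hkx2 hk0.le hs0.le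
  have hkxR : (k : ℝ) ≤ x := by
    have : (1 : ℝ) ≤ k := by exact_mod_cast hk1
    nlinarith
  have hkx : k ≤ x := by exact_mod_cast hkxR
  have hlogk : Real.log k ≤ L := Real.log_le_log hk0 hkxR
  have hφ : (0 : ℝ) < k.totient := by exact_mod_cast Nat.totient_pos.2 hk1
  have hφk : (1 : ℝ) / k.totient ≤ 4 * L / k := by
    refine (Var_totient k (by omega)).trans ?_
    rw [div_le_div_iff_of_pos_right hk0]
    linarith
  have hy0 : (0 : ℝ) ≤ y := by positivity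
  have hyxR : (y : ℝ) ≤ x := by exact_mod_cast hyx
  by_cases hy : (x : ℝ) / L ^ M ≤ y
  · -- large y
    have hyge : (x : ℝ) ^ ((1 : ℝ) / 2) ≤ y := by
      refine le_trans ?_ hy
      rw [le_div_iff₀ (by positivity)]
      calc (x : ℝ) ^ ((1 : ℝ) / 2) * L ^ M ≤ (x : ℝ) ^ ((1 : ℝ) / 2) * (x : ℝ) ^ ((1 : ℝ) / 2) :=
            mul_le_mul_of_nonneg_left e5 hs0.le
        _ = x := hsq
    have hlogy : L / 2 ≤ Real.log y := by
      have h1 := Real.log_le_log hs0 hyge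
      rw [Real.log_rpow hx0] at h1
      linarith
    have hy1 : (1 : ℝ) ≤ y := by
      have h1 : (1 : ℝ) ≤ (x : ℝ) ^ ((1 : ℝ) / 2) := Real.one_le_rpow (by linarith) (by norm_num)
      linarith
    have hy3 : 3 ≤ y := by
      by_contra h
      have h2 : (y : ℝ) ≤ 3 := by
        have : y ≤ 3 := by omega
        exact_mod_cast this
      have h3 : Real.log y ≤ Real.log 3 := Real.log_le_log (by linarith) h2
      have h4 : Real.log 3 < 3 := (Real.log_lt_sub_one_of_pos (by norm_num) (by norm_num)).trans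
        (by norm_num)
      linarith
    have hky : k ≤ y := by
      have : (k : ℝ) ≤ y := hkx2.trans hyge
      exact_mod_cast this
    have hlogyx : Real.log y ≤ L := Real.log_le_log (by linarith) hyxR
    have hyA : (y : ℝ) / (Real.log y) ^ A ≤ 2 ^ A * x / L ^ A := by
      have h1 : (L / 2) ^ A ≤ (Real.log y) ^ A := pow_le_pow_left₀ (by positivity) hlogy A
      calc (y : ℝ) / (Real.log y) ^ A ≤ x / (L / 2) ^ A :=
            div_le_div₀ hx0.le hyxR (by positivity) h1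
        _ = 2 ^ A * x / L ^ A := by
            rw [div_pow]
            field_simp
    have h2L : 2 * L ^ 2 ≤ x / L ^ A := by
      rw [le_div_iff₀ (by positivity)]
      calc 2 * L ^ 2 * L ^ A = 2 * L ^ (2 + A) := by ring
        _ ≤ x := e8
    -- the two families of characters
    set X : Finset (DirichletCharacter ℂ k) := univ.erase 1 with hX
    set X₁ := X.filter (fun χ => (χ.conductor : ℝ) ≤ L ^ A₁) with hX₁
    set X₂ := X.filter (fun χ => ¬ (χ.conductor : ℝ) ≤ L ^ A₁) with hX₂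
    have hS1 : ∑ χ ∈ X₁, ‖psiC χ y‖ ^ 2 ≤ (x : ℝ) ^ 2 / L ^ M :=
      Var_S1 x k y M A A₁ L C₁ hA hL hC₁ hx0 e2 hL100 hkx hyx hk1 hy3 hp1 (by linarith)
        (by linarith) hlogy hyA h2L hSW X₁ (fun χ hχ => (mem_erase.1 (mem_filter.1 hχ).1).1)
        (fun χ hχ => (mem_filter.1 hχ).2)
    have hS2 : ∑ χ ∈ X₂, ‖psiC χ y‖ ^ 2 ≤ (x : ℝ) ^ 2 / L ^ M := by
      refine hmass x e1 k hkx' y hyx hy X₂ ?_ ?_
      · intro χ hχ
        exact (mem_erase.1 (mem_filter.1 hχ).1).1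
      · intro χ hχ i hi1 hi2
        obtain ⟨hχ1, hχ2⟩ := mem_filter.1 hχ
        have hmem : χ.primitiveCharacter ∈ prim χ.conductor := by
          unfold prim
          rw [mem_filter]
          exact ⟨mem_univ _, primitiveCharacter_isPrimitive χ⟩
        have hi1' : (x : ℝ) ^ (ε / 8) ≤ gr (1 / L ^ B₈) i := by
          have : ε / 2 / 4 = ε / 8 := by ring
          rw [this] at hi1
          exact hi1
        have hnb := hgood s hs1 hsx χ.conductor
          (by rw [← hk]; exact χ.conductor_dvd_level) (not_le.1 hχ2) χ.primitiveCharacter hmem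
        have h1 : ‖psiC χ.primitiveCharacter (gr (1 / L ^ B₈) i)‖ ≤
            (gr (1 / L ^ B₈) i : ℝ) / L ^ B₉ := by
          by_contra h
          exact hnb ⟨i, hi1', hi2, not_le.1 h⟩
        have h2 := Var_prim χ x (gr (1 / L ^ B₈) i) hkx (by exact_mod_cast hi2) e2
        have h4 : ‖psiC χ (gr (1 / L ^ B₈) i)‖ ≤
            ‖psiC χ.primitiveCharacter (gr (1 / L ^ B₈) i)‖ +
            ‖psiC χ (gr (1 / L ^ B₈) i) - psiC χ.primitiveCharacter (gr (1 / L ^ B₈) i)‖ := by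
          calc ‖psiC χ (gr (1 / L ^ B₈) i)‖ = ‖psiC χ.primitiveCharacter (gr (1 / L ^ B₈) i) +
                (psiC χ (gr (1 / L ^ B₈) i) - psiC χ.primitiveCharacter (gr (1 / L ^ B₈) i))‖ := by
                congr 1; ring
            _ ≤ _ := norm_add_le _ _
        have h3 : 2 * L ^ 2 ≤ (gr (1 / L ^ B₈) i : ℝ) / L ^ B₉ := by
          rw [le_div_iff₀ (by positivity)]
          calc 2 * L ^ 2 * L ^ B₉ = 2 * L ^ (2 + B₉) := by ring
            _ ≤ (x : ℝ) ^ (ε / 8) := e6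
            _ ≤ _ := hi1'
        calc ‖psiC χ (gr (1 / L ^ B₈) i)‖ ≤ (gr (1 / L ^ B₈) i : ℝ) / L ^ B₉ +
              (gr (1 / L ^ B₈) i : ℝ) / L ^ B₉ := by linarith
          _ = 2 * (gr (1 / L ^ B₈) i : ℝ) / L ^ B₉ := by ring
    have hS : ∑ χ ∈ X, ‖psiC χ y‖ ^ 2 ≤ 2 * ((x : ℝ) ^ 2 / L ^ M) := by
      rw [← sum_filter_add_sum_filter_not X (fun χ => (χ.conductor : ℝ) ≤ L ^ A₁)]
      linarith
    -- the principal character
    set P : ℝ := (psiC (1 : DirichletCharacter ℂ k) y).re with hP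
    have hE : |P - y| ≤ (C₂ * 2 ^ A + 1) * x / L ^ A := by
      have h1 := psiC_one k y hky hy3
      have h2 := hPNT y (by
        have : (3 : ℝ) ≤ y := by exact_mod_cast hy3
        linarith)
      rw [← primes_psi_eq, Real.rpow_natCast] at h2
      have h3 : |P - psi y| ≤ ‖psiC (1 : DirichletCharacter ℂ k) y - psi y‖ := by
        have : P - psi y = (psiC (1 : DirichletCharacter ℂ k) y - (psi y : ℂ)).re := by
          rw [Complex.sub_re, Complex.ofReal_re]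
        rw [this]
        exact Complex.abs_re_le_norm _
      have h4 : 2 * (Real.log y) ^ 2 ≤ 2 * L ^ 2 := by
        have := pow_le_pow_left₀ (by linarith : 0 ≤ Real.log y) hlogyx 2
        linarith
      have h5 : C₂ * y / (Real.log y) ^ A ≤ C₂ * (2 ^ A * x / L ^ A) := by
        rw [mul_div_assoc]
        exact mul_le_mul_of_nonneg_left hyA hC₂.le
      have h6 : |P - y| ≤ |P - psi y| + |psi y - y| := by
        have : P - y = (P - psi y) + (psi y - y) := by ring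
        rw [this]
        exact abs_add_le _ _
      calc |P - y| ≤ x / L ^ A + C₂ * (2 ^ A * x / L ^ A) := by linarith
        _ = (C₂ * 2 ^ A + 1) * x / L ^ A := by ring
    have hE2 : (P - y) ^ 2 ≤ (x : ℝ) ^ 2 / L ^ M := by
      rw [← sq_abs]
      calc |P - y| ^ 2 ≤ ((C₂ * 2 ^ A + 1) * x / L ^ A) ^ 2 :=
            pow_le_pow_left₀ (abs_nonneg _) hE 2
        _ = (C₂ * 2 ^ A + 1) ^ 2 * (x ^ 2 / L ^ (2 * A)) := by
            have h7 : L ^ (2 * A) = (L ^ A) ^ 2 := by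
              rw [← pow_mul]
              congr 1
              ring
            rw [h7]
            field_simp
        _ ≤ L * (x ^ 2 / L ^ (2 * A)) :=
            mul_le_mul_of_nonneg_right (by linarith) (by positivity)
        _ ≤ L ^ (2 * A - M) * (x ^ 2 / L ^ (2 * A)) := by
            refine mul_le_mul_of_nonneg_right ?_ (by positivity)
            calc L = L ^ 1 := (pow_one L).symm
              _ ≤ L ^ (2 * A - M) := pow_le_pow_right₀ hL1 (by omega)
        _ = x ^ 2 / L ^ M := by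
            have h8 : L ^ (2 * A) = L ^ (2 * A - M) * L ^ M := by
              rw [← pow_add]
              congr 1
              omega
            rw [h8]
            field_simp
    -- put together
    have hV := Var_parseval (k := k) y
    rw [← hP, ← hX] at hV
    have hterm : ∀ c : ℕ, |psiA k c y - (y : ℝ) / k.totient| ^ 2 ≤
        2 * (psiA k c y - P / k.totient) ^ 2 + 2 * ((P - y) / k.totient) ^ 2 := by
      intro c
      rw [sq_abs]
      have : psiA k c y - (y : ℝ) / k.totient = (psiA k c y - P / k.totient) +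
          (P - y) / k.totient := by ring
      rw [this]
      nlinarith [sq_nonneg ((psiA k c y - P / k.totient) - (P - y) / k.totient)]
    have hcard : (((range k).filter (fun c => c.Coprime k)).card : ℝ) = k.totient := by
      have : ((range k).filter (fun c => c.Coprime k)).card = k.totient := by
        unfold Nat.totient
        congr 1
        refine filter_congr fun c _ => ?_
        exact Nat.coprime_comm
      rw [this]
    calc ∑ c ∈ (range k).filter (fun c => c.Coprime k), |psiA k c y - (y : ℝ) / k.totient| ^ 2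
        ≤ ∑ c ∈ (range k).filter (fun c => c.Coprime k),
          (2 * (psiA k c y - P / k.totient) ^ 2 + 2 * ((P - y) / k.totient) ^ 2) :=
          sum_le_sum fun c _ => hterm c
      _ = 2 * ((1 / (k.totient : ℝ)) * ∑ χ ∈ X, ‖psiC χ y‖ ^ 2) +
          k.totient * (2 * ((P - y) / k.totient) ^ 2) := by
          rw [sum_add_distrib, ← mul_sum, hV, sum_const, nsmul_eq_mul, hcard]
      _ = (1 / (k.totient : ℝ)) * (2 * ∑ χ ∈ X, ‖psiC χ y‖ ^ 2 + 2 * (P - y) ^ 2) := by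
          field_simp
      _ ≤ (4 * L / k) * (6 * ((x : ℝ) ^ 2 / L ^ M)) := by
          refine mul_le_mul hφk (by linarith) ?_ (by positivity)
          have : 0 ≤ ∑ χ ∈ X, ‖psiC χ y‖ ^ 2 := sum_nonneg fun _ _ => by positivity
          positivity
      _ = 24 / L ^ 3 * ((x : ℝ) ^ 2 / (k * L ^ B₆)) := by
          rw [hM, pow_add]
          field_simp
          ring
      _ ≤ 1 * ((x : ℝ) ^ 2 / (k * L ^ B₆)) := by
          refine mul_le_mul_of_nonneg_right ?_ (by positivity)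
          rw [div_le_one (by positivity)]
          calc (24 : ℝ) ≤ L := by linarith
            _ = L ^ 1 := (pow_one L).symm
            _ ≤ L ^ 3 := pow_le_pow_right₀ hL1 (by norm_num)
      _ = (x : ℝ) ^ 2 / (k * L ^ B₆) := one_mul _
  · -- small y
    have hlogy : Real.log y ≤ L := by
      rcases Nat.eq_zero_or_pos y with h | h
      · rw [h]; simp [hL0.le]
      · exact Real.log_le_log (by exact_mod_cast h) hyxR
    exact Var_small x k y M B₆ L hM hx0 hL100 hk0 hkk hφ hφk hlogy e7 (not_le.1 hy)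

end Pool.Agent.HL
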