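import Pool.Agent.Work.MP_92f640_nt.HL.Dual
import Pool.Agent.Work.MP_92f640_nt.HL.Minor
import Pool.Agent.Work.MP_92f640_nt.HL.TMinor
import Pool.Agent.Work.MP_92f640_nt.HL.TL2
import Pool.Agent.Work.MP_92f640_nt.HL.Var
import Pool.Agent.Work.MP_92f640_nt.HL.Major
import Pool.Agent.Work.MP_92f640_nt.HL.EEVar
import Pool.Agent.Work.MP_92f640_nt.HL.Evt
import Pool.Agent.Work.MP_92f640_nt.HL.SupArith

/-! # Module SupVV

Parameters: `B₁ = 2 (B'' + 14)`; `B₂ = 3 B₁ + B'' + 10`; `B₆ = B'' + 2 B₂ + 2`;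
`Q = ⌈(log x)^B₁⌉₊`, `S = x/(q (log x)^B₂)`; `B₈, B₉` from `var ε B₁ B₆`.
Dirichlet for `q α`: reduced `b/s`, `1 ≤ s ≤ S`, `|q α - b/s| ≤ 1/(s S)`. If `s ≤ (log x)^B₁`: `major` with
`Θ = 1/S`, `ee_var`, `var`. Otherwise `VV_sub_le`, `VV_le` with `minorF` and `T_minor`. -/

namespace Pool.Agent.HL

open Finset Filter Pool.Agent.BV

theorem FL_cop (q n : ℕ) (h : ¬ n.Coprime q) : FL q n = 0 := by
  unfold FL
  rw [if_neg h]

theorem TM_cop (q Q n : ℕ) (h : ¬ n.Coprime q) : TM q Q n = 0 := by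
  unfold TM
  rw [if_neg h]

theorem sup_VV (ε : ℝ) (hε : 0 < ε) (B'' : ℕ) : ∃ B₁ B₈ B₉ : ℕ, B'' ≤ B₁ ∧
    ∀ A₁ : ℕ, ∃ x₀ : ℕ, ∀ x : ℕ, x₀ ≤ x →
    ∀ q : ℕ, 1 ≤ q → (q : ℝ) ≤ (x : ℝ) ^ (1 / 2 - ε) →
    Good x ((x : ℝ) ^ (ε / 8)) ((Real.log x) ^ A₁) ((Real.log x) ^ B₁) B₈ B₉ q → ∀ α : ℝ,
    VV q x (fun n => FL q n - TM q ⌈(Real.log x) ^ B₁⌉₊ n) α ≤
      (x : ℝ) ^ 2 / (q * (Real.log x) ^ B'') := by
  set b₁ : ℕ := B'' + 14 with hb₁
  set B₁ : ℕ := 2 * b₁ with hB₁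
  set B₂ : ℕ := 3 * B₁ + B'' + 10 with hB₂
  set B₆ : ℕ := B'' + 2 * B₂ + 2 with hB₆
  obtain ⟨B₈, B₉, hvar⟩ := var ε hε B₁ B₆
  obtain ⟨Cm, hCm, hmin⟩ := minorF
  refine ⟨B₁, B₈, B₉, by omega, fun A₁ => ?_⟩
  obtain ⟨x₁, hx₁⟩ := hvar A₁
  have hev : ∀ᶠ x : ℕ in atTop, ∀ q : ℕ, 1 ≤ q → (q : ℝ) ≤ (x : ℝ) ^ (1 / 2 - ε) →
      Good x ((x : ℝ) ^ (ε / 8)) ((Real.log x) ^ A₁) ((Real.log x) ^ B₁) B₈ B₉ q → ∀ α : ℝ,
      VV q x (fun n => FL q n - TM q ⌈(Real.log x) ^ B₁⌉₊ n) α ≤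
        (x : ℝ) ^ 2 / (q * (Real.log x) ^ B'') := by
    filter_upwards [eventually_ge_atTop x₁, eventually_ge_atTop 3, evt_log 1000,
      evt_log (128 * Cm ^ 2), evt_pow 2000000 (B'' + 6 * B₁ + 2 * B₂ + 4) 1 one_pos,
      evt_pow 4 (B₁ + B₂) (1 / 2) (by norm_num), evt_pow 1 b₁ (1 / 16) (by norm_num),
      evt_pow 1 b₁ (ε / 2) (by linarith)] with x hxx₁ hx3 hL1000 hLC hbig hS4 hp16 hpε
    intro q hq hqx hgood α
    set X : ℝ := (x : ℝ) with hX
    set L : ℝ := Real.log X with hL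
    have hX3 : (3 : ℝ) ≤ X := by rw [hX]; exact_mod_cast hx3
    have toN : ∀ n : ℕ, (n : ℝ) ≤ X → n ≤ x := fun n h => by
      rw [hX] at h; exact_mod_cast h
    have hX0 : 0 < X := by linarith
    have hX1 : 1 ≤ X := by linarith
    have hL0 : 0 < L := by linarith
    have hL1 : 1 ≤ L := by linarith
    have hqR : (1 : ℝ) ≤ q := by exact_mod_cast hq
    have hq0 : (0 : ℝ) < q := by linarith
    rw [Real.rpow_one] at hbig
    -- q ^ 2 ≤ X
    have hqhalf : (q : ℝ) ≤ X ^ (1 / 2 : ℝ) :=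
      hqx.trans (Real.rpow_le_rpow_of_exponent_le hX1 (by linarith))
    have hq2 : (q : ℝ) ^ 2 ≤ X := by
      calc (q : ℝ) ^ 2 ≤ (X ^ (1 / 2 : ℝ)) ^ 2 := pow_le_pow_left₀ hq0.le hqhalf 2
        _ = X := by rw [← Real.rpow_natCast, ← Real.rpow_mul hX0.le]; norm_num
    have hq2n : q ^ 2 ≤ x := toN _ (by push_cast; exact hq2)
    have hqX : (q : ℝ) ≤ X := by nlinarith
    have hqn : q ≤ x := toN _ hqX
    have hXhalf : X ^ (1 / 2 : ℝ) ≤ X / q := by
      rw [le_div_iff₀ hq0]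
      calc X ^ (1 / 2 : ℝ) * q ≤ X ^ (1 / 2 : ℝ) * X ^ (1 / 2 : ℝ) := by gcongr
        _ = X := by rw [← Real.rpow_add hX0]; norm_num
    -- S
    set S : ℝ := X / (q * L ^ B₂) with hS
    have hLB₂ : 1 ≤ L ^ B₂ := one_le_pow₀ hL1
    have hLB₁ : 1 ≤ L ^ B₁ := one_le_pow₀ hL1
    have hS0 : 0 < S := by positivity
    have hS4' : 4 * L ^ B₁ ≤ S := by
      have : S = X / q / L ^ B₂ := by rw [hS, div_div]
      rw [this, le_div_iff₀ (by positivity)]
      calc 4 * L ^ B₁ * L ^ B₂ = 4 * L ^ (B₁ + B₂) := by ring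
        _ ≤ X ^ (1 / 2 : ℝ) := hS4
        _ ≤ X / q := hXhalf
    have hS1 : 1 ≤ S := by linarith
    have hSX : S ≤ X := by
      rw [hS, div_le_iff₀ (by positivity)]
      nlinarith [mul_le_mul hqR hLB₂ zero_le_one hq0.le]
    set Q : ℕ := ⌈L ^ B₁⌉₊ with hQ
    have hQge : L ^ B₁ ≤ Q := Nat.le_ceil _
    have hQle : (Q : ℝ) ≤ 2 * L ^ B₁ := by
      have := Nat.ceil_lt_add_one (show 0 ≤ L ^ B₁ by positivity)
      rw [← hQ] at this
      linarith
    have hQ1 : 1 ≤ Q := by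
      have : (1 : ℝ) ≤ Q := hLB₁.trans hQge
      exact_mod_cast this
    have hρ : (q : ℝ) / q.totient ≤ 4 * L := by
      have h1 := ratio_le q hq
      have h2 : Real.log q ≤ L := Real.log_le_log hq0 hqX
      linarith
    have hρ0 : 0 ≤ (q : ℝ) / q.totient := by positivity
    -- Dirichlet
    have hSf : 0 < ⌊S⌋₊ := Nat.floor_pos.2 hS1
    obtain ⟨r, hr1, hr2⟩ := Real.exists_rat_abs_sub_le_and_den_le ((q : ℝ) * α) hSf
    set s : ℕ := r.den with hs
    have hs1 : 1 ≤ s := r.pos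
    have hsR : (1 : ℝ) ≤ s := by exact_mod_cast hs1
    have hs0 : (0 : ℝ) < s := by linarith
    have hsS : (s : ℝ) ≤ S := by
      calc (s : ℝ) ≤ (⌊S⌋₊ : ℝ) := by exact_mod_cast hr2
        _ ≤ S := Nat.floor_le hS0.le
    have hbs : IsCoprime r.num (s : ℤ) := by
      rw [Int.isCoprime_iff_gcd_eq_one]
      exact r.reduced
    have hrcast : (r : ℝ) = (r.num : ℝ) / s := by
      rw [hs]
      exact_mod_cast (Rat.num_div_den r).symm
    have hα : |(q : ℝ) * α - r.num / s| ≤ 1 / (s * S) := by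
      rw [← hrcast]
      refine hr1.trans ?_
      have h1 : S < ⌊S⌋₊ + 1 := Nat.lt_floor_add_one S
      rw [div_le_div_iff₀ (by positivity) (by positivity)]
      nlinarith
    by_cases hcase : (s : ℝ) ≤ L ^ B₁
    · -- major arcs
      have hsQ : s ≤ Q := by exact_mod_cast hcase.trans hQge
      have hqsR : (q : ℝ) * s ≤ X := by
        have h1 : (s : ℝ) ≤ X / q := by
          refine hsS.trans ?_
          rw [hS, ← div_div]
          exact div_le_self (by positivity) hLB₂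
        rw [le_div_iff₀ hq0] at h1
        linarith
      have hqs : q * s ≤ x := toN _ (by push_cast; exact hqsR)
      set Kv : ℝ := 2 * (X ^ 2 / (q * s * L ^ B₆)) + 8 * L ^ 4 +
        32 * (q * s) * ((q : ℝ) / q.totient) ^ 2 * (Q : ℝ) ^ 4 with hKv
      have hv : ∀ y ≤ x, ∑ c ∈ range (q * s), ‖EE q Q s c y‖ ^ 2 ≤ Kv := by
        intro y hy
        have h1 := ee_var x q Q s y hx3 hq hs1 hsQ hqs hy
        have h2 := hx₁ x hxx₁ q hq hqx hgood s hs1 hcase y hy
        rw [← hX, ← hL] at h1 h2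
        push_cast at h1 h2
        rw [hKv]
        linarith
      have hΘ : |(q : ℝ) * α - r.num / s| ≤ 1 / S := by
        refine hα.trans ?_
        refine div_le_div_of_nonneg_left zero_le_one hS0 ?_
        nlinarith
      have h3 := major x q Q s hq hs1 α (1 / S) Kv r.num hΘ hv
      rw [← hX] at h3
      have h4 : 2 * Real.pi * (1 / S) * X / q = 2 * Real.pi * L ^ B₂ := by
        rw [hS]
        field_simp
      rw [h4] at h3
      refine h3.trans ?_
      exact sup_major_arith B'' B₁ B₂ X L q s _ Q hL1000 hX1 hqR hsR hq2 hcase hρ0 hρ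
        (Nat.cast_nonneg _) hQle hbig
    · -- minor arcs
      push Not at hcase
      have hα2 : |(q : ℝ) * α - r.num / s| ≤ 1 / (s : ℝ) ^ 2 := by
        refine hα.trans ?_
        refine div_le_div_of_nonneg_left zero_le_one (by positivity) ?_
        nlinarith
      have hsx : s ≤ x := toN _ (hsS.trans hSX)
      have hsqs : L ^ b₁ ≤ Real.sqrt s := by
        apply Real.le_sqrt_of_sq_le
        calc (L ^ b₁) ^ 2 = L ^ B₁ := by rw [hB₁, mul_comm, pow_mul]
          _ ≤ s := hcase.le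
      set σ : ℝ := 1 / Real.sqrt s + X ^ (-(1 / 16) : ℝ) + Real.sqrt (q / Real.sqrt X) +
          Real.sqrt (q * s / X) with hσ
      have hσ0 : 0 ≤ σ := by positivity
      have hLb : 0 < L ^ b₁ := by positivity
      have hσ4 : σ ≤ 4 / L ^ b₁ := by
        have h1 : 1 / Real.sqrt s ≤ 1 / L ^ b₁ := div_le_div_of_nonneg_left zero_le_one hLb hsqs
        have h2 : X ^ (-(1 / 16) : ℝ) ≤ 1 / L ^ b₁ := by
          rw [Real.rpow_neg hX0.le, ← one_div]
          refine div_le_div_of_nonneg_left zero_le_one hLb ?_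
          linarith
        have h3 : Real.sqrt (q / Real.sqrt X) ≤ 1 / L ^ b₁ := by
          rw [Real.sqrt_le_left (by positivity)]
          have e1 : (q : ℝ) / Real.sqrt X ≤ X ^ (-ε) := by
            rw [div_le_iff₀ (Real.sqrt_pos.2 hX0), Real.sqrt_eq_rpow, ← Real.rpow_add hX0]
            refine hqx.trans (le_of_eq ?_)
            congr 1
            ring
          refine e1.trans ?_
          rw [Real.rpow_neg hX0.le, div_pow, one_pow, ← one_div]
          refine div_le_div_of_nonneg_left zero_le_one (by positivity) ?_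
          have e2 : X ^ ε = (X ^ (ε / 2)) ^ 2 := by
            rw [← Real.rpow_natCast, ← Real.rpow_mul hX0.le]
            congr 1
            push_cast
            ring
          rw [e2]
          refine pow_le_pow_left₀ hLb.le ?_ 2
          linarith
        have h4 : Real.sqrt (q * s / X) ≤ 1 / L ^ b₁ := by
          rw [Real.sqrt_le_left (by positivity)]
          have e1 : (q : ℝ) * s / X ≤ 1 / L ^ B₂ := by
            rw [div_le_div_iff₀ hX0 (by positivity), one_mul]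
            calc (q : ℝ) * s * L ^ B₂ ≤ q * S * L ^ B₂ := by gcongr
              _ = X := by rw [hS]; field_simp
          refine e1.trans ?_
          rw [div_pow, one_pow, ← pow_mul]
          refine div_le_div_of_nonneg_left zero_le_one (by positivity) ?_
          exact pow_le_pow_right₀ hL1 (by omega)
        calc σ ≤ 1 / L ^ b₁ + 1 / L ^ b₁ + 1 / L ^ b₁ + 1 / L ^ b₁ := by
              rw [hσ]; gcongr
          _ = 4 / L ^ b₁ := by ring
      have hF : VV q x (FL q) α ≤ (Cm * (X / Real.sqrt q) * L ^ 6 * σ) ^ 2 := by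
        refine VV_le q x hq (FL q) (fun n hn => FL_cop q n hn) α _ (by positivity) ?_
        intro φ hφ
        exact hmin x q s φ α r.num hx3 hq hq2n hφ hs1 hsx hbs hα2
      have hT : VV q x (TM q Q) α ≤ (((q : ℝ) / q.totient) * Real.sqrt q *
          ((X / q + 1) / s.totient + S * (Q : ℝ) ^ 2)) ^ 2 := by
        refine VV_le q x hq (TM q Q) (fun n hn => TM_cop q Q n hn) α _ (by positivity) ?_
        intro φ hφ
        exact T_minor x q Q s φ α S r.num hq hQ1 hφ hs1 hsS (by linarith) hbs hα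
      have hφs : 1 / (s.totient : ℝ) ≤ 4 * L / L ^ B₁ := by
        have h1 := ratio_le s hs1
        have h2 : Real.log s ≤ L := Real.log_le_log hs0 (hsS.trans hSX)
        have h3 : 1 / (s.totient : ℝ) = (s : ℝ) / s.totient / s := by field_simp
        rw [h3, div_le_div_iff₀ hs0 (by positivity)]
        have h4 : (s : ℝ) / s.totient ≤ 4 * L := by linarith
        calc (s : ℝ) / s.totient * L ^ B₁ ≤ 4 * L * L ^ B₁ := by gcongr
          _ ≤ 4 * L * s := by gcongr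
      have hF2 := sup_minor_arith B'' X L q Cm σ hL1 hqR hσ0 hσ4 hLC
      have hT2 := sup_minorT_arith B'' B₁ X L q ((q : ℝ) / q.totient) (1 / s.totient) S Q hL1000
        hX1 hqR hqX hρ0 hρ (by omega) (by positivity) hφs rfl (Nat.cast_nonneg _) hQle
      have h5 := VV_sub_le q x (FL q) (TM q Q) α
      refine h5.trans ?_
      have h6 : (X / q + 1) / (s.totient : ℝ) = (X / q + 1) * (1 / s.totient) := by ring
      rw [h6] at hT
      have h7 : 0 ≤ X ^ 2 / (q * L ^ B'') := by positivity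
      linarith
  obtain ⟨x₀, hx₀⟩ := eventually_atTop.1 hev
  exact ⟨x₀, hx₀⟩

end Pool.Agent.HL
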