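import Pool.Agent.Work.MP_92f640_nt.HL.MinSumA
import Pool.Agent.Work.BV.L_Tau

/-! # Module MinSum: sums of `min (Y, 1/(2 ‖β h + γ‖))`

`gm_block`: split `Ioc c (c + H)` into at most `H/s + 1` blocks of at most `s` consecutive integers.
In a block `h = h₀ + i`, `0 ≤ i < s`: `β h + γ = γ' + i b / s + i θ`, `|i θ| < 1/s`; the integers
`J i = round (s γ') + i b - s round (β h + γ)` are distinct and
`s ‖β h + γ‖ ≥ |J i| - 3/2`: block sum `≤ 4 Y + 2 s (1 + log s)`.

`gm_typeI`: for `d ≤ s/2` one has `s ‖β d‖ ≥ |J d| - 1/2` with distinct nonzero integers `J d`;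
for `d > s/2` use blocks of length `s` and `gm_mono`. -/

namespace Pool.Agent.HL

open Finset Pool.Agent.BV

namespace MinSum

/-- a sum over distinct integers -/
lemma sum_natAbs_le {ι : Type*} (T : Finset ι) (J : ι → ℤ) (hJ : Set.InjOn J T) (M : ℕ)
    (hM : ∀ i ∈ T, (J i).natAbs ≤ M) (G : ℕ → ℝ) (hG : ∀ k, 0 ≤ G k) :
    ∑ i ∈ T, G (J i).natAbs ≤ 2 * ∑ k ∈ range (M + 1), G k := by
  classical
  rw [← sum_fiberwise_of_maps_to (g := fun i => (J i).natAbs) (t := range (M + 1))
    (fun i hi => mem_range.mpr (Nat.lt_succ_of_le (hM i hi))), mul_sum]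
  refine sum_le_sum fun k _ => ?_
  have h1 : ∑ i ∈ T.filter (fun i => (J i).natAbs = k), G (J i).natAbs =
      ((T.filter (fun i => (J i).natAbs = k)).card : ℝ) * G k := by
    rw [← nsmul_eq_mul, ← sum_const]
    exact sum_congr rfl fun i hi => by rw [(mem_filter.mp hi).2]
  rw [h1]
  refine mul_le_mul_of_nonneg_right ?_ (hG k)
  have h2 : (T.filter (fun i => (J i).natAbs = k)).card ≤ ({(k : ℤ), -(k : ℤ)} : Finset ℤ).card := by
    refine card_le_card_of_injOn J ?_ ?_
    · intro i hi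
      have h3 := (mem_filter.mp (mem_coe.mp hi)).2
      have h4 := Int.natAbs_eq (J i)
      rw [h3] at h4
      simpa using h4
    · intro i hi j hj hij
      exact hJ (mem_filter.mp (mem_coe.mp hi)).1 (mem_filter.mp (mem_coe.mp hj)).1 hij
  have h5 : ({(k : ℤ), -(k : ℤ)} : Finset ℤ).card ≤ 2 := card_le_two
  exact_mod_cast h2.trans h5

lemma dist_ge (x ε : ℝ) (s : ℕ) (K : ℤ) (hx : |s * x - K| ≤ ε) :
    |((K - s * round x : ℤ) : ℝ)| - ε ≤ s * |x - round x| := by
  have h1 : |((K - s * round x : ℤ) : ℝ)| ≤ |s * x - K| + |(s : ℝ) * (x - round x)| := by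
    push_cast
    have h2 : (K : ℝ) - s * (round x : ℤ) = -(s * x - K) + s * (x - round x) := by ring
    rw [h2]
    refine (abs_add_le _ _).trans ?_
    rw [abs_neg]
  rw [abs_mul, Nat.abs_cast] at h1
  linarith

lemma J_le (x ε : ℝ) (s : ℕ) (K : ℤ) (hx : |s * x - K| ≤ ε) :
    |((K - s * round x : ℤ) : ℝ)| ≤ s / 2 + ε := by
  have h1 := dist_ge x ε s K hx
  have h2 := abs_sub_round x
  have h3 : (s : ℝ) * |x - round x| ≤ s * (1 / 2) :=
    mul_le_mul_of_nonneg_left h2 (Nat.cast_nonneg s)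
  linarith

lemma gm_J (Y x ε : ℝ) (hY : 0 ≤ Y) (s : ℕ) (hs : 1 ≤ s) (K : ℤ) (hx : |s * x - K| ≤ ε)
    (hJ : ε < |((K - s * round x : ℤ) : ℝ)|) :
    gm Y x ≤ s / (2 * (|((K - s * round x : ℤ) : ℝ)| - ε)) := by
  have h1 := dist_ge x ε s K hx
  have hs0 : (0 : ℝ) < s := by exact_mod_cast hs
  have hd : 0 < |((K - s * round x : ℤ) : ℝ)| - ε := by linarith
  have h2 := gm_le_of_dist (β := x) (δ := (|((K - s * round x : ℤ) : ℝ)| - ε) / s) hY
    (by positivity) (by rw [div_le_iff₀ hs0]; linarith)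
  refine h2.trans (le_of_eq ?_)
  field_simp

lemma J_inj (s : ℕ) (b : ℤ) (hbs : IsCoprime b (s : ℤ)) (R : ℤ) (m : ℕ → ℤ)
    (T : Finset ℕ) (hT : ∀ i ∈ T, i < s) :
    Set.InjOn (fun i : ℕ => R + i * b - s * m i) (T : Set ℕ) := by
  intro i hi j hj hij
  have hi' : i < s := hT i (mem_coe.mp hi)
  have hj' : j < s := hT j (mem_coe.mp hj)
  simp only at hij
  have h1 : (s : ℤ) ∣ ((i : ℤ) - j) * b := ⟨m i - m j, by linarith⟩
  have h2 : (s : ℤ) ∣ ((i : ℤ) - j) := (IsCoprime.dvd_of_dvd_mul_right hbs.symm h1)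
  have h3 : ((i : ℤ) - j) = 0 := by
    refine Int.eq_zero_of_abs_lt_dvd h2 ?_
    rw [abs_lt]
    constructor <;> omega
  omega

/-- one block -/
lemma block (β γ : ℝ) (b : ℤ) (s : ℕ) (hs : 1 ≤ s) (hbs : IsCoprime b (s : ℤ))
    (hβ : |β - b / s| ≤ 1 / (s : ℝ) ^ 2) (c H : ℕ) (hH : H ≤ s) (Y : ℝ) (hY : 0 ≤ Y) :
    ∑ h ∈ Ioc c (c + H), gm Y (β * h + γ) ≤ 4 * (Y + s * (1 + Real.log s)) := by
  have hs0 : (0 : ℝ) < s := by exact_mod_cast hs
  set γ' : ℝ := β * (c + 1 : ℕ) + γ with hγ'
  set R : ℤ := round (s * γ') with hR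
  set X : ℕ → ℝ := fun i => β * (c + 1 + i : ℕ) + γ with hX
  have e1 : ∑ h ∈ Ioc c (c + H), gm Y (β * h + γ) = ∑ i ∈ range H, gm Y (X i) := by
    have : Ioc c (c + H) = (range H).map (addLeftEmbedding (c + 1)) := by
      rw [range_eq_Ico, map_add_left_Ico]
      ext h
      simp only [mem_Ioc, mem_Ico]
      omega
    rw [this, sum_map]
    rfl
  rw [e1]
  have hclose : ∀ i ∈ range H, |s * X i - ((R + i * b : ℤ) : ℝ)| ≤ 3 / 2 := by
    intro i hi
    have hi' : i < s := lt_of_lt_of_le (mem_range.mp hi) hH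
    have h1 : s * X i - ((R + i * b : ℤ) : ℝ) = (s * γ' - R) + i * (s * (β - b / s)) := by
      simp only [hX, hγ']
      push_cast
      field_simp
      ring
    rw [h1]
    have h2 : |s * γ' - R| ≤ 1 / 2 := abs_sub_round _
    have h3 : |(i : ℝ) * (s * (β - b / s))| ≤ 1 := by
      rw [abs_mul, abs_mul, Nat.abs_cast, Nat.abs_cast]
      have h4 : (i : ℝ) ≤ s := by exact_mod_cast hi'.le
      calc (i : ℝ) * (s * |β - b / s|) ≤ s * (s * (1 / (s : ℝ) ^ 2)) := by
            refine mul_le_mul h4 (mul_le_mul_of_nonneg_left hβ hs0.le) (by positivity) hs0.le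
        _ = 1 := by field_simp
    refine (abs_add_le _ _).trans ?_
    linarith
  set J : ℕ → ℤ := fun i => R + i * b - s * round (X i) with hJ
  set G : ℕ → ℝ := fun k => if k ≤ 1 then Y else s / (k - 1 : ℝ) with hG
  have hG0 : ∀ k, 0 ≤ G k := by
    intro k
    simp only [hG]
    split_ifs with h
    · exact hY
    · have : (2 : ℝ) ≤ k := by exact_mod_cast (by omega : 2 ≤ k)
      exact div_nonneg hs0.le (by linarith)
  have habs : ∀ i, |((J i : ℤ) : ℝ)| = ((J i).natAbs : ℝ) := by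
    intro i
    rw [← Int.cast_abs, Int.abs_eq_natAbs]
    simp
  have hterm : ∀ i ∈ range H, gm Y (X i) ≤ G (J i).natAbs := by
    intro i hi
    simp only [hG]
    split_ifs with h
    · exact gm_le hY _
    · have h2 : (2 : ℝ) ≤ ((J i).natAbs : ℝ) := by exact_mod_cast (by omega : 2 ≤ (J i).natAbs)
      have h3 := gm_J Y (X i) (3 / 2) hY s hs (R + i * b) (hclose i hi)
      have h4 : |((R + i * b - s * round (X i) : ℤ) : ℝ)| = ((J i).natAbs : ℝ) := habs i
      rw [h4] at h3
      refine (h3 (by linarith)).trans ?_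
      exact div_le_div_of_nonneg_left hs0.le (by linarith) (by linarith)
  have hM : ∀ i ∈ range H, (J i).natAbs ≤ s + 1 := by
    intro i hi
    have h1 := J_le (X i) (3 / 2) s (R + i * b) (hclose i hi)
    have h4 : |((R + i * b - s * round (X i) : ℤ) : ℝ)| = ((J i).natAbs : ℝ) := habs i
    rw [h4] at h1
    have h5 : (1 : ℝ) ≤ s := by exact_mod_cast hs
    have h6 : ((J i).natAbs : ℝ) ≤ ((s + 1 : ℕ) : ℝ) := by push_cast; linarith
    exact_mod_cast h6
  calc ∑ i ∈ range H, gm Y (X i) ≤ ∑ i ∈ range H, G (J i).natAbs := sum_le_sum hterm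
    _ ≤ 2 * ∑ k ∈ range (s + 1 + 1), G k :=
        sum_natAbs_le _ J (J_inj s b hbs R (fun i => round (X i)) (range H)
          (fun i hi => lt_of_lt_of_le (mem_range.mp hi) hH)) (s + 1) hM G hG0
    _ ≤ 2 * (2 * Y + s * (1 + Real.log s)) := by
        refine mul_le_mul_of_nonneg_left ?_ (by norm_num)
        have h1 : ∑ k ∈ range (s + 1 + 1), G k = (Y + Y) + ∑ k ∈ range s, G (k + 2) := by
          have g0 : G 0 = Y := by simp [hG]
          have g1 : G (0 + 1) = Y := by simp [hG]
          rw [sum_range_succ', sum_range_succ', g0, g1]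
          ring
        rw [h1]
        have h2 : ∑ k ∈ range s, G (k + 2) = s * ∑ n ∈ Ioc 0 s, 1 / (n : ℝ) := by
          have : Ioc 0 s = (range s).map (addRightEmbedding 1) := by
            rw [range_eq_Ico, map_add_right_Ico]
            ext h
            simp only [mem_Ioc, mem_Ico]
            omega
          rw [this, sum_map, mul_sum]
          refine sum_congr rfl fun k _ => ?_
          simp only [hG]
          rw [if_neg (by omega)]
          simp only [addRightEmbedding_apply]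
          push_cast
          rw [mul_one_div]
          congr 1
          ring
        rw [h2]
        have h3 := Pool.Agent.Work.BV.sum_inv_le s
        have h4 := mul_le_mul_of_nonneg_left h3 hs0.le
        linarith
    _ ≤ 4 * (Y + s * (1 + Real.log s)) := by
        have : 0 ≤ (s : ℝ) * (1 + Real.log s) := by
          have := Real.log_nonneg (show (1 : ℝ) ≤ s by exact_mod_cast hs)
          positivity
        linarith

/-- the integers `d ≤ s / 2` -/
lemma small (β : ℝ) (b : ℤ) (s : ℕ) (hs : 1 ≤ s) (hbs : IsCoprime b (s : ℤ))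
    (hβ : |β - b / s| ≤ 1 / (s : ℝ) ^ 2) (N : ℝ) (hN : 0 ≤ N) :
    ∑ d ∈ Icc 1 (s / 2), gm (N / d + 1) (β * d) ≤ 2 * (s * (1 + Real.log s)) := by
  have hs0 : (0 : ℝ) < s := by exact_mod_cast hs
  have hclose : ∀ i ∈ Icc 1 (s / 2), |s * (β * i) - ((0 + i * b : ℤ) : ℝ)| ≤ 1 / 2 := by
    intro i hi
    have hi' := mem_Icc.mp hi
    have h1 : s * (β * i) - ((0 + i * b : ℤ) : ℝ) = i * (s * (β - b / s)) := by
      push_cast
      field_simp
      ring
    rw [h1, abs_mul, abs_mul, Nat.abs_cast, Nat.abs_cast]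
    have h4 : (i : ℝ) ≤ s / 2 := by
      have : ((2 * i : ℕ) : ℝ) ≤ s := by exact_mod_cast (by omega : 2 * i ≤ s)
      push_cast at this
      linarith
    calc (i : ℝ) * (s * |β - b / s|) ≤ (s / 2) * (s * (1 / (s : ℝ) ^ 2)) := by
          refine mul_le_mul h4 (mul_le_mul_of_nonneg_left hβ hs0.le) (by positivity) (by positivity)
      _ = 1 / 2 := by field_simp
  set J : ℕ → ℤ := fun i => 0 + i * b - s * round (β * i) with hJ
  set G : ℕ → ℝ := fun k => if k = 0 then 0 else s / (k : ℝ) with hG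
  have hG0 : ∀ k, 0 ≤ G k := by
    intro k
    simp only [hG]
    split_ifs with h
    · exact le_rfl
    · positivity
  have habs : ∀ i, |((J i : ℤ) : ℝ)| = ((J i).natAbs : ℝ) := by
    intro i
    rw [← Int.cast_abs, Int.abs_eq_natAbs]
    simp
  have hJ0 : ∀ i ∈ Icc 1 (s / 2), (J i).natAbs ≠ 0 := by
    intro i hi h0
    have hi' := mem_Icc.mp hi
    have h1 : J i = 0 := Int.natAbs_eq_zero.mp h0
    have h2 : (s : ℤ) ∣ (i : ℤ) * b := ⟨round (β * i), by simp only [hJ] at h1; linarith⟩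
    have h3 : (s : ℤ) ∣ (i : ℤ) := IsCoprime.dvd_of_dvd_mul_right hbs.symm h2
    have h4 : s ∣ i := by exact_mod_cast h3
    have := Nat.le_of_dvd (by omega) h4
    omega
  have hterm : ∀ i ∈ Icc 1 (s / 2), gm (N / i + 1) (β * i) ≤ G (J i).natAbs := by
    intro i hi
    simp only [hG]
    rw [if_neg (hJ0 i hi)]
    have h2 : (1 : ℝ) ≤ ((J i).natAbs : ℝ) := by
      exact_mod_cast Nat.one_le_iff_ne_zero.mpr (hJ0 i hi)
    have h3 := gm_J (N / i + 1) (β * i) (1 / 2) (by positivity) s hs (0 + i * b) (hclose i hi)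
    have h4 : |((0 + i * b - s * round (β * i) : ℤ) : ℝ)| = ((J i).natAbs : ℝ) := habs i
    rw [h4] at h3
    refine (h3 (by linarith)).trans ?_
    exact div_le_div_of_nonneg_left hs0.le (by linarith) (by linarith)
  have hM : ∀ i ∈ Icc 1 (s / 2), (J i).natAbs ≤ s := by
    intro i hi
    have h1 := J_le (β * i) (1 / 2) s (0 + i * b) (hclose i hi)
    have h4 : |((0 + i * b - s * round (β * i) : ℤ) : ℝ)| = ((J i).natAbs : ℝ) := habs i
    rw [h4] at h1
    have h5 : (1 : ℝ) ≤ s := by exact_mod_cast hs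
    have h6 : ((J i).natAbs : ℝ) ≤ (s : ℝ) := by linarith
    exact_mod_cast h6
  calc ∑ i ∈ Icc 1 (s / 2), gm (N / i + 1) (β * i) ≤ ∑ i ∈ Icc 1 (s / 2), G (J i).natAbs :=
        sum_le_sum hterm
    _ ≤ 2 * ∑ k ∈ range (s + 1), G k :=
        sum_natAbs_le _ J (J_inj s b hbs 0 (fun i => round (β * i)) (Icc 1 (s / 2))
          (fun i hi => by have := mem_Icc.mp hi; omega)) s hM G hG0
    _ ≤ 2 * (s * (1 + Real.log s)) := by
        refine mul_le_mul_of_nonneg_left ?_ (by norm_num)
        have h1 : ∑ k ∈ range (s + 1), G k = ∑ k ∈ range s, G (k + 1) := by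
          have g0 : G 0 = 0 := by simp [hG]
          rw [sum_range_succ', g0, add_zero]
        rw [h1]
        have h2 : ∑ k ∈ range s, G (k + 1) = s * ∑ n ∈ Ioc 0 s, 1 / (n : ℝ) := by
          have : Ioc 0 s = (range s).map (addRightEmbedding 1) := by
            rw [range_eq_Ico, map_add_right_Ico]
            ext h
            simp only [mem_Ioc, mem_Ico]
            omega
          rw [this, sum_map, mul_sum]
          refine sum_congr rfl fun k _ => ?_
          simp only [hG]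
          rw [if_neg (by omega)]
          simp only [addRightEmbedding_apply]
          rw [mul_one_div]
        rw [h2]
        exact mul_le_mul_of_nonneg_left (Pool.Agent.Work.BV.sum_inv_le s) hs0.le

lemma blocks_cover (f : ℕ → ℝ) (s K : ℕ) :
    ∑ d ∈ Ioc s ((K + 1) * s), f d = ∑ k ∈ Icc 1 K, ∑ d ∈ Ioc (k * s) (k * s + s), f d := by
  induction K with
  | zero => simp
  | succ K ih =>
    rw [sum_Icc_succ_top (by omega), ← ih]
    have h1 : s ≤ (K + 1) * s := Nat.le_mul_of_pos_left s (by omega)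
    have h2 : (K + 1) * s ≤ (K + 1 + 1) * s := Nat.mul_le_mul_right s (by omega)
    rw [← sum_Ioc_consecutive f h1 h2]
    congr 2
    congr 1
    ring

end MinSum


theorem gm_block (β γ : ℝ) (b : ℤ) (s : ℕ) (hs : 1 ≤ s) (hbs : IsCoprime b (s : ℤ))
    (hβ : |β - b / s| ≤ 1 / (s : ℝ) ^ 2) (c H : ℕ) (Y : ℝ) (hY : 0 ≤ Y) :
    ∑ h ∈ Ioc c (c + H), gm Y (β * h + γ) ≤
      8 * ((H : ℝ) / s + 1) * (Y + s * (1 + Real.log s)) := by
  have hs0 : (0 : ℝ) < s := by exact_mod_cast hs
  set T : ℝ := Y + s * (1 + Real.log s) with hT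
  have hT0 : 0 ≤ T := by
    have := Real.log_nonneg (show (1 : ℝ) ≤ s by exact_mod_cast hs)
    positivity
  have main : ∀ H c : ℕ, ∑ h ∈ Ioc c (c + H), gm Y (β * h + γ) ≤ 4 * ((H : ℝ) / s + 1) * T := by
    intro H
    induction H using Nat.strong_induction_on with
    | _ H ih =>
      intro c
      by_cases h : H ≤ s
      · have h1 := MinSum.block β γ b s hs hbs hβ c H h Y hY
        have h2 : 0 ≤ (H : ℝ) / s := by positivity
        have h3 : 0 ≤ (H : ℝ) / s * T := mul_nonneg h2 hT0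
        linarith
      · have h' : s < H := not_le.mp h
        have h1 := ih (H - s) (by omega) (c + s)
        have h2 := MinSum.block β γ b s hs hbs hβ c s le_rfl Y hY
        have h3 : c + s + (H - s) = c + H := by omega
        rw [h3] at h1
        rw [← sum_Ioc_consecutive _ (show c ≤ c + s by omega) (show c + s ≤ c + H by omega)]
        have h4 : ((H - s : ℕ) : ℝ) = (H : ℝ) - s := by
          rw [Nat.cast_sub h'.le]
        rw [h4, sub_div, div_self hs0.ne'] at h1
        linarith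
  refine (main H c).trans ?_
  have : 0 ≤ ((H : ℝ) / s + 1) * T := by positivity
  linarith

theorem gm_typeI : ∃ C : ℝ, 0 < C ∧ ∀ (x D s : ℕ) (β : ℝ) (b : ℤ) (N : ℝ), 3 ≤ x → D ≤ x →
    1 ≤ s → s ≤ x → IsCoprime b (s : ℤ) → |β - b / s| ≤ 1 / (s : ℝ) ^ 2 → 0 ≤ N →
    ∑ d ∈ Icc 1 D, gm (N / d + 1) (β * d) ≤ C * (N / s + D + s) * Real.log x := by
  refine ⟨64, by norm_num, ?_⟩
  intro x D s β b N hx hD hs hsx hbs hβ hN
  have hs0 : (0 : ℝ) < s := by exact_mod_cast hs
  have hs1 : (1 : ℝ) ≤ s := by exact_mod_cast hs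
  have hx3 : (3 : ℝ) ≤ x := by exact_mod_cast hx
  have hL1 : 1 ≤ Real.log x := by
    have he := Real.exp_one_lt_d9
    rw [Real.le_log_iff_exp_le (by linarith)]
    linarith
  set L := Real.log x with hL
  have hlogs : Real.log s ≤ L := Real.log_le_log hs0 (by exact_mod_cast hsx)
  have hlogs0 : 0 ≤ Real.log s := Real.log_nonneg hs1
  have hg0 : ∀ d : ℕ, 0 ≤ gm (N / d + 1) (β * d) := fun d => gm_nonneg (by positivity) _
  -- covering
  have hcov : Icc 1 D ⊆ (Icc 1 (s / 2) ∪ Ioc (s / 2) s) ∪ Ioc s ((D / s + 1) * s) := by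
    intro d hd
    have hd' := mem_Icc.mp hd
    simp only [mem_union, mem_Icc, mem_Ioc]
    have h1 : D < (D / s + 1) * s := by
      have h2 := Nat.div_add_mod D s
      have h3 := Nat.mod_lt D hs
      have h4 : (D / s + 1) * s = s * (D / s) + s := by ring
      omega
    omega
  have h1 : ∑ d ∈ Icc 1 D, gm (N / d + 1) (β * d) ≤
      (∑ d ∈ Icc 1 (s / 2), gm (N / d + 1) (β * d) +
        ∑ d ∈ Ioc (s / 2) s, gm (N / d + 1) (β * d)) +
      ∑ d ∈ Ioc s ((D / s + 1) * s), gm (N / d + 1) (β * d) := by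
    refine (sum_le_sum_of_subset_of_nonneg hcov fun d _ _ => hg0 d).trans (le_of_eq ?_)
    rw [sum_union, sum_union]
    · rw [disjoint_left]
      intro d h1 h2
      have := mem_Icc.mp h1
      have := mem_Ioc.mp h2
      omega
    · rw [disjoint_left]
      intro d h1 h2
      have h3 := mem_Ioc.mp h2
      rcases mem_union.mp h1 with h | h
      · have := mem_Icc.mp h
        omega
      · have := mem_Ioc.mp h
        omega
  -- first part
  have hA := MinSum.small β b s hs hbs hβ N hN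
  -- second part
  have hB : ∑ d ∈ Ioc (s / 2) s, gm (N / d + 1) (β * d) ≤
      16 * ((2 * N / s + 1) + s * (1 + Real.log s)) := by
    have e : s = s / 2 + (s - s / 2) := by omega
    have h2 := gm_block β 0 b s hs hbs hβ (s / 2) (s - s / 2) (2 * N / s + 1) (by positivity)
    rw [← e] at h2
    have h3 : ∑ d ∈ Ioc (s / 2) s, gm (N / d + 1) (β * d) ≤
        ∑ d ∈ Ioc (s / 2) s, gm (2 * N / s + 1) (β * d + 0) := by
      refine sum_le_sum fun d hd => ?_
      rw [add_zero]
      have hd' := mem_Ioc.mp hd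
      refine gm_mono (by positivity) ?_ _
      have h4 : (s : ℝ) ≤ 2 * d := by exact_mod_cast (by omega : s ≤ 2 * d)
      have hd0 : (0 : ℝ) < d := by exact_mod_cast (by omega : 0 < d)
      have h5 : N / d ≤ 2 * N / s := by
        rw [div_le_div_iff₀ hd0 hs0]
        nlinarith
      linarith
    have h4 : (((s - s / 2 : ℕ) : ℝ) / s + 1) ≤ 2 := by
      have : ((s - s / 2 : ℕ) : ℝ) ≤ s := by exact_mod_cast Nat.sub_le _ _
      have : ((s - s / 2 : ℕ) : ℝ) / s ≤ 1 := by rw [div_le_one hs0]; exact this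
      linarith
    have h5 : 0 ≤ (2 * N / s + 1) + s * (1 + Real.log s) := by positivity
    have h6 := mul_le_mul_of_nonneg_right h4 h5
    calc _ ≤ _ := h3
      _ ≤ _ := h2
      _ = 8 * ((((s - s / 2 : ℕ) : ℝ) / s + 1) * ((2 * N / s + 1) + s * (1 + Real.log s))) := by
          ring
      _ ≤ 8 * (2 * ((2 * N / s + 1) + s * (1 + Real.log s))) := by linarith
      _ = _ := by ring
  -- third part
  have hC : ∑ d ∈ Ioc s ((D / s + 1) * s), gm (N / d + 1) (β * d) ≤
      16 * (N / s * (1 + L) + D * (2 + L)) := by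
    rw [MinSum.blocks_cover]
    have hblk : ∀ k ∈ Icc 1 (D / s), ∑ d ∈ Ioc (k * s) (k * s + s), gm (N / d + 1) (β * d) ≤
        16 * (N / s * (1 / (k : ℝ)) + (1 + s * (1 + Real.log s))) := by
      intro k hk
      have hk1 := (mem_Icc.mp hk).1
      have hk0 : (0 : ℝ) < k := by exact_mod_cast hk1
      have h2 := gm_block β 0 b s hs hbs hβ (k * s) s (N / (k * s) + 1) (by positivity)
      have h3 : ∑ d ∈ Ioc (k * s) (k * s + s), gm (N / d + 1) (β * d) ≤
          ∑ d ∈ Ioc (k * s) (k * s + s), gm (N / (k * s) + 1) (β * d + 0) := by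
        refine sum_le_sum fun d hd => ?_
        rw [add_zero]
        have hd' := mem_Ioc.mp hd
        refine gm_mono (by positivity) ?_ _
        have h4 : ((k : ℝ) * s) ≤ d := by exact_mod_cast hd'.1.le
        have h5 : N / d ≤ N / (k * s) := div_le_div_of_nonneg_left hN (by positivity) h4
        linarith
      rw [div_self hs0.ne'] at h2
      calc _ ≤ _ := h3
        _ ≤ _ := h2
        _ = _ := by
          field_simp
          ring
    refine (sum_le_sum hblk).trans ?_
    rw [← mul_sum, sum_add_distrib, ← mul_sum, sum_const, Nat.card_Icc, Nat.add_sub_cancel,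
      nsmul_eq_mul]
    refine mul_le_mul_of_nonneg_left ?_ (by norm_num)
    have hK : ((D / s : ℕ) : ℝ) ≤ D / s := Nat.cast_div_le
    refine add_le_add ?_ ?_
    · refine mul_le_mul_of_nonneg_left ?_ (by positivity)
      have e : Icc 1 (D / s) = Ioc 0 (D / s) := by
        ext a
        simp only [mem_Icc, mem_Ioc]
        omega
      rw [e]
      refine (Pool.Agent.Work.BV.sum_inv_le (D / s)).trans ?_
      rcases Nat.eq_zero_or_pos (D / s) with h0 | h0
      · rw [h0]
        simp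
        linarith
      · have : Real.log ((D / s : ℕ) : ℝ) ≤ L := by
          refine Real.log_le_log (by exact_mod_cast h0) ?_
          exact_mod_cast (Nat.div_le_self D s).trans hD
        linarith
    · have h5 : 0 ≤ 1 + s * (1 + Real.log s) := by positivity
      calc ((D / s : ℕ) : ℝ) * (1 + s * (1 + Real.log s)) ≤ (D / s) * (1 + s * (1 + Real.log s)) :=
            mul_le_mul_of_nonneg_right hK h5
        _ = D / s + D * (1 + Real.log s) := by field_simp
        _ ≤ D + D * (1 + L) := by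
            refine add_le_add (div_le_self (Nat.cast_nonneg D) hs1) ?_
            exact mul_le_mul_of_nonneg_left (by linarith) (Nat.cast_nonneg D)
        _ = D * (2 + L) := by ring
  have hNs : 0 ≤ N / s := by positivity
  have hDD : (0 : ℝ) ≤ D := Nat.cast_nonneg D
  have e1 : 2 * N / s = 2 * (N / s) := by ring
  rw [e1] at hB
  have m1 : (s : ℝ) * (1 + Real.log s) ≤ s * (2 * L) := mul_le_mul_of_nonneg_left (by linarith) hs0.le
  have m2 : N / s * (1 + L) ≤ N / s * (2 * L) := mul_le_mul_of_nonneg_left (by linarith) hNs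
  have m3 : (D : ℝ) * (2 + L) ≤ D * (3 * L) := mul_le_mul_of_nonneg_left (by linarith) hDD
  have m4 : (1 : ℝ) ≤ s * L := by nlinarith
  have m5 : N / s ≤ N / s * L := by nlinarith
  calc _ ≤ _ := h1
    _ ≤ (2 * (s * (1 + Real.log s)) + 16 * ((2 * (N / s) + 1) + s * (1 + Real.log s))) +
        16 * (N / s * (1 + L) + D * (2 + L)) := add_le_add (add_le_add hA hB) hC
    _ ≤ 64 * (N / s * L) + 64 * (D * L) + 64 * (s * L) := by
        have m6 : 0 ≤ (D : ℝ) * L := by positivity
        have m7 : 0 ≤ (s : ℝ) * L := by positivity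
        have m8 : 0 ≤ N / s * L := by positivity
        linarith
    _ = 64 * (N / s + D + s) * L := by ring

end Pool.Agent.HL
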