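import Pool.Agent.Work.MP_92f640_nt.HL.Ram
import Pool.Agent.Work.MP_92f640_nt.HL.MinSum

/-! # Module TMain: the convolution of the model with itself at `q m`

For `0 < k < q m`: `k` coprime to `q` iff `q m - k` is. Expand:
`(q/φ(q))² ∑_{s₁,s₂} μ μ/(φ φ) ∑_{b₁,b₂} ∑_{k coprime to q} e(k b₁/s₁ + (q m - k) b₂/s₂)`.
`k = a + q u`, `a < q` coprime to `q`, `u < m`: exactly `m` integers in each class (`q = 1`: `k < m`, the class
`a = 0` has `m - 1` integers `k ≥ 1`, this costs an error `O(Q²)`; or treat `Ico 1 (q m)` in general as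
`range (q m)` minus `0`, and note `0` is not coprime to `q` for `q > 1`).
Diagonal `(s₁,b₁) = (s₂,b₂)`: `φ(q) m e(q m b/s)`, gives the main term (`ram_im`, `μ = 0` off the squarefree
integers). Off the diagonal `q (b₁/s₁ - b₂/s₂)` is not an integer, distance `≥ 1/(s₁ s₂)`, so the sum over
`u` is `≤ s₁ s₂/2`; total `≤ (q/φ(q))² φ(q) (∑_{s ≤ Q} s)²/2 ≤ (q/φ(q)) q Q⁴`. -/

namespace Pool.Agent.HL

open Finset Pool.Agent.BV
open scoped ArithmeticFunction.Moebius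

/-- distance of a fraction which is not an integer to the nearest integer -/
theorem tmn_dist (k : ℤ) (t : ℕ) (ht : 1 ≤ t) (h : ¬ (t : ℤ) ∣ k) :
    1 / (t : ℝ) ≤ |(k : ℝ) / t - round ((k : ℝ) / t)| := by
  have ht' : (0 : ℝ) < t := by exact_mod_cast ht
  have h1 : (k : ℝ) / t - round ((k : ℝ) / t) = ((k - t * round ((k : ℝ) / t) : ℤ) : ℝ) / t := by
    push_cast
    field_simp
  rw [h1, abs_div, abs_of_pos ht']
  apply div_le_div_of_nonneg_right _ ht'.le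
  have h2 : k - t * round ((k : ℝ) / t) ≠ 0 := by
    intro h0
    exact h ⟨_, by linarith⟩
  exact_mod_cast Int.one_le_abs h2

theorem tmn_w (t : ℕ) (ht : 1 ≤ t) : ‖((μ t : ℤ) : ℂ) / (t.totient : ℂ)‖ ≤ 1 / (t.totient : ℝ) := by
  have h0 : (0 : ℝ) < t.totient := by exact_mod_cast Nat.totient_pos.2 ht
  rw [norm_div]
  have h1 : ‖((μ t : ℤ) : ℂ)‖ ≤ 1 := by
    rw [Complex.norm_intCast]
    exact_mod_cast ArithmeticFunction.abs_moebius_le_one
  have h2 : ‖(t.totient : ℂ)‖ = (t.totient : ℝ) := by simp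
  rw [h2]
  exact div_le_div_of_nonneg_right h1 h0.le

theorem tmn_card (t : ℕ) : ((range t).filter (fun b => b.Coprime t)).card = t.totient := by
  unfold Nat.totient
  congr 1
  ext b
  simp [Nat.coprime_comm]

/-- splitting into residue classes -/
theorem tmn_split (F : ℕ → ℂ) (q m : ℕ) :
    ∑ k ∈ range (q * m), F k = ∑ a ∈ range q, ∑ u ∈ range m, F (q * u + a) := by
  rw [Finset.sum_comm]
  induction m with
  | zero => simp
  | succ m ih => rw [Nat.mul_succ, Finset.sum_range_add, ih, Finset.sum_range_succ]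

/-- reduced fractions with an integral multiple of the difference are equal -/
theorem tmn_eq (q s₁ s₂ b₁ b₂ : ℕ) (h₁ : s₁.Coprime q) (h₂ : s₂.Coprime q)
    (hb₁ : b₁ < s₁) (hb₂ : b₂ < s₂) (hc₁ : b₁.Coprime s₁) (hc₂ : b₂.Coprime s₂)
    (h : ((s₁ * s₂ : ℕ) : ℤ) ∣ (q : ℤ) * (b₁ * s₂ - b₂ * s₁)) : s₁ = s₂ ∧ b₁ = b₂ := by
  have hcop : IsCoprime ((s₁ * s₂ : ℕ) : ℤ) (q : ℤ) :=
    Nat.isCoprime_iff_coprime.2 (Nat.Coprime.mul_left h₁ h₂)
  have h3 := hcop.dvd_of_dvd_mul_left h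
  have h1 : (b₁ : ℤ) * s₂ < s₁ * s₂ := by
    have : b₁ * s₂ < s₁ * s₂ := Nat.mul_lt_mul_of_pos_right hb₁ (by omega)
    exact_mod_cast this
  have h2 : (b₂ : ℤ) * s₁ < s₁ * s₂ := by
    have : b₂ * s₁ < s₁ * s₂ := by
      rw [mul_comm s₁ s₂]; exact Nat.mul_lt_mul_of_pos_right hb₂ (by omega)
    exact_mod_cast this
  have h4 : (b₁ : ℤ) * s₂ - b₂ * s₁ = 0 := by
    apply Int.eq_zero_of_abs_lt_dvd h3
    rw [abs_lt]
    have h5 : (0 : ℤ) ≤ b₁ * s₂ := by positivity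
    have h6 : (0 : ℤ) ≤ b₂ * s₁ := by positivity
    push_cast
    constructor <;> linarith
  have h5 : b₁ * s₂ = b₂ * s₁ := by
    have : (b₁ : ℤ) * s₂ = b₂ * s₁ := by linarith
    exact_mod_cast this
  have h6 : s₁ ∣ s₂ := by
    have : s₁ ∣ b₁ * s₂ := ⟨b₂, by rw [h5, mul_comm]⟩
    exact hc₁.symm.dvd_of_dvd_mul_left this
  have h7 : s₂ ∣ s₁ := by
    have : s₂ ∣ b₂ * s₁ := ⟨b₁, by rw [← h5, mul_comm]⟩
    exact hc₂.symm.dvd_of_dvd_mul_left this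
  have h8 : s₁ = s₂ := Nat.dvd_antisymm h6 h7
  refine ⟨h8, ?_⟩
  rw [h8] at h5
  exact Nat.eq_of_mul_eq_mul_right (by omega) h5

/-- the sum over `k` -/
theorem tmn_sum (q m : ℕ) (hq : 1 ≤ q) (hm : 1 ≤ m) (β : ℝ) :
    ‖(∑ k ∈ (Ico 1 (q * m)).filter (fun k => k.Coprime q), e (k * β)) -
      ∑ k ∈ (range (q * m)).filter (fun k => k.Coprime q), e (k * β)‖ ≤ 1 := by
  have h1 : range (q * m) = insert 0 (Ico 1 (q * m)) := by
    ext k
    have : 0 < q * m := Nat.mul_pos hq hm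
    simp only [Finset.mem_range, Finset.mem_insert, Finset.mem_Ico]
    omega
  rw [h1, Finset.filter_insert]
  split_ifs with h
  · rw [Finset.sum_insert (by simp)]
    have : ‖e (((0 : ℕ) : ℝ) * β)‖ = 1 := add_norm_e _
    rw [show (∑ k ∈ (Ico 1 (q * m)).filter (fun k => k.Coprime q), e (k * β)) -
      (e (((0 : ℕ) : ℝ) * β) + ∑ k ∈ (Ico 1 (q * m)).filter (fun k => k.Coprime q), e (k * β)) =
      - e (((0 : ℕ) : ℝ) * β) by ring, norm_neg, this]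
  · simp

theorem tmn_off (q m s₁ s₂ b₁ b₂ : ℕ) (hq : 1 ≤ q) (h₁ : s₁.Coprime q) (h₂ : s₂.Coprime q)
    (hb₁ : b₁ < s₁) (hb₂ : b₂ < s₂) (hc₁ : b₁.Coprime s₁) (hc₂ : b₂.Coprime s₂)
    (hne : ¬ (s₁ = s₂ ∧ b₁ = b₂)) :
    ‖∑ k ∈ (range (q * m)).filter (fun k => k.Coprime q), e (k * ((b₁ : ℝ) / s₁ - (b₂ : ℝ) / s₂))‖ ≤
      q.totient * (((s₁ * s₂ : ℕ) : ℝ) / 2) := by
  set β : ℝ := (b₁ : ℝ) / s₁ - (b₂ : ℝ) / s₂ with hβ
  have hs₁ : (0 : ℝ) < s₁ := by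
    have : 0 < s₁ := by omega
    exact_mod_cast this
  have hs₂ : (0 : ℝ) < s₂ := by
    have : 0 < s₂ := by omega
    exact_mod_cast this
  have hs : 1 ≤ s₁ * s₂ := Nat.mul_pos (by omega) (by omega)
  have hs' : (0 : ℝ) < ((s₁ * s₂ : ℕ) : ℝ) := by exact_mod_cast hs
  rw [Finset.sum_filter, tmn_split (fun k => if k.Coprime q then e (k * β) else 0)]
  have h1 : ∀ a ∈ range q, (∑ u ∈ range m, if (q * u + a).Coprime q then
      e (((q * u + a : ℕ) : ℝ) * β) else 0) =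
      if a.Coprime q then e (a * β) * ∑ u ∈ range m, e (u * ((q : ℝ) * β)) else 0 := by
    intro a _
    have h2 : ∀ u, (q * u + a).Coprime q ↔ a.Coprime q := by
      intro u; simp
    simp only [h2]
    split_ifs
    · rw [Finset.mul_sum]
      refine Finset.sum_congr rfl fun u _ => ?_
      rw [← add_e_add]
      congr 1
      push_cast
      ring
    · simp
  rw [Finset.sum_congr rfl h1, ← Finset.sum_filter, ← Finset.sum_mul, norm_mul]
  have h2 : ‖∑ a ∈ (range q).filter (fun a => a.Coprime q), e (a * β)‖ ≤ q.totient := by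
    refine (norm_sum_le _ _).trans ?_
    simp only [add_norm_e, Finset.sum_const, nsmul_eq_mul, mul_one]
    rw [tmn_card]
  refine mul_le_mul h2 ?_ (norm_nonneg _) (by positivity)
  refine (geom_le m _).trans ?_
  have h3 : (q : ℝ) * β = (((q : ℤ) * (b₁ * s₂ - b₂ * s₁) : ℤ) : ℝ) / ((s₁ * s₂ : ℕ) : ℝ) := by
    rw [hβ]
    push_cast
    field_simp
  rw [h3]
  have h4 : ¬ (((s₁ * s₂ : ℕ) : ℤ)) ∣ (q : ℤ) * (b₁ * s₂ - b₂ * s₁) := by
    intro h
    exact hne (tmn_eq q s₁ s₂ b₁ b₂ h₁ h₂ hb₁ hb₂ hc₁ hc₂ h)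
  have h5 := tmn_dist _ (s₁ * s₂) hs h4
  refine (gm_le_of_dist (Y := (m : ℝ)) (by positivity) (δ := 1 / ((s₁ * s₂ : ℕ) : ℝ))
    (by positivity) h5).trans (le_of_eq ?_)
  field_simp

theorem tmn_diag (q m : ℕ) :
    ∑ k ∈ (range (q * m)).filter (fun k => k.Coprime q), e (k * (0 : ℝ)) =
      ((q.totient * m : ℕ) : ℂ) := by
  rw [Finset.sum_filter, tmn_split (fun k => if k.Coprime q then e (k * (0 : ℝ)) else 0)]
  have h1 : ∀ a ∈ range q, (∑ u ∈ range m, if (q * u + a).Coprime q then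
      e (((q * u + a : ℕ) : ℝ) * (0 : ℝ)) else 0) = if a.Coprime q then (m : ℂ) else 0 := by
    intro a _
    have h2 : ∀ u, (q * u + a).Coprime q ↔ a.Coprime q := by
      intro u; simp
    simp only [h2, mul_zero, add_e_zero]
    split_ifs
    · simp
    · simp
  rw [Finset.sum_congr rfl h1, ← Finset.sum_filter, Finset.sum_const, tmn_card, nsmul_eq_mul]
  push_cast
  ring

theorem T_main (q Q m : ℕ) (hq : 1 ≤ q) (hQ : 1 ≤ Q) (hm : 1 ≤ m) :
    ‖cv (TM q Q) (TM q Q) (q * m) -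
        (((q : ℝ) / q.totient * ((q * m : ℕ) : ℝ) * Sg q Q m : ℝ) : ℂ)‖ ≤
      4 * ((q : ℝ) / q.totient) * q * (Q : ℝ) ^ 4 := by
  set K : ℂ := (q : ℂ) / (q.totient : ℂ) with hK
  have hφ : (0 : ℝ) < q.totient := by exact_mod_cast Nat.totient_pos.2 hq
  have hφ1 : (1 : ℝ) ≤ q.totient := by exact_mod_cast Nat.totient_pos.2 hq
  have hKn : ‖K‖ = (q : ℝ) / q.totient := by
    rw [hK, norm_div]; simp
  have hQ' : (1 : ℝ) ≤ Q := by exact_mod_cast hQ
  set I := (Icc 1 Q).filter (fun s => s.Coprime q) with hI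
  set w : ℕ → ℂ := fun s => ((μ s : ℤ) : ℂ) / (s.totient : ℂ) with hw
  set B : ℕ → Finset ℕ := fun s => (range s).filter (fun b => b.Coprime s) with hB
  set S : ℕ → ℕ → ℕ → ℕ → ℂ := fun s₁ b₁ s₂ b₂ =>
    ∑ k ∈ (Ico 1 (q * m)).filter (fun k => k.Coprime q), e (k * ((b₁ : ℝ) / s₁ - (b₂ : ℝ) / s₂))
    with hS
  -- expansion
  have hcv : cv (TM q Q) (TM q Q) (q * m) =
      K ^ 2 * ∑ s₁ ∈ I, ∑ s₂ ∈ I, w s₁ * w s₂ * ∑ b₁ ∈ B s₁, ∑ b₂ ∈ B s₂,
        e ((q * m : ℕ) * ((b₂ : ℝ) / s₂)) * S s₁ b₁ s₂ b₂ := by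
    have h1 : ∀ k ∈ Ico 1 (q * m), TM q Q k * TM q Q (q * m - k) =
        if k.Coprime q then K ^ 2 * ∑ s₁ ∈ I, ∑ s₂ ∈ I, w s₁ * w s₂ * ∑ b₁ ∈ B s₁, ∑ b₂ ∈ B s₂,
        (e ((q * m : ℕ) * ((b₂ : ℝ) / s₂)) * e (k * ((b₁ : ℝ) / s₁ - (b₂ : ℝ) / s₂))) else 0 := by
      intro k hk
      rw [Finset.mem_Ico] at hk
      by_cases hkq : k.Coprime q
      · have hkq' : (q * m - k).Coprime q := by
          have h2 : (q * m - k).gcd q = k.gcd q := by
            apply Nat.dvd_antisymm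
            · apply Nat.dvd_gcd _ (Nat.gcd_dvd_right _ _)
              have h4 : Nat.gcd (q * m - k) q ∣ q * m := (Nat.gcd_dvd_right _ _).mul_right m
              have h5 := Nat.dvd_sub h4 (Nat.gcd_dvd_left (q * m - k) q)
              rwa [show q * m - (q * m - k) = k by omega] at h5
            · apply Nat.dvd_gcd _ (Nat.gcd_dvd_right _ _)
              exact Nat.dvd_sub ((Nat.gcd_dvd_right k q).mul_right m) (Nat.gcd_dvd_left k q)
          rw [Nat.Coprime, h2]; exact hkq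
        rw [if_pos hkq]
        unfold TM
        rw [if_pos hkq, if_pos hkq']
        change (K * ∑ s ∈ I, w s * ram s k) * (K * ∑ s ∈ I, w s * ram s (q * m - k)) = _
        rw [show (K * ∑ s ∈ I, w s * ram s k) * (K * ∑ s ∈ I, w s * ram s (q * m - k)) =
          K ^ 2 * ((∑ s ∈ I, w s * ram s k) * (∑ s ∈ I, w s * ram s (q * m - k))) by ring]
        congr 1
        rw [Finset.sum_mul_sum]
        refine Finset.sum_congr rfl fun s₁ hs₁ => Finset.sum_congr rfl fun s₂ hs₂ => ?_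
        rw [show w s₁ * ram s₁ k * (w s₂ * ram s₂ (q * m - k)) =
          w s₁ * w s₂ * (ram s₁ k * ram s₂ (q * m - k)) by ring]
        congr 1
        unfold ram
        rw [Finset.sum_mul_sum]
        refine Finset.sum_congr rfl fun b₁ hb₁ => Finset.sum_congr rfl fun b₂ hb₂ => ?_
        rw [← add_e_add, ← add_e_add]
        congr 1
        rw [Nat.cast_sub (by omega : k ≤ q * m)]
        ring
      · rw [if_neg hkq]
        unfold TM
        rw [if_neg hkq, zero_mul]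
    unfold cv
    rw [Finset.sum_congr rfl h1, ← Finset.sum_filter, ← Finset.mul_sum]
    congr 1
    rw [Finset.sum_comm]
    refine Finset.sum_congr rfl fun s₁ _ => ?_
    rw [Finset.sum_comm]
    refine Finset.sum_congr rfl fun s₂ _ => ?_
    rw [← Finset.mul_sum]
    congr 1
    rw [Finset.sum_comm]
    refine Finset.sum_congr rfl fun b₁ _ => ?_
    rw [Finset.sum_comm]
    refine Finset.sum_congr rfl fun b₂ _ => ?_
    rw [hS, Finset.mul_sum]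
  -- main term
  set M : ℕ → ℕ → ℕ → ℕ → ℂ := fun s₁ b₁ s₂ b₂ =>
    if s₁ = s₂ ∧ b₁ = b₂ then ((q.totient * m : ℕ) : ℂ) else 0 with hM
  have hmain : (((q : ℝ) / q.totient * ((q * m : ℕ) : ℝ) * Sg q Q m : ℝ) : ℂ) =
      K ^ 2 * ∑ s₁ ∈ I, ∑ s₂ ∈ I, w s₁ * w s₂ * ∑ b₁ ∈ B s₁, ∑ b₂ ∈ B s₂,
        e ((q * m : ℕ) * ((b₂ : ℝ) / s₂)) * M s₁ b₁ s₂ b₂ := by
    have h1 : ∀ s₁ ∈ I, ∑ s₂ ∈ I, w s₁ * w s₂ * ∑ b₁ ∈ B s₁, ∑ b₂ ∈ B s₂,
        e ((q * m : ℕ) * ((b₂ : ℝ) / s₂)) * M s₁ b₁ s₂ b₂ =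
        w s₁ * w s₁ * (ram s₁ (q * m) * ((q.totient * m : ℕ) : ℂ)) := by
      intro s₁ hs₁
      rw [Finset.sum_eq_single s₁]
      · congr 1
        unfold ram
        rw [Finset.sum_mul]
        refine Finset.sum_congr rfl fun b₁ hb₁ => ?_
        rw [Finset.sum_eq_single b₁]
        · rw [hM]; simp
        · intro b₂ _ hb
          rw [hM]
          simp [Ne.symm hb]
        · intro h; exact absurd hb₁ h
      · intro s₂ _ hs
        rw [hM]
        simp [Ne.symm hs]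
      · intro h; exact absurd hs₁ h
    rw [Finset.sum_congr rfl h1]
    unfold Sg
    rw [Complex.ofReal_mul, Complex.ofReal_sum, Finset.mul_sum, Finset.mul_sum]
    refine Finset.sum_congr rfl fun s hs => ?_
    have hs1 : 1 ≤ s := (Finset.mem_Icc.1 (Finset.mem_filter.1 hs).1).1
    have hsφ : (s.totient : ℂ) ≠ 0 := by
      exact_mod_cast (Nat.totient_pos.2 hs1).ne'
    have hqφ : (q.totient : ℂ) ≠ 0 := by
      exact_mod_cast (Nat.totient_pos.2 hq).ne'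
    by_cases hsq : Squarefree s
    · have him := ram_im s (q * m) hsq
      have hre : ram s (q * m) = (((ram s (q * m)).re : ℝ) : ℂ) := by
        apply Complex.ext
        · simp
        · simpa using him
      rw [hw, hK]
      simp only
      rw [hre]
      push_cast
      simp only [Complex.ofReal_re]
      field_simp
    · have : μ s = 0 := ArithmeticFunction.moebius_eq_zero_of_not_squarefree hsq
      rw [hw]
      simp [this]
  rw [hcv, hmain, ← mul_sub, ← Finset.sum_sub_distrib, norm_mul]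
  have hterm : ∀ s₁ ∈ I, ∀ s₂ ∈ I,
      ‖w s₁ * w s₂ * (∑ b₁ ∈ B s₁, ∑ b₂ ∈ B s₂,
        e ((q * m : ℕ) * ((b₂ : ℝ) / s₂)) * S s₁ b₁ s₂ b₂) -
      w s₁ * w s₂ * (∑ b₁ ∈ B s₁, ∑ b₂ ∈ B s₂,
        e ((q * m : ℕ) * ((b₂ : ℝ) / s₂)) * M s₁ b₁ s₂ b₂)‖ ≤ 2 * q.totient * (Q : ℝ) ^ 2 := by
    intro s₁ hs₁ s₂ hs₂
    rw [hI, Finset.mem_filter, Finset.mem_Icc] at hs₁ hs₂
    rw [← mul_sub, ← Finset.sum_sub_distrib, norm_mul]
    have h1 : ‖∑ b₁ ∈ B s₁, ((∑ b₂ ∈ B s₂, e ((q * m : ℕ) * ((b₂ : ℝ) / s₂)) * S s₁ b₁ s₂ b₂) -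
        ∑ b₂ ∈ B s₂, e ((q * m : ℕ) * ((b₂ : ℝ) / s₂)) * M s₁ b₁ s₂ b₂)‖ ≤
        s₁.totient * (s₂.totient * (q.totient * ((Q : ℝ) ^ 2 / 2) + 1)) := by
      refine (norm_sum_le _ _).trans ?_
      have h2 : ∀ b₁ ∈ B s₁, ‖(∑ b₂ ∈ B s₂, e ((q * m : ℕ) * ((b₂ : ℝ) / s₂)) * S s₁ b₁ s₂ b₂) -
        ∑ b₂ ∈ B s₂, e ((q * m : ℕ) * ((b₂ : ℝ) / s₂)) * M s₁ b₁ s₂ b₂‖ ≤
        s₂.totient * (q.totient * ((Q : ℝ) ^ 2 / 2) + 1) := by
        intro b₁ hb₁
        rw [← Finset.sum_sub_distrib]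
        refine (norm_sum_le _ _).trans ?_
        have h3 : ∀ b₂ ∈ B s₂, ‖e ((q * m : ℕ) * ((b₂ : ℝ) / s₂)) * S s₁ b₁ s₂ b₂ -
            e ((q * m : ℕ) * ((b₂ : ℝ) / s₂)) * M s₁ b₁ s₂ b₂‖ ≤
            q.totient * ((Q : ℝ) ^ 2 / 2) + 1 := by
          intro b₂ hb₂
          rw [← mul_sub, norm_mul, add_norm_e, one_mul]
          have hb₁' := Finset.mem_filter.1 hb₁
          have hb₂' := Finset.mem_filter.1 hb₂
          have h4 := tmn_sum q m hq hm ((b₁ : ℝ) / s₁ - (b₂ : ℝ) / s₂)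
          have h5 : ‖(∑ k ∈ (range (q * m)).filter (fun k => k.Coprime q),
              e (k * ((b₁ : ℝ) / s₁ - (b₂ : ℝ) / s₂))) - M s₁ b₁ s₂ b₂‖ ≤
              q.totient * ((Q : ℝ) ^ 2 / 2) := by
            by_cases hd : s₁ = s₂ ∧ b₁ = b₂
            · rw [hM]
              simp only
              rw [if_pos hd, hd.1, hd.2, sub_self, tmn_diag, sub_self, norm_zero]
              positivity
            · rw [hM]
              simp only
              rw [if_neg hd, sub_zero]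
              refine (tmn_off q m s₁ s₂ b₁ b₂ hq hs₁.2 hs₂.2 (Finset.mem_range.1 hb₁'.1)
                (Finset.mem_range.1 hb₂'.1) hb₁'.2 hb₂'.2 hd).trans ?_
              apply mul_le_mul_of_nonneg_left _ hφ.le
              apply div_le_div_of_nonneg_right _ (by norm_num)
              push_cast
              have h6 : (s₁ : ℝ) ≤ Q := by exact_mod_cast hs₁.1.2
              have h7 : (s₂ : ℝ) ≤ Q := by exact_mod_cast hs₂.1.2
              have h8 : (0 : ℝ) ≤ s₂ := by positivity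
              nlinarith
          calc ‖S s₁ b₁ s₂ b₂ - M s₁ b₁ s₂ b₂‖
              = ‖(S s₁ b₁ s₂ b₂ - ∑ k ∈ (range (q * m)).filter (fun k => k.Coprime q),
                  e (k * ((b₁ : ℝ) / s₁ - (b₂ : ℝ) / s₂))) +
                ((∑ k ∈ (range (q * m)).filter (fun k => k.Coprime q),
                  e (k * ((b₁ : ℝ) / s₁ - (b₂ : ℝ) / s₂))) - M s₁ b₁ s₂ b₂)‖ := by
                congr 1; ring
            _ ≤ _ := norm_add_le _ _
            _ ≤ 1 + q.totient * ((Q : ℝ) ^ 2 / 2) := add_le_add h4 h5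
            _ = _ := by ring
        refine (Finset.sum_le_sum h3).trans ?_
        rw [Finset.sum_const, nsmul_eq_mul, hB]
        simp only
        rw [tmn_card]
      refine (Finset.sum_le_sum h2).trans ?_
      rw [Finset.sum_const, nsmul_eq_mul, hB]
      simp only
      rw [tmn_card]
    have h0₁ : (0 : ℝ) < s₁.totient := by exact_mod_cast Nat.totient_pos.2 hs₁.1.1
    have h0₂ : (0 : ℝ) < s₂.totient := by exact_mod_cast Nat.totient_pos.2 hs₂.1.1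
    have hw1 : ‖w s₁ * w s₂‖ ≤ 1 / (s₁.totient : ℝ) * (1 / (s₂.totient : ℝ)) := by
      rw [norm_mul]
      exact mul_le_mul (tmn_w s₁ hs₁.1.1) (tmn_w s₂ hs₂.1.1) (norm_nonneg _) (by positivity)
    calc _ ≤ 1 / (s₁.totient : ℝ) * (1 / (s₂.totient : ℝ)) *
          (s₁.totient * (s₂.totient * (q.totient * ((Q : ℝ) ^ 2 / 2) + 1))) :=
          mul_le_mul hw1 h1 (norm_nonneg _) (by positivity)
      _ = q.totient * ((Q : ℝ) ^ 2 / 2) + 1 := by field_simp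
      _ ≤ 2 * q.totient * (Q : ℝ) ^ 2 := by
          have h9 : (1 : ℝ) ≤ (Q : ℝ) ^ 2 := by nlinarith
          have h10 : (1 : ℝ) ≤ q.totient * (Q : ℝ) ^ 2 := by nlinarith
          nlinarith
  have hsum : ‖∑ s₁ ∈ I, ((∑ s₂ ∈ I, w s₁ * w s₂ * ∑ b₁ ∈ B s₁, ∑ b₂ ∈ B s₂,
        e ((q * m : ℕ) * ((b₂ : ℝ) / s₂)) * S s₁ b₁ s₂ b₂) -
      ∑ s₂ ∈ I, w s₁ * w s₂ * ∑ b₁ ∈ B s₁, ∑ b₂ ∈ B s₂,
        e ((q * m : ℕ) * ((b₂ : ℝ) / s₂)) * M s₁ b₁ s₂ b₂)‖ ≤
      Q * (Q * (2 * q.totient * (Q : ℝ) ^ 2)) := by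
    have hcard : (I.card : ℝ) ≤ Q := by
      have : I.card ≤ Q := by
        refine (Finset.card_filter_le _ _).trans ?_
        simp
      exact_mod_cast this
    refine (norm_sum_le _ _).trans ?_
    have h1 : ∀ s₁ ∈ I, ‖(∑ s₂ ∈ I, w s₁ * w s₂ * ∑ b₁ ∈ B s₁, ∑ b₂ ∈ B s₂,
        e ((q * m : ℕ) * ((b₂ : ℝ) / s₂)) * S s₁ b₁ s₂ b₂) -
      ∑ s₂ ∈ I, w s₁ * w s₂ * ∑ b₁ ∈ B s₁, ∑ b₂ ∈ B s₂,
        e ((q * m : ℕ) * ((b₂ : ℝ) / s₂)) * M s₁ b₁ s₂ b₂‖ ≤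
        Q * (2 * q.totient * (Q : ℝ) ^ 2) := by
      intro s₁ hs₁
      rw [← Finset.sum_sub_distrib]
      refine (norm_sum_le _ _).trans ((Finset.sum_le_sum (hterm s₁ hs₁)).trans ?_)
      rw [Finset.sum_const, nsmul_eq_mul]
      exact mul_le_mul_of_nonneg_right hcard (by positivity)
    refine (Finset.sum_le_sum h1).trans ?_
    rw [Finset.sum_const, nsmul_eq_mul]
    exact mul_le_mul_of_nonneg_right hcard (by positivity)
  have hK2 : ‖K ^ 2‖ = ((q : ℝ) / q.totient) ^ 2 := by rw [norm_pow, hKn]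
  rw [hK2]
  calc _ ≤ ((q : ℝ) / q.totient) ^ 2 * (Q * (Q * (2 * q.totient * (Q : ℝ) ^ 2))) :=
        mul_le_mul_of_nonneg_left hsum (by positivity)
    _ = 2 * ((q : ℝ) / q.totient) * q * (Q : ℝ) ^ 4 := by field_simp
    _ ≤ 4 * ((q : ℝ) / q.totient) * q * (Q : ℝ) ^ 4 := by
        have : 0 ≤ ((q : ℝ) / q.totient) * q * (Q : ℝ) ^ 4 := by positivity
        nlinarith

end Pool.Agent.HL
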