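import Pool.Agent.Work.MP_92f640_nt.HL.Circle
import Pool.Agent.Work.MP_92f640_nt.HL.SupVV
import Pool.Agent.Work.MP_92f640_nt.HL.TMain
import Pool.Agent.Work.MP_92f640_nt.HL.Sing
import Pool.Agent.Work.MP_92f640_nt.HL.Bset
import Pool.Agent.Work.BV.Primes

/-! # Module Final

`main_nat` (given `ε`, `K`): `B'' = 2 K + 8`, `B₁, B₈, B₉` from `sup_VV` (`B'' ≤ B₁`), `B` from `bset ε B₁ B₈ B₉`,
`h = FL q - TM q Q`, `cv F F - cv T T = cv h F + cv h T` (`cv_comm`), `circle` twice, `∑ ‖FL‖² ≤ x (log x)²`, `T_l2`: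
the number of `m ≤ x/q` with `‖cv F F (q m) - cv T T (q m)‖ ≥ x/40` is at most `(x/q)/(2 (log x)^K)`; `sing`;
`T_main`; so for the other `n = q m ∈ (x/2, x]`, `n` even: `(cv F F n).re ≥ (7/10) n`, and
`(cv F F n).re ≤ (log n)² g(n) + 2 log n (ψ(n) - θ(n)) ≤ (log n)² g(n) + 4 √n (log n)²` (`primes_sub_le`).
`half_level`: `X = ⌊x⌋₊`, `main_nat` with `ε/2`, `K + 1` and `A + 1`, `x ≤ 2 X`. -/

namespace Pool.Agent.HL

open Finset Pool.Agent.BV
open scoped ArithmeticFunction.vonMangoldt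

theorem fl_mul_re_le (q k l : ℕ) : (FL q k * FL q l).re ≤ Λ k * Λ l := by
  have h0 : 0 ≤ Λ k * Λ l :=
    mul_nonneg ArithmeticFunction.vonMangoldt_nonneg ArithmeticFunction.vonMangoldt_nonneg
  unfold FL
  split_ifs
  · rw [← Complex.ofReal_mul, Complex.ofReal_re]
  · simpa using h0
  · simpa using h0
  · simpa using h0

theorem not_prime_sum_le (n : ℕ) :
    ∑ k ∈ (Ico 1 n).filter (fun k => ¬ k.Prime), Λ k ≤ psi n - theta n := by
  have h1 : psi n - theta n = ∑ k ∈ (Icc 1 n).filter (fun k => ¬ k.Prime), Λ k := by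
    have h2 : psi n = ∑ k ∈ (Icc 1 n).filter Nat.Prime, Λ k +
        ∑ k ∈ (Icc 1 n).filter (fun k => ¬ k.Prime), Λ k := by
      unfold psi
      rw [sum_filter_add_sum_filter_not]
    have h3 : theta n = ∑ k ∈ (Icc 1 n).filter Nat.Prime, Λ k := by
      unfold theta
      apply sum_congr rfl
      intro p hp
      rw [mem_filter] at hp
      rw [ArithmeticFunction.vonMangoldt_apply_prime hp.2]
    rw [h2, h3]
    ring
  rw [h1]
  apply sum_le_sum_of_subset_of_nonneg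
  · intro k hk
    rw [mem_filter, mem_Ico] at hk
    rw [mem_filter, mem_Icc]
    exact ⟨⟨hk.1.1, hk.1.2.le⟩, hk.2⟩
  · intro k _ _
    exact ArithmeticFunction.vonMangoldt_nonneg

theorem mangoldt_le_log' {k n : ℕ} (hk : 1 ≤ k) (hkn : k ≤ n) : Λ k ≤ Real.log n := by
  refine ArithmeticFunction.vonMangoldt_le_log.trans ?_
  apply Real.log_le_log (by exact_mod_cast hk)
  exact_mod_cast hkn

open Pool.Agent.Work.MP_92f640_nt in
theorem cv_re_le (q n : ℕ) (hn : 3 ≤ n) :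
    (cv (FL q) (FL q) n).re ≤ (Real.log n) ^ 2 * goldbachCount n +
      4 * Real.sqrt n * (Real.log n) ^ 2 := by
  have hL : 0 ≤ Real.log n := Real.log_nonneg (by exact_mod_cast (by omega : 1 ≤ n))
  have h1 : (cv (FL q) (FL q) n).re ≤ ∑ k ∈ Ico 1 n, Λ k * Λ (n - k) := by
    unfold cv
    rw [Complex.re_sum]
    exact sum_le_sum (fun k _ => fl_mul_re_le q k (n - k))
  have h2 : ∀ k ∈ Ico 1 n, Λ k * Λ (n - k) ≤
      (if k.Prime ∧ (n - k).Prime then (Real.log n) ^ 2 else 0) +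
      ((if ¬ k.Prime then Λ k else 0) * Real.log n +
      (if ¬ (n - k).Prime then Λ (n - k) else 0) * Real.log n) := by
    intro k hk
    rw [mem_Ico] at hk
    have a1 := mangoldt_le_log' hk.1 hk.2.le
    have a2 := mangoldt_le_log' (k := n - k) (n := n) (by omega) (by omega)
    have b1 : 0 ≤ Λ k := ArithmeticFunction.vonMangoldt_nonneg
    have b2 : 0 ≤ Λ (n - k) := ArithmeticFunction.vonMangoldt_nonneg
    by_cases c1 : k.Prime <;> by_cases c2 : (n - k).Prime <;> simp only [c1, c2] <;>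
      simp <;> nlinarith
  have h3 := h1.trans (sum_le_sum h2)
  rw [sum_add_distrib, sum_add_distrib, ← sum_mul, ← sum_mul] at h3
  have h4 : ∑ k ∈ Ico 1 n, (if k.Prime ∧ (n - k).Prime then (Real.log n) ^ 2 else 0) ≤
      (Real.log n) ^ 2 * goldbachCount n := by
    rw [← sum_filter, sum_const, nsmul_eq_mul, mul_comm]
    apply mul_le_mul_of_nonneg_left _ (by positivity)
    unfold goldbachCount
    norm_cast
    apply card_le_card
    intro k hk
    rw [mem_filter, mem_Ico] at hk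
    rw [mem_filter, mem_range]
    exact ⟨by omega, hk.2⟩
  have h5 : ∑ k ∈ Ico 1 n, (if ¬ k.Prime then Λ k else 0) ≤ 2 * Real.sqrt n * Real.log n := by
    rw [← sum_filter]
    exact (not_prime_sum_le n).trans (primes_sub_le hn le_rfl)
  have h6 : ∑ k ∈ Ico 1 n, (if ¬ (n - k).Prime then Λ (n - k) else 0) ≤
      2 * Real.sqrt n * Real.log n := by
    have : ∑ k ∈ Ico 1 n, (if ¬ (n - k).Prime then Λ (n - k) else 0) =
        ∑ k ∈ Ico 1 n, (if ¬ k.Prime then Λ k else 0) := by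
      apply sum_bij' (fun k _ => n - k) (fun k _ => n - k)
      · intro k hk; rw [mem_Ico] at *; omega
      · intro k hk; rw [mem_Ico] at *; omega
      · intro k hk; rw [mem_Ico] at *; omega
      · intro k hk; rw [mem_Ico] at *; omega
      · intro k hk; rfl
    rw [this]
    exact h5
  nlinarith [mul_le_mul_of_nonneg_right h5 hL, mul_le_mul_of_nonneg_right h6 hL]

theorem fl_sq_sum_le (q x : ℕ) :
    ∑ n ∈ Icc 1 x, ‖FL q n‖ ^ 2 ≤ x * (Real.log x) ^ 2 := by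
  have h : ∀ n ∈ Icc 1 x, ‖FL q n‖ ^ 2 ≤ (Real.log x) ^ 2 := by
    intro n hn
    rw [mem_Icc] at hn
    apply pow_le_pow_left₀ (norm_nonneg _)
    unfold FL
    split_ifs
    · rw [Complex.norm_real, Real.norm_of_nonneg ArithmeticFunction.vonMangoldt_nonneg]
      exact mangoldt_le_log' hn.1 hn.2
    · rw [norm_zero]
      exact Real.log_natCast_nonneg x
  refine (sum_le_sum h).trans ?_
  simp

theorem cv_diff (f g : ℕ → ℂ) (n : ℕ) :
    cv f f n - cv g g n = cv (fun k => f k - g k) f n + cv (fun k => f k - g k) g n := by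
  have h1 : cv (fun k => f k - g k) g n = cv g (fun k => f k - g k) n := cv_comm _ _ _
  rw [h1]
  unfold cv
  rw [← sum_sub_distrib, ← sum_add_distrib]
  apply sum_congr rfl
  intro k _
  ring

theorem one_le_log {x : ℕ} (hx : 3 ≤ x) : 1 ≤ Real.log x := by
  have h3 : (3 : ℝ) ≤ x := by exact_mod_cast hx
  rw [Real.le_log_iff_exp_le (by linarith)]
  linarith [Real.exp_one_lt_d9]

theorem count_big (q x B'' Q : ℕ) (C : ℝ) (hC : 0 ≤ C) (hx : 3 ≤ x) (hq : 1 ≤ q)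
    (hV : ∀ α, VV q x (fun n => FL q n - TM q Q n) α ≤ (x : ℝ) ^ 2 / (q * (Real.log x) ^ B''))
    (hT : ∑ n ∈ Icc 1 x, ‖TM q Q n‖ ^ 2 ≤ C * x * (Real.log x) ^ 3) :
    (((Icc 1 (x / q)).filter (fun m => (x : ℝ) / 40 ≤
      ‖cv (FL q) (FL q) (q * m) - cv (TM q Q) (TM q Q) (q * m)‖)).card : ℝ) ≤
      3200 * (1 + C) * x * (Real.log x) ^ 3 / (q * (Real.log x) ^ B'') := by
  have hL := one_le_log hx
  have hx0 : (0 : ℝ) < x := by exact_mod_cast (by omega : 0 < x)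
  have hq0 : (0 : ℝ) < q := by exact_mod_cast hq
  set L := Real.log x with hLdef
  set K : ℝ := (x : ℝ) ^ 2 / (q * L ^ B'') with hK
  have hK0 : 0 ≤ K := by positivity
  have h1 := circle q x hq _ (FL q) K hV
  have h2 := circle q x hq _ (TM q Q) K hV
  have hF := fl_sq_sum_le q x
  set D : ℕ → ℝ := fun m => ‖cv (FL q) (FL q) (q * m) - cv (TM q Q) (TM q Q) (q * m)‖ with hD
  have h3 : ∑ m ∈ Icc 1 (x / q), D m ^ 2 ≤ 2 * K * ((1 + C) * x * L ^ 3) := by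
    have h4 : ∀ m ∈ Icc 1 (x / q), D m ^ 2 ≤
        2 * ‖cv (fun n => FL q n - TM q Q n) (FL q) (q * m)‖ ^ 2 +
        2 * ‖cv (fun n => FL q n - TM q Q n) (TM q Q) (q * m)‖ ^ 2 := by
      intro m _
      have h5 : D m ≤ ‖cv (fun n => FL q n - TM q Q n) (FL q) (q * m)‖ +
          ‖cv (fun n => FL q n - TM q Q n) (TM q Q) (q * m)‖ := by
        rw [hD]
        beta_reduce
        rw [cv_diff]
        exact norm_add_le _ _
      have h6 : 0 ≤ D m := norm_nonneg _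
      nlinarith [sq_nonneg (‖cv (fun n => FL q n - TM q Q n) (FL q) (q * m)‖ -
          ‖cv (fun n => FL q n - TM q Q n) (TM q Q) (q * m)‖)]
    refine (sum_le_sum h4).trans ?_
    rw [sum_add_distrib, ← mul_sum, ← mul_sum]
    have h7 : K * ∑ n ∈ Icc 1 x, ‖FL q n‖ ^ 2 ≤ K * (x * L ^ 3) := by
      apply mul_le_mul_of_nonneg_left _ hK0
      refine hF.trans ?_
      apply mul_le_mul_of_nonneg_left _ hx0.le
      exact pow_le_pow_right₀ hL (by norm_num)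
    have h8 : K * ∑ n ∈ Icc 1 x, ‖TM q Q n‖ ^ 2 ≤ K * (C * x * L ^ 3) :=
      mul_le_mul_of_nonneg_left hT hK0
    nlinarith [h1, h2, h7, h8]
  set S := (Icc 1 (x / q)).filter (fun m => (x : ℝ) / 40 ≤ D m) with hS
  have h9 : (S.card : ℝ) * ((x : ℝ) / 40) ^ 2 ≤ 2 * K * ((1 + C) * x * L ^ 3) := by
    calc (S.card : ℝ) * ((x : ℝ) / 40) ^ 2 = ∑ m ∈ S, ((x : ℝ) / 40) ^ 2 := by simp
      _ ≤ ∑ m ∈ S, D m ^ 2 := by
          apply sum_le_sum
          intro m hm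
          rw [hS, mem_filter] at hm
          exact pow_le_pow_left₀ (by positivity) hm.2 2
      _ ≤ ∑ m ∈ Icc 1 (x / q), D m ^ 2 := by
          apply sum_le_sum_of_subset_of_nonneg (filter_subset _ _)
          intro m _ _
          positivity
      _ ≤ _ := h3
  have h10 : (S.card : ℝ) ≤ 2 * K * ((1 + C) * x * L ^ 3) / ((x : ℝ) / 40) ^ 2 := by
    rw [le_div_iff₀ (by positivity)]
    exact h9
  refine h10.trans (le_of_eq ?_)
  rw [hK]
  have hLB : 0 < L ^ B'' := by positivity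
  field_simp
  ring

theorem ev_pow_log (k : ℕ) (c : ℝ) :
    ∀ᶠ x : ℕ in Filter.atTop, c * (Real.log x) ^ k * Real.sqrt x ≤ x := by
  obtain ⟨C, hC, h⟩ := primes_logpow k (1 / 4) (by norm_num)
  have h1 : ∀ᶠ x : ℕ in Filter.atTop, |c| * C ≤ (x : ℝ) ^ (1 / 4 : ℝ) :=
    ((tendsto_rpow_atTop (by norm_num : (0 : ℝ) < 1 / 4)).comp
      tendsto_natCast_atTop_atTop).eventually_ge_atTop _
  filter_upwards [h1, Filter.eventually_ge_atTop 1] with x hx h1x
  have hx1 : (1 : ℝ) ≤ x := by exact_mod_cast h1x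
  have hx0 : (0 : ℝ) < x := by linarith
  have hL : 0 ≤ Real.log x := Real.log_nonneg hx1
  have h2 := h x hx1
  have e1 : (x : ℝ) = (x : ℝ) ^ (1 / 4 : ℝ) * (x : ℝ) ^ (1 / 4 : ℝ) * Real.sqrt x := by
    rw [Real.sqrt_eq_rpow, ← Real.rpow_add hx0, ← Real.rpow_add hx0]
    norm_num
  have h3 : c * (Real.log x) ^ k ≤ (x : ℝ) ^ (1 / 4 : ℝ) * (x : ℝ) ^ (1 / 4 : ℝ) := by
    have a0 : 0 ≤ (Real.log x) ^ k := by positivity
    calc c * (Real.log x) ^ k ≤ |c| * (Real.log x) ^ k :=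
          mul_le_mul_of_nonneg_right (le_abs_self c) a0
      _ ≤ |c| * (C * (x : ℝ) ^ (1 / 4 : ℝ)) := mul_le_mul_of_nonneg_left h2 (abs_nonneg c)
      _ = (|c| * C) * (x : ℝ) ^ (1 / 4 : ℝ) := by ring
      _ ≤ _ := mul_le_mul_of_nonneg_right hx (by positivity)
  calc c * (Real.log x) ^ k * Real.sqrt x ≤
        ((x : ℝ) ^ (1 / 4 : ℝ) * (x : ℝ) ^ (1 / 4 : ℝ)) * Real.sqrt x :=
        mul_le_mul_of_nonneg_right h3 (Real.sqrt_nonneg _)
    _ = x := e1.symm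

theorem ev_log_ge (k : ℕ) (hk : 1 ≤ k) (c : ℝ) :
    ∀ᶠ x : ℕ in Filter.atTop, c ≤ (Real.log x) ^ k := by
  have h1 : ∀ᶠ x : ℕ in Filter.atTop, max c 1 ≤ Real.log x :=
    (Real.tendsto_log_atTop.comp tendsto_natCast_atTop_atTop).eventually_ge_atTop _
  filter_upwards [h1] with x hx
  have h2 : 1 ≤ Real.log x := (le_max_right _ _).trans hx
  calc c ≤ Real.log x := (le_max_left _ _).trans hx
    _ = (Real.log x) ^ 1 := (pow_one _).symm
    _ ≤ _ := pow_le_pow_right₀ h2 hk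

open Pool.Agent.Work.MP_92f640_nt in
/-- good `m` give good even numbers -/
theorem not_bad (q Q m x : ℕ) (hq : 1 ≤ q) (hQ : 1 ≤ Q) (hm : 1 ≤ m) (hn3 : 3 ≤ q * m)
    (hn : q * m ≤ x) (hx2 : x < 2 * (q * m))
    (hd : ‖cv (FL q) (FL q) (q * m) - cv (TM q Q) (TM q Q) (q * m)‖ < (x : ℝ) / 40)
    (hs : 4 / 5 ≤ (q : ℝ) / q.totient * Sg q Q m)
    (he : 4 * ((q : ℝ) / q.totient) * q * (Q : ℝ) ^ 4 ≤ (x : ℝ) / 80)
    (hp : 4 * Real.sqrt x * (Real.log x) ^ 2 ≤ (x : ℝ) / 80) : ¬ Bad (1 / 2) (q * m) := by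
  intro hbad
  unfold Bad at hbad
  have hT := T_main q Q m hq hQ hm
  have hR := cv_re_le q (q * m) hn3
  set n := q * m with hndef
  have hn0 : (0 : ℝ) < n := by exact_mod_cast (by omega : 0 < n)
  have hnx : (n : ℝ) ≤ x := by exact_mod_cast hn
  have hx2' : (x : ℝ) < 2 * n := by exact_mod_cast hx2
  have hL1 : 1 ≤ Real.log n := one_le_log hn3
  have hLx : Real.log n ≤ Real.log x := Real.log_le_log hn0 hnx
  have hsq : Real.sqrt n ≤ Real.sqrt x := Real.sqrt_le_sqrt hnx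
  have h1 : 4 * Real.sqrt n * (Real.log n) ^ 2 ≤ (x : ℝ) / 80 := by
    refine le_trans ?_ hp
    have : (Real.log n) ^ 2 ≤ (Real.log x) ^ 2 := pow_le_pow_left₀ (by linarith) hLx 2
    have := mul_le_mul hsq this (by positivity) (Real.sqrt_nonneg _)
    linarith
  have h2 : (cv (TM q Q) (TM q Q) n).re ≥ 4 / 5 * n - (x : ℝ) / 80 := by
    have a1 := (Complex.abs_re_le_norm (cv (TM q Q) (TM q Q) n -
        (((q : ℝ) / q.totient * (n : ℝ) * Sg q Q m : ℝ) : ℂ))).trans (hT.trans he)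
    rw [Complex.sub_re, Complex.ofReal_re] at a1
    have a2 := (abs_le.1 a1).1
    have a3 : 4 / 5 * (n : ℝ) ≤ (q : ℝ) / q.totient * (n : ℝ) * Sg q Q m := by
      have := mul_le_mul_of_nonneg_right hs hn0.le
      linarith
    linarith
  have h3 : (cv (FL q) (FL q) n).re > (cv (TM q Q) (TM q Q) n).re - (x : ℝ) / 40 := by
    have a1 := (Complex.abs_re_le_norm (cv (FL q) (FL q) n - cv (TM q Q) (TM q Q) n)).trans_lt hd
    rw [Complex.sub_re] at a1
    have a2 := (abs_lt.1 a1).1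
    linarith
  have h4 : (goldbachCount n : ℝ) * (Real.log n) ^ 2 < 1 / 2 * n := by
    rwa [lt_div_iff₀ (by positivity)] at hbad
  linarith

open Classical in
theorem main_nat (ε : ℝ) (hε : 0 < ε) (K : ℕ) : ∃ C : ℕ, ∀ A : ℕ, ∃ x₀ : ℕ, ∀ x : ℕ, x₀ ≤ x →
    ∃ B : Finset ℕ, (B.card : ℝ) ≤ (Real.log x) ^ C ∧ (∀ b ∈ B, (Real.log x) ^ A < (b : ℝ)) ∧
      ∀ q : ℕ, 1 ≤ q → (q : ℝ) ≤ (x : ℝ) ^ (1 / 2 - ε) → (∀ b ∈ B, ¬ b ∣ q) →
        (((Icc 1 x).filter (fun n => x < 2 * n ∧ Even n ∧ q ∣ n ∧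
          Pool.Agent.Work.MP_92f640_nt.Bad (1 / 2) n)).card : ℝ) ≤
          (x : ℝ) / (q * (Real.log x) ^ K) := by
  obtain ⟨B₁, B₈, B₉, hB₁, hsup⟩ := sup_VV ε hε (2 * K + 8)
  obtain ⟨C, hbset⟩ := bset ε hε B₁ B₈ B₉
  obtain ⟨C₁, hC₁, hT⟩ := T_l2
  obtain ⟨C₂, hC₂, hsing⟩ := sing
  refine ⟨C, fun A => ?_⟩
  obtain ⟨x₁, hx₁⟩ := hsup (A + B₁ + 1)
  obtain ⟨x₂, hx₂⟩ := hbset A
  have hev : ∀ᶠ x : ℕ in Filter.atTop, 6400 * (1 + C₁) ≤ (Real.log x) ^ 5 ∧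
      4 * C₂ ≤ (Real.log x) ^ 3 ∧ 20480 * (Real.log x) ^ (4 * B₁ + 1) * Real.sqrt x ≤ x ∧
      320 * (Real.log x) ^ 2 * Real.sqrt x ≤ x ∧ 4 * (Real.log x) ^ (2 * B₁) * Real.sqrt x ≤ x ∧
      6 ≤ x ∧ x₁ ≤ x ∧ x₂ ≤ x := by
    filter_upwards [ev_log_ge 5 (by norm_num) (6400 * (1 + C₁)),
      ev_log_ge 3 (by norm_num) (4 * C₂), ev_pow_log (4 * B₁ + 1) 20480, ev_pow_log 2 320,
      ev_pow_log (2 * B₁) 4, Filter.eventually_ge_atTop 6, Filter.eventually_ge_atTop x₁,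
      Filter.eventually_ge_atTop x₂] with x a1 a2 a3 a4 a5 a6 a7 a8
    exact ⟨a1, a2, a3, a4, a5, a6, a7, a8⟩
  obtain ⟨x₀, hx₀⟩ := Filter.eventually_atTop.1 hev
  refine ⟨x₀, fun x hx => ?_⟩
  obtain ⟨c1, c2, c3, c4, c5, h6, hxx1, hxx2⟩ := hx₀ x hx
  obtain ⟨B, hB1, hB2, hB3⟩ := hx₂ x hxx2
  refine ⟨B, hB1, hB2, fun q hq hqx hqB => ?_⟩
  have hV := hx₁ x hxx1 q hq hqx (hB3 q hq hqx hqB)
  have h3 : 3 ≤ x := by omega
  have hL := one_le_log h3
  set L := Real.log x with hLdef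
  set Q := ⌈L ^ B₁⌉₊ with hQdef
  have hx0 : (0 : ℝ) < x := by exact_mod_cast (by omega : 0 < x)
  have hx1 : (1 : ℝ) ≤ x := by exact_mod_cast (by omega : 1 ≤ x)
  have hq0 : (0 : ℝ) < q := by exact_mod_cast hq
  have hsx1 : 1 ≤ Real.sqrt x := by rw [Real.one_le_sqrt]; exact hx1
  have hLB : 1 ≤ L ^ B₁ := one_le_pow₀ hL
  have hQle : (Q : ℝ) ≤ 2 * L ^ B₁ := by
    have := Nat.ceil_lt_add_one (by positivity : 0 ≤ L ^ B₁)
    linarith
  have hQge : L ^ B₁ ≤ (Q : ℝ) := Nat.le_ceil _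
  have hQ1 : 1 ≤ Q := by
    have : (1 : ℝ) ≤ Q := hLB.trans hQge
    exact_mod_cast this
  have hqs : (q : ℝ) ≤ Real.sqrt x := by
    rw [Real.sqrt_eq_rpow]
    exact hqx.trans (Real.rpow_le_rpow_of_exponent_le hx1 (by linarith))
  have hsx : Real.sqrt x ≤ x := by
    rw [Real.sqrt_le_left hx0.le]
    nlinarith
  have hqx' : q ≤ x := by
    have : (q : ℝ) ≤ x := hqs.trans hsx
    exact_mod_cast this
  have hlogq : Real.log q ≤ L := Real.log_le_log hq0 (by exact_mod_cast hqx')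
  have hQ2 : Q ^ 2 ≤ x := by
    have h1 : (Q : ℝ) ^ 2 ≤ x := by
      calc (Q : ℝ) ^ 2 ≤ (2 * L ^ B₁) ^ 2 := pow_le_pow_left₀ (by positivity) hQle 2
        _ = 4 * L ^ (2 * B₁) * 1 := by ring
        _ ≤ 4 * L ^ (2 * B₁) * Real.sqrt x := mul_le_mul_of_nonneg_left hsx1 (by positivity)
        _ ≤ x := c5
    exact_mod_cast h1
  have hT2 := hT x q Q h3 hq hqx' hQ1 hQ2
  have hE1 := count_big q x (2 * K + 8) Q C₁ hC₁.le h3 hq hV hT2
  have hE2 := hsing q Q (x / q) hq hQ1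
  have hratio : (q : ℝ) / q.totient ≤ 4 * L := (ratio_le q hq).trans (by linarith)
  have hratio0 : 0 ≤ (q : ℝ) / q.totient := by positivity
  have he : 4 * ((q : ℝ) / q.totient) * q * (Q : ℝ) ^ 4 ≤ (x : ℝ) / 80 := by
    have a1 : (Q : ℝ) ^ 4 ≤ 16 * L ^ (4 * B₁) := by
      calc (Q : ℝ) ^ 4 ≤ (2 * L ^ B₁) ^ 4 := pow_le_pow_left₀ (by positivity) hQle 4
        _ = 16 * L ^ (4 * B₁) := by ring
    have a2 : 4 * ((q : ℝ) / q.totient) * q * (Q : ℝ) ^ 4 ≤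
        4 * (4 * L) * Real.sqrt x * (16 * L ^ (4 * B₁)) := by
      gcongr
    have a3 : 4 * (4 * L) * Real.sqrt x * (16 * L ^ (4 * B₁)) =
        256 * L ^ (4 * B₁ + 1) * Real.sqrt x := by ring
    rw [a3] at a2
    linarith
  have hp : 4 * Real.sqrt x * L ^ 2 ≤ (x : ℝ) / 80 := by linarith
  set D : ℕ → ℝ := fun m => ‖cv (FL q) (FL q) (q * m) - cv (TM q Q) (TM q Q) (q * m)‖ with hD
  set E1 := (Icc 1 (x / q)).filter (fun m => (x : ℝ) / 40 ≤ D m) with hE1def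
  set E2 := (Icc 1 (x / q)).filter (fun m => Even (q * m) ∧
    (q : ℝ) / q.totient * Sg q Q m < 4 / 5) with hE2def
  have hsub : (Icc 1 x).filter (fun n => x < 2 * n ∧ Even n ∧ q ∣ n ∧
          Pool.Agent.Work.MP_92f640_nt.Bad (1 / 2) n) ⊆ (E1 ∪ E2).image (fun m => q * m) := by
    intro n hn
    rw [mem_filter, mem_Icc] at hn
    obtain ⟨⟨hn1, hnx⟩, hx2, hev', ⟨m, rfl⟩, hbad⟩ := hn
    have hm : 1 ≤ m := by
      rcases Nat.eq_zero_or_pos m with h | h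
      · subst h; simp at hn1
      · exact h
    have hmx : m ≤ x / q := by
      rw [Nat.le_div_iff_mul_le hq, mul_comm]
      exact hnx
    rw [mem_image]
    refine ⟨m, ?_, rfl⟩
    rw [mem_union]
    by_contra hcon
    push Not at hcon
    obtain ⟨k1, k2⟩ := hcon
    rw [hE1def, mem_filter, mem_Icc] at k1
    rw [hE2def, mem_filter, mem_Icc] at k2
    have k1' : D m < (x : ℝ) / 40 := by
      by_contra h
      exact k1 ⟨⟨hm, hmx⟩, not_lt.1 h⟩
    have k2' : 4 / 5 ≤ (q : ℝ) / q.totient * Sg q Q m := by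
      by_contra h
      exact k2 ⟨⟨hm, hmx⟩, hev', not_le.1 h⟩
    exact not_bad q Q m x hq hQ1 hm (by omega) hnx hx2 k1' k2' he hp hbad
  have hcard : (((Icc 1 x).filter (fun n => x < 2 * n ∧ Even n ∧ q ∣ n ∧
          Pool.Agent.Work.MP_92f640_nt.Bad (1 / 2) n)).card : ℝ) ≤ (E1.card : ℝ) + E2.card := by
    have := (card_le_card hsub).trans (card_image_le.trans (card_union_le E1 E2))
    exact_mod_cast this
  refine hcard.trans ?_
  have hLK : 0 < L ^ K := by positivity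
  have hb1 : (E1.card : ℝ) ≤ 1 / 2 * ((x : ℝ) / (q * L ^ K)) := by
    refine hE1.trans ?_
    have a1 : 3200 * (1 + C₁) * x * L ^ 3 / (q * L ^ (2 * K + 8)) =
        3200 * (1 + C₁) * ((x : ℝ) / (q * L ^ K)) / L ^ (K + 5) := by
      have : L ^ (2 * K + 8) = L ^ K * L ^ (K + 5) * L ^ 3 := by ring
      rw [this]
      have hL0 : L ≠ 0 := by positivity
      field_simp
    rw [a1, div_le_iff₀ (by positivity)]
    have a2 : L ^ 5 ≤ L ^ (K + 5) := pow_le_pow_right₀ hL (by omega)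
    have a3 : 0 ≤ (x : ℝ) / (q * L ^ K) := by positivity
    nlinarith [mul_le_mul_of_nonneg_right (c1.trans a2) a3]
  have hb2 : (E2.card : ℝ) ≤ 1 / 2 * ((x : ℝ) / (q * L ^ K)) := by
    refine hE2.trans ?_
    have a1 : ((x / q : ℕ) : ℝ) ≤ (x : ℝ) / q := Nat.cast_div_le
    have a2 : L ^ (K + 4) ≤ Real.sqrt Q := by
      apply Real.le_sqrt_of_sq_le
      calc (L ^ (K + 4)) ^ 2 = L ^ (2 * K + 8) := by ring
        _ ≤ L ^ B₁ := pow_le_pow_right₀ hL hB₁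
        _ ≤ Q := hQge
    have a3 : (0 : ℝ) < L ^ (K + 4) := by positivity
    have hlq0 : 0 ≤ Real.log q := Real.log_nonneg (by exact_mod_cast hq)
    calc C₂ * ((x / q : ℕ) : ℝ) * (1 + Real.log q) / Real.sqrt Q
        ≤ C₂ * ((x : ℝ) / q) * (2 * L) / L ^ (K + 4) := by
          apply div_le_div₀ (by positivity) _ a3 a2
          have : 1 + Real.log q ≤ 2 * L := by linarith
          gcongr
      _ = (4 * C₂) * (1 / 2 * ((x : ℝ) / (q * L ^ K))) / L ^ 3 := by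
          have hL0 : L ≠ 0 := by positivity
          have : L ^ (K + 4) = L ^ K * L ^ 3 * L := by ring
          rw [this]
          field_simp
          ring
      _ ≤ L ^ 3 * (1 / 2 * ((x : ℝ) / (q * L ^ K))) / L ^ 3 := by
          apply div_le_div_of_nonneg_right _ (by positivity)
          exact mul_le_mul_of_nonneg_right c2 (by positivity)
      _ = _ := by
          rw [mul_comm, mul_div_assoc, div_self (by positivity), mul_one]
  linarith

open Pool.Agent.Work.MP_92f640_nt in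
theorem half_level (ε : ℝ) (hε : 0 < ε) (K : ℕ) : ∃ C : ℕ, ∀ A : ℕ, ∃ x₀ : ℝ, ∀ x : ℝ, x₀ ≤ x →
    ∃ B : Finset ℕ, (B.card : ℝ) ≤ (Real.log x) ^ C ∧ (∀ b ∈ B, (Real.log x) ^ A < (b : ℝ)) ∧
      ∀ q : ℕ, 1 ≤ q → (q : ℝ) ≤ x ^ (1 / 2 - ε) → (∀ b ∈ B, ¬ b ∣ q) →
        ((exceptions (1 / 2) x q).card : ℝ) ≤ x / (q * (Real.log x) ^ K) := by
  classical
  obtain ⟨C, hC⟩ := main_nat (ε / 2) (by linarith) (K + 1)
  refine ⟨C, fun A => ?_⟩
  obtain ⟨x₁, hx₁⟩ := hC (A + 1)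
  have hev : ∀ᶠ X : ℕ in Filter.atTop, (2 : ℝ) ^ K ≤ (Real.log X) ^ 1 ∧
      (2 : ℝ) ^ A ≤ (Real.log X) ^ 1 ∧ 2 ≤ (X : ℝ) ^ (ε / 2) ∧ 3 ≤ X ∧ x₁ ≤ X := by
    have h1 : ∀ᶠ X : ℕ in Filter.atTop, 2 ≤ (X : ℝ) ^ (ε / 2) :=
      ((tendsto_rpow_atTop (by linarith : (0 : ℝ) < ε / 2)).comp
        tendsto_natCast_atTop_atTop).eventually_ge_atTop _
    filter_upwards [ev_log_ge 1 le_rfl ((2 : ℝ) ^ K), ev_log_ge 1 le_rfl ((2 : ℝ) ^ A), h1,
      Filter.eventually_ge_atTop 3, Filter.eventually_ge_atTop x₁] with X a1 a2 a3 a4 a5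
    exact ⟨a1, a2, a3, a4, a5⟩
  obtain ⟨X₀, hX₀⟩ := Filter.eventually_atTop.1 hev
  refine ⟨X₀ + 1, fun x hx => ?_⟩
  have hx0 : (0 : ℝ) ≤ x := by
    have : (0 : ℝ) ≤ X₀ := Nat.cast_nonneg _
    linarith
  set X := ⌊x⌋₊ with hX
  have hXx : (X : ℝ) ≤ x := Nat.floor_le hx0
  have hxX : x < X + 1 := Nat.lt_floor_add_one x
  have hXX0 : X₀ ≤ X := by
    rw [hX, Nat.le_floor_iff hx0]
    linarith
  obtain ⟨a1, a2, a3, a4, a5⟩ := hX₀ X hXX0
  rw [pow_one] at a1 a2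
  have hX3 : (3 : ℝ) ≤ X := by exact_mod_cast a4
  have hX0 : (0 : ℝ) < X := by linarith
  have hL1 := one_le_log a4
  have hLx : Real.log X ≤ Real.log x := Real.log_le_log hX0 hXx
  have hLx2 : Real.log x ≤ 2 * Real.log X := by
    have h1 : x ≤ (X : ℝ) ^ 2 := by nlinarith
    calc Real.log x ≤ Real.log ((X : ℝ) ^ 2) := Real.log_le_log (by linarith) h1
      _ = 2 * Real.log X := by rw [Real.log_pow]; norm_num
  have hkey : ∀ k : ℕ, (2 : ℝ) ^ k ≤ Real.log X → (Real.log x) ^ k ≤ (Real.log X) ^ (k + 1) := by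
    intro k hk
    calc (Real.log x) ^ k ≤ (2 * Real.log X) ^ k := pow_le_pow_left₀ (by linarith) hLx2 k
      _ = 2 ^ k * (Real.log X) ^ k := by rw [mul_pow]
      _ ≤ Real.log X * (Real.log X) ^ k := mul_le_mul_of_nonneg_right hk (by positivity)
      _ = _ := by ring
  obtain ⟨B, hB1, hB2, hB3⟩ := hx₁ X a5
  refine ⟨B, hB1.trans (pow_le_pow_left₀ (by linarith) hLx C), fun b hb => ?_,
    fun q hq hqx hqB => ?_⟩
  · exact (hkey A a2).trans_lt (hB2 b hb)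
  · have hq0 : (0 : ℝ) < q := by exact_mod_cast hq
    have hq1 : (1 : ℝ) ≤ q := by exact_mod_cast hq
    have hqX : (q : ℝ) ≤ (X : ℝ) ^ (1 / 2 - ε / 2) := by
      rcases lt_or_ge (1 / 2 - ε) 0 with hneg | hpos
      · exfalso
        have : x ^ (1 / 2 - ε) < 1 := Real.rpow_lt_one_of_one_lt_of_neg (by linarith) hneg
        linarith
      · have h2X : x ≤ 2 * X := by linarith
        calc (q : ℝ) ≤ x ^ (1 / 2 - ε) := hqx
          _ ≤ (2 * X) ^ (1 / 2 - ε) := Real.rpow_le_rpow hx0 h2X hpos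
          _ = 2 ^ (1 / 2 - ε) * (X : ℝ) ^ (1 / 2 - ε) := Real.mul_rpow (by norm_num) hX0.le
          _ ≤ (X : ℝ) ^ (ε / 2) * (X : ℝ) ^ (1 / 2 - ε) := by
              apply mul_le_mul_of_nonneg_right _ (by positivity)
              refine le_trans ?_ a3
              calc (2 : ℝ) ^ (1 / 2 - ε) ≤ 2 ^ (1 : ℝ) :=
                    Real.rpow_le_rpow_of_exponent_le (by norm_num) (by linarith)
                _ = 2 := Real.rpow_one 2
          _ = (X : ℝ) ^ (1 / 2 - ε / 2) := by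
              rw [← Real.rpow_add hX0]
              congr 1
              ring
    have hmain := hB3 q hq hqX hqB
    have hsub : exceptions (1 / 2) x q ⊆ (Icc 1 X).filter (fun n => X < 2 * n ∧ Even n ∧ q ∣ n ∧
          Bad (1 / 2) n) := by
      intro n hn
      rw [mem_exceptions] at hn
      obtain ⟨⟨h1, h2⟩, h3, h4, h5, h6⟩ := hn
      rw [mem_filter, mem_Icc]
      refine ⟨⟨h1, h2⟩, ?_, h4, h5, h6⟩
      have : (X : ℝ) < 2 * n := by linarith
      exact_mod_cast this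
    have hcard : ((exceptions (1 / 2) x q).card : ℝ) ≤ ((Icc 1 X).filter (fun n => X < 2 * n ∧
        Even n ∧ q ∣ n ∧ Bad (1 / 2) n)).card := by
      exact_mod_cast card_le_card hsub
    refine hcard.trans (hmain.trans ?_)
    have hlx0 : 0 < (Real.log x) ^ K := by
      have : 0 < Real.log x := by linarith
      positivity
    apply div_le_div₀ hx0 hXx (by positivity)
    exact mul_le_mul_of_nonneg_left (hkey K a1) hq0.le

end Pool.Agent.HL
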