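import Pool.Agent.Work.MP_92f640_nt.HL.SupVV2
import Pool.Agent.Work.MP_92f640_nt.HL.Bset2
import Pool.Agent.Work.MP_92f640_nt.HL.Final
import Pool.Agent.Work.MP_92f640_nt.HL.Evt

/-! # Module Final2: as `Final`, for `q ≤ x^(2/3-ε)` -/

namespace Pool.Agent.HL

open Finset Pool.Agent.BV
open scoped ArithmeticFunction.vonMangoldt

open Classical in
theorem main_nat2 (ε : ℝ) (hε : 0 < ε) (K : ℕ) : ∃ C : ℕ, ∀ A : ℕ, ∃ x₀ : ℕ, ∀ x : ℕ, x₀ ≤ x →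
    ∃ B : Finset ℕ, (B.card : ℝ) ≤ (Real.log x) ^ C ∧ (∀ b ∈ B, (Real.log x) ^ A < (b : ℝ)) ∧
      ∀ q : ℕ, 1 ≤ q → (q : ℝ) ≤ (x : ℝ) ^ (2 / 3 - ε) → (∀ b ∈ B, ¬ b ∣ q) →
        (((Icc 1 x).filter (fun n => x < 2 * n ∧ Even n ∧ q ∣ n ∧
          Pool.Agent.Work.MP_92f640_nt.Bad (1 / 2) n)).card : ℝ) ≤
          (x : ℝ) / (q * (Real.log x) ^ K) := by
  obtain ⟨B₁, B₈, B₉, hB₁, hsup⟩ := sup_VV2 ε hε (2 * K + 8)
  obtain ⟨C, hbset⟩ := bset2 ε hε B₁ B₈ B₉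
  obtain ⟨C₁, hC₁, hT⟩ := T_l2
  obtain ⟨C₂, hC₂, hsing⟩ := sing
  refine ⟨C, fun A => ?_⟩
  obtain ⟨x₁, hx₁⟩ := hsup (A + B₁ + 1)
  obtain ⟨x₂, hx₂⟩ := hbset A
  have hev : ∀ᶠ x : ℕ in Filter.atTop, 6400 * (1 + C₁) ≤ (Real.log x) ^ 5 ∧
      4 * C₂ ≤ (Real.log x) ^ 3 ∧ 20480 * (Real.log x) ^ (4 * B₁ + 1) ≤ (x : ℝ) ^ (1 / 3 : ℝ) ∧
      320 * (Real.log x) ^ 2 * Real.sqrt x ≤ x ∧ 4 * (Real.log x) ^ (2 * B₁) * Real.sqrt x ≤ x ∧
      6 ≤ x ∧ x₁ ≤ x ∧ x₂ ≤ x := by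
    filter_upwards [ev_log_ge 5 (by norm_num) (6400 * (1 + C₁)),
      ev_log_ge 3 (by norm_num) (4 * C₂), evt_pow 20480 (4 * B₁ + 1) (1 / 3) (by norm_num), ev_pow_log 2 320,
      ev_pow_log (2 * B₁) 4, Filter.eventually_ge_atTop 6, Filter.eventually_ge_atTop x₁,
      Filter.eventually_ge_atTop x₂] with x a1 a2 a3 a4 a5 a6 a7 a8
    exact ⟨a1, a2, a3, a4, a5, a6, a7, a8⟩
  obtain ⟨x₀, hx₀⟩ := Filter.eventually_atTop.1 hev
  refine ⟨x₀, fun x hx => ?_⟩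
  obtain ⟨c1, c2, c3, c4, c5, h6, hxx1, hxx2⟩ := hx₀ x hx
  obtain ⟨B, hB1, hB2, hB3⟩ := hx₂ x hxx2
  refine ⟨B, hB1, hB2, fun q hq hqx hqB => ?_⟩
  have hV := hx₁ x hxx1 q hq hqx (hB3 q hq hqx hqB)
  have h3 : 3 ≤ x := by omega
  have hL := one_le_log h3
  set L := Real.log x with hLdef
  set Q := ⌈L ^ B₁⌉₊ with hQdef
  have hx0 : (0 : ℝ) < x := by exact_mod_cast (by omega : 0 < x)
  have hx1 : (1 : ℝ) ≤ x := by exact_mod_cast (by omega : 1 ≤ x)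
  have hq0 : (0 : ℝ) < q := by exact_mod_cast hq
  have hsx1 : 1 ≤ Real.sqrt x := by rw [Real.one_le_sqrt]; exact hx1
  have hLB : 1 ≤ L ^ B₁ := one_le_pow₀ hL
  have hQle : (Q : ℝ) ≤ 2 * L ^ B₁ := by
    have := Nat.ceil_lt_add_one (by positivity : 0 ≤ L ^ B₁)
    linarith
  have hQge : L ^ B₁ ≤ (Q : ℝ) := Nat.le_ceil _
  have hQ1 : 1 ≤ Q := by
    have : (1 : ℝ) ≤ Q := hLB.trans hQge
    exact_mod_cast this
  have hqs : (q : ℝ) ≤ (x : ℝ) ^ (2 / 3 : ℝ) :=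
    hqx.trans (Real.rpow_le_rpow_of_exponent_le hx1 (by linarith))
  have hsx : (x : ℝ) ^ (2 / 3 : ℝ) ≤ x := by
    calc (x : ℝ) ^ (2 / 3 : ℝ) ≤ (x : ℝ) ^ (1 : ℝ) :=
          Real.rpow_le_rpow_of_exponent_le hx1 (by norm_num)
      _ = x := Real.rpow_one _
  have hqx' : q ≤ x := by
    have : (q : ℝ) ≤ x := hqs.trans hsx
    exact_mod_cast this
  have hlogq : Real.log q ≤ L := Real.log_le_log hq0 (by exact_mod_cast hqx')
  have hQ2 : Q ^ 2 ≤ x := by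
    have h1 : (Q : ℝ) ^ 2 ≤ x := by
      calc (Q : ℝ) ^ 2 ≤ (2 * L ^ B₁) ^ 2 := pow_le_pow_left₀ (by positivity) hQle 2
        _ = 4 * L ^ (2 * B₁) * 1 := by ring
        _ ≤ 4 * L ^ (2 * B₁) * Real.sqrt x := mul_le_mul_of_nonneg_left hsx1 (by positivity)
        _ ≤ x := c5
    exact_mod_cast h1
  have hT2 := hT x q Q h3 hq hqx' hQ1 hQ2
  have hE1 := count_big q x (2 * K + 8) Q C₁ hC₁.le h3 hq hV hT2
  have hE2 := hsing q Q (x / q) hq hQ1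
  have hratio : (q : ℝ) / q.totient ≤ 4 * L := (ratio_le q hq).trans (by linarith)
  have hratio0 : 0 ≤ (q : ℝ) / q.totient := by positivity
  have he : 4 * ((q : ℝ) / q.totient) * q * (Q : ℝ) ^ 4 ≤ (x : ℝ) / 80 := by
    have a1 : (Q : ℝ) ^ 4 ≤ 16 * L ^ (4 * B₁) := by
      calc (Q : ℝ) ^ 4 ≤ (2 * L ^ B₁) ^ 4 := pow_le_pow_left₀ (by positivity) hQle 4
        _ = 16 * L ^ (4 * B₁) := by ring
    have a2 : 4 * ((q : ℝ) / q.totient) * q * (Q : ℝ) ^ 4 ≤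
        4 * (4 * L) * (x : ℝ) ^ (2 / 3 : ℝ) * (16 * L ^ (4 * B₁)) := by
      gcongr
    have a3 : 4 * (4 * L) * (x : ℝ) ^ (2 / 3 : ℝ) * (16 * L ^ (4 * B₁)) =
        256 * L ^ (4 * B₁ + 1) * (x : ℝ) ^ (2 / 3 : ℝ) := by ring
    rw [a3] at a2
    have a4 : 20480 * L ^ (4 * B₁ + 1) * (x : ℝ) ^ (2 / 3 : ℝ) ≤ x := by
      calc 20480 * L ^ (4 * B₁ + 1) * (x : ℝ) ^ (2 / 3 : ℝ) ≤
            (x : ℝ) ^ (1 / 3 : ℝ) * (x : ℝ) ^ (2 / 3 : ℝ) :=
            mul_le_mul_of_nonneg_right c3 (by positivity)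
        _ = x := by
            rw [← Real.rpow_add hx0]
            norm_num
    linarith
  have hp : 4 * Real.sqrt x * L ^ 2 ≤ (x : ℝ) / 80 := by linarith
  set D : ℕ → ℝ := fun m => ‖cv (FL q) (FL q) (q * m) - cv (TM q Q) (TM q Q) (q * m)‖ with hD
  set E1 := (Icc 1 (x / q)).filter (fun m => (x : ℝ) / 40 ≤ D m) with hE1def
  set E2 := (Icc 1 (x / q)).filter (fun m => Even (q * m) ∧
    (q : ℝ) / q.totient * Sg q Q m < 4 / 5) with hE2def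
  have hsub : (Icc 1 x).filter (fun n => x < 2 * n ∧ Even n ∧ q ∣ n ∧
          Pool.Agent.Work.MP_92f640_nt.Bad (1 / 2) n) ⊆ (E1 ∪ E2).image (fun m => q * m) := by
    intro n hn
    rw [mem_filter, mem_Icc] at hn
    obtain ⟨⟨hn1, hnx⟩, hx2, hev', ⟨m, rfl⟩, hbad⟩ := hn
    have hm : 1 ≤ m := by
      rcases Nat.eq_zero_or_pos m with h | h
      · subst h; simp at hn1
      · exact h
    have hmx : m ≤ x / q := by
      rw [Nat.le_div_iff_mul_le hq, mul_comm]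
      exact hnx
    rw [mem_image]
    refine ⟨m, ?_, rfl⟩
    rw [mem_union]
    by_contra hcon
    push Not at hcon
    obtain ⟨k1, k2⟩ := hcon
    rw [hE1def, mem_filter, mem_Icc] at k1
    rw [hE2def, mem_filter, mem_Icc] at k2
    have k1' : D m < (x : ℝ) / 40 := by
      by_contra h
      exact k1 ⟨⟨hm, hmx⟩, not_lt.1 h⟩
    have k2' : 4 / 5 ≤ (q : ℝ) / q.totient * Sg q Q m := by
      by_contra h
      exact k2 ⟨⟨hm, hmx⟩, hev', not_le.1 h⟩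
    exact not_bad q Q m x hq hQ1 hm (by omega) hnx hx2 k1' k2' he hp hbad
  have hcard : (((Icc 1 x).filter (fun n => x < 2 * n ∧ Even n ∧ q ∣ n ∧
          Pool.Agent.Work.MP_92f640_nt.Bad (1 / 2) n)).card : ℝ) ≤ (E1.card : ℝ) + E2.card := by
    have := (card_le_card hsub).trans (card_image_le.trans (card_union_le E1 E2))
    exact_mod_cast this
  refine hcard.trans ?_
  have hLK : 0 < L ^ K := by positivity
  have hb1 : (E1.card : ℝ) ≤ 1 / 2 * ((x : ℝ) / (q * L ^ K)) := by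
    refine hE1.trans ?_
    have a1 : 3200 * (1 + C₁) * x * L ^ 3 / (q * L ^ (2 * K + 8)) =
        3200 * (1 + C₁) * ((x : ℝ) / (q * L ^ K)) / L ^ (K + 5) := by
      have : L ^ (2 * K + 8) = L ^ K * L ^ (K + 5) * L ^ 3 := by ring
      rw [this]
      have hL0 : L ≠ 0 := by positivity
      field_simp
    rw [a1, div_le_iff₀ (by positivity)]
    have a2 : L ^ 5 ≤ L ^ (K + 5) := pow_le_pow_right₀ hL (by omega)
    have a3 : 0 ≤ (x : ℝ) / (q * L ^ K) := by positivity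
    nlinarith [mul_le_mul_of_nonneg_right (c1.trans a2) a3]
  have hb2 : (E2.card : ℝ) ≤ 1 / 2 * ((x : ℝ) / (q * L ^ K)) := by
    refine hE2.trans ?_
    have a1 : ((x / q : ℕ) : ℝ) ≤ (x : ℝ) / q := Nat.cast_div_le
    have a2 : L ^ (K + 4) ≤ Real.sqrt Q := by
      apply Real.le_sqrt_of_sq_le
      calc (L ^ (K + 4)) ^ 2 = L ^ (2 * K + 8) := by ring
        _ ≤ L ^ B₁ := pow_le_pow_right₀ hL hB₁
        _ ≤ Q := hQge
    have a3 : (0 : ℝ) < L ^ (K + 4) := by positivity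
    have hlq0 : 0 ≤ Real.log q := Real.log_nonneg (by exact_mod_cast hq)
    calc C₂ * ((x / q : ℕ) : ℝ) * (1 + Real.log q) / Real.sqrt Q
        ≤ C₂ * ((x : ℝ) / q) * (2 * L) / L ^ (K + 4) := by
          apply div_le_div₀ (by positivity) _ a3 a2
          have : 1 + Real.log q ≤ 2 * L := by linarith
          gcongr
      _ = (4 * C₂) * (1 / 2 * ((x : ℝ) / (q * L ^ K))) / L ^ 3 := by
          have hL0 : L ≠ 0 := by positivity
          have : L ^ (K + 4) = L ^ K * L ^ 3 * L := by ring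
          rw [this]
          field_simp
          ring
      _ ≤ L ^ 3 * (1 / 2 * ((x : ℝ) / (q * L ^ K))) / L ^ 3 := by
          apply div_le_div_of_nonneg_right _ (by positivity)
          exact mul_le_mul_of_nonneg_right c2 (by positivity)
      _ = _ := by
          rw [mul_comm, mul_div_assoc, div_self (by positivity), mul_one]
  linarith

open Pool.Agent.Work.MP_92f640_nt in
theorem two_thirds (ε : ℝ) (hε : 0 < ε) (K : ℕ) : ∃ C : ℕ, ∀ A : ℕ, ∃ x₀ : ℝ, ∀ x : ℝ, x₀ ≤ x →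
    ∃ B : Finset ℕ, (B.card : ℝ) ≤ (Real.log x) ^ C ∧ (∀ b ∈ B, (Real.log x) ^ A < (b : ℝ)) ∧
      ∀ q : ℕ, 1 ≤ q → (q : ℝ) ≤ x ^ (2 / 3 - ε) → (∀ b ∈ B, ¬ b ∣ q) →
        ((exceptions (1 / 2) x q).card : ℝ) ≤ x / (q * (Real.log x) ^ K) := by
  classical
  obtain ⟨C, hC⟩ := main_nat2 (ε / 2) (by linarith) (K + 1)
  refine ⟨C, fun A => ?_⟩
  obtain ⟨x₁, hx₁⟩ := hC (A + 1)
  have hev : ∀ᶠ X : ℕ in Filter.atTop, (2 : ℝ) ^ K ≤ (Real.log X) ^ 1 ∧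
      (2 : ℝ) ^ A ≤ (Real.log X) ^ 1 ∧ 2 ≤ (X : ℝ) ^ (ε / 2) ∧ 3 ≤ X ∧ x₁ ≤ X := by
    have h1 : ∀ᶠ X : ℕ in Filter.atTop, 2 ≤ (X : ℝ) ^ (ε / 2) :=
      ((tendsto_rpow_atTop (by linarith : (0 : ℝ) < ε / 2)).comp
        tendsto_natCast_atTop_atTop).eventually_ge_atTop _
    filter_upwards [ev_log_ge 1 le_rfl ((2 : ℝ) ^ K), ev_log_ge 1 le_rfl ((2 : ℝ) ^ A), h1,
      Filter.eventually_ge_atTop 3, Filter.eventually_ge_atTop x₁] with X a1 a2 a3 a4 a5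
    exact ⟨a1, a2, a3, a4, a5⟩
  obtain ⟨X₀, hX₀⟩ := Filter.eventually_atTop.1 hev
  refine ⟨X₀ + 1, fun x hx => ?_⟩
  have hx0 : (0 : ℝ) ≤ x := by
    have : (0 : ℝ) ≤ X₀ := Nat.cast_nonneg _
    linarith
  set X := ⌊x⌋₊ with hX
  have hXx : (X : ℝ) ≤ x := Nat.floor_le hx0
  have hxX : x < X + 1 := Nat.lt_floor_add_one x
  have hXX0 : X₀ ≤ X := by
    rw [hX, Nat.le_floor_iff hx0]
    linarith
  obtain ⟨a1, a2, a3, a4, a5⟩ := hX₀ X hXX0
  rw [pow_one] at a1 a2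
  have hX3 : (3 : ℝ) ≤ X := by exact_mod_cast a4
  have hX0 : (0 : ℝ) < X := by linarith
  have hL1 := one_le_log a4
  have hLx : Real.log X ≤ Real.log x := Real.log_le_log hX0 hXx
  have hLx2 : Real.log x ≤ 2 * Real.log X := by
    have h1 : x ≤ (X : ℝ) ^ 2 := by nlinarith
    calc Real.log x ≤ Real.log ((X : ℝ) ^ 2) := Real.log_le_log (by linarith) h1
      _ = 2 * Real.log X := by rw [Real.log_pow]; norm_num
  have hkey : ∀ k : ℕ, (2 : ℝ) ^ k ≤ Real.log X → (Real.log x) ^ k ≤ (Real.log X) ^ (k + 1) := by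
    intro k hk
    calc (Real.log x) ^ k ≤ (2 * Real.log X) ^ k := pow_le_pow_left₀ (by linarith) hLx2 k
      _ = 2 ^ k * (Real.log X) ^ k := by rw [mul_pow]
      _ ≤ Real.log X * (Real.log X) ^ k := mul_le_mul_of_nonneg_right hk (by positivity)
      _ = _ := by ring
  obtain ⟨B, hB1, hB2, hB3⟩ := hx₁ X a5
  refine ⟨B, hB1.trans (pow_le_pow_left₀ (by linarith) hLx C), fun b hb => ?_,
    fun q hq hqx hqB => ?_⟩
  · exact (hkey A a2).trans_lt (hB2 b hb)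
  · have hq0 : (0 : ℝ) < q := by exact_mod_cast hq
    have hq1 : (1 : ℝ) ≤ q := by exact_mod_cast hq
    have hqX : (q : ℝ) ≤ (X : ℝ) ^ (2 / 3 - ε / 2) := by
      rcases lt_or_ge (2 / 3 - ε) 0 with hneg | hpos
      · exfalso
        have : x ^ (2 / 3 - ε) < 1 := Real.rpow_lt_one_of_one_lt_of_neg (by linarith) hneg
        linarith
      · have h2X : x ≤ 2 * X := by linarith
        calc (q : ℝ) ≤ x ^ (2 / 3 - ε) := hqx
          _ ≤ (2 * X) ^ (2 / 3 - ε) := Real.rpow_le_rpow hx0 h2X hpos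
          _ = 2 ^ (2 / 3 - ε) * (X : ℝ) ^ (2 / 3 - ε) := Real.mul_rpow (by norm_num) hX0.le
          _ ≤ (X : ℝ) ^ (ε / 2) * (X : ℝ) ^ (2 / 3 - ε) := by
              apply mul_le_mul_of_nonneg_right _ (by positivity)
              refine le_trans ?_ a3
              calc (2 : ℝ) ^ (2 / 3 - ε) ≤ 2 ^ (1 : ℝ) :=
                    Real.rpow_le_rpow_of_exponent_le (by norm_num) (by linarith)
                _ = 2 := Real.rpow_one 2
          _ = (X : ℝ) ^ (2 / 3 - ε / 2) := by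
              rw [← Real.rpow_add hX0]
              congr 1
              ring
    have hmain := hB3 q hq hqX hqB
    have hsub : exceptions (1 / 2) x q ⊆ (Icc 1 X).filter (fun n => X < 2 * n ∧ Even n ∧ q ∣ n ∧
          Bad (1 / 2) n) := by
      intro n hn
      rw [mem_exceptions] at hn
      obtain ⟨⟨h1, h2⟩, h3, h4, h5, h6⟩ := hn
      rw [mem_filter, mem_Icc]
      refine ⟨⟨h1, h2⟩, ?_, h4, h5, h6⟩
      have : (X : ℝ) < 2 * n := by linarith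
      exact_mod_cast this
    have hcard : ((exceptions (1 / 2) x q).card : ℝ) ≤ ((Icc 1 X).filter (fun n => X < 2 * n ∧
        Even n ∧ q ∣ n ∧ Bad (1 / 2) n)).card := by
      exact_mod_cast card_le_card hsub
    refine hcard.trans (hmain.trans ?_)
    have hlx0 : 0 < (Real.log x) ^ K := by
      have : 0 < Real.log x := by linarith
      positivity
    apply div_le_div₀ hx0 hXx (by positivity)
    exact mul_le_mul_of_nonneg_left (hkey K a1) hq0.le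

end Pool.Agent.HL
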