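import Pool.Agent.Work.BV.DivSum

/-! # Module TauFour

`∑_{n ≤ N} τ(n)^(j+1) ≤ ∑_{ab ≤ N} τ(a)^j τ(b)^j`; iterate as in `DivSum_tausq` (`H = ∑_{i ≤ N} 1/i ≤ 1 + log N`):
`∑_{n ≤ N} τ(n)^4 ≤ N H^15`. -/

namespace Pool.Agent.HL

open Finset Pool.Agent.BV

/-- one step of the iteration, before summation -/
lemma TauFour_step (j n : ℕ) : (n.divisors.card : ℝ) ^ (j + 1) ≤
    ∑ p ∈ n.divisorsAntidiagonal, (p.1.divisors.card : ℝ) ^ j * (p.2.divisors.card : ℝ) ^ j := by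
  rw [pow_succ]
  nth_rewrite 2 [DivSum_tau]
  rw [mul_sum]
  apply sum_le_sum
  intro p hp
  rw [mul_one, ← (Nat.mem_divisorsAntidiagonal.mp hp).1, ← mul_pow]
  exact pow_le_pow_left₀ (by positivity) (DivSum_tauMul _ _) j

lemma TauFour_R (j N : ℕ) :
    ∑ n ∈ Icc 1 N, (n.divisors.card : ℝ) ^ j * ((n : ℝ))⁻¹ ≤
      (∑ i ∈ Icc 1 N, ((i : ℝ))⁻¹) ^ (2 ^ j) := by
  induction j with
  | zero => simp
  | succ j ih =>
    have hH : 0 ≤ ∑ n ∈ Icc 1 N, (n.divisors.card : ℝ) ^ j * ((n : ℝ))⁻¹ := by positivity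
    calc ∑ n ∈ Icc 1 N, (n.divisors.card : ℝ) ^ (j + 1) * ((n : ℝ))⁻¹
        ≤ ∑ n ∈ Icc 1 N, ∑ p ∈ n.divisorsAntidiagonal,
            ((p.1.divisors.card : ℝ) ^ j * ((p.1 : ℝ))⁻¹) *
              ((p.2.divisors.card : ℝ) ^ j * ((p.2 : ℝ))⁻¹) := by
          apply sum_le_sum
          intro n _
          refine (mul_le_mul_of_nonneg_right (TauFour_step j n) (by positivity)).trans (le_of_eq ?_)
          rw [sum_mul]
          apply sum_congr rfl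
          intro p hp
          rw [← (Nat.mem_divisorsAntidiagonal.mp hp).1, Nat.cast_mul, mul_inv]
          ring
      _ = ∑ d ∈ Icc 1 N, ∑ m ∈ Icc 1 (N / d), ((d.divisors.card : ℝ) ^ j * ((d : ℝ))⁻¹) *
              ((m.divisors.card : ℝ) ^ j * ((m : ℝ))⁻¹) :=
          DivSum_pairs N (fun a b => ((a.divisors.card : ℝ) ^ j * ((a : ℝ))⁻¹) *
              ((b.divisors.card : ℝ) ^ j * ((b : ℝ))⁻¹))
      _ ≤ (∑ n ∈ Icc 1 N, (n.divisors.card : ℝ) ^ j * ((n : ℝ))⁻¹) *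
            ∑ n ∈ Icc 1 N, (n.divisors.card : ℝ) ^ j * ((n : ℝ))⁻¹ := by
          rw [sum_mul]
          apply sum_le_sum
          intro d _
          rw [← mul_sum]
          apply mul_le_mul_of_nonneg_left _ (by positivity)
          apply sum_le_sum_of_subset_of_nonneg (Icc_subset_Icc_right (Nat.div_le_self N d))
          intros; positivity
      _ ≤ (∑ i ∈ Icc 1 N, ((i : ℝ))⁻¹) ^ (2 ^ j) * (∑ i ∈ Icc 1 N, ((i : ℝ))⁻¹) ^ (2 ^ j) :=
          mul_le_mul ih ih hH (by positivity)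
      _ = _ := by rw [← pow_add, pow_succ]; ring_nf

lemma TauFour_T (j N K : ℕ) (h : N ≤ K) :
    ∑ n ∈ Icc 1 N, (n.divisors.card : ℝ) ^ j ≤
      N * (∑ i ∈ Icc 1 K, ((i : ℝ))⁻¹) ^ (2 ^ j - 1) := by
  induction j generalizing N with
  | zero => simp
  | succ j ih =>
    have hH : 0 ≤ ∑ i ∈ Icc 1 K, ((i : ℝ))⁻¹ := by positivity
    calc ∑ n ∈ Icc 1 N, (n.divisors.card : ℝ) ^ (j + 1)
        ≤ ∑ n ∈ Icc 1 N, ∑ p ∈ n.divisorsAntidiagonal,
            (p.1.divisors.card : ℝ) ^ j * (p.2.divisors.card : ℝ) ^ j :=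
          sum_le_sum fun n _ => TauFour_step j n
      _ = ∑ d ∈ Icc 1 N, ∑ m ∈ Icc 1 (N / d),
            (d.divisors.card : ℝ) ^ j * (m.divisors.card : ℝ) ^ j :=
          DivSum_pairs N (fun a b => (a.divisors.card : ℝ) ^ j * (b.divisors.card : ℝ) ^ j)
      _ ≤ ∑ d ∈ Icc 1 N, ((N : ℝ) * (∑ i ∈ Icc 1 K, ((i : ℝ))⁻¹) ^ (2 ^ j - 1)) *
            ((d.divisors.card : ℝ) ^ j * ((d : ℝ))⁻¹) := by
          apply sum_le_sum
          intro d _
          rw [← mul_sum]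
          have h1 := ih (N / d) ((Nat.div_le_self N d).trans h)
          have h2 : ((N / d : ℕ) : ℝ) ≤ (N : ℝ) * ((d : ℝ))⁻¹ := by
            rw [← div_eq_mul_inv]; exact Nat.cast_div_le
          calc (d.divisors.card : ℝ) ^ j * ∑ m ∈ Icc 1 (N / d), (m.divisors.card : ℝ) ^ j
              ≤ (d.divisors.card : ℝ) ^ j *
                  (((N / d : ℕ) : ℝ) * (∑ i ∈ Icc 1 K, ((i : ℝ))⁻¹) ^ (2 ^ j - 1)) :=
                mul_le_mul_of_nonneg_left h1 (by positivity)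
            _ ≤ (d.divisors.card : ℝ) ^ j *
                  (((N : ℝ) * ((d : ℝ))⁻¹) * (∑ i ∈ Icc 1 K, ((i : ℝ))⁻¹) ^ (2 ^ j - 1)) := by
                apply mul_le_mul_of_nonneg_left _ (by positivity)
                exact mul_le_mul_of_nonneg_right h2 (by positivity)
            _ = _ := by ring
      _ = ((N : ℝ) * (∑ i ∈ Icc 1 K, ((i : ℝ))⁻¹) ^ (2 ^ j - 1)) *
            ∑ d ∈ Icc 1 N, (d.divisors.card : ℝ) ^ j * ((d : ℝ))⁻¹ := (mul_sum _ _ _).symm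
      _ ≤ ((N : ℝ) * (∑ i ∈ Icc 1 K, ((i : ℝ))⁻¹) ^ (2 ^ j - 1)) *
            (∑ i ∈ Icc 1 K, ((i : ℝ))⁻¹) ^ (2 ^ j) := by
          apply mul_le_mul_of_nonneg_left _ (by positivity)
          refine (TauFour_R j N).trans (pow_le_pow_left₀ (by positivity) ?_ _)
          exact sum_le_sum_of_subset_of_nonneg (Icc_subset_Icc_right h) (fun _ _ _ => by positivity)
      _ = _ := by
          rw [mul_assoc, ← pow_add]
          congr 2
          have : 1 ≤ 2 ^ j := Nat.one_le_two_pow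
          rw [pow_succ]
          omega

theorem tau_four_sum : ∃ C : ℝ, 0 < C ∧ ∀ x : ℕ, 3 ≤ x →
    ∑ n ∈ Icc 1 x, (n.divisors.card : ℝ) ^ 4 ≤ C * x * (Real.log x) ^ 15 := by
  refine ⟨2 ^ 15, by norm_num, ?_⟩
  intro x hx
  refine (TauFour_T 4 x x le_rfl).trans ?_
  have hl := DivSum_log x hx
  have h1 : ∑ i ∈ Icc 1 x, ((i : ℝ))⁻¹ ≤ 2 * Real.log x := by
    have := DivSum_H x
    linarith
  have h2 := pow_le_pow_left₀ (by positivity) h1 15
  rw [show 2 ^ 4 - 1 = 15 by norm_num]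
  calc (x : ℝ) * (∑ i ∈ Icc 1 x, ((i : ℝ))⁻¹) ^ 15 ≤ x * (2 * Real.log x) ^ 15 :=
        mul_le_mul_of_nonneg_left h2 (by positivity)
    _ = _ := by ring

end Pool.Agent.HL
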