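import Pool.Agent.Work.MP_92f640_nt.HL.MeanV
import Pool.Agent.Work.MP_92f640_nt.HL.TauFour
import Pool.Agent.Work.BV.Split

/-! # Module MassA: the geometric grid, the type II sum cut along the grid, mean squares of the
pieces (used in `Mass`) -/

namespace Pool.Agent.HL

open Finset Pool.Agent.BV
open scoped ArithmeticFunction.vonMangoldt ArithmeticFunction.Moebius

namespace MassA

lemma gr_zero (η : ℝ) : gr η 0 = 1 := by simp [gr]

lemma gr_mono {η : ℝ} (hη : 0 ≤ η) : Monotone (gr η) := by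
  intro i j hij
  unfold gr
  exact Nat.floor_mono (pow_le_pow_right₀ (by linarith) hij)

lemma one_le_gr {η : ℝ} (hη : 0 ≤ η) (i : ℕ) : 1 ≤ gr η i := by
  have := gr_mono hη (Nat.zero_le i)
  rwa [gr_zero] at this

lemma gr_le_pow {η : ℝ} (hη : 0 ≤ η) (i : ℕ) : (gr η i : ℝ) ≤ (1 + η) ^ i :=
  Nat.floor_le (by positivity)

lemma pow_lt_gr (η : ℝ) (i : ℕ) : (1 + η) ^ i < gr η i + 1 := Nat.lt_floor_add_one _

lemma gr_succ_le {η : ℝ} (hη : 0 ≤ η) (i : ℕ) :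
    (gr η (i + 1) : ℝ) ≤ (1 + η) * (gr η i + 1) := by
  refine (gr_le_pow hη _).trans ?_
  rw [pow_succ, mul_comm]
  exact mul_le_mul_of_nonneg_left (pow_lt_gr η i).le (by linarith)

lemma exists_gr {η : ℝ} (hη : 0 < η) (B : ℝ) : ∃ i, B ≤ gr η i := by
  obtain ⟨i, hi⟩ := pow_unbounded_of_one_lt (B + 1) (by linarith : 1 < 1 + η)
  exact ⟨i, by have := pow_lt_gr η i; linarith⟩

/-- number of grid points up to `x` -/
lemma gr_count {η : ℝ} (hη : 0 < η) (hη1 : η ≤ 1) {x : ℝ} (hx : 2 ≤ x) {i : ℕ}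
    (hi : (gr η i : ℝ) ≤ x) : (i : ℝ) ≤ 4 * Real.log x / η := by
  have h1 : (1 + η) ^ i < x + 1 := (pow_lt_gr η i).trans_le (by linarith)
  have h2 : (i : ℝ) * Real.log (1 + η) ≤ Real.log (x + 1) := by
    rw [← Real.log_pow]
    exact Real.log_le_log (by positivity) h1.le
  have h3 : Real.log (x + 1) ≤ 2 * Real.log x := by
    rw [← Real.log_rpow (by linarith)]
    apply Real.log_le_log (by linarith)
    have : x ^ (2 : ℝ) = x * x := by
      rw [show (2 : ℝ) = ((2 : ℕ) : ℝ) by norm_num, Real.rpow_natCast]; ring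
    rw [this]
    nlinarith
  have h4 : η / 2 ≤ Real.log (1 + η) := by
    have h5 := Real.one_sub_inv_le_log_of_pos (by linarith : 0 < 1 + η)
    have h6 : η / 2 ≤ 1 - (1 + η)⁻¹ := by
      have h7 : 1 - (1 + η)⁻¹ = η / (1 + η) := by field_simp; ring
      rw [h7]
      exact div_le_div_of_nonneg_left hη.le (by linarith) (by linarith)
    linarith
  rw [le_div_iff₀ hη]
  have h8 : (i : ℝ) * (η / 2) ≤ i * Real.log (1 + η) :=
    mul_le_mul_of_nonneg_left h4 (Nat.cast_nonneg i)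
  linarith

lemma sum_blocks {M : Type*} [AddCommMonoid M] (g : ℕ → ℕ) (hg : Monotone g) (f : ℕ → M)
    (i₀ i₁ : ℕ) (h : i₀ ≤ i₁) :
    ∑ i ∈ Ico i₀ i₁, ∑ c ∈ Ioc (g i) (g (i + 1)), f c = ∑ c ∈ Ioc (g i₀) (g i₁), f c := by
  induction i₁, h using Nat.le_induction with
  | base => simp
  | succ n hn ih =>
    rw [Finset.sum_Ico_succ_top hn, ih,
      Finset.sum_Ioc_consecutive _ (hg hn) (hg (Nat.le_succ n))]

/-- coefficients of the error term -/
noncomputable def ecoef (g : ℕ → ℕ) (U y i₀ i₁ n : ℕ) : ℂ :=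
  ∑ i ∈ Ico i₀ i₁, ∑ c ∈ Ioc (g i) (g (i + 1)), ∑ k ∈ Ioc U y,
    if c * k = n ∧ y / g (i + 1) < k then ((Λ c : ℝ) : ℂ) * ((beta U k : ℝ) : ℂ) else 0

/-- the difference of two prime sums -/
lemma psiC_sub {q : ℕ} (χ : DirichletCharacter ℂ q) {a b : ℕ} (h : a ≤ b) :
    psiC χ b - psiC χ a = ∑ c ∈ Ioc a b, ((Λ c : ℝ) : ℂ) * χ (c : ZMod q) := by
  have e : ∀ N, psiC χ N = ∑ n ∈ Ioc 0 N, ((Λ n : ℝ) : ℂ) * χ (n : ZMod q) := fun N => rfl
  rw [e, e, ← Finset.sum_Ioc_consecutive _ (Nat.zero_le a) h]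
  ring

theorem S3_eq {q : ℕ} (χ : DirichletCharacter ℂ q) (g : ℕ → ℕ) (hg : Monotone g)
    (U y i₀ i₁ M : ℕ) (h01 : i₀ ≤ i₁) (hU : 1 ≤ U) (hW : y / U ≤ g i₁)
    (hM : ∀ i ∈ Ico i₀ i₁, ∀ c ∈ Ioc (g i) (g (i + 1)), ∀ k, y / g (i + 1) < k → M < c * k) :
    S3 χ U (g i₀) y = ∑ i ∈ Ico i₀ i₁, (psiC χ (g (i + 1)) - psiC χ (g i)) *
        (∑ k ∈ Ioc U (y / g (i + 1)), ((beta U k : ℝ) : ℂ) * χ (k : ZMod q)) +
      ∑ n ∈ Ioc M y, ecoef g U y i₀ i₁ n * χ (n : ZMod q) := by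
  set t : ℕ → ℕ → ℂ := fun c k =>
    ((Λ c : ℝ) : ℂ) * ((beta U k : ℝ) : ℂ) * χ ((c * k : ℕ) : ZMod q) with ht
  set f : ℕ → ℂ := fun c => ∑ k ∈ Ioc U y, if c * k ≤ y then t c k else 0 with hf
  have h1 : S3 χ U (g i₀) y = ∑ c ∈ Ioc (g i₀) (g i₁), f c := by
    have hz1 : ∀ c, y < c → f c = 0 := by
      intro c hc
      refine Finset.sum_eq_zero fun k hk => ?_
      rw [mem_Ioc] at hk
      have : y < c * k := lt_of_lt_of_le hc (Nat.le_mul_of_pos_right c (by omega))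
      rw [if_neg (not_le.2 this)]
    have hz2 : ∀ c, g i₁ < c → f c = 0 := by
      intro c hc
      refine Finset.sum_eq_zero fun k hk => ?_
      rw [mem_Ioc] at hk
      have h2 : y < c * U := (Nat.div_lt_iff_lt_mul hU).1 (lt_of_le_of_lt hW hc)
      have : y < c * k := lt_of_lt_of_le h2 (Nat.mul_le_mul_left c hk.1.le)
      rw [if_neg (not_le.2 this)]
    have e1 : ∑ c ∈ Ioc (g i₀) (max y (g i₁)), f c = ∑ c ∈ Ioc (g i₀) y, f c := by
      symm
      refine Finset.sum_subset (Ioc_subset_Ioc_right (le_max_left _ _)) ?_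
      intro c hc hc'
      rw [mem_Ioc] at hc hc'
      exact hz1 c (by omega)
    have e2 : ∑ c ∈ Ioc (g i₀) (max y (g i₁)), f c = ∑ c ∈ Ioc (g i₀) (g i₁), f c := by
      symm
      refine Finset.sum_subset (Ioc_subset_Ioc_right (le_max_right _ _)) ?_
      intro c hc hc'
      rw [mem_Ioc] at hc hc'
      exact hz2 c (by omega)
    rw [← e2, e1]
    rfl
  rw [h1, ← sum_blocks g hg f i₀ i₁ h01]
  have h2 : ∀ i ∈ Ico i₀ i₁, ∀ c ∈ Ioc (g i) (g (i + 1)), f c =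
      ((Λ c : ℝ) : ℂ) * χ (c : ZMod q) *
        (∑ k ∈ Ioc U (y / g (i + 1)), ((beta U k : ℝ) : ℂ) * χ (k : ZMod q)) +
      ∑ k ∈ Ioc U y, if c * k ≤ y ∧ y / g (i + 1) < k then t c k else 0 := by
    intro i _ c hc
    rw [mem_Ioc] at hc
    have e1 : ∀ k ∈ Ioc U y, (if c * k ≤ y then t c k else 0) =
        (if k ≤ y / g (i + 1) then t c k else 0) +
          (if c * k ≤ y ∧ y / g (i + 1) < k then t c k else 0) := by
      intro k _
      by_cases hk : k ≤ y / g (i + 1)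
      · have h3 : c * k ≤ y := by
          calc c * k ≤ g (i + 1) * (y / g (i + 1)) := Nat.mul_le_mul hc.2 hk
            _ ≤ y := Nat.mul_div_le y _
        rw [if_pos h3, if_pos hk, if_neg (fun h => absurd h.2 (not_lt.2 hk)), add_zero]
      · rw [if_neg hk, zero_add]
        simp only [not_le.1 hk, and_true]
    rw [hf]
    simp only
    rw [Finset.sum_congr rfl e1, Finset.sum_add_distrib]
    congr 1
    rw [← Finset.sum_filter]
    have e2 : (Ioc U y).filter (fun k => k ≤ y / g (i + 1)) = Ioc U (y / g (i + 1)) := by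
      ext k
      simp only [mem_filter, mem_Ioc]
      have := Nat.div_le_self y (g (i + 1))
      omega
    rw [e2, Finset.mul_sum]
    refine Finset.sum_congr rfl fun k _ => ?_
    rw [ht]
    simp only [Nat.cast_mul, map_mul]
    ring
  have h3 : ∑ i ∈ Ico i₀ i₁, ∑ c ∈ Ioc (g i) (g (i + 1)), f c =
      ∑ i ∈ Ico i₀ i₁, (psiC χ (g (i + 1)) - psiC χ (g i)) *
        (∑ k ∈ Ioc U (y / g (i + 1)), ((beta U k : ℝ) : ℂ) * χ (k : ZMod q)) +
      ∑ i ∈ Ico i₀ i₁, ∑ c ∈ Ioc (g i) (g (i + 1)),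
        ∑ k ∈ Ioc U y, if c * k ≤ y ∧ y / g (i + 1) < k then t c k else 0 := by
    rw [← Finset.sum_add_distrib]
    refine Finset.sum_congr rfl fun i hi => ?_
    rw [Finset.sum_congr rfl (h2 i hi), Finset.sum_add_distrib, ← Finset.sum_mul,
      psiC_sub χ (hg (Nat.le_succ i))]
  rw [h3]
  congr 1
  have h4 : ∀ n ∈ Ioc M y, ecoef g U y i₀ i₁ n * χ (n : ZMod q) =
      ∑ i ∈ Ico i₀ i₁, ∑ c ∈ Ioc (g i) (g (i + 1)), ∑ k ∈ Ioc U y,
        if c * k = n then (if y / g (i + 1) < k then t c k else 0) else 0 := by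
    intro n _
    unfold ecoef
    rw [Finset.sum_mul]
    refine Finset.sum_congr rfl fun i _ => ?_
    rw [Finset.sum_mul]
    refine Finset.sum_congr rfl fun c _ => ?_
    rw [Finset.sum_mul]
    refine Finset.sum_congr rfl fun k _ => ?_
    by_cases h5 : c * k = n
    · by_cases h6 : y / g (i + 1) < k
      · rw [if_pos ⟨h5, h6⟩, if_pos h5, if_pos h6, ht, ← h5]
      · rw [if_neg (fun h => h6 h.2), if_pos h5, if_neg h6, zero_mul]
    · rw [if_neg (fun h => h5 h.1), if_neg h5, zero_mul]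
  rw [Finset.sum_congr rfl h4]
  refine Eq.trans ?_ Finset.sum_comm
  refine Finset.sum_congr rfl fun i hi => ?_
  refine Eq.trans ?_ Finset.sum_comm
  refine Finset.sum_congr rfl fun c hc => ?_
  refine Eq.trans ?_ Finset.sum_comm
  refine Finset.sum_congr rfl fun k _ => ?_
  rw [Finset.sum_ite_eq]
  by_cases h6 : y / g (i + 1) < k
  · have h7 := hM i hi c hc k h6
    simp only [h6, and_true, if_true, mem_Ioc, h7, true_and]
  · simp only [h6, and_false, if_false, ite_self]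

theorem norm_ecoef_le (g : ℕ → ℕ) (hg : Monotone g) (U y i₀ i₁ n : ℕ) (h01 : i₀ ≤ i₁)
    (hn : n ≠ 0) : ‖ecoef g U y i₀ i₁ n‖ ≤ (n.divisors.card : ℝ) * Real.log n := by
  unfold ecoef
  have h1 : ‖∑ i ∈ Ico i₀ i₁, ∑ c ∈ Ioc (g i) (g (i + 1)), ∑ k ∈ Ioc U y,
      (if c * k = n ∧ y / g (i + 1) < k then ((Λ c : ℝ) : ℂ) * ((beta U k : ℝ) : ℂ) else 0)‖ ≤
      ∑ i ∈ Ico i₀ i₁, ∑ c ∈ Ioc (g i) (g (i + 1)), ∑ k ∈ Ioc U y,
        (if c * k = n then Λ c * (k.divisors.card : ℝ) else 0) := by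
    refine (norm_sum_le _ _).trans (Finset.sum_le_sum fun i _ => ?_)
    refine (norm_sum_le _ _).trans (Finset.sum_le_sum fun c _ => ?_)
    refine (norm_sum_le _ _).trans (Finset.sum_le_sum fun k _ => ?_)
    have hΛ : (0 : ℝ) ≤ Λ c := ArithmeticFunction.vonMangoldt_nonneg
    by_cases h5 : c * k = n
    · rw [if_pos h5]
      by_cases h6 : y / g (i + 1) < k
      · rw [if_pos ⟨h5, h6⟩, norm_mul, Complex.norm_real, Complex.norm_real, Real.norm_eq_abs,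
          Real.norm_eq_abs, abs_of_nonneg hΛ]
        exact mul_le_mul_of_nonneg_left (abs_beta_le U k) hΛ
      · rw [if_neg (fun h => h6 h.2), norm_zero]
        positivity
    · rw [if_neg (fun h => h5 h.1), if_neg h5, norm_zero]
  refine h1.trans ?_
  rw [sum_blocks g hg (fun c => ∑ k ∈ Ioc U y,
    (if c * k = n then Λ c * (k.divisors.card : ℝ) else 0)) i₀ i₁ h01]
  rw [← Finset.sum_product', ← Finset.sum_filter (fun p : ℕ × ℕ => p.1 * p.2 = n)]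
  have hsub : ((Ioc (g i₀) (g i₁)) ×ˢ (Ioc U y)).filter (fun p : ℕ × ℕ => p.1 * p.2 = n) ⊆
      n.divisorsAntidiagonal := by
    intro p hp
    rw [mem_filter] at hp
    rw [Nat.mem_divisorsAntidiagonal]
    exact ⟨hp.2, hn⟩
  refine (Finset.sum_le_sum_of_subset_of_nonneg hsub ?_).trans ?_
  · intro p _ _
    have hΛ : (0 : ℝ) ≤ Λ p.1 := ArithmeticFunction.vonMangoldt_nonneg
    positivity
  · have h2 : ∀ p ∈ n.divisorsAntidiagonal, Λ p.1 * (p.2.divisors.card : ℝ) ≤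
        Λ p.1 * (n.divisors.card : ℝ) := by
      intro p hp
      have hΛ : (0 : ℝ) ≤ Λ p.1 := ArithmeticFunction.vonMangoldt_nonneg
      refine mul_le_mul_of_nonneg_left ?_ hΛ
      rw [Nat.mem_divisorsAntidiagonal] at hp
      exact_mod_cast Finset.card_le_card (Nat.divisors_subset_of_dvd hn ⟨p.1, by
        rw [← hp.1]; ring⟩)
    refine (Finset.sum_le_sum h2).trans (le_of_eq ?_)
    rw [← Finset.sum_mul, Nat.sum_divisorsAntidiagonal (fun i _ => Λ i),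
      ArithmeticFunction.vonMangoldt_sum]
    ring

/-- mean square of the error term -/
theorem err_ms (k : ℕ) [NeZero k] (g : ℕ → ℕ) (hg : Monotone g) (U y i₀ i₁ M x : ℕ)
    (h01 : i₀ ≤ i₁) (hMy : M ≤ y) (hyx : y ≤ x) (X : Finset (DirichletCharacter ℂ k)) :
    ∑ χ ∈ X, ‖∑ n ∈ Ioc M y, ecoef g U y i₀ i₁ n * χ (n : ZMod k)‖ ^ 2 ≤
      (((y - M : ℕ) : ℝ) + k) * ((Real.log x) ^ 2 * (Real.sqrt ((y - M : ℕ) : ℝ) *
        Real.sqrt (∑ n ∈ Icc 1 x, (n.divisors.card : ℝ) ^ 4))) := by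
  have h1 := mean_value k M (y - M) (ecoef g U y i₀ i₁)
  rw [Nat.add_sub_cancel' hMy] at h1
  refine (Finset.sum_le_sum_of_subset_of_nonneg (Finset.subset_univ X)
    (fun _ _ _ => sq_nonneg _)).trans (h1.trans ?_)
  refine mul_le_mul_of_nonneg_left ?_ (by positivity)
  have h2 : ∀ n ∈ Ioc M y, ‖ecoef g U y i₀ i₁ n‖ ^ 2 ≤
      (Real.log x) ^ 2 * (1 * (n.divisors.card : ℝ) ^ 2) := by
    intro n hn
    rw [mem_Ioc] at hn
    have hn0 : n ≠ 0 := by omega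
    have h3 := norm_ecoef_le g hg U y i₀ i₁ n h01 hn0
    have h4 : Real.log n ≤ Real.log x :=
      Real.log_le_log (by exact_mod_cast Nat.pos_of_ne_zero hn0) (by exact_mod_cast hn.2.trans hyx)
    have h5 : 0 ≤ Real.log n := Real.log_natCast_nonneg n
    calc ‖ecoef g U y i₀ i₁ n‖ ^ 2 ≤ ((n.divisors.card : ℝ) * Real.log n) ^ 2 :=
          pow_le_pow_left₀ (norm_nonneg _) h3 2
      _ ≤ ((n.divisors.card : ℝ) * Real.log x) ^ 2 :=
          pow_le_pow_left₀ (by positivity) (mul_le_mul_of_nonneg_left h4 (by positivity)) 2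
      _ = _ := by ring
  refine (Finset.sum_le_sum h2).trans ?_
  rw [← Finset.mul_sum]
  refine mul_le_mul_of_nonneg_left ?_ (by positivity)
  refine (Real.sum_mul_le_sqrt_mul_sqrt _ _ _).trans ?_
  refine mul_le_mul (le_of_eq ?_) (Real.sqrt_le_sqrt ?_) (Real.sqrt_nonneg _) (Real.sqrt_nonneg _)
  · simp
  · have h6 : ∀ n : ℕ, ((n.divisors.card : ℝ) ^ 2) ^ 2 = (n.divisors.card : ℝ) ^ 4 := by
      intro n; ring
    simp only [h6]
    refine Finset.sum_le_sum_of_subset_of_nonneg ?_ (fun _ _ _ => by positivity)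
    intro n hn
    rw [mem_Ioc] at hn
    rw [mem_Icc]
    omega

/-- mean square of the main term -/
theorem main_ms (k : ℕ) [NeZero k] (g : ℕ → ℕ) (U y i₀ i₁ x : ℕ)
    (hkU : k ≤ U) (hyx : y ≤ x) (C a : ℝ) (hC : 0 ≤ C)
    (hτ : ∀ N : ℕ, N ≤ 2 * x →
      ∑ n ∈ Icc 1 N, (n.divisors.card : ℝ) ^ 2 ≤ C * N * (Real.log x) ^ 3)
    (X : Finset (DirichletCharacter ℂ k))
    (hA : ∀ χ ∈ X, ∀ i ∈ Ico i₀ i₁, ‖psiC χ (g (i + 1)) - psiC χ (g i)‖ ≤ a * g (i + 1)) :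
    ∑ χ ∈ X, ‖∑ i ∈ Ico i₀ i₁, (psiC χ (g (i + 1)) - psiC χ (g i)) *
        (∑ k' ∈ Ioc U (y / g (i + 1)), ((beta U k' : ℝ) : ℂ) * χ (k' : ZMod k))‖ ^ 2 ≤
      ((i₁ : ℝ)) ^ 2 * (a ^ 2 * (C * (y : ℝ) ^ 2 * (Real.log x) ^ 3)) := by
  have hL : 0 ≤ Real.log x := Real.log_natCast_nonneg x
  set Bf : ℕ → DirichletCharacter ℂ k → ℂ := fun i χ =>
    ∑ k' ∈ Ioc U (y / g (i + 1)), ((beta U k' : ℝ) : ℂ) * χ (k' : ZMod k) with hBf
  have h1 : ∀ χ ∈ X, ‖∑ i ∈ Ico i₀ i₁, (psiC χ (g (i + 1)) - psiC χ (g i)) * Bf i χ‖ ^ 2 ≤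
      (i₁ : ℝ) * ∑ i ∈ Ico i₀ i₁, (a * g (i + 1)) ^ 2 * ‖Bf i χ‖ ^ 2 := by
    intro χ hχ
    calc ‖∑ i ∈ Ico i₀ i₁, (psiC χ (g (i + 1)) - psiC χ (g i)) * Bf i χ‖ ^ 2
        ≤ (∑ i ∈ Ico i₀ i₁, (a * g (i + 1)) * ‖Bf i χ‖) ^ 2 := by
          refine pow_le_pow_left₀ (norm_nonneg _) ?_ 2
          refine (norm_sum_le _ _).trans (Finset.sum_le_sum fun i hi => ?_)
          rw [norm_mul]
          exact mul_le_mul_of_nonneg_right (hA χ hχ i hi) (norm_nonneg _)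
      _ ≤ ((Ico i₀ i₁).card : ℝ) * ∑ i ∈ Ico i₀ i₁, ((a * g (i + 1)) * ‖Bf i χ‖) ^ 2 :=
          sq_sum_le_card_mul_sum_sq
      _ ≤ (i₁ : ℝ) * ∑ i ∈ Ico i₀ i₁, ((a * g (i + 1)) * ‖Bf i χ‖) ^ 2 := by
          refine mul_le_mul_of_nonneg_right ?_ (Finset.sum_nonneg fun _ _ => sq_nonneg _)
          rw [Nat.card_Ico]
          exact_mod_cast Nat.sub_le _ _
      _ = _ := by
          congr 1
          refine Finset.sum_congr rfl fun i _ => ?_
          rw [mul_pow]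
  refine (Finset.sum_le_sum h1).trans ?_
  rw [← Finset.mul_sum, Finset.sum_comm]
  have h2 : ∀ i ∈ Ico i₀ i₁, ∑ χ ∈ X, (a * g (i + 1)) ^ 2 * ‖Bf i χ‖ ^ 2 ≤
      a ^ 2 * (C * (y : ℝ) ^ 2 * (Real.log x) ^ 3) := by
    intro i _
    rw [← Finset.mul_sum]
    set K := y / g (i + 1) with hK
    have hKy : K ≤ y := Nat.div_le_self _ _
    have h3 : ∑ χ ∈ X, ‖Bf i χ‖ ^ 2 ≤ (K : ℝ) * (C * K * (Real.log x) ^ 3) := by
      rcases le_total K U with h | h
      · have : Ioc U K = ∅ := Finset.Ioc_eq_empty (by omega)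
        have h4 : ∀ χ, Bf i χ = 0 := by
          intro χ
          rw [hBf]
          simp only
          rw [← hK, this, Finset.sum_empty]
        simp only [h4, norm_zero]
        rw [zero_pow (by norm_num), Finset.sum_const_zero]
        positivity
      · have h4 := mean_value k U (K - U) (fun n => ((beta U n : ℝ) : ℂ))
        rw [Nat.add_sub_cancel' h] at h4
        refine (Finset.sum_le_sum_of_subset_of_nonneg (Finset.subset_univ X)
          (fun _ _ _ => sq_nonneg _)).trans (h4.trans ?_)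
        refine mul_le_mul ?_ ?_ (Finset.sum_nonneg fun _ _ => sq_nonneg _) (Nat.cast_nonneg _)
        · exact_mod_cast (by omega : (K - U) + k ≤ K)
        · have h5 := hτ K (by omega)
          refine le_trans ?_ h5
          refine (Finset.sum_le_sum (g := fun n => (n.divisors.card : ℝ) ^ 2) ?_).trans
            (Finset.sum_le_sum_of_subset_of_nonneg ?_ (fun _ _ _ => by positivity))
          · intro n _
            rw [Complex.norm_real, Real.norm_eq_abs]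
            exact pow_le_pow_left₀ (abs_nonneg _) (abs_beta_le U n) 2
          · intro n hn
            rw [mem_Ioc] at hn
            rw [mem_Icc]
            omega
    refine (mul_le_mul_of_nonneg_left h3 (sq_nonneg _)).trans ?_
    have h6 : (g (i + 1) : ℝ) * K ≤ y := by
      exact_mod_cast Nat.mul_div_le y (g (i + 1))
    have h7 : ((g (i + 1) : ℝ) * K) ^ 2 ≤ (y : ℝ) ^ 2 := pow_le_pow_left₀ (by positivity) h6 2
    calc (a * (g (i + 1) : ℝ)) ^ 2 * ((K : ℝ) * (C * K * (Real.log x) ^ 3))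
        = a ^ 2 * (C * ((g (i + 1) : ℝ) * K) ^ 2 * (Real.log x) ^ 3) := by ring
      _ ≤ _ := by gcongr
  calc (i₁ : ℝ) * ∑ i ∈ Ico i₀ i₁, ∑ χ ∈ X, (a * g (i + 1)) ^ 2 * ‖Bf i χ‖ ^ 2
      ≤ (i₁ : ℝ) * ∑ i ∈ Ico i₀ i₁, a ^ 2 * (C * (y : ℝ) ^ 2 * (Real.log x) ^ 3) :=
        mul_le_mul_of_nonneg_left (Finset.sum_le_sum h2) (Nat.cast_nonneg _)
    _ = (i₁ : ℝ) * (((Ico i₀ i₁).card : ℝ) * (a ^ 2 * (C * (y : ℝ) ^ 2 * (Real.log x) ^ 3))) := by
        rw [Finset.sum_const, nsmul_eq_mul]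
    _ ≤ (i₁ : ℝ) * ((i₁ : ℝ) * (a ^ 2 * (C * (y : ℝ) ^ 2 * (Real.log x) ^ 3))) := by
        refine mul_le_mul_of_nonneg_left (mul_le_mul_of_nonneg_right ?_ (by positivity))
          (Nat.cast_nonneg _)
        rw [Nat.card_Ico]
        exact_mod_cast Nat.sub_le _ _
    _ = _ := by ring

end MassA

end Pool.Agent.HL
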