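import Pool.Agent.Work.MP_92f640_nt.HL.MeanV
import Pool.Agent.Work.MP_92f640_nt.HL.VDiff
import Pool.Agent.Work.MP_92f640_nt.HL.TauFour
import Pool.Agent.Work.MP_92f640_nt.HL.MassA
import Pool.Agent.Work.MP_92f640_nt.HL.Evt

/-! # Module Mass: mean square of `ψ(y, χ)` over the characters mod `k` that are not bad

`L = log x`, `η = L^(-B₈)`. `vdiff` with `U = ⌊√x⌋₊`-ish (`U ≤ √x`) and `V = gr η i₀` the first grid point
`≥ x^(ε/4)` (`V ≤ 2 x^(ε/4)`): `(k U V)² L⁴ ≤ 4 x^(2 - 3ε/2) L⁴`, negligible.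
`S3 χ U V y = ∑_{i ≥ i₀} ∑_{c ∈ C_i} ∑_{U < k' ≤ y/c} Λ(c) β_U(k') χ(c k')`, `C_i = (gr i, gr (i+1)]` (the terms with
`c > y/U` vanish, `y/U ≤ 2√x`). Replace `k' ≤ y/c` by `k' ≤ y/gr(i+1)`: the block is `A_i(χ) B_i(χ)`,
`A_i = psiC χ (gr (i+1)) - psiC χ (gr i)`, so `‖A_i‖ ≤ 4 gr(i+1)/L^B₉`, `B_i = ∑_{U < k' ≤ y/gr(i+1)} β_U(k') χ(k')`.
With `K = y/gr(i+1) ≥ k`: `mean_value` and `tau_sq_sum` give `∑_χ ‖B_i‖² ≤ 2K * C K L³`, so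
`∑_χ ‖∑_i A_i B_i‖² ≤ I² max_i (16 gr(i+1)²/L^(2B₉) * 2 C K² L³) ≤ I² 32 C x² L^(3-2B₉)`, `I ≤ 4 L^(B₈+1)`
(the number of grid indices with `gr i ≤ x`: `log (1+η) ≥ η/2`).
Error of the replacement: a Dirichlet polynomial with coefficients `e_n`, `|e_n| ≤ ∑_{c ∣ n} Λ(c) τ(n/c) ≤ τ(n) log n`,
supported on `y gr(i)/gr(i+1) < n ≤ y`, so on `y (1 - 3η) ≤ n ≤ y` (`gr(i+1) ≤ (1+2η) gr i` for `gr i ≥ x^(ε/4)`):
mean value `≤ (3 η y + 1 + k) L² ∑_{y(1-3η) ≤ n ≤ y} τ(n)² ≤ 4 η x L² * √(3 η x + 1) * √(∑_{n ≤ x} τ(n)⁴)`,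
`tau_four_sum`: `≤ C x² L^(10 - 3B₈/2)`.
Choose `B₈` with `3 B₈/2 ≥ B₆ + 12`, then `B₉` with `2 B₉ ≥ B₆ + 2 B₈ + 8`. -/

namespace Pool.Agent.HL

open Finset Pool.Agent.BV

namespace MassA

lemma sqrt_bounds {x : ℕ} (hx : 36 ≤ x) :
    6 ≤ Real.sqrt x ∧ Real.sqrt x / 2 ≤ (Nat.sqrt x : ℝ) ∧ (Nat.sqrt x : ℝ) ≤ Real.sqrt x := by
  have h1 : (6 : ℝ) ≤ Real.sqrt x := by
    rw [show (6 : ℝ) = Real.sqrt 36 by
      rw [show (36 : ℝ) = 6 ^ 2 by norm_num, Real.sqrt_sq (by norm_num)]]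
    exact Real.sqrt_le_sqrt (by exact_mod_cast hx)
  have h2 : Real.sqrt x < Nat.sqrt x + 1 := by
    rw [Real.sqrt_lt' (by positivity)]
    have := Nat.lt_succ_sqrt' x
    exact_mod_cast this
  refine ⟨h1, by linarith, ?_⟩
  apply Real.le_sqrt_of_sq_le
  have := Nat.sqrt_le' x
  exact_mod_cast this

lemma grid_start {η lo : ℝ} (hη : 0 < η) (hη1 : η ≤ 1 / 2) (hlo : 1 ≤ lo) :
    ∃ i₀ : ℕ, lo ≤ gr η i₀ ∧ (gr η i₀ : ℝ) ≤ 4 * lo := by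
  have hex := exists_gr hη lo
  refine ⟨Nat.find hex, Nat.find_spec hex, ?_⟩
  rcases Nat.eq_zero_or_pos (Nat.find hex) with h | h
  · rw [h, gr_zero]
    push_cast
    linarith
  · obtain ⟨j, hj⟩ : ∃ j, Nat.find hex = j + 1 := ⟨Nat.find hex - 1, by omega⟩
    have h1 := Nat.find_min hex (m := j) (by omega)
    rw [not_le] at h1
    rw [hj]
    refine (gr_succ_le hη.le j).trans ?_
    calc (1 + η) * ((gr η j : ℝ) + 1) ≤ 2 * (lo + lo) := by gcongr; linarith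
      _ = 4 * lo := by ring

lemma grid_end {η : ℝ} (hη : 0 < η) (hη1 : η ≤ 1 / 2) {x y : ℕ} (hx : 36 ≤ x) (hyx : y ≤ x)
    {i₀ : ℕ} (hi₀ : (gr η i₀ : ℝ) ≤ x) :
    ∃ i₁ : ℕ, i₀ ≤ i₁ ∧ y / Nat.sqrt x ≤ gr η i₁ ∧ (gr η i₁ : ℝ) ≤ x := by
  obtain ⟨hs6, hsU, hUs⟩ := sqrt_bounds hx
  have hx0 : (0 : ℝ) < x := by
    have : 0 < x := by omega
    exact_mod_cast this
  have hsx : Real.sqrt x * Real.sqrt x = x := Real.mul_self_sqrt hx0.le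
  have hyx' : (y : ℝ) ≤ x := by exact_mod_cast hyx
  set U : ℕ := Nat.sqrt x with hU
  have hex := exists_gr hη ((y / U : ℕ) : ℝ)
  set j₀ := Nat.find hex with hj₀
  have hspec : ((y / U : ℕ) : ℝ) ≤ gr η j₀ := Nat.find_spec hex
  have hb : (gr η j₀ : ℝ) ≤ x := by
    rcases Nat.eq_zero_or_pos j₀ with h | h
    · rw [h, gr_zero]
      have : (36 : ℝ) ≤ x := by exact_mod_cast hx
      push_cast
      linarith
    · obtain ⟨j, hj⟩ : ∃ j, j₀ = j + 1 := ⟨j₀ - 1, by omega⟩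
      have h1 := Nat.find_min hex (m := j) (by omega)
      rw [not_le] at h1
      rw [hj]
      refine (gr_succ_le hη.le j).trans ?_
      have hU0 : (0 : ℝ) < U := by linarith
      have h3 : ((y / U : ℕ) : ℝ) ≤ 2 * Real.sqrt x := by
        refine Nat.cast_div_le.trans ?_
        rw [div_le_iff₀ hU0]
        calc (y : ℝ) ≤ x := hyx'
          _ = Real.sqrt x * Real.sqrt x := hsx.symm
          _ = 2 * Real.sqrt x * (Real.sqrt x / 2) := by ring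
          _ ≤ 2 * Real.sqrt x * U := by gcongr
      calc (1 + η) * ((gr η j : ℝ) + 1) ≤ 2 * (2 * Real.sqrt x + Real.sqrt x) := by
            gcongr <;> linarith
        _ = 6 * Real.sqrt x := by ring
        _ ≤ Real.sqrt x * Real.sqrt x := by gcongr
        _ = x := hsx
  rcases le_total i₀ j₀ with h | h
  · exact ⟨j₀, h, by exact_mod_cast hspec, hb⟩
  · refine ⟨i₀, le_rfl, ?_, hi₀⟩
    exact (by exact_mod_cast hspec : y / U ≤ gr η j₀).trans (gr_mono hη.le h)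

lemma grid_ratio {η lo : ℝ} (hη : 0 < η) (hη1 : η ≤ 1 / 2) (hlo : 4 / η ≤ lo) {i : ℕ}
    (hi : lo ≤ gr η i) : (gr η (i + 1) : ℝ) ≤ (1 + 2 * η) * gr η i := by
  have h3 := gr_succ_le hη.le i
  rw [div_le_iff₀ hη] at hlo
  have h4 : 4 ≤ gr η i * η := hlo.trans (mul_le_mul_of_nonneg_right hi hη.le)
  calc (gr η (i + 1) : ℝ) ≤ (1 + η) * (gr η i + 1) := h3
    _ = gr η i + η * gr η i + (1 + η) := by ring
    _ ≤ gr η i + η * gr η i + gr η i * η := by linarith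
    _ = _ := by ring

lemma grid_M {η : ℝ} (hη : 0 < η) (hη1 : η ≤ 1 / 2) {y M i c k' : ℕ}
    (hMle : (M : ℝ) ≤ (y : ℝ) * (1 - 2 * η))
    (h3 : (gr η (i + 1) : ℝ) ≤ (1 + 2 * η) * gr η i)
    (hc : gr η i < c) (hk' : y / gr η (i + 1) < k') : M < c * k' := by
  rw [Nat.div_lt_iff_lt_mul (one_le_gr hη.le _)] at hk'
  have h4 : (y : ℝ) < k' * gr η (i + 1) := by exact_mod_cast hk'
  have hk0 : (0 : ℝ) < k' := by
    have : 0 < k' := Nat.pos_of_ne_zero (by rintro rfl; simp at hk')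
    exact_mod_cast this
  have h5 : (gr η i : ℝ) ≤ c := by exact_mod_cast hc.le
  have hc0 : (0 : ℝ) < c := by
    have : 0 < c := by omega
    exact_mod_cast this
  have h6 : (y : ℝ) < (1 + 2 * η) * (c * k') := by
    calc (y : ℝ) < k' * gr η (i + 1) := h4
      _ ≤ k' * ((1 + 2 * η) * gr η i) := mul_le_mul_of_nonneg_left h3 hk0.le
      _ ≤ k' * ((1 + 2 * η) * c) :=
          mul_le_mul_of_nonneg_left (mul_le_mul_of_nonneg_left h5 (by linarith)) hk0.le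
      _ = _ := by ring
  have h7 : (M : ℝ) < c * k' := by
    have hck : 0 < (c : ℝ) * k' := mul_pos hc0 hk0
    calc (M : ℝ) ≤ (y : ℝ) * (1 - 2 * η) := hMle
      _ ≤ ((1 + 2 * η) * (c * k')) * (1 - 2 * η) :=
          mul_le_mul_of_nonneg_right h6.le (by linarith)
      _ = (c * k') - 4 * (η * η * (c * k')) := by ring
      _ < c * k' := by
          have : 0 < η * η * ((c : ℝ) * k') := by positivity
          linarith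
  exact_mod_cast h7

lemma sq_three (z a b c : ℂ) (h : z = a + (b + c)) :
    ‖z‖ ^ 2 ≤ 2 * ‖a‖ ^ 2 + 4 * ‖b‖ ^ 2 + 4 * ‖c‖ ^ 2 := by
  have h1 : ‖z‖ ≤ ‖a‖ + (‖b‖ + ‖c‖) := by
    rw [h]
    exact (norm_add_le _ _).trans (add_le_add le_rfl (norm_add_le _ _))
  have h2 : ‖z‖ ^ 2 ≤ (‖a‖ + (‖b‖ + ‖c‖)) ^ 2 := pow_le_pow_left₀ (norm_nonneg _) h1 2
  nlinarith [sq_nonneg (‖a‖ - (‖b‖ + ‖c‖)), sq_nonneg (‖b‖ - ‖c‖)]

open Classical in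
lemma partI (x y k : ℕ) [NeZero k] (lo C₁ : ℝ) (hx0 : (0 : ℝ) < x) (hyx : (y : ℝ) ≤ x)
    (hy0 : (0 : ℝ) < y) (U V : ℕ) (hU1 : 1 ≤ U) (hV1 : 1 ≤ V) (hUs : (U : ℝ) ≤ Real.sqrt x)
    (hV : (V : ℝ) ≤ 4 * lo) (hUV : 4 * lo * Real.sqrt x ≤ y) (hC₁ : 0 ≤ C₁)
    (hv : ∀ U V : ℕ, 1 ≤ U → 1 ≤ V → U * V ≤ y →
      ∑ χ ∈ (univ : Finset (DirichletCharacter ℂ k)).erase 1, ‖psiC χ y - S3 χ U V y‖ ^ 2 ≤
        C₁ * ((k : ℝ) * U * V) ^ 2 * (Real.log y) ^ 4)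
    (X : Finset (DirichletCharacter ℂ k)) (hX1 : ∀ χ ∈ X, χ ≠ 1) :
    2 * ∑ χ ∈ X, ‖psiC χ y - S3 χ U V y‖ ^ 2 ≤
      32 * C₁ * (k * lo) ^ 2 * x * (Real.log x) ^ 4 := by
  have hsx : Real.sqrt x * Real.sqrt x = x := Real.mul_self_sqrt hx0.le
  have hUV' : U * V ≤ y := by
    have : (U : ℝ) * V ≤ y := by
      calc (U : ℝ) * V ≤ Real.sqrt x * (4 * lo) :=
            mul_le_mul hUs hV (Nat.cast_nonneg _) (Real.sqrt_nonneg _)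
        _ = 4 * lo * Real.sqrt x := by ring
        _ ≤ y := hUV
    exact_mod_cast this
  have h1 := hv U V hU1 hV1 hUV'
  have hsub : X ⊆ (univ : Finset (DirichletCharacter ℂ k)).erase 1 := by
    intro χ hχ
    rw [mem_erase]
    exact ⟨hX1 χ hχ, mem_univ _⟩
  have h2 : ∑ χ ∈ X, ‖psiC χ y - S3 χ U V y‖ ^ 2 ≤
      C₁ * ((k : ℝ) * U * V) ^ 2 * (Real.log y) ^ 4 :=
    (Finset.sum_le_sum_of_subset_of_nonneg hsub (fun _ _ _ => sq_nonneg _)).trans h1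
  have h3 : ((k : ℝ) * U * V) ^ 2 ≤ (k * Real.sqrt x * (4 * lo)) ^ 2 := by
    refine pow_le_pow_left₀ (by positivity) ?_ 2
    exact mul_le_mul (mul_le_mul_of_nonneg_left hUs (Nat.cast_nonneg _)) hV
      (Nat.cast_nonneg _) (by positivity)
  have h4 : Real.log y ≤ Real.log x := Real.log_le_log hy0 hyx
  have h5 : 0 ≤ Real.log y := Real.log_natCast_nonneg y
  have h6 : (Real.log y) ^ 4 ≤ (Real.log x) ^ 4 := pow_le_pow_left₀ h5 h4 4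
  calc 2 * ∑ χ ∈ X, ‖psiC χ y - S3 χ U V y‖ ^ 2
      ≤ 2 * (C₁ * ((k : ℝ) * U * V) ^ 2 * (Real.log y) ^ 4) :=
        mul_le_mul_of_nonneg_left h2 (by norm_num)
    _ ≤ 2 * (C₁ * (k * Real.sqrt x * (4 * lo)) ^ 2 * (Real.log x) ^ 4) :=
        mul_le_mul_of_nonneg_left (mul_le_mul (mul_le_mul_of_nonneg_left h3 hC₁) h6
          (by positivity) (by positivity)) (by norm_num)
    _ = 32 * C₁ * (k * lo) ^ 2 * (Real.sqrt x * Real.sqrt x) * (Real.log x) ^ 4 := by ring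
    _ = _ := by rw [hsx]

lemma partE (k : ℕ) [NeZero k] (η C₃ : ℝ) (hη : 0 < η) (x y M i₀ i₁ U : ℕ) (h01 : i₀ ≤ i₁)
    (hyx : y ≤ x) (hMy : M ≤ y) (hMlt : (y : ℝ) * (1 - 2 * η) < M + 1)
    (hk : (k : ℝ) ≤ η * x) (h1x : 1 ≤ η * x)
    (hτ4 : ∑ n ∈ Icc 1 x, (n.divisors.card : ℝ) ^ 4 ≤ C₃ * x * (Real.log x) ^ 15)
    (X : Finset (DirichletCharacter ℂ k)) :
    ∑ χ ∈ X, ‖∑ n ∈ Ioc M y, ecoef (gr η) U y i₀ i₁ n * χ (n : ZMod k)‖ ^ 2 ≤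
      (4 * η * x) * ((Real.log x) ^ 2 *
        (Real.sqrt (4 * η * x) * Real.sqrt (C₃ * x * (Real.log x) ^ 15))) := by
  have hyx' : (y : ℝ) ≤ x := by exact_mod_cast hyx
  refine (err_ms k (gr η) (gr_mono hη.le) U y i₀ i₁ M x h01 hMy hyx X).trans ?_
  have hηyx : η * y ≤ η * x := mul_le_mul_of_nonneg_left hyx' hη.le
  have h2 : ((y - M : ℕ) : ℝ) ≤ 3 * (η * x) := by
    rw [Nat.cast_sub hMy]
    linarith
  have h3 : ((y - M : ℕ) : ℝ) + k ≤ 4 * η * x := by linarith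
  have h4 : ((y - M : ℕ) : ℝ) ≤ 4 * η * x := by linarith
  have h5 : 0 ≤ 4 * η * x := by linarith
  refine mul_le_mul h3 ?_ (by positivity) h5
  refine mul_le_mul_of_nonneg_left ?_ (by positivity)
  exact mul_le_mul (Real.sqrt_le_sqrt h4) (Real.sqrt_le_sqrt hτ4) (Real.sqrt_nonneg _)
    (Real.sqrt_nonneg _)

lemma partM (k : ℕ) [NeZero k] (η C₂ a lo : ℝ) (hη : 0 < η) (hη1 : η ≤ 1 / 2) (x y i₀ i₁ U : ℕ)
    (hyx : y ≤ x) (hx2 : (2 : ℝ) ≤ x) (hkU : k ≤ U) (hC₂ : 0 ≤ C₂) (ha : 0 ≤ a)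
    (hWx : (gr η i₁ : ℝ) ≤ x)
    (hgrid : ∀ i ∈ Ico i₀ i₁, lo ≤ gr η i ∧ (gr η (i + 1) : ℝ) ≤ x ∧
      (gr η (i + 1) : ℝ) ≤ (1 + 2 * η) * gr η i)
    (hτ2 : ∀ N : ℕ, N ≤ 2 * x →
      ∑ n ∈ Icc 1 N, (n.divisors.card : ℝ) ^ 2 ≤ C₂ * N * (Real.log x) ^ 3)
    (X : Finset (DirichletCharacter ℂ k))
    (hA : ∀ χ ∈ X, ∀ i : ℕ, lo ≤ gr η i → (gr η i : ℝ) ≤ x → ‖psiC χ (gr η i)‖ ≤ a * gr η i) :
    ∑ χ ∈ X, ‖∑ i ∈ Ico i₀ i₁, (psiC χ (gr η (i + 1)) - psiC χ (gr η i)) *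
        (∑ k' ∈ Ioc U (y / gr η (i + 1)), ((beta U k' : ℝ) : ℂ) * χ (k' : ZMod k))‖ ^ 2 ≤
      (4 * Real.log x / η) ^ 2 * ((2 * a) ^ 2 * (C₂ * (x : ℝ) ^ 2 * (Real.log x) ^ 3)) := by
  have hyx' : (y : ℝ) ≤ x := by exact_mod_cast hyx
  have hL0 : 0 ≤ Real.log x := Real.log_natCast_nonneg x
  refine (main_ms k (gr η) U y i₀ i₁ x hkU hyx C₂ (2 * a) hC₂ hτ2 X ?_).trans ?_
  · intro χ hχ i hi
    obtain ⟨h1, h2, h3⟩ := hgrid i hi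
    have h4 : (gr η i : ℝ) ≤ gr η (i + 1) := by exact_mod_cast gr_mono hη.le (Nat.le_succ i)
    have h5 := hA χ hχ (i + 1) (h1.trans h4) h2
    have h6 := hA χ hχ i h1 (h4.trans h2)
    calc ‖psiC χ (gr η (i + 1)) - psiC χ (gr η i)‖
        ≤ ‖psiC χ (gr η (i + 1))‖ + ‖psiC χ (gr η i)‖ := norm_sub_le _ _
      _ ≤ a * gr η (i + 1) + a * gr η (i + 1) :=
          add_le_add h5 (h6.trans (mul_le_mul_of_nonneg_left h4 ha))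
      _ = _ := by ring
  · have h2 : (i₁ : ℝ) ≤ 4 * Real.log x / η := gr_count hη (by linarith) hx2 hWx
    have h3 : (i₁ : ℝ) ^ 2 ≤ (4 * Real.log x / η) ^ 2 :=
      pow_le_pow_left₀ (Nat.cast_nonneg _) h2 2
    have h4 : (y : ℝ) ^ 2 ≤ (x : ℝ) ^ 2 := pow_le_pow_left₀ (Nat.cast_nonneg _) hyx' 2
    refine mul_le_mul h3 ?_ (by positivity) (by positivity)
    refine mul_le_mul_of_nonneg_left ?_ (by positivity)
    exact mul_le_mul_of_nonneg_right (mul_le_mul_of_nonneg_left h4 hC₂) (by positivity)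

open Classical in
theorem core (x y k : ℕ) [NeZero k] (η lo C₁ C₂ C₃ a : ℝ) (hx : 36 ≤ x) (hyx : y ≤ x)
    (hy1 : 1 ≤ y) (hη : 0 < η) (hη1 : η ≤ 1 / 2) (hlo : 4 / η ≤ lo)
    (hUV : 4 * lo * Real.sqrt x ≤ y) (hk : (k : ℝ) ≤ Real.sqrt x)
    (hkη : Real.sqrt x ≤ η * x) (hC₁ : 0 ≤ C₁) (hC₂ : 0 ≤ C₂) (ha : 0 ≤ a)
    (hv : ∀ U V : ℕ, 1 ≤ U → 1 ≤ V → U * V ≤ y →
      ∑ χ ∈ (univ : Finset (DirichletCharacter ℂ k)).erase 1, ‖psiC χ y - S3 χ U V y‖ ^ 2 ≤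
        C₁ * ((k : ℝ) * U * V) ^ 2 * (Real.log y) ^ 4)
    (hτ2 : ∀ N : ℕ, N ≤ 2 * x →
      ∑ n ∈ Icc 1 N, (n.divisors.card : ℝ) ^ 2 ≤ C₂ * N * (Real.log x) ^ 3)
    (hτ4 : ∑ n ∈ Icc 1 x, (n.divisors.card : ℝ) ^ 4 ≤ C₃ * x * (Real.log x) ^ 15)
    (X : Finset (DirichletCharacter ℂ k)) (hX1 : ∀ χ ∈ X, χ ≠ 1)
    (hA : ∀ χ ∈ X, ∀ i : ℕ, lo ≤ gr η i → (gr η i : ℝ) ≤ x → ‖psiC χ (gr η i)‖ ≤ a * gr η i) :
    ∑ χ ∈ X, ‖psiC χ y‖ ^ 2 ≤ 32 * C₁ * (k * lo) ^ 2 * x * (Real.log x) ^ 4 +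
      4 * ((4 * Real.log x / η) ^ 2 * ((2 * a) ^ 2 * (C₂ * (x : ℝ) ^ 2 * (Real.log x) ^ 3))) +
      4 * ((4 * η * x) * ((Real.log x) ^ 2 *
        (Real.sqrt (4 * η * x) * Real.sqrt (C₃ * x * (Real.log x) ^ 15)))) := by
  obtain ⟨hs6, hsU, hUs⟩ := sqrt_bounds hx
  have hx36 : (36 : ℝ) ≤ x := by exact_mod_cast hx
  have hx0 : (0 : ℝ) < x := by linarith
  have hsx : Real.sqrt x * Real.sqrt x = x := Real.mul_self_sqrt hx0.le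
  have hyx' : (y : ℝ) ≤ x := by exact_mod_cast hyx
  have hU1 : 1 ≤ Nat.sqrt x := by
    have : (1 : ℝ) ≤ Nat.sqrt x := by linarith
    exact_mod_cast this
  have hlo8 : 8 ≤ lo := by
    refine le_trans ?_ hlo
    rw [le_div_iff₀ hη]
    linarith
  have hy0 : (0 : ℝ) < y := by exact_mod_cast hy1
  obtain ⟨i₀, hi₀, hi₀'⟩ := grid_start hη hη1 (by linarith : 1 ≤ lo)
  have hi₀x : (gr η i₀ : ℝ) ≤ x := by
    refine hi₀'.trans (le_trans ?_ (hUV.trans hyx'))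
    have : 4 * lo * 1 ≤ 4 * lo * Real.sqrt x :=
      mul_le_mul_of_nonneg_left (by linarith) (by linarith)
    linarith
  obtain ⟨i₁, h01, hW, hWx⟩ := grid_end hη hη1 hx hyx hi₀x
  have hgrid : ∀ i ∈ Ico i₀ i₁, lo ≤ gr η i ∧ (gr η (i + 1) : ℝ) ≤ x ∧
      (gr η (i + 1) : ℝ) ≤ (1 + 2 * η) * gr η i := by
    intro i hi
    rw [mem_Ico] at hi
    have h1 : (gr η i₀ : ℝ) ≤ gr η i := by exact_mod_cast gr_mono hη.le hi.1
    have h2 : (gr η (i + 1) : ℝ) ≤ gr η i₁ := by exact_mod_cast gr_mono hη.le hi.2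
    exact ⟨hi₀.trans h1, h2.trans hWx, grid_ratio hη hη1 hlo (hi₀.trans h1)⟩
  obtain ⟨M, hMle, hMlt⟩ : ∃ M : ℕ, (M : ℝ) ≤ (y : ℝ) * (1 - 2 * η) ∧
      (y : ℝ) * (1 - 2 * η) < M + 1 :=
    ⟨⌊(y : ℝ) * (1 - 2 * η)⌋₊, Nat.floor_le (mul_nonneg (Nat.cast_nonneg _) (by linarith)),
      Nat.lt_floor_add_one _⟩
  have hηy : 0 < η * y := mul_pos hη hy0
  have hMy : M ≤ y := by
    have : (M : ℝ) ≤ y := by linarith
    exact_mod_cast this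
  have hkU : k ≤ Nat.sqrt x := by
    rw [Nat.le_sqrt']
    have : (k : ℝ) ^ 2 ≤ x := by
      rw [← hsx, sq]
      exact mul_le_mul hk hk (Nat.cast_nonneg _) (Real.sqrt_nonneg _)
    exact_mod_cast this
  have hI := partI x y k lo C₁ hx0 hyx' hy0 (Nat.sqrt x) (gr η i₀) hU1 (one_le_gr hη.le i₀) hUs
    hi₀' hUV hC₁ hv X hX1
  have hMm := partM k η C₂ a lo hη hη1 x y i₀ i₁ (Nat.sqrt x) hyx (by linarith) hkU hC₂ ha hWx
    hgrid hτ2 X hA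
  have hE := partE k η C₃ hη x y M i₀ i₁ (Nat.sqrt x) h01 hyx hMy hMlt (hk.trans hkη)
    (by linarith) hτ4 X
  have hpt : ∀ χ ∈ X, ‖psiC χ y‖ ^ 2 ≤ 2 * ‖psiC χ y - S3 χ (Nat.sqrt x) (gr η i₀) y‖ ^ 2 +
      4 * ‖∑ i ∈ Ico i₀ i₁, (psiC χ (gr η (i + 1)) - psiC χ (gr η i)) *
        (∑ k' ∈ Ioc (Nat.sqrt x) (y / gr η (i + 1)),
          ((beta (Nat.sqrt x) k' : ℝ) : ℂ) * χ (k' : ZMod k))‖ ^ 2 +
      4 * ‖∑ n ∈ Ioc M y, ecoef (gr η) (Nat.sqrt x) y i₀ i₁ n * χ (n : ZMod k)‖ ^ 2 := by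
    intro χ _
    refine sq_three _ _ _ _ ?_
    rw [← S3_eq χ (gr η) (gr_mono hη.le) (Nat.sqrt x) y i₀ i₁ M h01 hU1 hW
      (fun i hi c hc k' hk' => grid_M hη hη1 hMle (hgrid i hi).2.2 (mem_Ioc.1 hc).1 hk')]
    rw [sub_add_cancel]
  refine (Finset.sum_le_sum hpt).trans ?_
  rw [Finset.sum_add_distrib, Finset.sum_add_distrib, ← Finset.mul_sum, ← Finset.mul_sum,
    ← Finset.mul_sum]
  exact add_le_add (add_le_add hI (mul_le_mul_of_nonneg_left hMm (by norm_num)))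
    (mul_le_mul_of_nonneg_left hE (by norm_num))

/-- the final comparison of the three terms -/
lemma final_num (x L R C₁ C₂ C₃ kk lo W : ℝ) (hx : 0 < x) (hL : 2 ≤ L) (hR : 1 ≤ R)
    (hC₃ : 0 ≤ C₃) (hL2 : 3072 * C₂ ≤ L) (hL3 : 96 * Real.sqrt C₃ ≤ L)
    (hW : 96 * C₁ * (R * L ^ 4) ≤ W) (hkl : (kk * lo) ^ 2 * x * W ≤ x ^ 2) :
    32 * C₁ * (kk * lo) ^ 2 * x * L ^ 4 +
      4 * ((4 * L / (1 / (R * L ^ 4) ^ 2)) ^ 2 * ((2 * (2 / (R ^ 3 * L ^ 11))) ^ 2 *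
        (C₂ * x ^ 2 * L ^ 3))) +
      4 * ((4 * (1 / (R * L ^ 4) ^ 2) * x) * (L ^ 2 *
        (Real.sqrt (4 * (1 / (R * L ^ 4) ^ 2) * x) * Real.sqrt (C₃ * x * L ^ 15)))) ≤
      x ^ 2 / R := by
  have hL0 : 0 < L := by linarith
  have hR0 : 0 < R := by linarith
  have hsx : Real.sqrt x * Real.sqrt x = x := Real.mul_self_sqrt hx.le
  have h1 : 32 * C₁ * (kk * lo) ^ 2 * x * L ^ 4 ≤ x ^ 2 / (3 * R) := by
    rw [le_div_iff₀ (by positivity)]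
    calc 32 * C₁ * (kk * lo) ^ 2 * x * L ^ 4 * (3 * R)
        = ((kk * lo) ^ 2 * x) * (96 * C₁ * (R * L ^ 4)) := by ring
      _ ≤ ((kk * lo) ^ 2 * x) * W := mul_le_mul_of_nonneg_left hW (by positivity)
      _ ≤ x ^ 2 := hkl
  have h2 : 4 * ((4 * L / (1 / (R * L ^ 4) ^ 2)) ^ 2 * ((2 * (2 / (R ^ 3 * L ^ 11))) ^ 2 *
        (C₂ * x ^ 2 * L ^ 3))) ≤ x ^ 2 / (3 * R) := by
    have e : 4 * ((4 * L / (1 / (R * L ^ 4) ^ 2)) ^ 2 * ((2 * (2 / (R ^ 3 * L ^ 11))) ^ 2 *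
        (C₂ * x ^ 2 * L ^ 3))) = 1024 * C₂ * x ^ 2 / (R ^ 2 * L) := by
      field_simp
      ring
    rw [e, div_le_div_iff₀ (by positivity) (by positivity)]
    have h3 : 3072 * C₂ ≤ R * L := hL2.trans (by nlinarith)
    calc 1024 * C₂ * x ^ 2 * (3 * R) = (3072 * C₂) * (x ^ 2 * R) := by ring
      _ ≤ (R * L) * (x ^ 2 * R) := mul_le_mul_of_nonneg_right h3 (by positivity)
      _ = x ^ 2 * (R ^ 2 * L) := by ring
  have h3 : 4 * ((4 * (1 / (R * L ^ 4) ^ 2) * x) * (L ^ 2 *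
        (Real.sqrt (4 * (1 / (R * L ^ 4) ^ 2) * x) * Real.sqrt (C₃ * x * L ^ 15)))) ≤
      x ^ 2 / (3 * R) := by
    have e1 : Real.sqrt (4 * (1 / (R * L ^ 4) ^ 2) * x) = 2 / (R * L ^ 4) * Real.sqrt x := by
      have : 4 * (1 / (R * L ^ 4) ^ 2) * x = (2 / (R * L ^ 4)) ^ 2 * x := by
        field_simp; ring
      rw [this, Real.sqrt_mul (sq_nonneg _), Real.sqrt_sq (by positivity)]
    have e2 : Real.sqrt (C₃ * x * L ^ 15) ≤ Real.sqrt C₃ * Real.sqrt x * L ^ 8 := by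
      have h4 : C₃ * x * L ^ 15 ≤ (C₃ * x) * (L ^ 8) ^ 2 := by
        have : L ^ 15 ≤ (L ^ 8) ^ 2 := by
          rw [← pow_mul]
          exact pow_le_pow_right₀ (by linarith) (by norm_num)
        exact mul_le_mul_of_nonneg_left this (by positivity)
      refine (Real.sqrt_le_sqrt h4).trans (le_of_eq ?_)
      rw [Real.sqrt_mul (by positivity), Real.sqrt_sq (by positivity), Real.sqrt_mul hC₃]
    rw [e1]
    calc 4 * ((4 * (1 / (R * L ^ 4) ^ 2) * x) * (L ^ 2 *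
          (2 / (R * L ^ 4) * Real.sqrt x * Real.sqrt (C₃ * x * L ^ 15))))
        ≤ 4 * ((4 * (1 / (R * L ^ 4) ^ 2) * x) * (L ^ 2 *
          (2 / (R * L ^ 4) * Real.sqrt x * (Real.sqrt C₃ * Real.sqrt x * L ^ 8)))) := by
          refine mul_le_mul_of_nonneg_left (mul_le_mul_of_nonneg_left
            (mul_le_mul_of_nonneg_left (mul_le_mul_of_nonneg_left e2 (by positivity))
            (by positivity)) (by positivity)) (by norm_num)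
      _ = 32 * Real.sqrt C₃ * x * (Real.sqrt x * Real.sqrt x) / (R ^ 3 * L ^ 2) := by
          field_simp
          ring
      _ = 32 * Real.sqrt C₃ * x ^ 2 / (R ^ 3 * L ^ 2) := by rw [hsx]; ring
      _ ≤ x ^ 2 / (3 * R) := by
          rw [div_le_div_iff₀ (by positivity) (by positivity)]
          have h5 : L ≤ R ^ 2 * L ^ 2 := by
            have h6 : 1 ≤ R ^ 2 := one_le_pow₀ hR
            nlinarith
          calc 32 * Real.sqrt C₃ * x ^ 2 * (3 * R) = (96 * Real.sqrt C₃) * (x ^ 2 * R) := by ring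
            _ ≤ (R ^ 2 * L ^ 2) * (x ^ 2 * R) :=
              mul_le_mul_of_nonneg_right (hL3.trans h5) (by positivity)
            _ = x ^ 2 * (R ^ 3 * L ^ 2) := by ring
  calc _ ≤ x ^ 2 / (3 * R) + x ^ 2 / (3 * R) + x ^ 2 / (3 * R) := add_le_add (add_le_add h1 h2) h3
    _ = x ^ 2 / R := by field_simp; ring

end MassA

open MassA in
theorem mass (ε : ℝ) (hε : 0 < ε) (B₆ : ℕ) : ∃ B₈ B₉ x₀ : ℕ, ∀ x : ℕ, x₀ ≤ x → ∀ (k : ℕ) [NeZero k],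
    (k : ℝ) ≤ (x : ℝ) ^ (1 / 2 - ε) → ∀ y : ℕ, y ≤ x → (x : ℝ) / (Real.log x) ^ B₆ ≤ y →
    ∀ X : Finset (DirichletCharacter ℂ k), (∀ χ ∈ X, χ ≠ 1) →
    (∀ χ ∈ X, ∀ i : ℕ, (x : ℝ) ^ (ε / 4) ≤ gr (1 / (Real.log x) ^ B₈) i →
      (gr (1 / (Real.log x) ^ B₈) i : ℝ) ≤ x →
      ‖psiC χ (gr (1 / (Real.log x) ^ B₈) i)‖ ≤
        2 * (gr (1 / (Real.log x) ^ B₈) i : ℝ) / (Real.log x) ^ B₉) →
    ∑ χ ∈ X, ‖psiC χ y‖ ^ 2 ≤ (x : ℝ) ^ 2 / (Real.log x) ^ B₆ := by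
  classical
  rcases le_or_gt 2 ε with hε2 | hε2
  · refine ⟨0, 0, 2, ?_⟩
    intro x hx k _ hk
    exfalso
    have hx1 : (1 : ℝ) < x := by
      have : 1 < x := by omega
      exact_mod_cast this
    have h1 : (x : ℝ) ^ (1 / 2 - ε) < 1 := Real.rpow_lt_one_of_one_lt_of_neg hx1 (by linarith)
    have h2 : (1 : ℝ) ≤ k := by exact_mod_cast Nat.one_le_iff_ne_zero.2 (NeZero.ne k)
    linarith
  obtain ⟨C₁, hC₁, hv⟩ := vdiff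
  obtain ⟨C₂, hC₂, hτ2⟩ := tau_sq_sum
  obtain ⟨C₃, hC₃, hτ4⟩ := tau_four_sum
  have hev := (evt_log (max 2 (max (3072 * C₂) (96 * Real.sqrt C₃)))).and
    ((evt_pow 4 (2 * (B₆ + 4)) (ε / 4) (by linarith)).and
    ((evt_pow 4 B₆ (1 / 2 - ε / 4) (by linarith)).and
    ((evt_pow (96 * C₁) (B₆ + 4) (3 * ε / 2) (by linarith)).and
    ((evt_pow 1 (2 * (B₆ + 4)) (1 / 2) (by norm_num)).and (Filter.eventually_ge_atTop 36)))))
  rw [Filter.eventually_atTop] at hev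
  obtain ⟨x₀, hx₀⟩ := hev
  refine ⟨2 * (B₆ + 4), 3 * B₆ + 11, x₀, ?_⟩
  intro x hx k _ hk y hyx hy X hX1 hA
  obtain ⟨e1, e2, e3, e4, e5, e6⟩ := hx₀ x hx
  have hx36 : (36 : ℝ) ≤ x := by exact_mod_cast e6
  have hx0 : (0 : ℝ) < x := by linarith
  set L : ℝ := Real.log x with hL
  have hL2 : 2 ≤ L := (le_max_left _ _).trans e1
  have hLC2 : 3072 * C₂ ≤ L := (le_max_left _ _).trans ((le_max_right _ _).trans e1)
  have hLC3 : 96 * Real.sqrt C₃ ≤ L := (le_max_right _ _).trans ((le_max_right _ _).trans e1)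
  have hL0 : 0 < L := by linarith
  have hL1 : 1 ≤ L := by linarith
  have hR : 1 ≤ L ^ B₆ := one_le_pow₀ hL1
  have hB8 : L ^ (2 * (B₆ + 4)) = (L ^ B₆ * L ^ 4) ^ 2 := by rw [← pow_add, ← pow_mul]; ring_nf
  have hB9 : L ^ (3 * B₆ + 11) = (L ^ B₆) ^ 3 * L ^ 11 := by
    rw [← pow_mul, ← pow_add]; ring_nf
  have hsqrt : Real.sqrt x = (x : ℝ) ^ (1 / 2 : ℝ) := Real.sqrt_eq_rpow x
  have hη : 0 < 1 / L ^ (2 * (B₆ + 4)) := by positivity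
  have hη1 : 1 / L ^ (2 * (B₆ + 4)) ≤ 1 / 2 := by
    refine one_div_le_one_div_of_le (by norm_num) ?_
    calc (2 : ℝ) ≤ L := hL2
      _ = L ^ 1 := (pow_one L).symm
      _ ≤ L ^ (2 * (B₆ + 4)) := pow_le_pow_right₀ hL1 (by omega)
  have hlo : 4 / (1 / L ^ (2 * (B₆ + 4))) ≤ (x : ℝ) ^ (ε / 4) := by
    rw [div_div_eq_mul_div, div_one]
    exact e2
  have hUV : 4 * (x : ℝ) ^ (ε / 4) * Real.sqrt x ≤ y := by
    refine le_trans ?_ hy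
    rw [le_div_iff₀ (by positivity), hsqrt]
    calc 4 * (x : ℝ) ^ (ε / 4) * (x : ℝ) ^ (1 / 2 : ℝ) * L ^ B₆
        = (4 * L ^ B₆) * ((x : ℝ) ^ (ε / 4) * (x : ℝ) ^ (1 / 2 : ℝ)) := by ring
      _ ≤ (x : ℝ) ^ (1 / 2 - ε / 4) * ((x : ℝ) ^ (ε / 4) * (x : ℝ) ^ (1 / 2 : ℝ)) :=
          mul_le_mul_of_nonneg_right e3 (by positivity)
      _ = x := by
          rw [← Real.rpow_add hx0, ← Real.rpow_add hx0]
          conv_rhs => rw [← Real.rpow_one (x : ℝ)]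
          congr 1
          ring
  have hksx : (k : ℝ) ≤ Real.sqrt x := by
    rw [hsqrt]
    exact hk.trans (Real.rpow_le_rpow_of_exponent_le (by linarith) (by linarith))
  have hkη : Real.sqrt x ≤ 1 / L ^ (2 * (B₆ + 4)) * x := by
    rw [one_div, inv_mul_eq_div, le_div_iff₀ (by positivity)]
    calc Real.sqrt x * L ^ (2 * (B₆ + 4)) ≤ Real.sqrt x * Real.sqrt x := by
          refine mul_le_mul_of_nonneg_left ?_ (Real.sqrt_nonneg _)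
          rw [hsqrt]
          linarith
      _ = x := Real.mul_self_sqrt hx0.le
  have hlo1 : 1 ≤ (x : ℝ) ^ (ε / 4) := Real.one_le_rpow (by linarith) (by linarith)
  have hs1 : 1 ≤ Real.sqrt x := by
    rw [Real.one_le_sqrt]
    linarith
  have hy3 : 3 ≤ y := by
    have : (3 : ℝ) ≤ y := by
      refine le_trans ?_ hUV
      have : (1 : ℝ) ≤ (x : ℝ) ^ (ε / 4) * Real.sqrt x := one_le_mul_of_one_le_of_one_le hlo1 hs1
      linarith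
    exact_mod_cast this
  have hmain := core x y k (1 / L ^ (2 * (B₆ + 4))) ((x : ℝ) ^ (ε / 4)) C₁ C₂ C₃
    (2 / L ^ (3 * B₆ + 11)) e6 hyx (by omega) hη hη1 hlo hUV hksx hkη hC₁.le hC₂.le
    (by positivity) (fun U V hU hV hUV => hv k U V y hU hV hy3 hUV)
    (fun N hN => hτ2 x N (by omega) hN) (hτ4 x (by omega)) X hX1
    (fun χ hχ i h1 h2 => (hA χ hχ i h1 h2).trans (le_of_eq (by ring)))
  refine hmain.trans ?_
  rw [hB8, hB9]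
  refine final_num x L (L ^ B₆) C₁ C₂ C₃ k ((x : ℝ) ^ (ε / 4)) ((x : ℝ) ^ (3 * ε / 2)) hx0 hL2 hR
    hC₃.le hLC2 hLC3 ?_ ?_
  · rw [← pow_add]
    exact e4
  · have h1 : (k : ℝ) * (x : ℝ) ^ (ε / 4) ≤ (x : ℝ) ^ (1 / 2 - ε) * (x : ℝ) ^ (ε / 4) :=
      mul_le_mul_of_nonneg_right hk (by positivity)
    rw [← Real.rpow_add hx0] at h1
    have h2 : ((k : ℝ) * (x : ℝ) ^ (ε / 4)) ^ 2 ≤ ((x : ℝ) ^ (1 / 2 - ε + ε / 4)) ^ 2 :=
      pow_le_pow_left₀ (by positivity) h1 2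
    calc ((k : ℝ) * (x : ℝ) ^ (ε / 4)) ^ 2 * x * (x : ℝ) ^ (3 * ε / 2)
        ≤ ((x : ℝ) ^ (1 / 2 - ε + ε / 4)) ^ 2 * x * (x : ℝ) ^ (3 * ε / 2) := by gcongr
      _ = (x : ℝ) ^ 2 := by
          rw [← Real.rpow_natCast ((x : ℝ) ^ (1 / 2 - ε + ε / 4)) 2, ← Real.rpow_mul hx0.le]
          nth_rewrite 2 [← Real.rpow_one (x : ℝ)]
          rw [← Real.rpow_add hx0, ← Real.rpow_add hx0, ← Real.rpow_natCast (x : ℝ) 2]
          congr 1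
          push_cast
          ring

end Pool.Agent.HL
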