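import Pool.Agent.Work.MP_92f640_nt.HL.MinSum
import Pool.Agent.Work.MP_92f640_nt.HL.TypeII
import Pool.Agent.Work.BV.L_TypeI

/-! # Module TypeI

`inner`: for `d` coprime to `q` (otherwise `φ (d k) = 0`): split `k` into classes mod `q`;
`∑_{k₀ < q} ‖φ (d k₀)‖ = ∑_{a < q} ‖φ a‖ ≤ √q` and `class_le`, with ratio `e (q d α)`.
The log version: Abel summation (`abel_le` in `BV/L_TypeI.lean`). Then `gm_typeI` with `N = x / q`. -/

namespace Pool.Agent.HL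

open Finset Pool.Agent.BV

namespace TypeI

lemma tw_l1 {q : ℕ} {φ : ℕ → ℂ} (hφ : Tw q φ) (d : ℕ) :
    ∑ k ∈ range q, ‖φ (d * k)‖ ≤ Real.sqrt q := by
  have h1 := sum_mul_sq_le_sq_mul_sq (range q) (fun _ => (1 : ℝ)) (fun k => ‖φ (d * k)‖)
  have h2 := TypeII.tw_col hφ d
  simp only [one_mul, one_pow, sum_const, card_range, nsmul_eq_mul, mul_one] at h1
  have h3 : (∑ k ∈ range q, ‖φ (d * k)‖) ^ 2 ≤ q := by
    refine h1.trans ?_
    calc (q : ℝ) * ∑ k ∈ range q, ‖φ (d * k)‖ ^ 2 ≤ q * 1 :=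
          mul_le_mul_of_nonneg_left h2 (Nat.cast_nonneg q)
      _ = q := mul_one _
  exact Real.le_sqrt_of_sq_le h3

end TypeI

theorem inner {q : ℕ} (hq : 1 ≤ q) {φ : ℕ → ℂ} (hφ : Tw q φ) (α : ℝ) (d y : ℕ) :
    ‖∑ k ∈ Icc 1 y, φ (d * k) * e ((d * k : ℕ) * α)‖ ≤
      Real.sqrt q * gm ((y : ℝ) / q + 1) (q * α * d) := by
  have h0 : (0 : ℝ) ≤ gm ((y : ℝ) / q + 1) (q * α * d) := gm_nonneg (by positivity) _
  have hI : Icc 1 y = Ioc 0 y := by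
    ext k
    simp only [mem_Icc, mem_Ioc]
    omega
  have h1 : ∑ k ∈ Icc 1 y, φ (d * k) * e ((d * k : ℕ) * α) =
      ∑ k₀ ∈ range q, φ (d * k₀) *
        ∑ k ∈ (Ioc 0 y).filter (fun n => n ≡ k₀ [MOD q]), e (k * (d * α)) := by
    rw [hI, ← sum_fiberwise_of_maps_to (g := fun k => k % q) (t := range q)
      (fun k _ => mem_range.mpr (Nat.mod_lt _ hq))]
    refine sum_congr rfl fun k₀ hk₀ => ?_
    rw [mul_sum]
    have h2 : (Ioc 0 y).filter (fun n => n % q = k₀) =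
        (Ioc 0 y).filter (fun n => n ≡ k₀ [MOD q]) := by
      apply filter_congr
      intro n _
      unfold Nat.ModEq
      rw [Nat.mod_eq_of_lt (mem_range.mp hk₀)]
    rw [h2]
    refine sum_congr rfl fun k hk => ?_
    have h3 : k % q = k₀ := by
      have := (mem_filter.mp hk).2
      unfold Nat.ModEq at this
      rwa [Nat.mod_eq_of_lt (mem_range.mp hk₀)] at this
    rw [TypeII.tw_mod hφ d k, h3]
    congr 2
    push_cast
    ring
  rw [h1]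
  calc _ ≤ ∑ k₀ ∈ range q, ‖φ (d * k₀) *
        ∑ k ∈ (Ioc 0 y).filter (fun n => n ≡ k₀ [MOD q]), e (k * (d * α))‖ := norm_sum_le _ _
    _ ≤ ∑ k₀ ∈ range q, ‖φ (d * k₀)‖ * gm ((y : ℝ) / q + 1) (q * α * d) := by
      refine sum_le_sum fun k₀ _ => ?_
      rw [norm_mul]
      refine mul_le_mul_of_nonneg_left ?_ (norm_nonneg _)
      have h4 := class_le q k₀ 0 y hq (d * α)
      rw [Nat.sub_zero] at h4
      refine h4.trans (le_of_eq ?_)
      congr 1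
      ring
    _ = (∑ k₀ ∈ range q, ‖φ (d * k₀)‖) * gm ((y : ℝ) / q + 1) (q * α * d) := by rw [sum_mul]
    _ ≤ _ := mul_le_mul_of_nonneg_right (TypeI.tw_l1 hφ d) h0

namespace TypeI

lemma gm_div {q : ℕ} (_hq : 1 ≤ q) (x d : ℕ) (β : ℝ) :
    gm (((x / d : ℕ) : ℝ) / q + 1) β ≤ gm ((x : ℝ) / q / d + 1) β := by
  refine gm_mono (by positivity) ?_ β
  have h1 : ((x / d : ℕ) : ℝ) ≤ (x : ℝ) / d := Nat.cast_div_le
  have h2 : ((x / d : ℕ) : ℝ) / q ≤ (x : ℝ) / d / q := by gcongr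
  have h3 : (x : ℝ) / d / q = (x : ℝ) / q / d := by
    rw [div_div, div_div, mul_comm]
  linarith

lemma one_le_log {x : ℕ} (hx : 3 ≤ x) : 1 ≤ Real.log x := by
  have h3 : Real.exp 1 ≤ x := by
    have h4 := Real.exp_one_lt_d9
    have h5 : (3 : ℝ) ≤ x := by exact_mod_cast hx
    linarith
  exact (Real.le_log_iff_exp_le (by positivity)).mpr h3

lemma log_inner {q : ℕ} (hq : 1 ≤ q) {φ : ℕ → ℂ} (hφ : Tw q φ) (α : ℝ) (d : ℕ) {x Y : ℕ}
    (hx : 3 ≤ x) (hY : Y ≤ x) :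
    ‖∑ k ∈ Icc 1 Y, ((Real.log k : ℝ) : ℂ) * (φ (d * k) * e ((d * k : ℕ) * α))‖ ≤
      3 * Real.log x * (Real.sqrt q * gm ((Y : ℝ) / q + 1) (q * α * d)) := by
  set B : ℝ := Real.sqrt q * gm ((Y : ℝ) / q + 1) (q * α * d) with hBd
  have hB0 : 0 ≤ B := mul_nonneg (Real.sqrt_nonneg _) (gm_nonneg (by positivity) _)
  set f : ℕ → ℂ := fun k => if k ≤ Y then φ (d * k) * e ((d * k : ℕ) * α) else 0 with hf
  have hB : ∀ n, ‖∑ k ∈ Icc 1 n, f k‖ ≤ B := by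
    intro n
    have h1 : ∑ k ∈ Icc 1 n, f k = ∑ k ∈ Icc 1 (min n Y), φ (d * k) * e ((d * k : ℕ) * α) := by
      rw [hf]
      simp only []
      rw [← sum_filter]
      refine sum_congr ?_ fun _ _ => rfl
      ext k
      simp only [mem_filter, mem_Icc, le_min_iff]
      tauto
    rw [h1]
    refine (inner hq hφ α d _).trans ?_
    refine mul_le_mul_of_nonneg_left (gm_mono (by positivity) ?_ _) (Real.sqrt_nonneg _)
    have h2 : ((min n Y : ℕ) : ℝ) ≤ Y := by exact_mod_cast min_le_right n Y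
    gcongr
  have h1 : ∑ k ∈ Icc 1 Y, ((Real.log k : ℝ) : ℂ) * (φ (d * k) * e ((d * k : ℕ) * α)) =
      ∑ k ∈ Icc 1 Y, f k * ((Real.log k : ℝ) : ℂ) := by
    refine sum_congr rfl fun k hk => ?_
    rw [hf]
    simp only [(mem_Icc.mp hk).2, if_true]
    ring
  rw [h1]
  refine (Pool.Agent.Work.BV.abel_le hB (fun n => Real.log n) Y).trans ?_
  have hl := one_le_log hx
  have hYl : Real.log Y ≤ Real.log x := by
    rcases Nat.eq_zero_or_pos Y with h | h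
    · rw [h]
      simp only [Nat.cast_zero, Real.log_zero]
      linarith
    · exact Real.log_le_log (by exact_mod_cast h) (by exact_mod_cast hY)
  have hY0 := Real.log_natCast_nonneg Y
  have h2 : ∑ n ∈ Ico 1 Y, |Real.log ((n + 1 : ℕ) : ℝ) - Real.log n| ≤ 1 + Real.log Y := by
    refine le_trans (sum_le_sum fun n hn => ?_) (Pool.Agent.Work.BV.sum_inv_Ico_le Y)
    rw [mem_Ico] at hn
    rw [abs_of_nonneg (Pool.Agent.Work.BV.log_succ_sub_nonneg hn.1)]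
    exact Pool.Agent.Work.BV.log_succ_sub_le hn.1
  rw [abs_of_nonneg hY0, mul_comm]
  refine mul_le_mul_of_nonneg_right ?_ hB0
  linarith

end TypeI

theorem typeI : ∃ C : ℝ, 0 < C ∧ ∀ (x q D s : ℕ) (φ : ℕ → ℂ) (α : ℝ) (b : ℤ) (w : ℕ → ℂ) (W : ℝ),
    3 ≤ x → 1 ≤ q → Tw q φ → D ≤ x → 1 ≤ s → s ≤ x → IsCoprime b (s : ℤ) →
    |q * α - b / s| ≤ 1 / (s : ℝ) ^ 2 → 0 ≤ W → (∀ d ∈ Icc 1 D, ‖w d‖ ≤ W) →
    ‖∑ d ∈ Icc 1 D, w d * ∑ k ∈ Icc 1 (x / d), φ (d * k) * e ((d * k : ℕ) * α)‖ ≤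
      C * W * Real.sqrt q * ((x : ℝ) / (q * s) + D + s) * Real.log x := by
  obtain ⟨C, hC, h⟩ := gm_typeI
  refine ⟨C, hC, ?_⟩
  intro x q D s φ α b w W hx hq hφ hD hs hsx hbs hα hW hw
  have hg := h x D s (q * α) b ((x : ℝ) / q) hx hD hs hsx hbs hα (by positivity)
  calc _ ≤ ∑ d ∈ Icc 1 D, ‖w d * ∑ k ∈ Icc 1 (x / d), φ (d * k) * e ((d * k : ℕ) * α)‖ :=
        norm_sum_le _ _
    _ ≤ ∑ d ∈ Icc 1 D, W * Real.sqrt q * gm ((x : ℝ) / q / d + 1) (q * α * d) := by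
      refine sum_le_sum fun d hd => ?_
      rw [norm_mul, mul_assoc]
      refine mul_le_mul (hw d hd) ?_ (norm_nonneg _) hW
      refine (inner hq hφ α d _).trans ?_
      exact mul_le_mul_of_nonneg_left (TypeI.gm_div hq x d _) (Real.sqrt_nonneg _)
    _ = W * Real.sqrt q * ∑ d ∈ Icc 1 D, gm ((x : ℝ) / q / d + 1) (q * α * d) := by
      rw [mul_sum]
    _ ≤ W * Real.sqrt q * (C * ((x : ℝ) / q / s + D + s) * Real.log x) :=
      mul_le_mul_of_nonneg_left hg (by positivity)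
    _ = _ := by
      rw [div_div]
      ring

theorem typeI_log : ∃ C : ℝ, 0 < C ∧ ∀ (x q D s : ℕ) (φ : ℕ → ℂ) (α : ℝ) (b : ℤ) (w : ℕ → ℂ)
    (W : ℝ), 3 ≤ x → 1 ≤ q → Tw q φ → D ≤ x → 1 ≤ s → s ≤ x → IsCoprime b (s : ℤ) →
    |q * α - b / s| ≤ 1 / (s : ℝ) ^ 2 → 0 ≤ W → (∀ d ∈ Icc 1 D, ‖w d‖ ≤ W) →
    ‖∑ d ∈ Icc 1 D, w d * ∑ k ∈ Icc 1 (x / d),
        ((Real.log k : ℝ) : ℂ) * (φ (d * k) * e ((d * k : ℕ) * α))‖ ≤
      C * W * Real.sqrt q * ((x : ℝ) / (q * s) + D + s) * (Real.log x) ^ 2 := by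
  obtain ⟨C, hC, h⟩ := gm_typeI
  refine ⟨3 * C, by positivity, ?_⟩
  intro x q D s φ α b w W hx hq hφ hD hs hsx hbs hα hW hw
  have hl := TypeI.one_le_log hx
  have hg := h x D s (q * α) b ((x : ℝ) / q) hx hD hs hsx hbs hα (by positivity)
  calc _ ≤ ∑ d ∈ Icc 1 D, ‖w d * ∑ k ∈ Icc 1 (x / d),
          ((Real.log k : ℝ) : ℂ) * (φ (d * k) * e ((d * k : ℕ) * α))‖ :=
        norm_sum_le _ _
    _ ≤ ∑ d ∈ Icc 1 D, W * (3 * Real.log x) * Real.sqrt q *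
          gm ((x : ℝ) / q / d + 1) (q * α * d) := by
      refine sum_le_sum fun d hd => ?_
      rw [norm_mul, mul_assoc, mul_assoc]
      refine mul_le_mul (hw d hd) ?_ (norm_nonneg _) hW
      refine (TypeI.log_inner hq hφ α d hx (Nat.div_le_self x d)).trans ?_
      refine mul_le_mul_of_nonneg_left ?_ (by positivity)
      exact mul_le_mul_of_nonneg_left (TypeI.gm_div hq x d _) (Real.sqrt_nonneg _)
    _ = W * (3 * Real.log x) * Real.sqrt q *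
          ∑ d ∈ Icc 1 D, gm ((x : ℝ) / q / d + 1) (q * α * d) := by
      rw [mul_sum]
    _ ≤ W * (3 * Real.log x) * Real.sqrt q * (C * ((x : ℝ) / q / s + D + s) * Real.log x) :=
      mul_le_mul_of_nonneg_left hg (by positivity)
    _ = _ := by
      rw [div_div]
      ring

end Pool.Agent.HL
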