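import Pool.Agent.Work.MP_92f640_nt.HL.MeanV
import Pool.Agent.Work.MP_92f640_nt.HL.TypeI

/-! # Module VDiff2: the Type I part of `psiC`, mean square over all non trivial characters mod `k`

For a function `W` on `ZMod k` with Fourier transform `Ŵ t = ∑ W a e(t a / k)`, orthogonality and Parseval
give `∑_{χ ≠ 1} |∑ χ(a) W(a)|² ≤ φ(k) ∑ |W(a) - mean|² ≤ ∑_{t ≠ 0} |Ŵ t|²` (`chars_le`). For
`W a = ∑_{d ≤ D, (d, k) = 1, d j ≡ a} w_d g(j)` and `t / k = b / r` in lowest terms, `r > 1`, the distance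
of `d t / k` to the integers is `≥ 1 / r`, so `|Ŵ t| ≤ G W ∑_{d ≤ D} gm r (d b / r) ≤ 8 G W (D + r) (2 + log r)`
(`gm_block`). -/

namespace Pool.Agent.HL

open Finset Pool.Agent.BV
open scoped ArithmeticFunction.vonMangoldt ArithmeticFunction.Moebius

namespace VDiff2

open Classical in
lemma chars_le (k : ℕ) [NeZero k] (W : ZMod k → ℂ) :
    ∑ χ ∈ (univ : Finset (DirichletCharacter ℂ k)).erase 1, ‖∑ a, χ a * W a‖ ^ 2 ≤
      ∑ t ∈ (univ : Finset (ZMod k)).erase 0, ‖∑ a, W a * ZMod.stdAddChar (t * a)‖ ^ 2 := by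
  set c : ℂ := (∑ a, W a) / k with hc
  set W' : ZMod k → ℂ := fun a => W a - c with hW'
  have hk : (k : ℂ) ≠ 0 := by exact_mod_cast NeZero.ne k
  have h1 : ∀ χ ∈ (univ : Finset (DirichletCharacter ℂ k)).erase 1,
      ‖∑ a, χ a * W a‖ ^ 2 = ‖∑ a, χ a * W' a‖ ^ 2 := by
    intro χ hχ
    have h0 : ∑ a, χ a = 0 := MulChar.sum_eq_zero_of_ne_one (ne_of_mem_erase hχ)
    simp only [hW', mul_sub, sum_sub_distrib, ← sum_mul, h0, zero_mul, sub_zero]
  have h2 : ∑ χ : DirichletCharacter ℂ k, ‖∑ a, χ a * W' a‖ ^ 2 =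
      k.totient * ∑ u : (ZMod k)ˣ, ‖W' u‖ ^ 2 := by
    rw [← gaussLS_orth]
    exact (Equiv.sum_comp (Equiv.inv (DirichletCharacter ℂ k))
      (fun χ => ‖∑ c, χ c * W' c‖ ^ 2)).symm
  have h3 : ∑ u : (ZMod k)ˣ, ‖W' u‖ ^ 2 ≤ ∑ a : ZMod k, ‖W' a‖ ^ 2 := by
    have := Finset.sum_map (univ : Finset (ZMod k)ˣ) ⟨Units.val, Units.val_injective⟩
      (fun c : ZMod k => ‖W' c‖ ^ 2)
    simp only [Function.Embedding.coeFn_mk] at this
    rw [← this]
    exact sum_le_sum_of_subset_of_nonneg (subset_univ _) (fun _ _ _ => by positivity)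
  have h4 : ∀ t : ZMod k, t ≠ 0 → ∑ a, W' a * ZMod.stdAddChar (t * a) =
      ∑ a, W a * ZMod.stdAddChar (t * a) := by
    intro t ht
    have h0 : ∑ a : ZMod k, ZMod.stdAddChar (t * a) = 0 := by
      have := AddChar.sum_mulShift t (ZMod.isPrimitive_stdAddChar k)
      rw [if_neg ht] at this
      simpa [mul_comm] using this
    simp only [hW', sub_mul, sum_sub_distrib, ← mul_sum, h0, mul_zero, sub_zero]
  have h5 : ∑ a, W' a * ZMod.stdAddChar ((0 : ZMod k) * a) = 0 := by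
    simp only [zero_mul, AddChar.map_zero_eq_one, mul_one, hW', sum_sub_distrib, sum_const,
      card_univ, ZMod.card, nsmul_eq_mul, hc]
    field_simp
    ring
  have h6 := gaussLS_parseval W'
  rw [← Finset.add_sum_erase univ _ (mem_univ (0 : ZMod k)), h5] at h6
  have h7 : (k.totient : ℝ) ≤ k := by exact_mod_cast Nat.totient_le k
  calc ∑ χ ∈ (univ : Finset (DirichletCharacter ℂ k)).erase 1, ‖∑ a, χ a * W a‖ ^ 2
      = ∑ χ ∈ (univ : Finset (DirichletCharacter ℂ k)).erase 1, ‖∑ a, χ a * W' a‖ ^ 2 :=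
        sum_congr rfl h1
    _ ≤ ∑ χ : DirichletCharacter ℂ k, ‖∑ a, χ a * W' a‖ ^ 2 :=
        sum_le_sum_of_subset_of_nonneg (erase_subset _ _) (fun _ _ _ => by positivity)
    _ = k.totient * ∑ u : (ZMod k)ˣ, ‖W' u‖ ^ 2 := h2
    _ ≤ k * ∑ a : ZMod k, ‖W' a‖ ^ 2 := mul_le_mul h7 h3 (by positivity) (Nat.cast_nonneg _)
    _ = ∑ t ∈ (univ : Finset (ZMod k)).erase 0, ‖∑ a, W' a * ZMod.stdAddChar (t * a)‖ ^ 2 := by
        rw [← h6]
        simp
    _ = _ := sum_congr rfl fun t ht => by rw [h4 t (ne_of_mem_erase ht)]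

/-- the trivial twist -/
lemma tw_one : Tw 1 (fun _ => 1) where
  per := fun _ => rfl
  cop := fun n h => absurd (Nat.coprime_one_right n) h
  l2 := by simp

lemma geom_Icc (n : ℕ) (β : ℝ) : ‖∑ j ∈ Icc 1 n, (1 : ℂ) * e (j * β)‖ ≤ 1 * gm ((n : ℝ) + 1) β := by
  have h := inner (le_refl 1) tw_one β 1 n
  simpa using h

lemma geom_log_Icc {n x : ℕ} (hx : 3 ≤ x) (hn : n ≤ x) (β : ℝ) :
    ‖∑ j ∈ Icc 1 n, ((Real.log j : ℝ) : ℂ) * e (j * β)‖ ≤
      3 * Real.log x * gm ((n : ℝ) + 1) β := by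
  have h := TypeI.log_inner (le_refl 1) tw_one β 1 hx hn
  simpa using h

lemma gm_le_gm {Y r β : ℝ} (h : 1 < 2 * r * |β - round β|) : gm Y β ≤ gm r β := by
  have hd : 0 < |β - round β| := by
    rcases (abs_nonneg (β - round β)).lt_or_eq with h1 | h1
    · exact h1
    · rw [← h1] at h
      norm_num at h
  unfold gm
  rw [if_neg (not_le.mpr h)]
  split_ifs with h2
  · rw [le_div_iff₀ (by positivity)]
    linarith
  · exact le_rfl

lemma dist_ge {b r d : ℕ} (hr : 1 < r) (hb : Nat.Coprime b r) (hd : Nat.Coprime d r) (m : ℤ) :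
    1 / (r : ℝ) ≤ |((b : ℝ) / r) * d - m| := by
  have hr0 : (0 : ℝ) < r := by
    have : 0 < r := by omega
    exact_mod_cast this
  have h1 : ((b * d : ℕ) : ℤ) - r * m ≠ 0 := by
    intro h
    have h2 : (r : ℤ) ∣ ((b * d : ℕ) : ℤ) := ⟨m, by linarith⟩
    have h3 : r ∣ b * d := by exact_mod_cast h2
    have h4 : Nat.Coprime (b * d) r := Nat.Coprime.mul_left hb hd
    have h5 := Nat.eq_one_of_dvd_coprimes h4 h3 dvd_rfl
    omega
  have h2 : (1 : ℝ) ≤ |(((b * d : ℕ) : ℤ) - r * m : ℤ)| := by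
    exact_mod_cast Int.one_le_abs h1
  have h3 : ((b : ℝ) / r) * d - m = ((((b * d : ℕ) : ℤ) - r * m : ℤ) : ℝ) / r := by
    push_cast
    field_simp
  rw [h3, abs_div, abs_of_pos hr0]
  exact div_le_div_of_nonneg_right (by exact_mod_cast h2) hr0.le

/-- the sum over the moduli `d ≤ D` coprime to `k` -/
lemma sum_gm {k D : ℕ} (hk : 1 < k) {t : ℕ} (ht0 : 0 < t) (htk : t < k) (Y : ℕ → ℝ) :
    ∑ d ∈ (Icc 1 D).filter (fun d => d.Coprime k), gm (Y d) (((t : ℝ) / k) * d) ≤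
      8 * ((D : ℝ) + k) * (2 + Real.log k) := by
  set g := Nat.gcd t k with hg
  have hg0 : 0 < g := Nat.gcd_pos_of_pos_left _ ht0
  obtain ⟨b, r, hcop, hbt, hrk⟩ : ∃ b r : ℕ, Nat.Coprime b r ∧ t = b * g ∧ k = r * g := by
    refine ⟨t / g, k / g, Nat.coprime_div_gcd_div_gcd hg0, ?_, ?_⟩
    · exact (Nat.div_mul_cancel (Nat.gcd_dvd_left t k)).symm
    · exact (Nat.div_mul_cancel (Nat.gcd_dvd_right t k)).symm
  have hr1 : 1 < r := by
    rcases Nat.lt_or_ge 1 r with h | h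
    · exact h
    · exfalso
      have h1 : k ≤ g := by
        rw [hrk]
        calc r * g ≤ 1 * g := Nat.mul_le_mul_right g h
          _ = g := one_mul g
      have h2 : g ≤ t := Nat.gcd_le_left _ ht0
      omega
  have hrk' : r ≤ k := by
    rw [hrk]
    exact Nat.le_mul_of_pos_right r hg0
  have hr0 : (0 : ℝ) < r := by
    have : 0 < r := by omega
    exact_mod_cast this
  have hg0' : (g : ℝ) ≠ 0 := by
    have : (0 : ℝ) < g := by exact_mod_cast hg0
    exact this.ne'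
  have hβ : (t : ℝ) / k = (b : ℝ) / r := by
    rw [hbt, hrk]
    push_cast
    rw [mul_div_mul_right _ _ hg0']
  have hkR : (r : ℝ) ≤ k := by exact_mod_cast hrk'
  have hlog : Real.log r ≤ Real.log k := Real.log_le_log hr0 hkR
  have hlog0 : 0 ≤ Real.log r := Real.log_natCast_nonneg r
  have hI : Icc 1 D = Ioc 0 (0 + D) := by
    ext n
    simp only [mem_Icc, mem_Ioc]
    omega
  have h1 := gm_block ((b : ℝ) / r) 0 b r (by omega) (by exact_mod_cast Nat.isCoprime_iff_coprime.mpr hcop)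
    (by simp) 0 D r hr0.le
  rw [← hI] at h1
  calc ∑ d ∈ (Icc 1 D).filter (fun d => d.Coprime k), gm (Y d) (((t : ℝ) / k) * d)
      ≤ ∑ d ∈ (Icc 1 D).filter (fun d => d.Coprime k), gm r (((b : ℝ) / r) * d + 0) := by
        refine sum_le_sum fun d hd => ?_
        rw [hβ, add_zero]
        refine gm_le_gm ?_
        have hdr : Nat.Coprime d r := by
          have := (mem_filter.1 hd).2
          rw [hrk] at this
          exact Nat.Coprime.coprime_mul_right_right this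
        have h2 := dist_ge hr1 hcop hdr (round (((b : ℝ) / r) * d))
        have h3 : (1 : ℝ) < 2 * (r * (1 / r)) := by
          rw [mul_one_div_cancel hr0.ne']
          norm_num
        calc (1 : ℝ) < 2 * (r * (1 / r)) := h3
          _ ≤ 2 * (r * |((b : ℝ) / r) * d - round (((b : ℝ) / r) * d)|) := by gcongr
          _ = _ := by ring
    _ ≤ ∑ d ∈ Icc 1 D, gm r (((b : ℝ) / r) * d + 0) :=
        sum_le_sum_of_subset_of_nonneg (filter_subset _ _) (fun d _ _ => gm_nonneg hr0.le _)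
    _ ≤ 8 * ((D : ℝ) / r + 1) * (r + r * (1 + Real.log r)) := h1
    _ = 8 * ((D : ℝ) + r) * (2 + Real.log r) := by
        field_simp
        ring
    _ ≤ 8 * ((D : ℝ) + k) * (2 + Real.log k) := by gcongr

/-- Type I sums, mean square over the non trivial characters -/
lemma typeI_chars (k : ℕ) [NeZero k] (D : ℕ) (w g : ℕ → ℂ) (N : ℕ → ℕ) (G W : ℝ) (hG0 : 0 ≤ G)
    (hW0 : 0 ≤ W) (hw : ∀ d ∈ Icc 1 D, ‖w d‖ ≤ W)
    (hG : ∀ d ∈ Icc 1 D, ∀ β : ℝ, ‖∑ j ∈ Icc 1 (N d), g j * e (j * β)‖ ≤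
      G * gm ((N d : ℝ) + 1) β) :
    ∑ χ ∈ (univ : Finset (DirichletCharacter ℂ k)).erase 1,
      ‖∑ d ∈ Icc 1 D, w d * χ (d : ZMod k) * ∑ j ∈ Icc 1 (N d), g j * χ (j : ZMod k)‖ ^ 2 ≤
      k * (G * W * (8 * ((D : ℝ) + k) * (2 + Real.log k))) ^ 2 := by
  classical
  set F : ZMod k → ℂ := fun a => ∑ d ∈ (Icc 1 D).filter (fun d => d.Coprime k),
    ∑ j ∈ Icc 1 (N d), if ((d * j : ℕ) : ZMod k) = a then w d * g j else 0 with hF
  have hsum : ∀ φ : ZMod k → ℂ, ∑ a, φ a * F a = ∑ d ∈ (Icc 1 D).filter (fun d => d.Coprime k),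
      ∑ j ∈ Icc 1 (N d), w d * g j * φ ((d * j : ℕ) : ZMod k) := by
    intro φ
    simp only [hF, mul_sum]
    rw [sum_comm]
    refine sum_congr rfl fun d _ => ?_
    rw [sum_comm]
    refine sum_congr rfl fun j _ => ?_
    rw [Finset.sum_eq_single (((d * j : ℕ) : ZMod k))]
    · rw [if_pos rfl]
      ring
    · intro a _ ha
      rw [if_neg (Ne.symm ha), mul_zero]
    · intro h
      exact absurd (mem_univ _) h
  have h1 : ∀ χ : DirichletCharacter ℂ k, ∑ d ∈ Icc 1 D, w d * χ (d : ZMod k) *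
      ∑ j ∈ Icc 1 (N d), g j * χ (j : ZMod k) = ∑ a, χ a * F a := by
    intro χ
    rw [hsum, sum_filter]
    refine sum_congr rfl fun d _ => ?_
    split_ifs with hd
    · rw [mul_sum]
      refine sum_congr rfl fun j _ => ?_
      rw [Nat.cast_mul, map_mul]
      ring
    · have : χ (d : ZMod k) = 0 := by
        apply MulChar.map_nonunit
        rw [ZMod.isUnit_iff_coprime]
        exact hd
      rw [this]
      ring
  have h2 : ∀ t ∈ (univ : Finset (ZMod k)).erase 0, ‖∑ a, F a * ZMod.stdAddChar (t * a)‖ ^ 2 ≤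
      (G * W * (8 * ((D : ℝ) + k) * (2 + Real.log k))) ^ 2 := by
    intro t ht
    have ht0 : t ≠ 0 := ne_of_mem_erase ht
    have htv : 0 < t.val := Nat.pos_of_ne_zero (by rwa [Ne, ZMod.val_eq_zero])
    have htk : t.val < k := ZMod.val_lt t
    have h3 : ∑ a, F a * ZMod.stdAddChar (t * a) = ∑ d ∈ (Icc 1 D).filter (fun d => d.Coprime k),
        w d * ∑ j ∈ Icc 1 (N d), g j * e (j * (((t.val : ℝ) / k) * d)) := by
      have := hsum (fun a => ZMod.stdAddChar (t * a))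
      rw [sum_congr rfl fun a _ => mul_comm (F a) _, this]
      refine sum_congr rfl fun d _ => ?_
      rw [mul_sum]
      refine sum_congr rfl fun j _ => ?_
      have h4 := gaussLS_e (q := k) (d * j) t.val
      rw [ZMod.natCast_zmod_val t, mul_comm ((d * j : ℕ) : ZMod k)] at h4
      rw [← h4, mul_assoc]
      congr 3
      push_cast
      ring
    rw [h3]
    refine pow_le_pow_left₀ (norm_nonneg _) ?_ 2
    calc ‖∑ d ∈ (Icc 1 D).filter (fun d => d.Coprime k),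
          w d * ∑ j ∈ Icc 1 (N d), g j * e (j * (((t.val : ℝ) / k) * d))‖
        ≤ ∑ d ∈ (Icc 1 D).filter (fun d => d.Coprime k),
          W * (G * gm ((N d : ℝ) + 1) (((t.val : ℝ) / k) * d)) := by
          refine (norm_sum_le _ _).trans (sum_le_sum fun d hd => ?_)
          rw [norm_mul]
          have hd' := (mem_filter.1 hd).1
          exact mul_le_mul (hw d hd') (hG d hd' _) (norm_nonneg _) hW0
      _ = G * W * ∑ d ∈ (Icc 1 D).filter (fun d => d.Coprime k),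
          gm ((N d : ℝ) + 1) (((t.val : ℝ) / k) * d) := by
          rw [mul_sum]
          exact sum_congr rfl fun d _ => by ring
      _ ≤ _ := mul_le_mul_of_nonneg_left (sum_gm (by omega) htv htk _) (by positivity)
  rw [sum_congr rfl fun χ _ => by rw [h1 χ]]
  refine (chars_le k F).trans ?_
  refine (sum_le_sum h2).trans ?_
  rw [sum_const, nsmul_eq_mul]
  refine mul_le_mul_of_nonneg_right ?_ (by positivity)
  have : ((univ : Finset (ZMod k)).erase 0).card ≤ k := by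
    refine (card_le_card (erase_subset _ _)).trans (le_of_eq ?_)
    rw [card_univ, ZMod.card]
  exact_mod_cast this

/-- the coefficients of the product of two sums -/
noncomputable def wc (U V m : ℕ) : ℂ :=
  ∑ p ∈ (Icc 1 U ×ˢ Icc 1 V).filter (fun p => p.1 * p.2 = m),
    (((μ p.1 : ℤ) : ℝ) : ℂ) * ((Λ p.2 : ℝ) : ℂ)

lemma wc_norm (U V m : ℕ) (hm : 1 ≤ m) : ‖wc U V m‖ ≤ Real.log m := by
  rw [← ArithmeticFunction.vonMangoldt_sum]
  unfold wc
  calc ‖∑ p ∈ (Icc 1 U ×ˢ Icc 1 V).filter (fun p => p.1 * p.2 = m),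
        (((μ p.1 : ℤ) : ℝ) : ℂ) * ((Λ p.2 : ℝ) : ℂ)‖
      ≤ ∑ p ∈ (Icc 1 U ×ˢ Icc 1 V).filter (fun p => p.1 * p.2 = m), Λ p.2 := by
        refine (norm_sum_le _ _).trans (sum_le_sum fun p _ => ?_)
        rw [norm_mul, Complex.norm_real, Complex.norm_real, Real.norm_eq_abs,
          Real.norm_of_nonneg ArithmeticFunction.vonMangoldt_nonneg]
        have h1 := ArithmeticFunction.abs_moebius_le_one (n := p.1)
        have h2 : |((μ p.1 : ℤ) : ℝ)| ≤ 1 := by exact_mod_cast h1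
        calc |((μ p.1 : ℤ) : ℝ)| * Λ p.2 ≤ 1 * Λ p.2 :=
              mul_le_mul_of_nonneg_right h2 ArithmeticFunction.vonMangoldt_nonneg
          _ = Λ p.2 := one_mul _
    _ = ∑ c ∈ ((Icc 1 U ×ˢ Icc 1 V).filter (fun p => p.1 * p.2 = m)).image Prod.snd, Λ c := by
        rw [sum_image]
        intro p hp p' hp' h
        rw [mem_coe, mem_filter, mem_product, mem_Icc, mem_Icc] at hp hp'
        have h2 : p.1 * p.2 = p'.1 * p.2 := by rw [hp.2, h, hp'.2]
        have h3 : p.1 = p'.1 := Nat.eq_of_mul_eq_mul_right (by omega) h2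
        exact Prod.ext h3 h
    _ ≤ ∑ c ∈ m.divisors, Λ c := by
        refine sum_le_sum_of_subset_of_nonneg ?_
          (fun _ _ _ => ArithmeticFunction.vonMangoldt_nonneg)
        intro c hc
        rw [mem_image] at hc
        obtain ⟨p, hp, rfl⟩ := hc
        rw [mem_filter] at hp
        rw [Nat.mem_divisors]
        exact ⟨⟨p.1, by rw [← hp.2, mul_comm]⟩, by omega⟩

lemma regroup (U V : ℕ) (f g H : ℕ → ℂ) :
    ∑ b ∈ Icc 1 U, f b * ∑ c ∈ Icc 1 V, g c * H (b * c) =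
      ∑ m ∈ Icc 1 (U * V), (∑ p ∈ (Icc 1 U ×ˢ Icc 1 V).filter (fun p => p.1 * p.2 = m),
        f p.1 * g p.2) * H m := by
  have h1 : ∑ b ∈ Icc 1 U, f b * ∑ c ∈ Icc 1 V, g c * H (b * c) =
      ∑ p ∈ Icc 1 U ×ˢ Icc 1 V, f p.1 * g p.2 * H (p.1 * p.2) := by
    rw [sum_product]
    refine sum_congr rfl fun b _ => ?_
    rw [mul_sum]
    exact sum_congr rfl fun c _ => by ring
  rw [h1, ← sum_fiberwise_of_maps_to (g := fun p : ℕ × ℕ => p.1 * p.2) (t := Icc 1 (U * V))]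
  · refine sum_congr rfl fun m _ => ?_
    rw [sum_mul]
    refine sum_congr rfl fun p hp => ?_
    rw [(mem_filter.1 hp).2]
  · intro p hp
    rw [mem_product, mem_Icc, mem_Icc] at hp
    rw [mem_Icc]
    exact ⟨Nat.one_le_iff_ne_zero.2 (Nat.mul_ne_zero (by omega) (by omega)),
      Nat.mul_le_mul hp.1.2 hp.2.2⟩

end VDiff2

open VDiff2 in
open Classical in
theorem vdiff2 : ∃ C : ℝ, 0 < C ∧ ∀ (k : ℕ) [NeZero k] (U V y : ℕ), 1 ≤ U → 1 ≤ V → 3 ≤ y → U ≤ y →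
    V ≤ y → k ≤ y →
    ∑ χ ∈ (univ : Finset (DirichletCharacter ℂ k)).erase 1, ‖psiC χ y - S3 χ U V y‖ ^ 2 ≤
      C * k * ((U : ℝ) * V + k) ^ 2 * (Real.log y) ^ 6 := by
  refine ⟨4 + 4 * (3 * 24) ^ 2 + 4 * (2 * 24) ^ 2, by norm_num, ?_⟩
  intro k _ U V y hU hV hy hUy hVy hky
  have hk : 0 < k := Nat.pos_of_ne_zero (NeZero.ne k)
  have hL := DivSum_log y hy
  set L : ℝ := Real.log y with hLdef
  have hk1 : (1 : ℝ) ≤ k := by exact_mod_cast hk
  have hU1 : (1 : ℝ) ≤ U := by exact_mod_cast hU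
  have hV1 : (1 : ℝ) ≤ V := by exact_mod_cast hV
  have hlogk : Real.log k ≤ L := Real.log_le_log (by linarith) (by exact_mod_cast hky)
  have hlogk0 : 0 ≤ Real.log k := Real.log_natCast_nonneg k
  have h3L : 2 + Real.log k ≤ 3 * L := by linarith
  have hmu : ∀ b : ℕ, ‖((((μ b : ℤ) : ℝ)) : ℂ)‖ ≤ 1 := by
    intro b
    rw [Complex.norm_real, Real.norm_eq_abs]
    have := ArithmeticFunction.abs_moebius_le_one (n := b)
    exact_mod_cast this
  have hLam : ∀ c ∈ Icc 1 V, ‖((Λ c : ℝ) : ℂ)‖ ≤ L := by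
    intro c hc
    rw [mem_Icc] at hc
    rw [Complex.norm_real, Real.norm_of_nonneg ArithmeticFunction.vonMangoldt_nonneg]
    refine ArithmeticFunction.vonMangoldt_le_log.trans ?_
    exact Real.log_le_log (by exact_mod_cast (by omega : 0 < c))
      (by exact_mod_cast (by omega : c ≤ y))
  set T1 : DirichletCharacter ℂ k → ℂ := fun χ =>
    ∑ n ∈ Icc 1 V, ((Λ n : ℝ) : ℂ) * χ (n : ZMod k) with hT1
  set T2 : DirichletCharacter ℂ k → ℂ := fun χ =>
    ∑ b ∈ Icc 1 U, ((((μ b : ℤ) : ℝ)) : ℂ) * χ (b : ZMod k) *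
        ∑ d ∈ Icc 1 (y / b), ((Real.log d : ℝ) : ℂ) * χ (d : ZMod k) with hT2
  set T3 : DirichletCharacter ℂ k → ℂ := fun χ =>
    ∑ b ∈ Icc 1 U, ((((μ b : ℤ) : ℝ)) : ℂ) * χ (b : ZMod k) *
        ∑ c ∈ Icc 1 V, ((Λ c : ℝ) : ℂ) * χ (c : ZMod k) *
          ∑ d ∈ Icc 1 (y / b / c), χ (d : ZMod k) with hT3
  have hA1 : ∑ χ ∈ (univ : Finset (DirichletCharacter ℂ k)).erase 1, ‖T1 χ‖ ^ 2 ≤
      k * ((U : ℝ) * V + k) ^ 2 * L ^ 4 := by
    have hIV : Icc 1 V = Ioc 0 (0 + V) := by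
      ext n
      simp only [mem_Icc, mem_Ioc]
      omega
    have h1 := mean_value k 0 V (fun n => ((Λ n : ℝ) : ℂ))
    rw [← hIV] at h1
    calc ∑ χ ∈ (univ : Finset (DirichletCharacter ℂ k)).erase 1, ‖T1 χ‖ ^ 2
        ≤ ∑ χ : DirichletCharacter ℂ k, ‖T1 χ‖ ^ 2 :=
          sum_le_sum_of_subset_of_nonneg (erase_subset _ _) (fun _ _ _ => by positivity)
      _ ≤ ((V : ℝ) + k) * ∑ n ∈ Icc 1 V, ‖((Λ n : ℝ) : ℂ)‖ ^ 2 := h1
      _ ≤ ((V : ℝ) + k) * (V * L ^ 2) := by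
          refine mul_le_mul_of_nonneg_left ?_ (by positivity)
          calc ∑ n ∈ Icc 1 V, ‖((Λ n : ℝ) : ℂ)‖ ^ 2 ≤ ∑ n ∈ Icc 1 V, L ^ 2 :=
                sum_le_sum fun n hn => pow_le_pow_left₀ (norm_nonneg _) (hLam n hn) 2
            _ = V * L ^ 2 := by simp
      _ ≤ k * ((U : ℝ) * V + k) ^ 2 * L ^ 4 := by
          have h2 : (V : ℝ) ≤ U * V := by nlinarith
          have h3 : ((V : ℝ) + k) * V ≤ 1 * ((U : ℝ) * V + k) ^ 2 := by
            rw [one_mul, sq]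
            exact mul_le_mul (by linarith) (by linarith) (by positivity) (by positivity)
          have h4 : L ^ 2 ≤ L ^ 4 := pow_le_pow_right₀ hL (by norm_num)
          calc ((V : ℝ) + k) * (V * L ^ 2) = (((V : ℝ) + k) * V) * L ^ 2 := by ring
            _ ≤ (k * ((U : ℝ) * V + k) ^ 2) * L ^ 4 := by
                refine mul_le_mul (h3.trans ?_) h4 (by positivity) (by positivity)
                exact mul_le_mul_of_nonneg_right hk1 (by positivity)
  have hA2 : ∑ χ ∈ (univ : Finset (DirichletCharacter ℂ k)).erase 1, ‖T2 χ‖ ^ 2 ≤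
      (3 * 24) ^ 2 * (k * ((U : ℝ) * V + k) ^ 2 * L ^ 4) := by
    have h1 := typeI_chars k U (fun b => ((((μ b : ℤ) : ℝ)) : ℂ))
      (fun d => ((Real.log d : ℝ) : ℂ)) (fun b => y / b) (3 * L) 1 (by positivity) (by norm_num)
      (fun b _ => hmu b) (fun d _ β => geom_log_Icc hy (Nat.div_le_self y d) β)
    refine h1.trans ?_
    have h2 : 3 * L * 1 * (8 * ((U : ℝ) + k) * (2 + Real.log k)) ≤
        3 * 24 * (((U : ℝ) * V + k) * L ^ 2) := by
      have h3 : (U : ℝ) ≤ U * V := by nlinarith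
      calc 3 * L * 1 * (8 * ((U : ℝ) + k) * (2 + Real.log k))
          ≤ 3 * L * 1 * (8 * ((U : ℝ) * V + k) * (3 * L)) := by gcongr
        _ = 3 * 24 * (((U : ℝ) * V + k) * L ^ 2) := by ring
    calc (k : ℝ) * (3 * L * 1 * (8 * ((U : ℝ) + k) * (2 + Real.log k))) ^ 2
        ≤ k * (3 * 24 * (((U : ℝ) * V + k) * L ^ 2)) ^ 2 := by gcongr
      _ = _ := by ring
  have hA3 : ∑ χ ∈ (univ : Finset (DirichletCharacter ℂ k)).erase 1, ‖T3 χ‖ ^ 2 ≤
      (2 * 24) ^ 2 * (k * ((U : ℝ) * V + k) ^ 2 * L ^ 4) := by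
    have h0 : ∀ χ : DirichletCharacter ℂ k, T3 χ = ∑ m ∈ Icc 1 (U * V), wc U V m *
        χ (m : ZMod k) * ∑ j ∈ Icc 1 (y / m), (1 : ℂ) * χ (j : ZMod k) := by
      intro χ
      have h := regroup U V (fun b => ((((μ b : ℤ) : ℝ)) : ℂ)) (fun c => ((Λ c : ℝ) : ℂ))
        (fun m => χ (m : ZMod k) * ∑ j ∈ Icc 1 (y / m), (1 : ℂ) * χ (j : ZMod k))
      have h2 : T3 χ = ∑ b ∈ Icc 1 U, ((((μ b : ℤ) : ℝ)) : ℂ) * ∑ c ∈ Icc 1 V, ((Λ c : ℝ) : ℂ) *
          (χ ((b * c : ℕ) : ZMod k) * ∑ j ∈ Icc 1 (y / (b * c)), (1 : ℂ) * χ (j : ZMod k)) := by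
        rw [hT3]
        refine sum_congr rfl fun b _ => ?_
        rw [mul_assoc, mul_sum]
        congr 1
        refine sum_congr rfl fun c _ => ?_
        simp only [one_mul]
        rw [Nat.cast_mul, map_mul, Nat.div_div_eq_div_mul]
        ring
      rw [h2, h]
      refine sum_congr rfl fun m _ => ?_
      rw [wc, mul_assoc]
    rw [sum_congr rfl fun χ _ => by rw [h0 χ]]
    have h1 := typeI_chars k (U * V) (wc U V) (fun _ => (1 : ℂ)) (fun b => y / b) 1 (2 * L)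
      (by norm_num) (by linarith) (fun m hm => ?_) (fun d _ β => geom_Icc (y / d) β)
    · refine h1.trans ?_
      have h2 : 1 * (2 * L) * (8 * (((U * V : ℕ) : ℝ) + k) * (2 + Real.log k)) ≤
          2 * 24 * (((U : ℝ) * V + k) * L ^ 2) := by
        rw [Nat.cast_mul]
        calc 1 * (2 * L) * (8 * ((U : ℝ) * V + k) * (2 + Real.log k))
            ≤ 1 * (2 * L) * (8 * ((U : ℝ) * V + k) * (3 * L)) := by gcongr
          _ = 2 * 24 * (((U : ℝ) * V + k) * L ^ 2) := by ring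
      calc (k : ℝ) * (1 * (2 * L) * (8 * (((U * V : ℕ) : ℝ) + k) * (2 + Real.log k))) ^ 2
          ≤ k * (2 * 24 * (((U : ℝ) * V + k) * L ^ 2)) ^ 2 := by gcongr
        _ = _ := by ring
    · rw [mem_Icc] at hm
      refine (wc_norm U V m hm.1).trans ?_
      have h2 : Real.log m ≤ Real.log ((y : ℝ) * y) := by
        refine Real.log_le_log (by exact_mod_cast (by omega : 0 < m)) ?_
        exact_mod_cast (hm.2.trans (Nat.mul_le_mul hUy hVy))
      have hy0 : (y : ℝ) ≠ 0 := by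
        have : (0 : ℝ) < y := by exact_mod_cast (by omega : 0 < y)
        exact this.ne'
      rw [Real.log_mul hy0 hy0] at h2
      linarith
  have hthree : ∀ a b c : ℂ, ‖a + b - c‖ ^ 2 ≤ 4 * ‖a‖ ^ 2 + 4 * ‖b‖ ^ 2 + 4 * ‖c‖ ^ 2 := by
    intro a b c
    have h1 := mv_two (a + b) c
    have h2 := mv_two a (-b)
    rw [sub_neg_eq_add, norm_neg] at h2
    nlinarith [sq_nonneg ‖c‖]
  calc ∑ χ ∈ (univ : Finset (DirichletCharacter ℂ k)).erase 1, ‖psiC χ y - S3 χ U V y‖ ^ 2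
      = ∑ χ ∈ (univ : Finset (DirichletCharacter ℂ k)).erase 1,
        ‖T1 χ + T2 χ - T3 χ‖ ^ 2 := by
        refine sum_congr rfl fun χ _ => ?_
        rw [vid χ U V y hUy hVy]
    _ ≤ ∑ χ ∈ (univ : Finset (DirichletCharacter ℂ k)).erase 1,
        (4 * ‖T1 χ‖ ^ 2 + 4 * ‖T2 χ‖ ^ 2 + 4 * ‖T3 χ‖ ^ 2) :=
        sum_le_sum fun χ _ => hthree _ _ _
    _ = 4 * (∑ χ ∈ (univ : Finset (DirichletCharacter ℂ k)).erase 1, ‖T1 χ‖ ^ 2) +
        4 * (∑ χ ∈ (univ : Finset (DirichletCharacter ℂ k)).erase 1, ‖T2 χ‖ ^ 2) +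
        4 * (∑ χ ∈ (univ : Finset (DirichletCharacter ℂ k)).erase 1, ‖T3 χ‖ ^ 2) := by
        rw [sum_add_distrib, sum_add_distrib, ← mul_sum, ← mul_sum, ← mul_sum]
    _ ≤ (4 + 4 * (3 * 24) ^ 2 + 4 * (2 * 24) ^ 2) * (k * ((U : ℝ) * V + k) ^ 2 * L ^ 4) := by
        linarith
    _ ≤ (4 + 4 * (3 * 24) ^ 2 + 4 * (2 * 24) ^ 2) * (k * ((U : ℝ) * V + k) ^ 2 * L ^ 6) := by
        refine mul_le_mul_of_nonneg_left ?_ (by norm_num)
        exact mul_le_mul_of_nonneg_left (pow_le_pow_right₀ hL (by norm_num)) (by positivity)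
    _ = _ := by ring

end Pool.Agent.HL
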