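import Pool.Agent.Work.MP_92f640_nt.HL.Mass
import Pool.Agent.Work.MP_92f640_nt.HL.VDiff2

/-! # Module Mass2: as `Mass`, for `k ≤ x^(2/3-ε)`

`U = 7 k`, `V` = first grid point `≥ x^(ε/4)`: `vdiff2`: `k (U V + k)² L⁶ ≤ 841 k³ x^(ε/2) L⁶`. The rest is as in
`Mass`: `K = y/gr(i+1) ≥ U ≥ k` in `mean_value` (the other blocks are empty). -/

namespace Pool.Agent.HL

open Finset Pool.Agent.BV

namespace Mass2

open MassA

lemma grid_end {η : ℝ} (hη : 0 < η) (hη1 : η ≤ 1 / 2) {x y U : ℕ} (hx : 36 ≤ x) (hyx : y ≤ x)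
    (hU : 6 ≤ U) {i₀ : ℕ} (hi₀ : (gr η i₀ : ℝ) ≤ x) :
    ∃ i₁ : ℕ, i₀ ≤ i₁ ∧ y / U ≤ gr η i₁ ∧ (gr η i₁ : ℝ) ≤ x := by
  have hx36 : (36 : ℝ) ≤ x := by exact_mod_cast hx
  have hyx' : (y : ℝ) ≤ x := by exact_mod_cast hyx
  have hU6 : (6 : ℝ) ≤ U := by exact_mod_cast hU
  have hex := exists_gr hη ((y / U : ℕ) : ℝ)
  set j₀ := Nat.find hex with hj₀
  have hspec : ((y / U : ℕ) : ℝ) ≤ gr η j₀ := Nat.find_spec hex
  have hb : (gr η j₀ : ℝ) ≤ x := by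
    rcases Nat.eq_zero_or_pos j₀ with h | h
    · rw [h, gr_zero]
      push_cast
      linarith
    · obtain ⟨j, hj⟩ : ∃ j, j₀ = j + 1 := ⟨j₀ - 1, by omega⟩
      have h1 := Nat.find_min hex (m := j) (by omega)
      rw [not_le] at h1
      rw [hj]
      refine (gr_succ_le hη.le j).trans ?_
      have h3 : ((y / U : ℕ) : ℝ) ≤ x / 6 := by
        refine Nat.cast_div_le.trans ?_
        gcongr
      calc (1 + η) * ((gr η j : ℝ) + 1) ≤ 2 * ((x : ℝ) / 6 + 1) := by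
            gcongr <;> linarith
        _ ≤ x := by linarith
  rcases le_total i₀ j₀ with h | h
  · exact ⟨j₀, h, by exact_mod_cast hspec, hb⟩
  · refine ⟨i₀, le_rfl, ?_, hi₀⟩
    exact (by exact_mod_cast hspec : y / U ≤ gr η j₀).trans (gr_mono hη.le h)

open Classical in
lemma partI (x y k : ℕ) [NeZero k] (lo C₁ : ℝ) (hlo1 : 1 ≤ lo) (hyx : (y : ℝ) ≤ x)
    (hy0 : (0 : ℝ) < y) (V : ℕ) (hV1 : 1 ≤ V)
    (hV : (V : ℝ) ≤ 4 * lo) (hUV : 28 * k * lo ≤ y) (hC₁ : 0 ≤ C₁)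
    (hv : ∀ U V : ℕ, 1 ≤ U → 1 ≤ V → U ≤ y → V ≤ y → k ≤ y →
      ∑ χ ∈ (univ : Finset (DirichletCharacter ℂ k)).erase 1, ‖psiC χ y - S3 χ U V y‖ ^ 2 ≤
        C₁ * k * ((U : ℝ) * V + k) ^ 2 * (Real.log y) ^ 6)
    (X : Finset (DirichletCharacter ℂ k)) (hX1 : ∀ χ ∈ X, χ ≠ 1) :
    2 * ∑ χ ∈ X, ‖psiC χ y - S3 χ (7 * k) V y‖ ^ 2 ≤
      1682 * C₁ * ((k : ℝ) ^ 3 * lo ^ 2) * (Real.log x) ^ 6 := by
  have hk : 0 < k := Nat.pos_of_ne_zero (NeZero.ne k)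
  have hk1 : (1 : ℝ) ≤ k := by exact_mod_cast hk
  have hklo : (k : ℝ) ≤ k * lo := le_mul_of_one_le_right (by linarith) hlo1
  have hlok : lo ≤ k * lo := le_mul_of_one_le_left (by linarith) hk1
  have hUy : 7 * k ≤ y := by
    have : 7 * (k : ℝ) ≤ y := by linarith
    exact_mod_cast this
  have hVy : V ≤ y := by
    have : (V : ℝ) ≤ y := by linarith
    exact_mod_cast this
  have h1 := hv (7 * k) V (by omega) hV1 hUy hVy (by omega)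
  have hsub : X ⊆ (univ : Finset (DirichletCharacter ℂ k)).erase 1 := by
    intro χ hχ
    rw [mem_erase]
    exact ⟨hX1 χ hχ, mem_univ _⟩
  have h2 : ∑ χ ∈ X, ‖psiC χ y - S3 χ (7 * k) V y‖ ^ 2 ≤
      C₁ * k * (((7 * k : ℕ) : ℝ) * V + k) ^ 2 * (Real.log y) ^ 6 :=
    (Finset.sum_le_sum_of_subset_of_nonneg hsub (fun _ _ _ => sq_nonneg _)).trans h1
  have h3 : (((7 * k : ℕ) : ℝ) * V + k) ^ 2 ≤ (29 * (k * lo)) ^ 2 := by
    refine pow_le_pow_left₀ (by positivity) ?_ 2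
    push_cast
    calc 7 * (k : ℝ) * V + k ≤ 7 * (k : ℝ) * (4 * lo) + k * lo := by gcongr
      _ = 29 * (k * lo) := by ring
  have h4 : Real.log y ≤ Real.log x := Real.log_le_log hy0 hyx
  have h5 : 0 ≤ Real.log y := Real.log_natCast_nonneg y
  have h6 : (Real.log y) ^ 6 ≤ (Real.log x) ^ 6 := pow_le_pow_left₀ h5 h4 6
  calc 2 * ∑ χ ∈ X, ‖psiC χ y - S3 χ (7 * k) V y‖ ^ 2
      ≤ 2 * (C₁ * k * (((7 * k : ℕ) : ℝ) * V + k) ^ 2 * (Real.log y) ^ 6) :=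
        mul_le_mul_of_nonneg_left h2 (by norm_num)
    _ ≤ 2 * (C₁ * k * (29 * (k * lo)) ^ 2 * (Real.log x) ^ 6) :=
        mul_le_mul_of_nonneg_left (mul_le_mul (mul_le_mul_of_nonneg_left h3 (by positivity)) h6
          (by positivity) (by positivity)) (by norm_num)
    _ = _ := by ring

open Classical in
theorem core (x y k : ℕ) [NeZero k] (η lo C₁ C₂ C₃ a : ℝ) (hx : 36 ≤ x) (hyx : y ≤ x)
    (hy1 : 1 ≤ y) (hη : 0 < η) (hη1 : η ≤ 1 / 2) (hlo : 4 / η ≤ lo)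
    (hUV : 28 * k * lo ≤ y) (hkη : (k : ℝ) ≤ η * x)
    (hC₁ : 0 ≤ C₁) (hC₂ : 0 ≤ C₂) (ha : 0 ≤ a)
    (hv : ∀ U V : ℕ, 1 ≤ U → 1 ≤ V → U ≤ y → V ≤ y → k ≤ y →
      ∑ χ ∈ (univ : Finset (DirichletCharacter ℂ k)).erase 1, ‖psiC χ y - S3 χ U V y‖ ^ 2 ≤
        C₁ * k * ((U : ℝ) * V + k) ^ 2 * (Real.log y) ^ 6)
    (hτ2 : ∀ N : ℕ, N ≤ 2 * x →
      ∑ n ∈ Icc 1 N, (n.divisors.card : ℝ) ^ 2 ≤ C₂ * N * (Real.log x) ^ 3)
    (hτ4 : ∑ n ∈ Icc 1 x, (n.divisors.card : ℝ) ^ 4 ≤ C₃ * x * (Real.log x) ^ 15)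
    (X : Finset (DirichletCharacter ℂ k)) (hX1 : ∀ χ ∈ X, χ ≠ 1)
    (hA : ∀ χ ∈ X, ∀ i : ℕ, lo ≤ gr η i → (gr η i : ℝ) ≤ x → ‖psiC χ (gr η i)‖ ≤ a * gr η i) :
    ∑ χ ∈ X, ‖psiC χ y‖ ^ 2 ≤ 1682 * C₁ * ((k : ℝ) ^ 3 * lo ^ 2) * (Real.log x) ^ 6 +
      4 * ((4 * Real.log x / η) ^ 2 * ((2 * a) ^ 2 * (C₂ * (x : ℝ) ^ 2 * (Real.log x) ^ 3))) +
      4 * ((4 * η * x) * ((Real.log x) ^ 2 *
        (Real.sqrt (4 * η * x) * Real.sqrt (C₃ * x * (Real.log x) ^ 15)))) := by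
  have hx36 : (36 : ℝ) ≤ x := by exact_mod_cast hx
  have hx0 : (0 : ℝ) < x := by linarith
  have hyx' : (y : ℝ) ≤ x := by exact_mod_cast hyx
  have hk : 0 < k := Nat.pos_of_ne_zero (NeZero.ne k)
  have hk1 : (1 : ℝ) ≤ k := by exact_mod_cast hk
  have hlo8 : 8 ≤ lo := by
    refine le_trans ?_ hlo
    rw [le_div_iff₀ hη]
    linarith
  have hlok : lo ≤ k * lo := le_mul_of_one_le_left (by linarith) hk1
  have hy0 : (0 : ℝ) < y := by exact_mod_cast hy1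
  obtain ⟨i₀, hi₀, hi₀'⟩ := grid_start hη hη1 (by linarith : 1 ≤ lo)
  have hi₀x : (gr η i₀ : ℝ) ≤ x := by linarith
  obtain ⟨i₁, h01, hW, hWx⟩ := grid_end hη hη1 hx hyx (by omega : 6 ≤ 7 * k) hi₀x
  have hgrid : ∀ i ∈ Ico i₀ i₁, lo ≤ gr η i ∧ (gr η (i + 1) : ℝ) ≤ x ∧
      (gr η (i + 1) : ℝ) ≤ (1 + 2 * η) * gr η i := by
    intro i hi
    rw [mem_Ico] at hi
    have h1 : (gr η i₀ : ℝ) ≤ gr η i := by exact_mod_cast gr_mono hη.le hi.1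
    have h2 : (gr η (i + 1) : ℝ) ≤ gr η i₁ := by exact_mod_cast gr_mono hη.le hi.2
    exact ⟨hi₀.trans h1, h2.trans hWx, grid_ratio hη hη1 hlo (hi₀.trans h1)⟩
  obtain ⟨M, hMle, hMlt⟩ : ∃ M : ℕ, (M : ℝ) ≤ (y : ℝ) * (1 - 2 * η) ∧
      (y : ℝ) * (1 - 2 * η) < M + 1 :=
    ⟨⌊(y : ℝ) * (1 - 2 * η)⌋₊, Nat.floor_le (mul_nonneg (Nat.cast_nonneg _) (by linarith)),
      Nat.lt_floor_add_one _⟩
  have hηy : 0 < η * y := mul_pos hη hy0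
  have hMy : M ≤ y := by
    have : (M : ℝ) ≤ y := by linarith
    exact_mod_cast this
  have hI := partI x y k lo C₁ (by linarith) hyx' hy0 (gr η i₀) (one_le_gr hη.le i₀)
    hi₀' hUV hC₁ hv X hX1
  have hMm := partM k η C₂ a lo hη hη1 x y i₀ i₁ (7 * k) hyx (by linarith) (by omega) hC₂ ha hWx
    hgrid hτ2 X hA
  have hE := partE k η C₃ hη x y M i₀ i₁ (7 * k) h01 hyx hMy hMlt hkη
    (by linarith) hτ4 X
  have hpt : ∀ χ ∈ X, ‖psiC χ y‖ ^ 2 ≤ 2 * ‖psiC χ y - S3 χ (7 * k) (gr η i₀) y‖ ^ 2 +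
      4 * ‖∑ i ∈ Ico i₀ i₁, (psiC χ (gr η (i + 1)) - psiC χ (gr η i)) *
        (∑ k' ∈ Ioc (7 * k) (y / gr η (i + 1)),
          ((beta (7 * k) k' : ℝ) : ℂ) * χ (k' : ZMod k))‖ ^ 2 +
      4 * ‖∑ n ∈ Ioc M y, ecoef (gr η) (7 * k) y i₀ i₁ n * χ (n : ZMod k)‖ ^ 2 := by
    intro χ _
    refine sq_three _ _ _ _ ?_
    rw [← S3_eq χ (gr η) (gr_mono hη.le) (7 * k) y i₀ i₁ M h01 (by omega) hW
      (fun i hi c hc k' hk' => grid_M hη hη1 hMle (hgrid i hi).2.2 (mem_Ioc.1 hc).1 hk')]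
    rw [sub_add_cancel]
  refine (Finset.sum_le_sum hpt).trans ?_
  rw [Finset.sum_add_distrib, Finset.sum_add_distrib, ← Finset.mul_sum, ← Finset.mul_sum,
    ← Finset.mul_sum]
  exact add_le_add (add_le_add hI (mul_le_mul_of_nonneg_left hMm (by norm_num)))
    (mul_le_mul_of_nonneg_left hE (by norm_num))

/-- the final comparison of the three terms -/
lemma final_num (x L R C₂ C₃ T : ℝ) (hx : 0 < x) (hL : 2 ≤ L) (hR : 1 ≤ R)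
    (hC₃ : 0 ≤ C₃) (hL2 : 3072 * C₂ ≤ L) (hL3 : 96 * Real.sqrt C₃ ≤ L)
    (h1 : T ≤ x ^ 2 / (3 * R)) :
    T +
      4 * ((4 * L / (1 / (R * L ^ 4) ^ 2)) ^ 2 * ((2 * (2 / (R ^ 3 * L ^ 11))) ^ 2 *
        (C₂ * x ^ 2 * L ^ 3))) +
      4 * ((4 * (1 / (R * L ^ 4) ^ 2) * x) * (L ^ 2 *
        (Real.sqrt (4 * (1 / (R * L ^ 4) ^ 2) * x) * Real.sqrt (C₃ * x * L ^ 15)))) ≤
      x ^ 2 / R := by
  have hL0 : 0 < L := by linarith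
  have hR0 : 0 < R := by linarith
  have hsx : Real.sqrt x * Real.sqrt x = x := Real.mul_self_sqrt hx.le
  have h2 : 4 * ((4 * L / (1 / (R * L ^ 4) ^ 2)) ^ 2 * ((2 * (2 / (R ^ 3 * L ^ 11))) ^ 2 *
        (C₂ * x ^ 2 * L ^ 3))) ≤ x ^ 2 / (3 * R) := by
    have e : 4 * ((4 * L / (1 / (R * L ^ 4) ^ 2)) ^ 2 * ((2 * (2 / (R ^ 3 * L ^ 11))) ^ 2 *
        (C₂ * x ^ 2 * L ^ 3))) = 1024 * C₂ * x ^ 2 / (R ^ 2 * L) := by
      field_simp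
      ring
    rw [e, div_le_div_iff₀ (by positivity) (by positivity)]
    have h3 : 3072 * C₂ ≤ R * L := hL2.trans (by nlinarith)
    calc 1024 * C₂ * x ^ 2 * (3 * R) = (3072 * C₂) * (x ^ 2 * R) := by ring
      _ ≤ (R * L) * (x ^ 2 * R) := mul_le_mul_of_nonneg_right h3 (by positivity)
      _ = x ^ 2 * (R ^ 2 * L) := by ring
  have h3 : 4 * ((4 * (1 / (R * L ^ 4) ^ 2) * x) * (L ^ 2 *
        (Real.sqrt (4 * (1 / (R * L ^ 4) ^ 2) * x) * Real.sqrt (C₃ * x * L ^ 15)))) ≤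
      x ^ 2 / (3 * R) := by
    have e1 : Real.sqrt (4 * (1 / (R * L ^ 4) ^ 2) * x) = 2 / (R * L ^ 4) * Real.sqrt x := by
      have : 4 * (1 / (R * L ^ 4) ^ 2) * x = (2 / (R * L ^ 4)) ^ 2 * x := by
        field_simp; ring
      rw [this, Real.sqrt_mul (sq_nonneg _), Real.sqrt_sq (by positivity)]
    have e2 : Real.sqrt (C₃ * x * L ^ 15) ≤ Real.sqrt C₃ * Real.sqrt x * L ^ 8 := by
      have h4 : C₃ * x * L ^ 15 ≤ (C₃ * x) * (L ^ 8) ^ 2 := by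
        have : L ^ 15 ≤ (L ^ 8) ^ 2 := by
          rw [← pow_mul]
          exact pow_le_pow_right₀ (by linarith) (by norm_num)
        exact mul_le_mul_of_nonneg_left this (by positivity)
      refine (Real.sqrt_le_sqrt h4).trans (le_of_eq ?_)
      rw [Real.sqrt_mul (by positivity), Real.sqrt_sq (by positivity), Real.sqrt_mul hC₃]
    rw [e1]
    calc 4 * ((4 * (1 / (R * L ^ 4) ^ 2) * x) * (L ^ 2 *
          (2 / (R * L ^ 4) * Real.sqrt x * Real.sqrt (C₃ * x * L ^ 15))))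
        ≤ 4 * ((4 * (1 / (R * L ^ 4) ^ 2) * x) * (L ^ 2 *
          (2 / (R * L ^ 4) * Real.sqrt x * (Real.sqrt C₃ * Real.sqrt x * L ^ 8)))) := by
          refine mul_le_mul_of_nonneg_left (mul_le_mul_of_nonneg_left
            (mul_le_mul_of_nonneg_left (mul_le_mul_of_nonneg_left e2 (by positivity))
            (by positivity)) (by positivity)) (by norm_num)
      _ = 32 * Real.sqrt C₃ * x * (Real.sqrt x * Real.sqrt x) / (R ^ 3 * L ^ 2) := by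
          field_simp
          ring
      _ = 32 * Real.sqrt C₃ * x ^ 2 / (R ^ 3 * L ^ 2) := by rw [hsx]; ring
      _ ≤ x ^ 2 / (3 * R) := by
          rw [div_le_div_iff₀ (by positivity) (by positivity)]
          have h5 : L ≤ R ^ 2 * L ^ 2 := by
            have h6 : 1 ≤ R ^ 2 := one_le_pow₀ hR
            nlinarith
          calc 32 * Real.sqrt C₃ * x ^ 2 * (3 * R) = (96 * Real.sqrt C₃) * (x ^ 2 * R) := by ring
            _ ≤ (R ^ 2 * L ^ 2) * (x ^ 2 * R) :=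
              mul_le_mul_of_nonneg_right (hL3.trans h5) (by positivity)
            _ = x ^ 2 * (R ^ 3 * L ^ 2) := by ring
  calc _ ≤ x ^ 2 / (3 * R) + x ^ 2 / (3 * R) + x ^ 2 / (3 * R) := add_le_add (add_le_add h1 h2) h3
    _ = x ^ 2 / R := by field_simp; ring

end Mass2

open Mass2 in
theorem mass2 (ε : ℝ) (hε : 0 < ε) (B₆ : ℕ) : ∃ B₈ B₉ x₀ : ℕ, ∀ x : ℕ, x₀ ≤ x → ∀ (k : ℕ) [NeZero k],
    (k : ℝ) ≤ (x : ℝ) ^ (2 / 3 - ε) → ∀ y : ℕ, y ≤ x → (x : ℝ) / (Real.log x) ^ B₆ ≤ y →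
    ∀ X : Finset (DirichletCharacter ℂ k), (∀ χ ∈ X, χ ≠ 1) →
    (∀ χ ∈ X, ∀ i : ℕ, (x : ℝ) ^ (ε / 4) ≤ gr (1 / (Real.log x) ^ B₈) i →
      (gr (1 / (Real.log x) ^ B₈) i : ℝ) ≤ x →
      ‖psiC χ (gr (1 / (Real.log x) ^ B₈) i)‖ ≤
        2 * (gr (1 / (Real.log x) ^ B₈) i : ℝ) / (Real.log x) ^ B₉) →
    ∑ χ ∈ X, ‖psiC χ y‖ ^ 2 ≤ (x : ℝ) ^ 2 / (Real.log x) ^ B₆ := by
  classical
  rcases le_or_gt 2 ε with hε2 | hε2
  · refine ⟨0, 0, 2, ?_⟩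
    intro x hx k _ hk
    exfalso
    have hx1 : (1 : ℝ) < x := by
      have : 1 < x := by omega
      exact_mod_cast this
    have h1 : (x : ℝ) ^ (2 / 3 - ε) < 1 := Real.rpow_lt_one_of_one_lt_of_neg hx1 (by linarith)
    have h2 : (1 : ℝ) ≤ k := by exact_mod_cast Nat.one_le_iff_ne_zero.2 (NeZero.ne k)
    linarith
  obtain ⟨C₁, hC₁, hv⟩ := vdiff2
  obtain ⟨C₂, hC₂, hτ2⟩ := tau_sq_sum
  obtain ⟨C₃, hC₃, hτ4⟩ := tau_four_sum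
  have hev := (evt_log (max 2 (max (3072 * C₂) (96 * Real.sqrt C₃)))).and
    ((evt_pow 4 (2 * (B₆ + 4)) (ε / 4) (by linarith)).and
    ((evt_pow 28 B₆ (1 / 3 + 3 * ε / 4) (by linarith)).and
    ((evt_pow (5046 * C₁) (B₆ + 6) (5 * ε / 2) (by linarith)).and
    ((evt_pow 1 (2 * (B₆ + 4)) (1 / 3) (by norm_num)).and (Filter.eventually_ge_atTop 36)))))
  rw [Filter.eventually_atTop] at hev
  obtain ⟨x₀, hx₀⟩ := hev
  refine ⟨2 * (B₆ + 4), 3 * B₆ + 11, x₀, ?_⟩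
  intro x hx k _ hk y hyx hy X hX1 hA
  obtain ⟨e1, e2, e3, e4, e5, e6⟩ := hx₀ x hx
  have hx36 : (36 : ℝ) ≤ x := by exact_mod_cast e6
  have hx0 : (0 : ℝ) < x := by linarith
  set L : ℝ := Real.log x with hL
  have hL2 : 2 ≤ L := (le_max_left _ _).trans e1
  have hLC2 : 3072 * C₂ ≤ L := (le_max_left _ _).trans ((le_max_right _ _).trans e1)
  have hLC3 : 96 * Real.sqrt C₃ ≤ L := (le_max_right _ _).trans ((le_max_right _ _).trans e1)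
  have hL0 : 0 < L := by linarith
  have hL1 : 1 ≤ L := by linarith
  have hR : 1 ≤ L ^ B₆ := one_le_pow₀ hL1
  have hB8 : L ^ (2 * (B₆ + 4)) = (L ^ B₆ * L ^ 4) ^ 2 := by rw [← pow_add, ← pow_mul]; ring_nf
  have hB9 : L ^ (3 * B₆ + 11) = (L ^ B₆) ^ 3 * L ^ 11 := by
    rw [← pow_mul, ← pow_add]; ring_nf
  have hη : 0 < 1 / L ^ (2 * (B₆ + 4)) := by positivity
  have hη1 : 1 / L ^ (2 * (B₆ + 4)) ≤ 1 / 2 := by
    refine one_div_le_one_div_of_le (by norm_num) ?_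
    calc (2 : ℝ) ≤ L := hL2
      _ = L ^ 1 := (pow_one L).symm
      _ ≤ L ^ (2 * (B₆ + 4)) := pow_le_pow_right₀ hL1 (by omega)
  have hlo : 4 / (1 / L ^ (2 * (B₆ + 4))) ≤ (x : ℝ) ^ (ε / 4) := by
    rw [div_div_eq_mul_div, div_one]
    exact e2
  have hUV : 28 * (k : ℝ) * (x : ℝ) ^ (ε / 4) ≤ y := by
    refine le_trans ?_ hy
    rw [le_div_iff₀ (by positivity)]
    calc 28 * (k : ℝ) * (x : ℝ) ^ (ε / 4) * L ^ B₆
        = (28 * L ^ B₆) * (k * (x : ℝ) ^ (ε / 4)) := by ring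
      _ ≤ (x : ℝ) ^ (1 / 3 + 3 * ε / 4) * ((x : ℝ) ^ (2 / 3 - ε) * (x : ℝ) ^ (ε / 4)) :=
          mul_le_mul e3 (mul_le_mul_of_nonneg_right hk (by positivity)) (by positivity)
            (by positivity)
      _ = x := by
          rw [← Real.rpow_add hx0, ← Real.rpow_add hx0]
          conv_rhs => rw [← Real.rpow_one (x : ℝ)]
          congr 1
          ring
  have hkη : (k : ℝ) ≤ 1 / L ^ (2 * (B₆ + 4)) * x := by
    rw [one_div, inv_mul_eq_div, le_div_iff₀ (by positivity)]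
    have hk' : (k : ℝ) ≤ (x : ℝ) ^ (2 / 3 : ℝ) :=
      hk.trans (Real.rpow_le_rpow_of_exponent_le (by linarith) (by linarith))
    calc (k : ℝ) * L ^ (2 * (B₆ + 4)) ≤ (x : ℝ) ^ (2 / 3 : ℝ) * (x : ℝ) ^ (1 / 3 : ℝ) :=
          mul_le_mul hk' (by linarith) (by positivity) (by positivity)
      _ = x := by
          rw [← Real.rpow_add hx0]
          norm_num
  have hlo1 : 1 ≤ (x : ℝ) ^ (ε / 4) := Real.one_le_rpow (by linarith) (by linarith)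
  have hk1 : (1 : ℝ) ≤ k := by exact_mod_cast Nat.one_le_iff_ne_zero.2 (NeZero.ne k)
  have hy3 : 3 ≤ y := by
    have : (3 : ℝ) ≤ y := by
      refine le_trans ?_ hUV
      have : (1 : ℝ) ≤ (k : ℝ) * (x : ℝ) ^ (ε / 4) := one_le_mul_of_one_le_of_one_le hk1 hlo1
      linarith
    exact_mod_cast this
  have hmain := core x y k (1 / L ^ (2 * (B₆ + 4))) ((x : ℝ) ^ (ε / 4)) C₁ C₂ C₃
    (2 / L ^ (3 * B₆ + 11)) e6 hyx (by omega) hη hη1 hlo hUV hkη hC₁.le hC₂.le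
    (by positivity) (fun U V hU hV hUy hVy hky => hv k U V y hU hV hy3 hUy hVy hky)
    (fun N hN => hτ2 x N (by omega) hN) (hτ4 x (by omega)) X hX1
    (fun χ hχ i h1 h2 => (hA χ hχ i h1 h2).trans (le_of_eq (by ring)))
  refine hmain.trans ?_
  rw [hB8, hB9]
  refine final_num x L (L ^ B₆) C₂ C₃ _ hx0 hL2 hR hC₃.le hLC2 hLC3 ?_
  rw [le_div_iff₀ (by positivity)]
  have h3 : (k : ℝ) ^ 3 * ((x : ℝ) ^ (ε / 4)) ^ 2 ≤
      ((x : ℝ) ^ (2 / 3 - ε)) ^ 3 * ((x : ℝ) ^ (ε / 4)) ^ 2 := by gcongr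
  calc 1682 * C₁ * ((k : ℝ) ^ 3 * ((x : ℝ) ^ (ε / 4)) ^ 2) * L ^ 6 * (3 * L ^ B₆)
      = ((k : ℝ) ^ 3 * ((x : ℝ) ^ (ε / 4)) ^ 2) * (5046 * C₁ * L ^ (B₆ + 6)) := by
        rw [pow_add]
        ring
    _ ≤ (((x : ℝ) ^ (2 / 3 - ε)) ^ 3 * ((x : ℝ) ^ (ε / 4)) ^ 2) * (x : ℝ) ^ (5 * ε / 2) :=
        mul_le_mul h3 e4 (by positivity) (by positivity)
    _ = (x : ℝ) ^ 2 := by
        rw [← Real.rpow_natCast ((x : ℝ) ^ (2 / 3 - ε)) 3, ← Real.rpow_mul hx0.le,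
          ← Real.rpow_natCast ((x : ℝ) ^ (ε / 4)) 2, ← Real.rpow_mul hx0.le,
          ← Real.rpow_add hx0, ← Real.rpow_add hx0, ← Real.rpow_natCast (x : ℝ) 2]
        congr 1
        push_cast
        ring

end Pool.Agent.HL
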