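import Pool.Agent.Work.MP_92f640_nt.HL.Defs
import Pool.Agent.Work.BV.Vaughan
import Pool.Agent.Work.BV.DivSum
import Pool.Agent.Work.BV.GaussLS

/-! # Module MeanV: mean values over all characters mod `k`

`mean_value`: orthogonality: `∑_χ ‖∑ b_n χ(n)‖² = φ(k) ∑_{c coprime} ‖∑_{n ≡ c} b_n‖²`
`≤ φ(k) (N/k + 1) ∑ ‖b_n‖²` (Cauchy in a class: at most `N/k + 1` integers) `≤ (N + k) ∑ ‖b_n‖²`.

`short_sum`: for `χ ≠ 1` the sum over a complete period vanishes, so `∑_{n ≤ Y} χ(n)` is the sum over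
the last `Y % k < k` integers; `mean_value` gives `≤ (k + k) k`.

`short_sum_log`: Abel summation, `S^log(Y) = log Y S(Y) - ∑_{1 ≤ j < Y} S(j) (log (j+1) - log j)`,
Cauchy with the weights `log (j+1) - log j` (total `log Y`), then `short_sum`.

`vdiff`: `psiC χ y - S3 χ U V y` is
`∑_{n ≤ V} Λ(n) χ(n) + ∑_{b ≤ U} μ(b) χ(b) ∑_{d ≤ y/b} χ(d) log d`
`- ∑_{b ≤ U} μ(b) χ(b) ∑_{c ≤ V} Λ(c) χ(c) ∑_{d ≤ y/(bc)} χ(d)` (`vid`); Cauchy, then sum over `χ ≠ 1`. -/

namespace Pool.Agent.HL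

open Finset Pool.Agent.BV
open scoped ArithmeticFunction.vonMangoldt ArithmeticFunction.Moebius

/-- the number of elements of a residue class in an interval -/
lemma mv_class_card (k M N c : ℕ) (hk : 0 < k) :
    (((Ioc M (M + N)).filter (fun n => n ≡ c [MOD k])).card : ℝ) ≤ (N : ℝ) / k + 1 := by
  have h := Nat.Ioc_filter_modEq_card M (M + N) hk c
  have hkq : (0 : ℚ) < k := by exact_mod_cast hk
  have h1 : (⌊(((M + N : ℕ) : ℚ) - c) / (k : ℚ)⌋ : ℚ) ≤ (((M + N : ℕ) : ℚ) - c) / k :=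
    Int.floor_le _
  have h2 : ((M : ℚ) - c) / k - 1 < (⌊((M : ℚ) - c) / (k : ℚ)⌋ : ℚ) := Int.sub_one_lt_floor _
  have h3 : ((((Ioc M (M + N)).filter (fun n => n ≡ c [MOD k])).card : ℤ) : ℚ)
      ≤ (N : ℚ) / k + 1 := by
    rw [h, Int.cast_max]
    apply max_le
    · have e : (((M + N : ℕ) : ℚ) - c) / k = ((M : ℚ) - c) / k + N / k := by
        push_cast
        rw [← add_div]
        congr 1
        ring
      rw [Int.cast_sub]
      linarith
    · have : (0 : ℚ) ≤ (N : ℚ) / k := by positivity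
      rw [Int.cast_zero]
      linarith
  have h4 : ((((Ioc M (M + N)).filter (fun n => n ≡ c [MOD k])).card : ℚ)) ≤ (N : ℚ) / k + 1 := by
    exact_mod_cast h3
  have h5 := (Rat.cast_le (K := ℝ)).2 h4
  push_cast at h5
  exact h5

theorem mean_value (k : ℕ) [NeZero k] (M N : ℕ) (b : ℕ → ℂ) :
    ∑ χ : DirichletCharacter ℂ k, ‖∑ n ∈ Ioc M (M + N), b n * χ (n : ZMod k)‖ ^ 2 ≤
      ((N : ℝ) + k) * ∑ n ∈ Ioc M (M + N), ‖b n‖ ^ 2 := by
  have hk : 0 < k := Nat.pos_of_ne_zero (NeZero.ne k)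
  have hkR : (0 : ℝ) < k := by exact_mod_cast hk
  set F : ZMod k → ℂ := fun c =>
    ∑ n ∈ (Ioc M (M + N)).filter (fun n : ℕ => (n : ZMod k) = c), b n with hF
  have h1 : ∀ χ : DirichletCharacter ℂ k,
      ∑ n ∈ Ioc M (M + N), b n * χ (n : ZMod k) = ∑ c, χ c * F c := by
    intro χ
    rw [← Finset.sum_fiberwise (Ioc M (M + N)) (fun n : ℕ => (n : ZMod k))
      (fun n => b n * χ (n : ZMod k))]
    refine sum_congr rfl fun c _ => ?_
    rw [hF, mul_sum]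
    refine sum_congr rfl fun n hn => ?_
    rw [(mem_filter.1 hn).2]
    ring
  have h2 : ∑ χ : DirichletCharacter ℂ k, ‖∑ n ∈ Ioc M (M + N), b n * χ (n : ZMod k)‖ ^ 2 =
      ∑ χ : DirichletCharacter ℂ k, ‖∑ c, χ⁻¹ c * F c‖ ^ 2 := by
    rw [sum_congr rfl fun χ _ => by rw [h1 χ]]
    exact (Equiv.sum_comp (Equiv.inv (DirichletCharacter ℂ k))
      (fun χ => ‖∑ c, χ c * F c‖ ^ 2)).symm
  rw [h2, gaussLS_orth]
  have h3 : ∑ u : (ZMod k)ˣ, ‖F u‖ ^ 2 ≤ ∑ c : ZMod k, ‖F c‖ ^ 2 := by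
    have := Finset.sum_map (univ : Finset (ZMod k)ˣ) ⟨Units.val, Units.val_injective⟩
      (fun c : ZMod k => ‖F c‖ ^ 2)
    simp only [Function.Embedding.coeFn_mk] at this
    rw [← this]
    exact sum_le_sum_of_subset_of_nonneg (subset_univ _) (fun _ _ _ => by positivity)
  have h4 : ∀ c : ZMod k, ‖F c‖ ^ 2 ≤ ((N : ℝ) / k + 1) *
      ∑ n ∈ (Ioc M (M + N)).filter (fun n : ℕ => (n : ZMod k) = c), ‖b n‖ ^ 2 := by
    intro c
    have hfil : (Ioc M (M + N)).filter (fun n : ℕ => (n : ZMod k) = c) =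
        (Ioc M (M + N)).filter (fun n => n ≡ c.val [MOD k]) := by
      refine filter_congr fun n _ => ?_
      rw [← ZMod.natCast_eq_natCast_iff, ZMod.natCast_zmod_val]
    have hcard := mv_class_card k M N c.val hk
    rw [← hfil] at hcard
    calc ‖F c‖ ^ 2 ≤ (∑ n ∈ (Ioc M (M + N)).filter (fun n : ℕ => (n : ZMod k) = c), ‖b n‖) ^ 2 :=
          pow_le_pow_left₀ (norm_nonneg _) (norm_sum_le _ _) 2
      _ ≤ (((Ioc M (M + N)).filter (fun n : ℕ => (n : ZMod k) = c)).card : ℝ) *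
          ∑ n ∈ (Ioc M (M + N)).filter (fun n : ℕ => (n : ZMod k) = c), ‖b n‖ ^ 2 :=
          sq_sum_le_card_mul_sum_sq
      _ ≤ _ := mul_le_mul_of_nonneg_right hcard (by positivity)
  have h5 : ∑ c : ZMod k, ‖F c‖ ^ 2 ≤ ((N : ℝ) / k + 1) * ∑ n ∈ Ioc M (M + N), ‖b n‖ ^ 2 := by
    refine (sum_le_sum fun c _ => h4 c).trans (le_of_eq ?_)
    rw [← mul_sum, Finset.sum_fiberwise (Ioc M (M + N)) (fun n : ℕ => (n : ZMod k))
      (fun n => ‖b n‖ ^ 2)]
  have h6 : (k.totient : ℝ) ≤ k := by exact_mod_cast Nat.totient_le k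
  calc (k.totient : ℝ) * ∑ u : (ZMod k)ˣ, ‖F u‖ ^ 2
      ≤ k * (((N : ℝ) / k + 1) * ∑ n ∈ Ioc M (M + N), ‖b n‖ ^ 2) :=
        mul_le_mul h6 (h3.trans h5) (by positivity) hkR.le
    _ = _ := by
        rw [← mul_assoc]
        congr 1
        field_simp

lemma char_sum_tail {k : ℕ} [NeZero k] (χ : DirichletCharacter ℂ k) (hχ : χ ≠ 1) (Y : ℕ) :
    ∑ n ∈ Icc 1 Y, χ (n : ZMod k) =
      ∑ n ∈ Ioc (k * (Y / k)) (k * (Y / k) + Y % k), χ (n : ZMod k) := by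
  have h0 : ∀ t : ℕ, ∑ n ∈ Ioc 0 (k * t), χ (n : ZMod k) = 0 := by
    intro t
    induction t with
    | zero => simp
    | succ t ih =>
      rw [← Finset.sum_Ioc_consecutive _ (Nat.zero_le (k * t)) (by rw [Nat.mul_succ]; omega), ih,
        zero_add, Nat.mul_succ]
      exact Pool.Agent.Work.MP_92f640_nt.char_sum_period χ hχ _
  have h1 : Icc 1 Y = Ioc 0 Y := by
    ext n
    simp only [mem_Icc, mem_Ioc]
    omega
  have h2 : k * (Y / k) + Y % k = Y := Nat.div_add_mod Y k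
  rw [h1, h2, ← Finset.sum_Ioc_consecutive _ (Nat.zero_le (k * (Y / k))) (by omega), h0, zero_add]

open Classical in
theorem short_sum (k : ℕ) [NeZero k] (Y : ℕ) :
    ∑ χ ∈ (univ : Finset (DirichletCharacter ℂ k)).erase 1,
        ‖∑ n ∈ Icc 1 Y, χ (n : ZMod k)‖ ^ 2 ≤ 2 * (k : ℝ) ^ 2 := by
  have hk : 0 < k := Nat.pos_of_ne_zero (NeZero.ne k)
  have h1 := mean_value k (k * (Y / k)) (Y % k) (fun _ => 1)
  have hmod : ((Y % k : ℕ) : ℝ) ≤ k := by exact_mod_cast (Nat.mod_lt Y hk).le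
  calc ∑ χ ∈ (univ : Finset (DirichletCharacter ℂ k)).erase 1,
        ‖∑ n ∈ Icc 1 Y, χ (n : ZMod k)‖ ^ 2
      = ∑ χ ∈ (univ : Finset (DirichletCharacter ℂ k)).erase 1,
        ‖∑ n ∈ Ioc (k * (Y / k)) (k * (Y / k) + Y % k), 1 * χ (n : ZMod k)‖ ^ 2 := by
        refine sum_congr rfl fun χ hχ => ?_
        rw [char_sum_tail χ (ne_of_mem_erase hχ)]
        simp only [one_mul]
    _ ≤ ∑ χ : DirichletCharacter ℂ k,
        ‖∑ n ∈ Ioc (k * (Y / k)) (k * (Y / k) + Y % k), 1 * χ (n : ZMod k)‖ ^ 2 :=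
        sum_le_sum_of_subset_of_nonneg (erase_subset _ _) (fun _ _ _ => by positivity)
    _ ≤ (((Y % k : ℕ) : ℝ) + k) * ((Y % k : ℕ) : ℝ) := by
        refine h1.trans (le_of_eq ?_)
        simp
    _ ≤ (k + k) * k := by
        refine mul_le_mul (by linarith) hmod (by positivity) (by positivity)
    _ = 2 * (k : ℝ) ^ 2 := by ring

/-- Abel summation -/
lemma mv_abel {k : ℕ} (χ : DirichletCharacter ℂ k) (Y : ℕ) (hY : 1 ≤ Y) :
    ∑ d ∈ Icc 1 Y, ((Real.log d : ℝ) : ℂ) * χ (d : ZMod k) =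
      (∑ n ∈ Icc 1 Y, χ (n : ZMod k)) * ((Real.log Y : ℝ) : ℂ) -
        ∑ d ∈ Ico 1 Y, (∑ n ∈ Icc 1 d, χ (n : ZMod k)) *
          (((Real.log (d + 1 : ℕ) - Real.log d : ℝ)) : ℂ) := by
  induction Y, hY using Nat.le_induction with
  | base => simp
  | succ y hy ih =>
    rw [Finset.sum_Icc_succ_top (by omega), ih, Finset.sum_Ico_succ_top hy,
      Finset.sum_Icc_succ_top (by omega : 1 ≤ y + 1) (fun n => χ (n : ZMod k))]
    push_cast
    ring

lemma mv_two (a b : ℂ) : ‖a - b‖ ^ 2 ≤ 2 * ‖a‖ ^ 2 + 2 * ‖b‖ ^ 2 := by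
  have h1 : ‖a - b‖ ≤ ‖a‖ + ‖b‖ := norm_sub_le _ _
  have h2 : ‖a - b‖ ^ 2 ≤ (‖a‖ + ‖b‖) ^ 2 := pow_le_pow_left₀ (norm_nonneg _) h1 2
  nlinarith [sq_nonneg (‖a‖ - ‖b‖)]

lemma mv_log_tele (Y : ℕ) (hY : 1 ≤ Y) :
    ∑ d ∈ Ico 1 Y, (Real.log (d + 1 : ℕ) - Real.log d) = Real.log Y := by
  induction Y, hY using Nat.le_induction with
  | base => simp
  | succ y hy ih =>
    rw [Finset.sum_Ico_succ_top hy, ih]
    ring

open Classical in
theorem short_sum_log (k : ℕ) [NeZero k] (Y : ℕ) (hY : 1 ≤ Y) :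
    ∑ χ ∈ (univ : Finset (DirichletCharacter ℂ k)).erase 1,
        ‖∑ n ∈ Icc 1 Y, ((Real.log n : ℝ) : ℂ) * χ (n : ZMod k)‖ ^ 2 ≤
      8 * (k : ℝ) ^ 2 * (Real.log Y) ^ 2 := by
  have hlog : 0 ≤ Real.log Y := Real.log_natCast_nonneg Y
  set w : ℕ → ℝ := fun d => Real.log (d + 1 : ℕ) - Real.log d with hw
  have hw0 : ∀ d ∈ Ico 1 Y, 0 ≤ w d := by
    intro d hd
    have hd1 : 1 ≤ d := (mem_Ico.mp hd).1
    have hl : Real.log d ≤ Real.log (d + 1 : ℕ) :=
      Real.log_le_log (by exact_mod_cast hd1) (by push_cast; linarith)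
    simp only [hw]
    linarith
  have hpt : ∀ χ : DirichletCharacter ℂ k,
      ‖∑ n ∈ Icc 1 Y, ((Real.log n : ℝ) : ℂ) * χ (n : ZMod k)‖ ^ 2 ≤
        2 * (Real.log Y) ^ 2 * ‖∑ n ∈ Icc 1 Y, χ (n : ZMod k)‖ ^ 2 +
        2 * (Real.log Y * ∑ d ∈ Ico 1 Y, w d * ‖∑ n ∈ Icc 1 d, χ (n : ZMod k)‖ ^ 2) := by
    intro χ
    rw [mv_abel χ Y hY]
    refine (mv_two _ _).trans ?_
    have e1 : ‖(∑ n ∈ Icc 1 Y, χ (n : ZMod k)) * ((Real.log Y : ℝ) : ℂ)‖ ^ 2 =
        (Real.log Y) ^ 2 * ‖∑ n ∈ Icc 1 Y, χ (n : ZMod k)‖ ^ 2 := by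
      rw [norm_mul, Complex.norm_real, Real.norm_of_nonneg hlog]
      ring
    have e2 : ‖∑ d ∈ Ico 1 Y, (∑ n ∈ Icc 1 d, χ (n : ZMod k)) * ((w d : ℝ) : ℂ)‖ ^ 2 ≤
        Real.log Y * ∑ d ∈ Ico 1 Y, w d * ‖∑ n ∈ Icc 1 d, χ (n : ZMod k)‖ ^ 2 := by
      calc ‖∑ d ∈ Ico 1 Y, (∑ n ∈ Icc 1 d, χ (n : ZMod k)) * ((w d : ℝ) : ℂ)‖ ^ 2
          ≤ (∑ d ∈ Ico 1 Y, w d * ‖∑ n ∈ Icc 1 d, χ (n : ZMod k)‖) ^ 2 := by
            refine pow_le_pow_left₀ (norm_nonneg _) ?_ 2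
            refine (norm_sum_le _ _).trans (le_of_eq ?_)
            refine sum_congr rfl fun d hd => ?_
            rw [norm_mul, Complex.norm_real, Real.norm_of_nonneg (hw0 d hd)]
            ring
        _ ≤ (∑ d ∈ Ico 1 Y, w d) *
            ∑ d ∈ Ico 1 Y, w d * ‖∑ n ∈ Icc 1 d, χ (n : ZMod k)‖ ^ 2 := by
            refine Finset.sum_sq_le_sum_mul_sum_of_sq_le_mul _ hw0
              (fun d hd => mul_nonneg (hw0 d hd) (by positivity)) (fun d _ => le_of_eq ?_)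
            ring
        _ = _ := by rw [mv_log_tele Y hY]
    rw [e1]
    nlinarith [e2]
  calc _ ≤ ∑ χ ∈ (univ : Finset (DirichletCharacter ℂ k)).erase 1,
        (2 * (Real.log Y) ^ 2 * ‖∑ n ∈ Icc 1 Y, χ (n : ZMod k)‖ ^ 2 +
        2 * (Real.log Y * ∑ d ∈ Ico 1 Y, w d * ‖∑ n ∈ Icc 1 d, χ (n : ZMod k)‖ ^ 2)) :=
        sum_le_sum fun χ _ => hpt χ
    _ = 2 * (Real.log Y) ^ 2 * (∑ χ ∈ (univ : Finset (DirichletCharacter ℂ k)).erase 1,
          ‖∑ n ∈ Icc 1 Y, χ (n : ZMod k)‖ ^ 2) +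
        2 * (Real.log Y * ∑ d ∈ Ico 1 Y, w d *
          ∑ χ ∈ (univ : Finset (DirichletCharacter ℂ k)).erase 1,
            ‖∑ n ∈ Icc 1 d, χ (n : ZMod k)‖ ^ 2) := by
        rw [sum_add_distrib, ← mul_sum, ← mul_sum, ← mul_sum, sum_comm]
        simp only [mul_sum]
    _ ≤ 2 * (Real.log Y) ^ 2 * (2 * (k : ℝ) ^ 2) +
        2 * (Real.log Y * ∑ d ∈ Ico 1 Y, w d * (2 * (k : ℝ) ^ 2)) := by
        refine add_le_add (mul_le_mul_of_nonneg_left (short_sum k Y) (by positivity)) ?_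
        refine mul_le_mul_of_nonneg_left ?_ (by norm_num)
        refine mul_le_mul_of_nonneg_left ?_ hlog
        exact sum_le_sum fun d hd => mul_le_mul_of_nonneg_left (short_sum k d) (hw0 d hd)
    _ = 8 * (k : ℝ) ^ 2 * (Real.log Y) ^ 2 := by
        rw [← sum_mul, mv_log_tele Y hY]
        ring

/-- Vaughan's identity -/
theorem vid {q : ℕ} (χ : DirichletCharacter ℂ q) (U V x : ℕ) (hUx : U ≤ x) (hVx : V ≤ x) :
    psiC χ x - S3 χ U V x =
      ∑ n ∈ Icc 1 V, ((Λ n : ℝ) : ℂ) * χ (n : ZMod q) +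
      ∑ b ∈ Icc 1 U, ((((μ b : ℤ) : ℝ)) : ℂ) * χ (b : ZMod q) *
        ∑ d ∈ Icc 1 (x / b), ((Real.log d : ℝ) : ℂ) * χ (d : ZMod q) -
      ∑ b ∈ Icc 1 U, ((((μ b : ℤ) : ℝ)) : ℂ) * χ (b : ZMod q) *
        ∑ c ∈ Icc 1 V, ((Λ c : ℝ) : ℂ) * χ (c : ZMod q) *
          ∑ d ∈ Icc 1 (x / b / c), χ (d : ZMod q) := by
  let M1 : ArithmeticFunction ℝ := ⟨fun b => if b ≤ U then ((μ b : ℤ) : ℝ) else 0, by simp⟩
  let L1 : ArithmeticFunction ℝ := ⟨fun c => if c ≤ V then Λ c else 0, by simp⟩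
  let Z : ArithmeticFunction ℝ := (ArithmeticFunction.zeta : ArithmeticFunction ℝ)
  let Mu : ArithmeticFunction ℝ :=
    ((ArithmeticFunction.moebius : ArithmeticFunction ℤ) : ArithmeticFunction ℝ)
  have hM1 : ∀ b, M1 b = if b ≤ U then ((μ b : ℤ) : ℝ) else 0 := fun _ => rfl
  have hL1 : ∀ c, L1 c = if c ≤ V then Λ c else 0 := fun _ => rfl
  have h1 : Mu * Z = 1 := ArithmeticFunction.coe_moebius_mul_coe_zeta
  have h2 : ArithmeticFunction.vonMangoldt * Z = ArithmeticFunction.log :=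
    ArithmeticFunction.vonMangoldt_mul_zeta
  have hid : ArithmeticFunction.vonMangoldt = L1 + M1 * ArithmeticFunction.log - M1 * (L1 * Z) +
      (ArithmeticFunction.vonMangoldt - L1) * ((Mu - M1) * Z) := by
    linear_combination (L1 - ArithmeticFunction.vonMangoldt) * h1 + M1 * h2
  have hbeta : ∀ k, ((Mu - M1) * Z) k = beta U k := by
    intro k
    rw [ArithmeticFunction.coe_mul_zeta_apply, beta, Finset.sum_filter]
    refine Finset.sum_congr rfl (fun b _ => ?_)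
    have : (Mu - M1) b = ((μ b : ℤ) : ℝ) - M1 b := rfl
    rw [this, hM1]
    by_cases hb : b ≤ U
    · rw [if_pos hb, if_neg (not_lt.mpr hb), sub_self]
    · rw [if_neg hb, if_pos (not_le.mp hb), sub_zero]
  have hbeta0 : ∀ k, k ≤ U → beta U k = 0 := by
    intro k hk
    rw [beta]
    refine Finset.sum_eq_zero (fun b hb => ?_)
    obtain ⟨hb1, hb2⟩ := Finset.mem_filter.mp hb
    rcases Nat.eq_zero_or_pos k with rfl | hk0
    · simp at hb1
    · have := Nat.le_of_dvd hk0 (Nat.dvd_of_mem_divisors hb1)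
      omega
  have hS3 : ∑ a ∈ Icc 1 x, (((ArithmeticFunction.vonMangoldt - L1) a : ℝ) : ℂ) *
        χ (a : ZMod q) *
        ∑ b ∈ Icc 1 (x / a), (((((Mu - M1) * Z) b) : ℝ) : ℂ) * χ (b : ZMod q) = S3 χ U V x := by
    rw [S3]
    have hsub : Ioc V x ⊆ Icc 1 x := by
      intro c hc
      rw [mem_Ioc] at hc
      rw [mem_Icc]
      omega
    rw [← Finset.sum_subset hsub]
    · refine Finset.sum_congr rfl (fun c hc => ?_)
      rw [mem_Ioc] at hc
      have hc0 : 0 < c := by omega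
      have e1 : (ArithmeticFunction.vonMangoldt - L1) c = Λ c := by
        have : (ArithmeticFunction.vonMangoldt - L1) c = Λ c - L1 c := rfl
        rw [this, hL1, if_neg (by omega), sub_zero]
      rw [e1, Finset.mul_sum, ← Finset.sum_filter]
      have hsub2 : (Ioc U x).filter (fun k => c * k ≤ x) ⊆ Icc 1 (x / c) := by
        intro k hk
        rw [mem_filter, mem_Ioc] at hk
        rw [mem_Icc, Nat.le_div_iff_mul_le hc0, mul_comm]
        omega
      rw [← Finset.sum_subset hsub2]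
      · refine Finset.sum_congr rfl (fun k hk => ?_)
        rw [hbeta, Nat.cast_mul, map_mul]
        ring
      · intro k hk hk2
        rw [mem_Icc, Nat.le_div_iff_mul_le hc0, mul_comm] at hk
        have : k ≤ U := by
          by_contra hcon
          apply hk2
          rw [mem_filter, mem_Ioc]
          refine ⟨⟨by omega, le_trans (Nat.le_mul_of_pos_left k hc0) hk.2⟩, hk.2⟩
        rw [hbeta, hbeta0 k this]
        simp
    · intro c hc hc2
      have : c ≤ V := by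
        rw [mem_Icc] at hc
        rw [mem_Ioc] at hc2
        omega
      have e1 : (ArithmeticFunction.vonMangoldt - L1) c = 0 := by
        have : (ArithmeticFunction.vonMangoldt - L1) c = Λ c - L1 c := rfl
        rw [this, hL1, if_pos (by omega), sub_self]
      rw [e1]
      simp
  have hpsi : psiC χ x = ∑ n ∈ Icc 1 x, ((L1 n : ℝ) : ℂ) * χ (n : ZMod q) +
      ∑ n ∈ Icc 1 x, (((M1 * ArithmeticFunction.log) n : ℝ) : ℂ) * χ (n : ZMod q) -
      ∑ n ∈ Icc 1 x, (((M1 * (L1 * Z)) n : ℝ) : ℂ) * χ (n : ZMod q) +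
      ∑ n ∈ Icc 1 x, ((((ArithmeticFunction.vonMangoldt - L1) * ((Mu - M1) * Z)) n : ℝ) : ℂ) *
        χ (n : ZMod q) := by
    rw [psiC, ← Finset.sum_add_distrib, ← Finset.sum_sub_distrib, ← Finset.sum_add_distrib]
    refine Finset.sum_congr rfl (fun n _ => ?_)
    have e : Λ n = L1 n + (M1 * ArithmeticFunction.log) n - (M1 * (L1 * Z)) n +
        ((ArithmeticFunction.vonMangoldt - L1) * ((Mu - M1) * Z)) n := by
      conv_lhs => rw [hid]
      rfl
    rw [e]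
    push_cast
    ring
  rw [hpsi, vaughan_conv χ (ArithmeticFunction.vonMangoldt - L1) ((Mu - M1) * Z), hS3,
    add_sub_cancel_right, vaughan_conv χ M1 ArithmeticFunction.log, vaughan_conv χ M1 (L1 * Z)]
  have hIU : Icc 1 U ⊆ Icc 1 x := Icc_subset_Icc_right hUx
  have hIV : Icc 1 V ⊆ Icc 1 x := Icc_subset_Icc_right hVx
  have hM1z : ∀ b ∈ Icc 1 x, b ∉ Icc 1 U → M1 b = 0 := by
    intro b hb hb2
    rw [mem_Icc] at hb hb2
    rw [hM1, if_neg (by omega)]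
  have hM1e : ∀ b ∈ Icc 1 U, M1 b = ((μ b : ℤ) : ℝ) := by
    intro b hb
    rw [hM1, if_pos (mem_Icc.1 hb).2]
  have hL1e : ∀ c ∈ Icc 1 V, L1 c = Λ c := by
    intro c hc
    rw [hL1, if_pos (mem_Icc.1 hc).2]
  congr 1
  · congr 1
    · rw [← Finset.sum_subset hIV]
      · exact sum_congr rfl fun n hn => by rw [hL1e n hn]
      · intro n hn hn2
        rw [mem_Icc] at hn hn2
        rw [hL1, if_neg (by omega)]
        simp
    · rw [← Finset.sum_subset hIU]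
      · refine sum_congr rfl fun b hb => ?_
        rw [hM1e b hb]
        rfl
      · intro b hb hb2
        rw [hM1z b hb hb2]
        simp
  · rw [← Finset.sum_subset hIU]
    · refine sum_congr rfl fun b hb => ?_
      rw [hM1e b hb, vaughan_conv χ L1 Z]
      congr 1
      have hz : ∀ y : ℕ, ∑ d ∈ Icc 1 y, ((Z d : ℝ) : ℂ) * χ (d : ZMod q) =
          ∑ d ∈ Icc 1 y, χ (d : ZMod q) := by
        intro y
        refine sum_congr rfl fun d hd => ?_
        have hd1 : d ≠ 0 := by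
          have := (mem_Icc.mp hd).1
          omega
        have : Z d = 1 := by
          show ((ArithmeticFunction.zeta : ArithmeticFunction ℝ)) d = 1
          rw [ArithmeticFunction.natCoe_apply, ArithmeticFunction.zeta_apply,
            if_neg hd1, Nat.cast_one]
        rw [this, Complex.ofReal_one, one_mul]
      simp only [hz]
      -- both sums agree with the sum over c ≤ min
      have hA : ∑ c ∈ Icc 1 (x / b), ((L1 c : ℝ) : ℂ) * χ (c : ZMod q) *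
            ∑ d ∈ Icc 1 (x / b / c), χ (d : ZMod q) =
          ∑ c ∈ Icc 1 x, ((L1 c : ℝ) : ℂ) * χ (c : ZMod q) *
            ∑ d ∈ Icc 1 (x / b / c), χ (d : ZMod q) := by
        refine Finset.sum_subset (Icc_subset_Icc_right (Nat.div_le_self x b)) ?_
        intro c hc hc2
        rw [mem_Icc] at hc hc2
        have : x / b / c = 0 := Nat.div_eq_of_lt (by omega)
        rw [this]
        simp
      have hB : ∑ c ∈ Icc 1 V, ((Λ c : ℝ) : ℂ) * χ (c : ZMod q) *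
            ∑ d ∈ Icc 1 (x / b / c), χ (d : ZMod q) =
          ∑ c ∈ Icc 1 x, ((L1 c : ℝ) : ℂ) * χ (c : ZMod q) *
            ∑ d ∈ Icc 1 (x / b / c), χ (d : ZMod q) := by
        rw [← Finset.sum_subset hIV]
        · exact sum_congr rfl fun c hc => by rw [hL1e c hc]
        · intro c hc hc2
          rw [mem_Icc] at hc hc2
          rw [hL1, if_neg (by omega)]
          simp
      rw [hA, hB]
    · intro b hb hb2
      rw [hM1z b hb hb2]
      simp

lemma mv_cauchy (s : Finset ℕ) (z : ℕ → ℂ) :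
    ‖∑ b ∈ s, z b‖ ^ 2 ≤ s.card * ∑ b ∈ s, ‖z b‖ ^ 2 :=
  (pow_le_pow_left₀ (norm_nonneg _) (norm_sum_le _ _) 2).trans sq_sum_le_card_mul_sum_sq

open Classical in
theorem vdiff : ∃ C : ℝ, 0 < C ∧ ∀ (k : ℕ) [NeZero k] (U V y : ℕ), 1 ≤ U → 1 ≤ V → 3 ≤ y →
    U * V ≤ y →
    ∑ χ ∈ (univ : Finset (DirichletCharacter ℂ k)).erase 1, ‖psiC χ y - S3 χ U V y‖ ^ 2 ≤
      C * ((k : ℝ) * U * V) ^ 2 * (Real.log y) ^ 4 := by
  refine ⟨48, by norm_num, ?_⟩
  intro k _ U V y hU hV hy hUV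
  have hk : 0 < k := Nat.pos_of_ne_zero (NeZero.ne k)
  have hUy : U ≤ y := le_trans (Nat.le_mul_of_pos_right U hV) hUV
  have hVy : V ≤ y := le_trans (Nat.le_mul_of_pos_left V hU) hUV
  have hL := DivSum_log y hy
  set L : ℝ := Real.log y with hLdef
  have hk1 : (1 : ℝ) ≤ k := by exact_mod_cast hk
  have hU1 : (1 : ℝ) ≤ U := by exact_mod_cast hU
  have hV1 : (1 : ℝ) ≤ V := by exact_mod_cast hV
  have hchi : ∀ (χ : DirichletCharacter ℂ k) (n : ℕ), ‖χ (n : ZMod k)‖ ≤ 1 :=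
    fun χ n => DirichletCharacter.norm_le_one χ _
  have hmu : ∀ b : ℕ, ‖((((μ b : ℤ) : ℝ)) : ℂ)‖ ≤ 1 := by
    intro b
    rw [Complex.norm_real, Real.norm_eq_abs]
    have := ArithmeticFunction.abs_moebius_le_one (n := b)
    exact_mod_cast this
  have hLam : ∀ c ∈ Icc 1 V, ‖((Λ c : ℝ) : ℂ)‖ ≤ L := by
    intro c hc
    rw [mem_Icc] at hc
    rw [Complex.norm_real, Real.norm_of_nonneg ArithmeticFunction.vonMangoldt_nonneg]
    refine ArithmeticFunction.vonMangoldt_le_log.trans ?_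
    exact Real.log_le_log (by exact_mod_cast (by omega : 0 < c))
      (by exact_mod_cast (by omega : c ≤ y))
  -- the three parts
  set T1 : DirichletCharacter ℂ k → ℂ := fun χ =>
    ∑ n ∈ Icc 1 V, ((Λ n : ℝ) : ℂ) * χ (n : ZMod k) with hT1
  set T2 : DirichletCharacter ℂ k → ℂ := fun χ =>
    ∑ b ∈ Icc 1 U, ((((μ b : ℤ) : ℝ)) : ℂ) * χ (b : ZMod k) *
        ∑ d ∈ Icc 1 (y / b), ((Real.log d : ℝ) : ℂ) * χ (d : ZMod k) with hT2
  set T3 : DirichletCharacter ℂ k → ℂ := fun χ =>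
    ∑ b ∈ Icc 1 U, ((((μ b : ℤ) : ℝ)) : ℂ) * χ (b : ZMod k) *
        ∑ c ∈ Icc 1 V, ((Λ c : ℝ) : ℂ) * χ (c : ZMod k) *
          ∑ d ∈ Icc 1 (y / b / c), χ (d : ZMod k) with hT3
  have hA1 : ∑ χ ∈ (univ : Finset (DirichletCharacter ℂ k)).erase 1, ‖T1 χ‖ ^ 2 ≤
      2 * ((k : ℝ) * U * V) ^ 2 * L ^ 2 := by
    have hIV : Icc 1 V = Ioc 0 (0 + V) := by
      ext n
      simp only [mem_Icc, mem_Ioc]
      omega
    have h1 := mean_value k 0 V (fun n => ((Λ n : ℝ) : ℂ))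
    rw [← hIV] at h1
    calc ∑ χ ∈ (univ : Finset (DirichletCharacter ℂ k)).erase 1, ‖T1 χ‖ ^ 2
        ≤ ∑ χ : DirichletCharacter ℂ k, ‖T1 χ‖ ^ 2 :=
          sum_le_sum_of_subset_of_nonneg (erase_subset _ _) (fun _ _ _ => by positivity)
      _ ≤ ((V : ℝ) + k) * ∑ n ∈ Icc 1 V, ‖((Λ n : ℝ) : ℂ)‖ ^ 2 := h1
      _ ≤ ((V : ℝ) + k) * (V * L ^ 2) := by
          refine mul_le_mul_of_nonneg_left ?_ (by positivity)
          calc ∑ n ∈ Icc 1 V, ‖((Λ n : ℝ) : ℂ)‖ ^ 2 ≤ ∑ n ∈ Icc 1 V, L ^ 2 :=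
                sum_le_sum fun n hn => pow_le_pow_left₀ (norm_nonneg _) (hLam n hn) 2
            _ = V * L ^ 2 := by simp
      _ ≤ 2 * ((k : ℝ) * U * V) ^ 2 * L ^ 2 := by
          have h2 : (V : ℝ) + k ≤ 2 * (k * V) := by nlinarith
          have h3 : ((V : ℝ) + k) * V ≤ 2 * ((k : ℝ) * U * V) ^ 2 := by
            have h4 : (1 : ℝ) ≤ (U : ℝ) ^ 2 := one_le_pow₀ hU1
            have h5 : ((V : ℝ) + k) * V ≤ 2 * (k * V) * V :=
              mul_le_mul_of_nonneg_right h2 (by positivity)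
            have h6 : (k : ℝ) * V * V ≤ (k * V) ^ 2 := by nlinarith [mul_pos (by linarith : (0 : ℝ) < V) (by linarith : (0 : ℝ) < V)]
            have h7 : ((k : ℝ) * V) ^ 2 ≤ ((k : ℝ) * U * V) ^ 2 := by
              have : ((k : ℝ) * U * V) ^ 2 = (k * V) ^ 2 * U ^ 2 := by ring
              rw [this]
              exact le_mul_of_one_le_right (by positivity) h4
            linarith
          calc ((V : ℝ) + k) * (V * L ^ 2) = (((V : ℝ) + k) * V) * L ^ 2 := by ring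
            _ ≤ _ := mul_le_mul_of_nonneg_right h3 (by positivity)
  have hA2 : ∑ χ ∈ (univ : Finset (DirichletCharacter ℂ k)).erase 1, ‖T2 χ‖ ^ 2 ≤
      8 * ((k : ℝ) * U * V) ^ 2 * L ^ 2 := by
    calc ∑ χ ∈ (univ : Finset (DirichletCharacter ℂ k)).erase 1, ‖T2 χ‖ ^ 2
        ≤ ∑ χ ∈ (univ : Finset (DirichletCharacter ℂ k)).erase 1,
          (U : ℝ) * ∑ b ∈ Icc 1 U,
            ‖∑ d ∈ Icc 1 (y / b), ((Real.log d : ℝ) : ℂ) * χ (d : ZMod k)‖ ^ 2 := by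
          refine sum_le_sum fun χ _ => ?_
          refine (mv_cauchy _ _).trans ?_
          rw [Nat.card_Icc, Nat.add_sub_cancel]
          refine mul_le_mul_of_nonneg_left (sum_le_sum fun b _ => ?_) (by positivity)
          refine pow_le_pow_left₀ (norm_nonneg _) ?_ 2
          rw [norm_mul, norm_mul]
          calc _ ≤ 1 * 1 * ‖∑ d ∈ Icc 1 (y / b), ((Real.log d : ℝ) : ℂ) * χ (d : ZMod k)‖ := by
                refine mul_le_mul_of_nonneg_right ?_ (norm_nonneg _)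
                exact mul_le_mul (hmu b) (hchi χ b) (norm_nonneg _) (by norm_num)
            _ = _ := by ring
      _ = (U : ℝ) * ∑ b ∈ Icc 1 U, ∑ χ ∈ (univ : Finset (DirichletCharacter ℂ k)).erase 1,
            ‖∑ d ∈ Icc 1 (y / b), ((Real.log d : ℝ) : ℂ) * χ (d : ZMod k)‖ ^ 2 := by
          rw [← mul_sum, sum_comm]
      _ ≤ (U : ℝ) * ∑ b ∈ Icc 1 U, 8 * (k : ℝ) ^ 2 * L ^ 2 := by
          refine mul_le_mul_of_nonneg_left (sum_le_sum fun b hb => ?_) (by positivity)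
          rw [mem_Icc] at hb
          have hyb : 1 ≤ y / b := by
            rw [Nat.le_div_iff_mul_le (by omega)]
            omega
          refine (short_sum_log k (y / b) hyb).trans ?_
          refine mul_le_mul_of_nonneg_left ?_ (by positivity)
          refine pow_le_pow_left₀ (Real.log_natCast_nonneg _) ?_ 2
          exact Real.log_le_log (by exact_mod_cast hyb)
            (by exact_mod_cast Nat.div_le_self y b)
      _ = 8 * ((k : ℝ) * U) ^ 2 * L ^ 2 := by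
          rw [sum_const, Nat.card_Icc, Nat.add_sub_cancel, nsmul_eq_mul]
          ring
      _ ≤ 8 * ((k : ℝ) * U * V) ^ 2 * L ^ 2 := by
          have h4 : (1 : ℝ) ≤ (V : ℝ) ^ 2 := one_le_pow₀ hV1
          have h7 : ((k : ℝ) * U) ^ 2 ≤ ((k : ℝ) * U * V) ^ 2 := by
            rw [mul_pow ((k : ℝ) * U) (V : ℝ)]
            exact le_mul_of_one_le_right (by positivity) h4
          refine mul_le_mul_of_nonneg_right ?_ (by positivity)
          linarith
  have hA3 : ∑ χ ∈ (univ : Finset (DirichletCharacter ℂ k)).erase 1, ‖T3 χ‖ ^ 2 ≤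
      2 * ((k : ℝ) * U * V) ^ 2 * L ^ 2 := by
    calc ∑ χ ∈ (univ : Finset (DirichletCharacter ℂ k)).erase 1, ‖T3 χ‖ ^ 2
        ≤ ∑ χ ∈ (univ : Finset (DirichletCharacter ℂ k)).erase 1,
          (U : ℝ) * ∑ b ∈ Icc 1 U, (V : ℝ) * ∑ c ∈ Icc 1 V,
            L ^ 2 * ‖∑ d ∈ Icc 1 (y / b / c), χ (d : ZMod k)‖ ^ 2 := by
          refine sum_le_sum fun χ _ => ?_
          refine (mv_cauchy _ _).trans ?_
          rw [Nat.card_Icc, Nat.add_sub_cancel]
          refine mul_le_mul_of_nonneg_left (sum_le_sum fun b _ => ?_) (by positivity)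
          have h1 : ‖((((μ b : ℤ) : ℝ)) : ℂ) * χ (b : ZMod k) *
              ∑ c ∈ Icc 1 V, ((Λ c : ℝ) : ℂ) * χ (c : ZMod k) *
                ∑ d ∈ Icc 1 (y / b / c), χ (d : ZMod k)‖ ≤
              ‖∑ c ∈ Icc 1 V, ((Λ c : ℝ) : ℂ) * χ (c : ZMod k) *
                ∑ d ∈ Icc 1 (y / b / c), χ (d : ZMod k)‖ := by
            rw [norm_mul, norm_mul]
            calc _ ≤ 1 * 1 * ‖∑ c ∈ Icc 1 V, ((Λ c : ℝ) : ℂ) * χ (c : ZMod k) *
                ∑ d ∈ Icc 1 (y / b / c), χ (d : ZMod k)‖ := by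
                  refine mul_le_mul_of_nonneg_right ?_ (norm_nonneg _)
                  exact mul_le_mul (hmu b) (hchi χ b) (norm_nonneg _) (by norm_num)
              _ = _ := by ring
          refine (pow_le_pow_left₀ (norm_nonneg _) h1 2).trans ?_
          refine (mv_cauchy _ _).trans ?_
          rw [Nat.card_Icc, Nat.add_sub_cancel]
          refine mul_le_mul_of_nonneg_left (sum_le_sum fun c hc => ?_) (by positivity)
          rw [← mul_pow]
          refine pow_le_pow_left₀ (norm_nonneg _) ?_ 2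
          rw [norm_mul, norm_mul]
          calc _ ≤ L * 1 * ‖∑ d ∈ Icc 1 (y / b / c), χ (d : ZMod k)‖ := by
                refine mul_le_mul_of_nonneg_right ?_ (norm_nonneg _)
                exact mul_le_mul (hLam c hc) (hchi χ c) (norm_nonneg _) (by linarith)
            _ = _ := by ring
      _ = (U : ℝ) * ∑ b ∈ Icc 1 U, (V : ℝ) * ∑ c ∈ Icc 1 V, L ^ 2 *
            ∑ χ ∈ (univ : Finset (DirichletCharacter ℂ k)).erase 1,
            ‖∑ d ∈ Icc 1 (y / b / c), χ (d : ZMod k)‖ ^ 2 := by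
          rw [← mul_sum, sum_comm]
          congr 1
          refine sum_congr rfl fun b _ => ?_
          rw [← mul_sum, sum_comm]
          congr 1
          refine sum_congr rfl fun c _ => ?_
          rw [← mul_sum]
      _ ≤ (U : ℝ) * ∑ b ∈ Icc 1 U, (V : ℝ) * ∑ c ∈ Icc 1 V, L ^ 2 * (2 * (k : ℝ) ^ 2) := by
          refine mul_le_mul_of_nonneg_left (sum_le_sum fun b _ => ?_) (by positivity)
          refine mul_le_mul_of_nonneg_left (sum_le_sum fun c _ => ?_) (by positivity)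
          exact mul_le_mul_of_nonneg_left (short_sum k _) (by positivity)
      _ = 2 * ((k : ℝ) * U * V) ^ 2 * L ^ 2 := by
          rw [sum_const, sum_const, Nat.card_Icc, Nat.card_Icc, Nat.add_sub_cancel,
            Nat.add_sub_cancel, nsmul_eq_mul, nsmul_eq_mul]
          ring
  have hthree : ∀ a b c : ℂ, ‖a + b - c‖ ^ 2 ≤ 4 * ‖a‖ ^ 2 + 4 * ‖b‖ ^ 2 + 4 * ‖c‖ ^ 2 := by
    intro a b c
    have h1 := mv_two (a + b) c
    have h2 := mv_two a (-b)
    rw [sub_neg_eq_add, norm_neg] at h2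
    nlinarith [sq_nonneg ‖c‖]
  calc ∑ χ ∈ (univ : Finset (DirichletCharacter ℂ k)).erase 1, ‖psiC χ y - S3 χ U V y‖ ^ 2
      = ∑ χ ∈ (univ : Finset (DirichletCharacter ℂ k)).erase 1,
        ‖T1 χ + T2 χ - T3 χ‖ ^ 2 := by
        refine sum_congr rfl fun χ _ => ?_
        rw [vid χ U V y hUy hVy]
    _ ≤ ∑ χ ∈ (univ : Finset (DirichletCharacter ℂ k)).erase 1,
        (4 * ‖T1 χ‖ ^ 2 + 4 * ‖T2 χ‖ ^ 2 + 4 * ‖T3 χ‖ ^ 2) :=
        sum_le_sum fun χ _ => hthree _ _ _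
    _ = 4 * (∑ χ ∈ (univ : Finset (DirichletCharacter ℂ k)).erase 1, ‖T1 χ‖ ^ 2) +
        4 * (∑ χ ∈ (univ : Finset (DirichletCharacter ℂ k)).erase 1, ‖T2 χ‖ ^ 2) +
        4 * (∑ χ ∈ (univ : Finset (DirichletCharacter ℂ k)).erase 1, ‖T3 χ‖ ^ 2) := by
        rw [sum_add_distrib, sum_add_distrib, ← mul_sum, ← mul_sum, ← mul_sum]
    _ ≤ 48 * ((k : ℝ) * U * V) ^ 2 * L ^ 2 := by linarith
    _ ≤ 48 * ((k : ℝ) * U * V) ^ 2 * L ^ 4 := by
        refine mul_le_mul_of_nonneg_left ?_ (by positivity)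
        exact pow_le_pow_right₀ hL (by norm_num)

end Pool.Agent.HL
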