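import Pool.Agent.Work.MP_92f640_nt.HL.Defs

/-! # Module MinSumA: the bound `gm` for geometric sums

`geom_le`: as `addD_le'` in `BV/Additive.lean` (`4 |x| ≤ ‖e x - 1‖` for `|x| ≤ 1/2`).
`class_le`: the integers `≡ c` mod `q` in `(u, v]` are at most `(v-u)/q + 1` terms of an arithmetic
progression with difference `q`; `geom_le` and `gm_mono`. -/

namespace Pool.Agent.HL

open Finset Pool.Agent.BV

theorem gm_nonneg {Y : ℝ} (hY : 0 ≤ Y) (β : ℝ) : 0 ≤ gm Y β := by
  unfold gm
  split_ifs
  · exact hY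
  · positivity

private lemma gm_aux {Y d : ℝ} (hd : 0 ≤ d) (h : ¬ 2 * Y * d ≤ 1) : 0 < d := by
  rcases hd.lt_or_eq with h1 | h1
  · exact h1
  · exfalso
    apply h
    rw [← h1]
    norm_num

theorem gm_mono {Y Y' : ℝ} (h0 : 0 ≤ Y) (h : Y ≤ Y') (β : ℝ) : gm Y β ≤ gm Y' β := by
  unfold gm
  set d := |β - round β| with hd
  have hd0 : 0 ≤ d := abs_nonneg _
  by_cases h1 : 2 * Y' * d ≤ 1
  · have h2 : 2 * Y * d ≤ 1 := le_trans (by gcongr) h1
    rw [if_pos h1, if_pos h2]
    exact h
  · rw [if_neg h1]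
    have h3 : 0 < d := gm_aux hd0 h1
    split_ifs with h2
    · rw [le_div_iff₀ (by positivity)]
      linarith
    · exact le_rfl

theorem gm_le {Y : ℝ} (hY : 0 ≤ Y) (β : ℝ) : gm Y β ≤ Y := by
  unfold gm
  set d := |β - round β| with hd
  have hd0 : 0 ≤ d := abs_nonneg _
  split_ifs with h1
  · exact le_rfl
  · have h3 : 0 < d := gm_aux hd0 h1
    rw [div_le_iff₀ (by positivity)]
    linarith

theorem gm_le_of_dist {Y β δ : ℝ} (hY : 0 ≤ Y) (hδ : 0 < δ) (h : δ ≤ |β - round β|) :
    gm Y β ≤ 1 / (2 * δ) := by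
  unfold gm
  set d := |β - round β| with hd
  have hd0 : 0 < d := hδ.trans_le h
  have h2 : 1 / (2 * d) ≤ 1 / (2 * δ) := by
    apply one_div_le_one_div_of_le (by positivity)
    linarith
  split_ifs with h1
  · refine le_trans ?_ h2
    rw [le_div_iff₀ (by positivity)]
    linarith
  · exact h2

private lemma gm_dist_neg (β : ℝ) : |-β - round (-β)| = |β - round β| := by
  have h1 : ∀ x : ℝ, |-x - round (-x)| ≤ |x - round x| := by
    intro x
    refine (round_le (-x) (-round x)).trans ?_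
    push_cast
    rw [show -x - -(round x : ℝ) = -(x - round x) by ring, abs_neg]
  apply le_antisymm (h1 β)
  have := h1 (-β)
  rwa [neg_neg] at this

theorem gm_neg (Y β : ℝ) : gm Y (-β) = gm Y β := by
  unfold gm
  rw [gm_dist_neg]

theorem gm_add_int (Y β : ℝ) (k : ℤ) : gm Y (β + k) = gm Y β := by
  have h : |β + k - (round (β + (k : ℝ)) : ℝ)| = |β - round β| := by
    rw [round_add_intCast]
    push_cast
    congr 1
    ring
  unfold gm
  rw [h]

theorem geom_le (n : ℕ) (β : ℝ) : ‖∑ k ∈ range n, e (k * β)‖ ≤ gm n β := by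
  have htriv : ‖∑ k ∈ range n, e (k * β)‖ ≤ n := by
    refine (norm_sum_le _ _).trans ?_
    simp [add_norm_e]
  unfold gm
  split_ifs with hc
  · exact htriv
  · set k : ℤ := round β with hk
    have h5 : 0 < |β - k| := gm_aux (abs_nonneg _) hc
    have hle : |β - k| ≤ 1 / 2 := abs_sub_round β
    set S : ℂ := ∑ i ∈ range n, e (i * β) with hS
    have h1 : S * (e (β - k) - 1) = e (n * β) - 1 := by
      have h2 : S = ∑ i ∈ range n, e (β - k) ^ i := by
        rw [hS]
        refine Finset.sum_congr rfl fun i _ => ?_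
        rw [add_e_sub_int]
        exact add_e_pow i β
      have h3 : e (n * β) = e (β - k) ^ n := by
        rw [add_e_sub_int]
        exact add_e_pow _ β
      rw [h2, h3, geom_sum_mul]
    have h2 := congrArg norm h1
    rw [norm_mul] at h2
    have h3 : ‖e (n * β) - 1‖ ≤ 2 := by
      refine (norm_sub_le _ _).trans ?_
      rw [add_norm_e]
      norm_num
    have h4 := add_norm_e_sub_one _ hle
    rw [le_div_iff₀ (by positivity)]
    have h6 := norm_nonneg S
    nlinarith

/-- exponential sums over an interval intersected with a residue class -/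
theorem class_le (q c u v : ℕ) (hq : 1 ≤ q) (α : ℝ) :
    ‖∑ n ∈ (Ioc u v).filter (fun n => n ≡ c [MOD q]), e (n * α)‖ ≤
      gm (((v - u : ℕ) : ℝ) / q + 1) (q * α) := by
  have hq0 : (0 : ℝ) < q := by exact_mod_cast hq
  set r : ℕ := (c + (u + 1) * (q - 1)) % q with hr
  have hrq : r < q := Nat.mod_lt _ hq
  set n0 : ℕ := u + 1 + r with hn0
  have hmod : n0 ≡ c [MOD q] := by
    have h1 : n0 ≡ u + 1 + (c + (u + 1) * (q - 1)) [MOD q] :=
      Nat.ModEq.add_left _ (Nat.mod_modEq _ _)
    have h2 : u + 1 + (c + (u + 1) * (q - 1)) = c + (u + 1) * q := by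
      obtain ⟨t, rfl⟩ : ∃ t, q = t + 1 := ⟨q - 1, by omega⟩
      rw [Nat.add_sub_cancel]
      ring
    rw [h2] at h1
    refine h1.trans ?_
    unfold Nat.ModEq
    rw [Nat.add_mul_mod_self_right]
  set m : ℕ := (v + q - n0) / q with hm
  have hmlt : ∀ k, k < m ↔ n0 + q * k ≤ v := by
    intro k
    rw [hm, ← Nat.succ_le_iff, Nat.le_div_iff_mul_le (by omega)]
    have : (k + 1) * q = q * k + q := by ring
    rw [Nat.succ_eq_add_one, this]
    omega
  have hset : (Ioc u v).filter (fun n => n ≡ c [MOD q]) = (range m).image (fun k => n0 + q * k) := by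
    ext n
    simp only [mem_filter, mem_Ioc, mem_image, mem_range]
    constructor
    · rintro ⟨⟨h1, h2⟩, h3⟩
      have h4 : n0 ≡ n [MOD q] := hmod.trans h3.symm
      have h5 : n0 ≤ n := by
        by_contra hcon
        rw [not_le] at hcon
        have h6 : q ∣ n0 - n := (Nat.modEq_iff_dvd' hcon.le).1 h4.symm
        have h7 : q ≤ n0 - n := Nat.le_of_dvd (by omega) h6
        omega
      obtain ⟨k, hk⟩ := (Nat.modEq_iff_dvd' h5).1 h4
      refine ⟨k, ?_, by omega⟩
      rw [hmlt]
      omega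
    · rintro ⟨k, hk, rfl⟩
      rw [hmlt] at hk
      refine ⟨⟨by omega, hk⟩, ?_⟩
      have : n0 + q * k ≡ n0 [MOD q] := by
        unfold Nat.ModEq
        rw [Nat.add_mul_mod_self_left]
      exact this.trans hmod
  have hinj : Set.InjOn (fun k => n0 + q * k) (range m : Set ℕ) := by
    intro a _ b _ hab
    simp only at hab
    exact Nat.eq_of_mul_eq_mul_left hq (by omega)
  rw [hset, Finset.sum_image hinj]
  have h1 : ∑ k ∈ range m, e (((n0 + q * k : ℕ) : ℝ) * α) =
      e (n0 * α) * ∑ k ∈ range m, e (k * (q * α)) := by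
    rw [Finset.mul_sum]
    refine Finset.sum_congr rfl fun k _ => ?_
    rw [← add_e_add]
    congr 1
    push_cast
    ring
  rw [h1, norm_mul, add_norm_e, one_mul]
  refine (geom_le m _).trans (gm_mono (Nat.cast_nonneg _) ?_ _)
  have h2 : (m : ℝ) ≤ ((v + q - n0 : ℕ) : ℝ) / q := by
    rw [hm]
    exact Nat.cast_div_le
  refine h2.trans ?_
  have h3 : ((v + q - n0 : ℕ) : ℝ) ≤ ((v - u : ℕ) : ℝ) + q := by
    have : v + q - n0 ≤ (v - u) + q := by omega
    exact_mod_cast this
  calc ((v + q - n0 : ℕ) : ℝ) / q ≤ (((v - u : ℕ) : ℝ) + q) / q := by gcongr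
    _ = _ := by field_simp

end Pool.Agent.HL
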