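import Pool.Agent.Work.MP_92f640_nt.HL.GSum
import Pool.Agent.Work.MP_92f640_nt.HL.Circle
import Pool.Agent.Work.MP_92f640_nt.HL.TypeI

/-! # Module TypeIG: type I sums up to the level `x^(1-ε)/√q`

`φ` is expanded in additive characters mod `q` (`twG_fourier`: Cauchy and Parseval mod `q`), then
`GG_sq_sum`. -/

namespace Pool.Agent.HL

open Finset Pool.Agent.BV

namespace TypeIG

lemma twG_fourier {ι : Type*} (S : Finset ι) (N : ι → ℕ) (c : ι → ℂ) {q : ℕ} (hq : 1 ≤ q)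
    {φ : ℕ → ℂ} (hφ : Tw q φ) (α : ℝ) :
    ‖∑ i ∈ S, c i * (φ (N i) * e (N i * α))‖ ^ 2 ≤
      1 / q * ∑ h ∈ range q, ‖∑ i ∈ S, c i * e (N i * (α + (h : ℝ) / q))‖ ^ 2 := by
  classical
  have : NeZero q := ⟨by omega⟩
  have hq0 : (0 : ℝ) < q := by exact_mod_cast hq
  set Sa : ℕ → ℂ := fun a => ∑ i ∈ S.filter (fun i => N i % q = a), c i * e (N i * α) with hSa
  have hmap : ∀ i ∈ S, N i % q ∈ range q := fun i _ => mem_range.2 (Nat.mod_lt _ (by omega))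
  have h1 : ∑ i ∈ S, c i * (φ (N i) * e (N i * α)) = ∑ a ∈ range q, φ a * Sa a := by
    rw [← sum_fiberwise_of_maps_to hmap]
    refine sum_congr rfl fun a _ => ?_
    rw [hSa, mul_sum]
    refine sum_congr rfl fun i hi => ?_
    rw [hφ.per (N i), (mem_filter.1 hi).2]
    ring
  have h2 : ‖∑ a ∈ range q, φ a * Sa a‖ ^ 2 ≤ ∑ a ∈ range q, ‖Sa a‖ ^ 2 := by
    have h3 : ‖∑ a ∈ range q, φ a * Sa a‖ ≤ ∑ a ∈ range q, ‖φ a‖ * ‖Sa a‖ := by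
      refine (norm_sum_le _ _).trans (le_of_eq ?_)
      exact sum_congr rfl fun a _ => norm_mul _ _
    calc ‖∑ a ∈ range q, φ a * Sa a‖ ^ 2 ≤ (∑ a ∈ range q, ‖φ a‖ * ‖Sa a‖) ^ 2 :=
          pow_le_pow_left₀ (norm_nonneg _) h3 2
      _ ≤ (∑ a ∈ range q, ‖φ a‖ ^ 2) * ∑ a ∈ range q, ‖Sa a‖ ^ 2 :=
          sum_mul_sq_le_sq_mul_sq _ _ _
      _ ≤ 1 * ∑ a ∈ range q, ‖Sa a‖ ^ 2 :=
          mul_le_mul_of_nonneg_right hφ.l2 (sum_nonneg fun _ _ => sq_nonneg _)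
      _ = _ := one_mul _
  have h4 := circ_parseval (N := q) (range q) (fun a => a) (fun n hn => mem_range.1 hn)
    (fun n _ m _ h => h) Sa
  have h5 : ∀ h ∈ range q, ‖∑ a ∈ range q, Sa a * e (a * ((h : ℝ) / q))‖ ^ 2 =
      ‖∑ i ∈ S, c i * e (N i * (α + (h : ℝ) / q))‖ ^ 2 := by
    intro h _
    congr 2
    rw [← sum_fiberwise_of_maps_to hmap]
    refine sum_congr rfl fun a _ => ?_
    rw [hSa, sum_mul]
    refine sum_congr rfl fun i hi => ?_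
    have e1 := (mem_filter.1 hi).2
    have e2 : (N i : ℝ) = q * ((N i / q : ℕ) : ℝ) + a := by
      have := Nat.div_add_mod (N i) q
      rw [e1] at this
      exact_mod_cast this.symm
    set m : ℕ := N i / q with hm
    have e3 : (N i : ℝ) * (α + (h : ℝ) / q) =
        N i * α + (a * ((h : ℝ) / q) + (((m * h : ℕ) : ℤ) : ℝ)) := by
      have : (N i : ℝ) * ((h : ℝ) / q) = a * ((h : ℝ) / q) + (m : ℝ) * h := by
        rw [e2]
        field_simp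
        ring
      rw [mul_add, this]
      push_cast
      ring
    rw [e3, add_e_add, add_e_add, add_e_int, mul_one, mul_assoc]
  rw [sum_congr rfl h5] at h4
  rw [h1, h4]
  refine h2.trans (le_of_eq ?_)
  field_simp

lemma exp_sum_le (Y : ℕ) (θ : ℝ) : ‖∑ k ∈ Icc 1 Y, e (k * θ)‖ ≤ gm Y θ := by
  have h1 : ∑ k ∈ Icc 1 Y, e (k * θ) = e θ * ∑ k ∈ range Y, e (k * θ) := by
    have : Icc 1 Y = (range Y).map (addLeftEmbedding 1) := by
      rw [range_eq_Ico, map_add_left_Ico]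
      ext h
      simp only [mem_Icc, mem_Ico]
      omega
    rw [this, sum_map, mul_sum]
    refine sum_congr rfl fun k _ => ?_
    rw [← add_e_add]
    congr 1
    simp only [addLeftEmbedding_apply]
    push_cast
    ring
  rw [h1, norm_mul, add_norm_e, one_mul]
  exact geom_le Y θ

lemma exp_sum_log_le {x Y : ℕ} (hx : 3 ≤ x) (hY : Y ≤ x) (θ : ℝ) :
    ‖∑ k ∈ Icc 1 Y, ((Real.log k : ℝ) : ℂ) * e (k * θ)‖ ≤ 3 * Real.log x * gm Y θ := by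
  set B : ℝ := gm Y θ with hBd
  have hB0 : 0 ≤ B := gm_nonneg (by positivity) _
  set f : ℕ → ℂ := fun k => if k ≤ Y then e (k * θ) else 0 with hf
  have hB : ∀ n, ‖∑ k ∈ Icc 1 n, f k‖ ≤ B := by
    intro n
    have h1 : ∑ k ∈ Icc 1 n, f k = ∑ k ∈ Icc 1 (min n Y), e (k * θ) := by
      rw [hf]
      simp only []
      rw [← sum_filter]
      refine sum_congr ?_ fun _ _ => rfl
      ext k
      simp only [mem_filter, mem_Icc, le_min_iff]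
      tauto
    rw [h1]
    refine (exp_sum_le _ θ).trans (gm_mono (by positivity) ?_ _)
    exact_mod_cast min_le_right n Y
  have h1 : ∑ k ∈ Icc 1 Y, ((Real.log k : ℝ) : ℂ) * e (k * θ) =
      ∑ k ∈ Icc 1 Y, f k * ((Real.log k : ℝ) : ℂ) := by
    refine sum_congr rfl fun k hk => ?_
    rw [hf]
    simp only [(mem_Icc.mp hk).2, if_true]
    ring
  rw [h1]
  refine (Pool.Agent.Work.BV.abel_le hB (fun n => Real.log n) Y).trans ?_
  have hl := TypeI.one_le_log hx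
  have hYl : Real.log Y ≤ Real.log x := by
    rcases Nat.eq_zero_or_pos Y with h | h
    · rw [h]
      simp only [Nat.cast_zero, Real.log_zero]
      linarith
    · exact Real.log_le_log (by exact_mod_cast h) (by exact_mod_cast hY)
  have hY0 := Real.log_natCast_nonneg Y
  have h2 : ∑ n ∈ Ico 1 Y, |Real.log ((n + 1 : ℕ) : ℝ) - Real.log n| ≤ 1 + Real.log Y := by
    refine le_trans (sum_le_sum fun n hn => ?_) (Pool.Agent.Work.BV.sum_inv_Ico_le Y)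
    rw [mem_Ico] at hn
    rw [abs_of_nonneg (Pool.Agent.Work.BV.log_succ_sub_nonneg hn.1)]
    exact Pool.Agent.Work.BV.log_succ_sub_le hn.1
  rw [abs_of_nonneg hY0, mul_comm]
  refine mul_le_mul_of_nonneg_right ?_ hB0
  linarith

lemma core (x q D : ℕ) (φ : ℕ → ℂ) (α : ℝ) (w g : ℕ → ℂ) (W M : ℝ) (hq : 1 ≤ q) (hφ : Tw q φ)
    (hW : 0 ≤ W) (hw : ∀ d ∈ Icc 1 D, ‖w d‖ ≤ W) (hM : 0 ≤ M)
    (hg : ∀ Y ≤ x, ∀ θ : ℝ, ‖∑ k ∈ Icc 1 Y, g k * e (k * θ)‖ ≤ M * gm Y θ) :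
    ‖∑ d ∈ Icc 1 D, w d * ∑ k ∈ Icc 1 (x / d), g k * (φ (d * k) * e ((d * k : ℕ) * α))‖ ^ 2 ≤
      1 / q * ∑ h ∈ range q, (W * M * ∑ d ∈ Icc 1 D, gm ((x : ℝ) / d) ((α + (h : ℝ) / q) * d)) ^ 2 := by
  have h1 := twG_fourier ((Icc 1 D).sigma (fun d => Icc 1 (x / d))) (fun i => i.1 * i.2)
    (fun i => w i.1 * g i.2) hq hφ α
  rw [sum_sigma] at h1
  have e1 : ∑ d ∈ Icc 1 D, ∑ k ∈ Icc 1 (x / d), w d * g k * (φ (d * k) * e (((d * k : ℕ) : ℝ) * α)) =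
      ∑ d ∈ Icc 1 D, w d * ∑ k ∈ Icc 1 (x / d), g k * (φ (d * k) * e ((d * k : ℕ) * α)) := by
    refine sum_congr rfl fun d _ => ?_
    rw [mul_sum]
    refine sum_congr rfl fun k _ => ?_
    ring
  simp only at h1
  rw [e1] at h1
  refine h1.trans ?_
  apply mul_le_mul_of_nonneg_left _ (by positivity)
  apply sum_le_sum
  intro h _
  apply pow_le_pow_left₀ (norm_nonneg _)
  rw [sum_sigma]
  simp only
  refine (norm_sum_le _ _).trans ?_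
  rw [mul_sum]
  apply sum_le_sum
  intro d hd
  have e2 : ∑ k ∈ Icc 1 (x / d), w d * g k * e (((d * k : ℕ) : ℝ) * (α + (h : ℝ) / q)) =
      w d * ∑ k ∈ Icc 1 (x / d), g k * e (k * ((α + (h : ℝ) / q) * d)) := by
    rw [mul_sum]
    refine sum_congr rfl fun k _ => ?_
    rw [mul_assoc]
    congr 3
    push_cast
    ring
  rw [e2, norm_mul, mul_assoc]
  apply mul_le_mul (hw d hd) _ (norm_nonneg _) hW
  refine (hg (x / d) (Nat.div_le_self x d) _).trans ?_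
  apply mul_le_mul_of_nonneg_left _ hM
  exact gm_mono (by positivity) Nat.cast_div_le _

lemma arith (x q D s : ℕ) (hx : 3 ≤ x) (hq : 1 ≤ q) (hqx : q ≤ x) (hD : 1 ≤ D) (hDx : D ≤ x)
    (hs : 1 ≤ s) :
    4 * (1 + Real.log D) ^ 2 * (1 + Real.log q) * (4 * (x : ℝ) ^ 2 / s +
        x * q * (s + 1 + Real.log q) * (1 + Real.log (2 * D))) +
      2 * q * (24 * D * (2 + Real.log (2 * D))) ^ 2 ≤
    136 ^ 2 * (Real.log x) ^ 6 * (x : ℝ) ^ 2 *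
      (1 / Real.sqrt s + Real.sqrt (q * s / x) + Real.sqrt q * D / x) ^ 2 := by
  have hl := TypeI.one_le_log hx
  set L := Real.log x with hL
  have hx0 : (0 : ℝ) < x := by exact_mod_cast (by omega : 0 < x)
  have hq0 : (0 : ℝ) < q := by exact_mod_cast hq
  have hs0 : (0 : ℝ) < s := by exact_mod_cast hs
  have hs1 : (1 : ℝ) ≤ s := by exact_mod_cast hs
  have hD0 : (0 : ℝ) < D := by exact_mod_cast hD
  have hD1 : (1 : ℝ) ≤ D := by exact_mod_cast hD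
  have hq1 : (1 : ℝ) ≤ q := by exact_mod_cast hq
  have hlq : Real.log q ≤ L := Real.log_le_log hq0 (by exact_mod_cast hqx)
  have hlD : Real.log D ≤ L := Real.log_le_log hD0 (by exact_mod_cast hDx)
  have hlq0 := Real.log_nonneg hq1
  have hlD0 := Real.log_nonneg hD1
  have hl2 : Real.log (2 * D) ≤ 2 * L := by
    rw [Real.log_mul (by norm_num) hD0.ne']
    have : Real.log 2 ≤ 1 := by linarith [Real.log_two_lt_d9]
    linarith
  have hl20 : 0 ≤ Real.log (2 * (D : ℝ)) := Real.log_nonneg (by linarith)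
  have a1 : 1 + Real.log D ≤ 2 * L := by linarith
  have a2 : 1 + Real.log q ≤ 2 * L := by linarith
  have a3 : 1 + Real.log (2 * D) ≤ 3 * L := by linarith
  have a4 : 2 + Real.log (2 * D) ≤ 4 * L := by linarith
  have a5 : (s : ℝ) + 1 + Real.log q ≤ 3 * s * L := by nlinarith
  set S : ℝ := 1 / s + q * s / x + q * (D : ℝ) ^ 2 / (x : ℝ) ^ 2 with hS
  have b1 : 4 * (1 + Real.log D) ^ 2 * (1 + Real.log q) * (4 * (x : ℝ) ^ 2 / s +
        x * q * (s + 1 + Real.log q) * (1 + Real.log (2 * D))) +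
      2 * q * (24 * D * (2 + Real.log (2 * D))) ^ 2 ≤
      4 * (2 * L) ^ 2 * (2 * L) * (4 * (x : ℝ) ^ 2 / s +
        x * q * (3 * s * L) * (3 * L)) + 2 * q * (24 * D * (4 * L)) ^ 2 := by
    gcongr
  have b2 : 4 * (2 * L) ^ 2 * (2 * L) * (4 * (x : ℝ) ^ 2 / s +
        x * q * (3 * s * L) * (3 * L)) + 2 * q * (24 * D * (4 * L)) ^ 2 =
      128 * L ^ 3 * (x ^ 2 * (1 / s)) + 288 * L ^ 5 * (x ^ 2 * (q * s / x)) +
        18432 * L ^ 2 * (x ^ 2 * (q * (D : ℝ) ^ 2 / (x : ℝ) ^ 2)) := by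
    field_simp
    ring
  have c1 : L ^ 3 ≤ L ^ 6 := pow_le_pow_right₀ hl (by norm_num)
  have c2 : L ^ 5 ≤ L ^ 6 := pow_le_pow_right₀ hl (by norm_num)
  have c3 : L ^ 2 ≤ L ^ 6 := pow_le_pow_right₀ hl (by norm_num)
  have b3 : 128 * L ^ 3 * (x ^ 2 * (1 / s)) + 288 * L ^ 5 * (x ^ 2 * (q * s / x)) +
        18432 * L ^ 2 * (x ^ 2 * (q * (D : ℝ) ^ 2 / (x : ℝ) ^ 2)) ≤
      136 ^ 2 * L ^ 6 * (x ^ 2 * (1 / s)) + 136 ^ 2 * L ^ 6 * (x ^ 2 * (q * s / x)) +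
        136 ^ 2 * L ^ 6 * (x ^ 2 * (q * (D : ℝ) ^ 2 / (x : ℝ) ^ 2)) := by
    have d1 : 128 * L ^ 3 ≤ 136 ^ 2 * L ^ 6 := by nlinarith [pow_nonneg (by linarith : (0:ℝ) ≤ L) 6]
    have d2 : 288 * L ^ 5 ≤ 136 ^ 2 * L ^ 6 := by nlinarith [pow_nonneg (by linarith : (0:ℝ) ≤ L) 6]
    have d3 : 18432 * L ^ 2 ≤ 136 ^ 2 * L ^ 6 := by
      nlinarith [pow_nonneg (by linarith : (0:ℝ) ≤ L) 6]
    gcongr
  have b4 : 136 ^ 2 * L ^ 6 * (x ^ 2 * (1 / s)) + 136 ^ 2 * L ^ 6 * (x ^ 2 * (q * s / x)) +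
        136 ^ 2 * L ^ 6 * (x ^ 2 * (q * (D : ℝ) ^ 2 / (x : ℝ) ^ 2)) =
      136 ^ 2 * L ^ 6 * (x : ℝ) ^ 2 * S := by
    rw [hS]
    ring
  have b5 : S ≤ (1 / Real.sqrt s + Real.sqrt (q * s / x) + Real.sqrt q * D / x) ^ 2 := by
    have e1 : (1 / Real.sqrt s) ^ 2 = 1 / s := by
      rw [div_pow, Real.sq_sqrt hs0.le, one_pow]
    have e2 : Real.sqrt (q * s / x) ^ 2 = q * s / x := Real.sq_sqrt (by positivity)
    have e3 : (Real.sqrt q * D / x) ^ 2 = q * (D : ℝ) ^ 2 / (x : ℝ) ^ 2 := by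
      rw [div_pow, mul_pow, Real.sq_sqrt hq0.le]
    have p1 : 0 ≤ 1 / Real.sqrt s := by positivity
    have p2 : 0 ≤ Real.sqrt (q * s / x) := Real.sqrt_nonneg _
    have p3 : 0 ≤ Real.sqrt q * D / x := by positivity
    rw [hS, ← e1, ← e2, ← e3]
    rw [e2]
    nlinarith [mul_nonneg p1 p2, mul_nonneg p1 p3, mul_nonneg p2 p3, e2]
  rw [b4] at b3
  rw [b2] at b1
  refine b1.trans (b3.trans ?_)
  exact mul_le_mul_of_nonneg_left b5 (by positivity)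

lemma final (x q D s : ℕ) (φ : ℕ → ℂ) (α : ℝ) (b : ℤ) (w g : ℕ → ℂ) (W M : ℝ)
    (hx : 3 ≤ x) (hq : 1 ≤ q) (hqx : q ≤ x) (hφ : Tw q φ) (hD : D ≤ x) (hs : 1 ≤ s)
    (hbs : IsCoprime b (s : ℤ)) (hα : |q * α - b / s| ≤ 1 / (s : ℝ) ^ 2)
    (hW : 0 ≤ W) (hw : ∀ d ∈ Icc 1 D, ‖w d‖ ≤ W) (hM : 0 ≤ M)
    (hg : ∀ Y ≤ x, ∀ θ : ℝ, ‖∑ k ∈ Icc 1 Y, g k * e (k * θ)‖ ≤ M * gm Y θ) :
    ‖∑ d ∈ Icc 1 D, w d * ∑ k ∈ Icc 1 (x / d), g k * (φ (d * k) * e ((d * k : ℕ) * α))‖ ≤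
      136 * W * M * ((x : ℝ) / Real.sqrt q) *
        (1 / Real.sqrt s + Real.sqrt (q * s / x) + Real.sqrt q * D / x) * (Real.log x) ^ 3 := by
  have hl := TypeI.one_le_log hx
  have hq0 : (0 : ℝ) < q := by exact_mod_cast hq
  have hx0 : (0 : ℝ) < x := by exact_mod_cast (by omega : 0 < x)
  rcases Nat.eq_zero_or_pos D with h0 | h0
  · rw [h0]
    simp only [Nat.cast_zero]
    rw [show Icc 1 0 = (∅ : Finset ℕ) by rfl, sum_empty, norm_zero]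
    positivity
  refine (pow_le_pow_iff_left₀ (norm_nonneg _) (by positivity) two_ne_zero).1 ?_
  have h1 := core x q D φ α w g W M hq hφ hW hw hM hg
  refine h1.trans ?_
  have h2 := GG_sq_sum x q D s α b hx0.le hq hs hbs hα h0
  have h3 := arith x q D s hx hq hqx h0 hD hs
  have e1 : ∑ h ∈ range q, (W * M * ∑ d ∈ Icc 1 D, gm ((x : ℝ) / d) ((α + (h : ℝ) / q) * d)) ^ 2 =
      (W * M) ^ 2 *
        ∑ h ∈ range q, (∑ d ∈ Icc 1 D, gm ((x : ℝ) / d) ((α + (h : ℝ) / q) * d)) ^ 2 := by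
    rw [mul_sum]
    refine sum_congr rfl fun h _ => ?_
    rw [mul_pow]
  rw [e1]
  calc 1 / (q : ℝ) * ((W * M) ^ 2 *
        ∑ h ∈ range q, (∑ d ∈ Icc 1 D, gm ((x : ℝ) / d) ((α + (h : ℝ) / q) * d)) ^ 2)
      ≤ 1 / (q : ℝ) * ((W * M) ^ 2 * (136 ^ 2 * (Real.log x) ^ 6 * (x : ℝ) ^ 2 *
      (1 / Real.sqrt s + Real.sqrt (q * s / x) + Real.sqrt q * D / x) ^ 2)) := by
        apply mul_le_mul_of_nonneg_left _ (by positivity)
        exact mul_le_mul_of_nonneg_left (h2.trans h3) (by positivity)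
    _ = _ := by
        have e2 : ((x : ℝ) / Real.sqrt q) ^ 2 = x ^ 2 / q := by
          rw [div_pow, Real.sq_sqrt hq0.le]
        rw [mul_pow, mul_pow, mul_pow, mul_pow, mul_pow, e2]
        ring

end TypeIG

theorem typeIG : ∃ C : ℝ, 0 < C ∧ ∀ (x q D s : ℕ) (φ : ℕ → ℂ) (α : ℝ) (b : ℤ) (w : ℕ → ℂ) (W : ℝ),
    3 ≤ x → 1 ≤ q → q ≤ x → Tw q φ → D ≤ x → 1 ≤ s → s ≤ x → IsCoprime b (s : ℤ) →
    |q * α - b / s| ≤ 1 / (s : ℝ) ^ 2 → 0 ≤ W → (∀ d ∈ Icc 1 D, ‖w d‖ ≤ W) →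
    ‖∑ d ∈ Icc 1 D, w d * ∑ k ∈ Icc 1 (x / d), φ (d * k) * e ((d * k : ℕ) * α)‖ ≤
      C * W * ((x : ℝ) / Real.sqrt q) *
        (1 / Real.sqrt s + Real.sqrt (q * s / x) + Real.sqrt q * D / x) * (Real.log x) ^ 3 := by
  refine ⟨136, by norm_num, ?_⟩
  intro x q D s φ α b w W hx hq hqx hφ hD hs _ hbs hα hW hw
  have h := TypeIG.final x q D s φ α b w (fun _ => 1) W 1 hx hq hqx hφ hD hs hbs hα hW hw
    zero_le_one (fun Y _ θ => by
      simp only [one_mul]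
      exact TypeIG.exp_sum_le Y θ)
  simp only [one_mul, mul_one] at h
  exact h

theorem typeIG_log : ∃ C : ℝ, 0 < C ∧ ∀ (x q D s : ℕ) (φ : ℕ → ℂ) (α : ℝ) (b : ℤ) (w : ℕ → ℂ)
    (W : ℝ), 3 ≤ x → 1 ≤ q → q ≤ x → Tw q φ → D ≤ x → 1 ≤ s → s ≤ x → IsCoprime b (s : ℤ) →
    |q * α - b / s| ≤ 1 / (s : ℝ) ^ 2 → 0 ≤ W → (∀ d ∈ Icc 1 D, ‖w d‖ ≤ W) →
    ‖∑ d ∈ Icc 1 D, w d * ∑ k ∈ Icc 1 (x / d),
        ((Real.log k : ℝ) : ℂ) * (φ (d * k) * e ((d * k : ℕ) * α))‖ ≤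
      C * W * ((x : ℝ) / Real.sqrt q) *
        (1 / Real.sqrt s + Real.sqrt (q * s / x) + Real.sqrt q * D / x) * (Real.log x) ^ 4 := by
  refine ⟨408, by norm_num, ?_⟩
  intro x q D s φ α b w W hx hq hqx hφ hD hs _ hbs hα hW hw
  have hl := TypeI.one_le_log hx
  have h := TypeIG.final x q D s φ α b w (fun k => ((Real.log k : ℝ) : ℂ)) W
    (3 * Real.log x) hx hq hqx hφ hD hs hbs hα hW hw
    (by positivity) (fun Y hY θ => TypeIG.exp_sum_log_le hx hY θ)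
  refine h.trans (le_of_eq ?_)
  ring

end Pool.Agent.HL
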