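import Pool.Agent.Work.MP_92f640_nt.HL.Minor
import Pool.Agent.Work.MP_92f640_nt.HL.TypeIG

/-! # Module Minor2: the minor arc estimate for `q ≤ x^(2/3 - ε)`

As `Minor`. `Minor2.general`: for all `U`, `V` (in `vaughan U V` the variable `c` with coefficient
`Λ` is `> V`, the variable `k` with coefficient `O(τ)` is `> U`) the sum is
`≤ C (x/√q) (log x)^6 (1/√s + 1/√V + √(q/U) + √(q s/x) + √q U V/x)`.
The type I sums by `typeIG`, `typeIG_log` (HL/TypeIG), type II by `typeII` with `k` as outer variable: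
`X₁ X₂ (X₂/s + 1)(X₁/q + 1 + s (1 + log s)) ≤ 4 L (x²/q) (1/s + 1/V + q/U + q s/x)`.
`minorF2`: `U = ⌊x^(2/3 - ε/2)⌋₊ + 1`, `V = ⌊x^(ε/4)⌋₊ + 1`. -/

namespace Pool.Agent.HL

open Finset Pool.Agent.BV
open Pool.Agent.Work.BV (FF GG BB LF CC vaughan sum_conv FF_nonneg FF_le FF_apply abs_GG_le
  GG_of_lt abs_CC_le CC_of_lt LF_nonneg LF_le LF_apply BB_of_le abs_BB_le)
open scoped ArithmeticFunction.vonMangoldt ArithmeticFunction.zeta

namespace Minor2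

/-- the saving -/
noncomputable def T (x q s U V : ℕ) : ℝ :=
  1 / Real.sqrt s + 1 / Real.sqrt V + Real.sqrt ((q : ℝ) / U) + Real.sqrt (q * s / x)

lemma T_nonneg (x q s U V : ℕ) : 0 ≤ T x q s U V := by
  unfold T
  positivity

lemma T_sq (x q s U V : ℕ) :
    1 / (s : ℝ) + 1 / V + q / U + q * s / x ≤ T x q s U V ^ 2 := by
  unfold T
  set A : ℝ := 1 / Real.sqrt s with hA
  set B : ℝ := 1 / Real.sqrt V with hB
  set D : ℝ := Real.sqrt ((q : ℝ) / U) with hD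
  set E : ℝ := Real.sqrt (q * s / x) with hE
  have hA2 : A ^ 2 = 1 / (s : ℝ) := by
    rw [hA, div_pow, one_pow, Real.sq_sqrt (Nat.cast_nonneg s)]
  have hB2 : B ^ 2 = 1 / (V : ℝ) := by
    rw [hB, div_pow, one_pow, Real.sq_sqrt (Nat.cast_nonneg V)]
  have hD2 : D ^ 2 = q / U := Real.sq_sqrt (by positivity)
  have hE2 : E ^ 2 = q * s / x := Real.sq_sqrt (by positivity)
  rw [← hA2, ← hB2, ← hD2, ← hE2]
  have h1 : 0 ≤ A := by positivity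
  have h2 : 0 ≤ B := by positivity
  have h3 : 0 ≤ D := Real.sqrt_nonneg _
  have h4 : 0 ≤ E := Real.sqrt_nonneg _
  nlinarith [mul_nonneg h1 h2, mul_nonneg h1 h3, mul_nonneg h1 h4, mul_nonneg h2 h3,
    mul_nonneg h2 h4, mul_nonneg h3 h4]

lemma block_alg {x q s X₁ X₂ U V : ℕ} (hx : 3 ≤ x) (hq : 1 ≤ q) (hs : 1 ≤ s) (hsx : s ≤ x)
    (hU1 : 1 ≤ U) (hV1 : 1 ≤ V) (h12 : X₁ * X₂ ≤ x) (hU : U ≤ X₁) (hV : V ≤ X₂) :
    (X₁ : ℝ) * X₂ * (((X₂ : ℝ) / s + 1) * ((X₁ : ℝ) / q + 1 + s * (1 + Real.log s))) ≤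
      4 * Real.log x * ((x : ℝ) ^ 2 / q) * (1 / (s : ℝ) + 1 / V + q / U + q * s / x) := by
  have hL := TypeI.one_le_log hx
  set L := Real.log x with hLd
  have hx0 : (0 : ℝ) < x := by
    have : (3 : ℝ) ≤ x := by exact_mod_cast hx
    linarith
  have hq0 : (0 : ℝ) < q := by exact_mod_cast hq
  have hs1 : (1 : ℝ) ≤ s := by exact_mod_cast hs
  have hs0 : (0 : ℝ) < s := by linarith
  have hU0 : (0 : ℝ) < U := by exact_mod_cast hU1
  have hV0 : (0 : ℝ) < V := by exact_mod_cast hV1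
  have hP : (X₁ : ℝ) * X₂ ≤ x := by exact_mod_cast h12
  have hP0 : (0 : ℝ) ≤ (X₁ : ℝ) * X₂ := by positivity
  have hU' : (U : ℝ) ≤ X₁ := by exact_mod_cast hU
  have hV' : (V : ℝ) ≤ X₂ := by exact_mod_cast hV
  have hls : Real.log s ≤ L := Real.log_le_log hs0 (by exact_mod_cast hsx)
  have hls0 : 0 ≤ Real.log s := Real.log_nonneg hs1
  have hR : 1 + s * (1 + Real.log s) ≤ 4 * s * L := by nlinarith
  have hR0 : 0 ≤ 1 + s * (1 + Real.log s) := by positivity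
  have hX2 : (X₂ : ℝ) ≤ x / U := by
    rw [le_div_iff₀ hU0]
    calc (X₂ : ℝ) * U ≤ X₂ * X₁ := by gcongr
      _ = X₁ * X₂ := mul_comm _ _
      _ ≤ x := hP
  have hX1 : (X₁ : ℝ) ≤ x / V := by
    rw [le_div_iff₀ hV0]
    calc (X₁ : ℝ) * V ≤ X₁ * X₂ := by gcongr
      _ ≤ x := hP
  have ea : (X₁ : ℝ) * X₂ * ((X₂ : ℝ) / s * (X₁ / q)) ≤ 4 * L * ((x : ℝ) ^ 2 / q * (1 / s)) := by
    have h3 : (X₁ : ℝ) * X₂ * ((X₂ : ℝ) / s * (X₁ / q)) = ((X₁ : ℝ) * X₂) ^ 2 / q * (1 / s) := by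
      field_simp
    rw [h3]
    have h4 : ((X₁ : ℝ) * X₂) ^ 2 / q * (1 / s) ≤ (x : ℝ) ^ 2 / q * (1 / s) := by gcongr
    have h5 : 0 ≤ (x : ℝ) ^ 2 / q * (1 / s) := by positivity
    nlinarith
  have eb : (X₁ : ℝ) * X₂ * ((X₂ : ℝ) / s * (1 + s * (1 + Real.log s))) ≤
      4 * L * ((x : ℝ) ^ 2 / q * (q / U)) := by
    calc (X₁ : ℝ) * X₂ * ((X₂ : ℝ) / s * (1 + s * (1 + Real.log s)))
        ≤ x * (x / U / s * (4 * s * L)) := by gcongr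
      _ = 4 * L * ((x : ℝ) ^ 2 / q * (q / U)) := by field_simp
  have ec : (X₁ : ℝ) * X₂ * ((X₁ : ℝ) / q) ≤ 4 * L * ((x : ℝ) ^ 2 / q * (1 / V)) := by
    have h3 : (X₁ : ℝ) * X₂ * ((X₁ : ℝ) / q) ≤ x * (x / V / q) := by gcongr
    have h4 : (x : ℝ) * (x / V / q) = (x : ℝ) ^ 2 / q * (1 / V) := by
      field_simp
    have h5 : 0 ≤ (x : ℝ) ^ 2 / q * (1 / V) := by positivity
    rw [h4] at h3
    nlinarith
  have ed : (X₁ : ℝ) * X₂ * (1 + s * (1 + Real.log s)) ≤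
      4 * L * ((x : ℝ) ^ 2 / q * (q * s / x)) := by
    calc (X₁ : ℝ) * X₂ * (1 + s * (1 + Real.log s)) ≤ x * (4 * s * L) := by gcongr
      _ = 4 * L * ((x : ℝ) ^ 2 / q * (q * s / x)) := by field_simp
  have e1 : (X₁ : ℝ) * X₂ * (((X₂ : ℝ) / s + 1) * ((X₁ : ℝ) / q + 1 + s * (1 + Real.log s))) =
      (X₁ : ℝ) * X₂ * ((X₂ : ℝ) / s * (X₁ / q)) +
      (X₁ : ℝ) * X₂ * ((X₂ : ℝ) / s * (1 + s * (1 + Real.log s))) +
      (X₁ : ℝ) * X₂ * ((X₁ : ℝ) / q) + (X₁ : ℝ) * X₂ * (1 + s * (1 + Real.log s)) := by ring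
  rw [e1]
  have e2 : 4 * L * ((x : ℝ) ^ 2 / q) * (1 / (s : ℝ) + 1 / V + q / U + q * s / x) =
      4 * L * ((x : ℝ) ^ 2 / q * (1 / s)) + 4 * L * ((x : ℝ) ^ 2 / q * (q / U)) +
      4 * L * ((x : ℝ) ^ 2 / q * (1 / V)) + 4 * L * ((x : ℝ) ^ 2 / q * (q * s / x)) := by ring
  rw [e2]
  linarith

lemma block {x q X₁ X₂ s U V : ℕ} {φ : ℕ → ℂ} {α : ℝ} {b : ℤ} {a g : ℕ → ℂ} {K₁ K₂ : ℝ}
    (hx : 3 ≤ x) (hq : 1 ≤ q) (hφ : Tw q φ) (hs : 1 ≤ s) (hsx : s ≤ x)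
    (hbs : IsCoprime b (s : ℤ)) (hα : |q * α - b / s| ≤ 1 / (s : ℝ) ^ 2)
    (hU1 : 1 ≤ U) (hV1 : 1 ≤ V) (h12 : X₁ * X₂ ≤ x) (hU : U ≤ X₁) (hV : V ≤ X₂)
    (hK₁ : 0 ≤ K₁) (hK₂ : 0 ≤ K₂)
    (hA : ∑ k ∈ Ioc X₁ (2 * X₁), ‖a k‖ ^ 2 ≤ K₁ * X₁)
    (hG : ∑ c ∈ Ioc X₂ (2 * X₂), ‖g c‖ ^ 2 ≤ K₂ * X₂) :
    ‖∑ k ∈ Ioc X₁ (2 * X₁), ∑ c ∈ Ioc X₂ (2 * X₂),
        (if c * k ≤ x then a k * g c * (φ (c * k) * e ((c * k : ℕ) * α)) else 0)‖ ^ 2 ≤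
      32 * (K₁ * K₂) * Real.log x * ((x : ℝ) / Real.sqrt q * T x q s U V) ^ 2 := by
  have hL := TypeI.one_le_log hx
  have hq0 : (0 : ℝ) < q := by exact_mod_cast hq
  have hs1 : (1 : ℝ) ≤ s := by exact_mod_cast hs
  have hls0 : 0 ≤ Real.log s := Real.log_nonneg hs1
  have h1 := typeII x q X₁ X₂ s φ α b a g hq hφ hs hbs hα
  have h2 := block_alg hx hq hs hsx hU1 hV1 h12 hU hV
  have h3 := T_sq x q s U V
  refine h1.trans ?_
  have h4 : 0 ≤ ((X₂ : ℝ) / s + 1) * ((X₁ : ℝ) / q + 1 + s * (1 + Real.log s)) := by positivity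
  have hA0 : 0 ≤ ∑ k ∈ Ioc X₁ (2 * X₁), ‖a k‖ ^ 2 := by positivity
  have hG0 : 0 ≤ ∑ c ∈ Ioc X₂ (2 * X₂), ‖g c‖ ^ 2 := by positivity
  calc 8 * (∑ k ∈ Ioc X₁ (2 * X₁), ‖a k‖ ^ 2) * (∑ c ∈ Ioc X₂ (2 * X₂), ‖g c‖ ^ 2) *
        (((X₂ : ℝ) / s + 1) * ((X₁ : ℝ) / q + 1 + s * (1 + Real.log s)))
      ≤ 8 * (K₁ * X₁) * (K₂ * X₂) *
        (((X₂ : ℝ) / s + 1) * ((X₁ : ℝ) / q + 1 + s * (1 + Real.log s))) := by gcongr
    _ = 8 * (K₁ * K₂) * ((X₁ : ℝ) * X₂ *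
        (((X₂ : ℝ) / s + 1) * ((X₁ : ℝ) / q + 1 + s * (1 + Real.log s)))) := by ring
    _ ≤ 8 * (K₁ * K₂) * (4 * Real.log x * ((x : ℝ) ^ 2 / q) *
        (1 / (s : ℝ) + 1 / V + q / U + q * s / x)) := by gcongr
    _ ≤ 8 * (K₁ * K₂) * (4 * Real.log x * ((x : ℝ) ^ 2 / q) * T x q s U V ^ 2) := by gcongr
    _ = _ := by
      rw [mul_pow, div_pow, Real.sq_sqrt hq0.le]
      ring

/-- the type II part -/
lemma two {C : ℝ} (hC0 : 0 < C) (hC : ∀ x N : ℕ, 3 ≤ x → N ≤ 2 * x →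
    ∑ n ∈ Icc 1 N, (n.divisors.card : ℝ) ^ 2 ≤ C * N * (Real.log x) ^ 3)
    {x q s V U : ℕ} {φ : ℕ → ℂ} {α : ℝ} {b : ℤ}
    (hx : 3 ≤ x) (hq : 1 ≤ q) (hφ : Tw q φ) (hs : 1 ≤ s) (hsx : s ≤ x)
    (hbs : IsCoprime b (s : ℤ)) (hα : |q * α - b / s| ≤ 1 / (s : ℝ) ^ 2)
    (hU1 : 1 ≤ U) (hV1 : 1 ≤ V) :
    ‖∑ c ∈ Icc 1 x, ∑ k ∈ Icc 1 x, ((LF V c : ℝ) : ℂ) * ((BB U k : ℝ) : ℂ) *
        (if c * k ≤ x then φ (c * k) * e ((c * k : ℕ) * α) else 0)‖ ≤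
      144 * (C + 1) * (Real.log x) ^ 5 * ((x : ℝ) / Real.sqrt q * T x q s U V) := by
  have hL := TypeI.one_le_log hx
  set L := Real.log x with hLd
  set M : ℝ := (x : ℝ) / Real.sqrt q * T x q s U V with hM
  have hM0 : 0 ≤ M := mul_nonneg (by positivity) (T_nonneg x q s U V)
  set N := Nat.log 2 x + 1 with hN
  have hxN : x ≤ 2 ^ N := (Nat.lt_pow_succ_log_self (by norm_num) x).le
  have hNL := Minor.N_le hx
  have hB : ∀ i < N, ∀ j < N, ‖∑ c ∈ Ioc (2 ^ i * V) (2 * (2 ^ i * V)),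
      ∑ k ∈ Ioc (2 ^ j * U) (2 * (2 ^ j * U)), ((LF V c : ℝ) : ℂ) * ((BB U k : ℝ) : ℂ) *
        (fun n : ℕ => if n ≤ x then φ n * e ((n : ℕ) * α) else 0) (c * k)‖ ≤
          16 * (C + 1) * L ^ 3 * M := by
    intro i _ j _
    have hX8 : V ≤ 2 ^ i * V := Nat.le_mul_of_pos_left V (by positivity)
    have hY8 : U ≤ 2 ^ j * U := Nat.le_mul_of_pos_left U (by positivity)
    generalize 2 ^ i * V = X at hX8 ⊢
    generalize 2 ^ j * U = Y at hY8 ⊢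
    have hX1 : 1 ≤ X := hV1.trans hX8
    have hY1 : 1 ≤ Y := hU1.trans hY8
    by_cases hXY : X * Y ≤ x
    · have hXx : X ≤ x := (Nat.le_mul_of_pos_right X hY1).trans hXY
      have hYx : Y ≤ x := (Nat.le_mul_of_pos_left Y hX1).trans hXY
      have hf := Minor.LF_sum (V := V) hx hXx
      have hg := Minor.BB_sum hC (U := U) hx hYx
      have hbound : ‖∑ c ∈ Ioc X (2 * X), ∑ k ∈ Ioc Y (2 * Y),
          ((LF V c : ℝ) : ℂ) * ((BB U k : ℝ) : ℂ) *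
          (fun n : ℕ => if n ≤ x then φ n * e ((n : ℕ) * α) else 0) (c * k)‖ ^ 2 ≤
          256 * C * L ^ 6 * M ^ 2 := by
        have hb := block (a := fun k => ((BB U k : ℝ) : ℂ)) (g := fun c => ((LF V c : ℝ) : ℂ))
            hx hq hφ hs hsx hbs hα hU1 hV1 (by rwa [mul_comm] at hXY) hY8 hX8
            (by positivity) (by positivity) hg hf
        have he : ∑ c ∈ Ioc X (2 * X), ∑ k ∈ Ioc Y (2 * Y),
              ((LF V c : ℝ) : ℂ) * ((BB U k : ℝ) : ℂ) *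
              (fun n : ℕ => if n ≤ x then φ n * e ((n : ℕ) * α) else 0) (c * k) =
              ∑ k ∈ Ioc Y (2 * Y), ∑ c ∈ Ioc X (2 * X),
              (if c * k ≤ x then ((BB U k : ℝ) : ℂ) * ((LF V c : ℝ) : ℂ) *
                (φ (c * k) * e ((c * k : ℕ) * α)) else 0) := by
          rw [sum_comm]
          refine sum_congr rfl fun k _ => sum_congr rfl fun c _ => ?_
          simp only [mul_ite, mul_zero]
          rw [mul_comm ((LF V c : ℝ) : ℂ)]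
        rw [he]
        refine hb.trans (le_of_eq ?_)
        ring
      refine (sq_le_sq₀ (norm_nonneg _) (by positivity)).mp (hbound.trans ?_)
      have h5 : C ≤ (C + 1) ^ 2 := by nlinarith
      calc 256 * C * L ^ 6 * M ^ 2 ≤ 256 * (C + 1) ^ 2 * L ^ 6 * M ^ 2 := by gcongr
        _ = _ := by ring
    · have h0 : ∑ c ∈ Ioc X (2 * X), ∑ k ∈ Ioc Y (2 * Y),
          ((LF V c : ℝ) : ℂ) * ((BB U k : ℝ) : ℂ) *
          (fun n : ℕ => if n ≤ x then φ n * e ((n : ℕ) * α) else 0) (c * k) = 0 := by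
        refine sum_eq_zero fun c hc => sum_eq_zero fun k hk => ?_
        have h6 : X * Y ≤ c * k :=
          Nat.mul_le_mul (mem_Ioc.mp hc).1.le (mem_Ioc.mp hk).1.le
        have h7 : ¬ c * k ≤ x := fun h => hXY (h6.trans h)
        simp only [if_neg h7, mul_zero]
      rw [h0, norm_zero]
      positivity
  have h := Minor.typeII_sum (x := x) (V := V) (U := U) (N := N)
    (hxN.trans (Nat.le_mul_of_pos_right _ hV1)) (hxN.trans (Nat.le_mul_of_pos_right _ hU1))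
    (fun c => ((LF V c : ℝ) : ℂ)) (fun k => ((BB U k : ℝ) : ℂ))
    (fun n : ℕ => if n ≤ x then φ n * e ((n : ℕ) * α) else 0)
    (fun c hc => by simp [LF_apply, hc]) (fun k hk => by simp [BB_of_le hk])
    (fun n hn => by simp [not_le.mpr hn]) hB
  refine h.trans ?_
  calc (N : ℝ) ^ 2 * (16 * (C + 1) * L ^ 3 * M) ≤ (3 * L) ^ 2 * (16 * (C + 1) * L ^ 3 * M) := by
        gcongr
    _ = _ := by ring

/-- type I sums of level `D`, the first with coefficient `1` -/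
def HypI (C : ℝ) : Prop := ∀ (x q D s : ℕ) (φ : ℕ → ℂ) (α : ℝ) (b : ℤ) (w : ℕ → ℂ) (W : ℝ),
    3 ≤ x → 1 ≤ q → q ≤ x → Tw q φ → D ≤ x → 1 ≤ s → s ≤ x → IsCoprime b (s : ℤ) →
    |q * α - b / s| ≤ 1 / (s : ℝ) ^ 2 → 0 ≤ W → (∀ d ∈ Icc 1 D, ‖w d‖ ≤ W) →
    ‖∑ d ∈ Icc 1 D, w d * ∑ k ∈ Icc 1 (x / d), φ (d * k) * e ((d * k : ℕ) * α)‖ ≤
      C * W * ((x : ℝ) / Real.sqrt q) *
        (1 / Real.sqrt s + Real.sqrt (q * s / x) + Real.sqrt q * D / x) * (Real.log x) ^ 3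

/-- type I sums of level `D`, with coefficient `log` -/
def HypIlog (C : ℝ) : Prop := ∀ (x q D s : ℕ) (φ : ℕ → ℂ) (α : ℝ) (b : ℤ) (w : ℕ → ℂ) (W : ℝ),
    3 ≤ x → 1 ≤ q → q ≤ x → Tw q φ → D ≤ x → 1 ≤ s → s ≤ x → IsCoprime b (s : ℤ) →
    |q * α - b / s| ≤ 1 / (s : ℝ) ^ 2 → 0 ≤ W → (∀ d ∈ Icc 1 D, ‖w d‖ ≤ W) →
    ‖∑ d ∈ Icc 1 D, w d * ∑ k ∈ Icc 1 (x / d),
        ((Real.log k : ℝ) : ℂ) * (φ (d * k) * e ((d * k : ℕ) * α))‖ ≤
      C * W * ((x : ℝ) / Real.sqrt q) *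
        (1 / Real.sqrt s + Real.sqrt (q * s / x) + Real.sqrt q * D / x) * (Real.log x) ^ 4

lemma one {x q V : ℕ} {φ : ℕ → ℂ} {α : ℝ} (hx : 3 ≤ x) (hq : 1 ≤ q) (hφ : Tw q φ) :
    ‖∑ n ∈ Icc 1 x, ((FF V n : ℝ) : ℂ) * (if n ≤ x then φ n * e (n * α) else 0)‖ ≤
      V * Real.log x := by
  have hL := TypeI.one_le_log hx
  calc _ ≤ ∑ n ∈ Icc 1 x, ‖((FF V n : ℝ) : ℂ) * (if n ≤ x then φ n * e (n * α) else 0)‖ :=
          norm_sum_le _ _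
    _ ≤ ∑ n ∈ Icc 1 x, (if n ≤ V then Real.log x else 0) := by
        refine sum_le_sum fun n hn => ?_
        rw [if_pos (mem_Icc.mp hn).2, norm_mul, norm_mul, add_norm_e, mul_one, Complex.norm_real,
          Real.norm_eq_abs, abs_of_nonneg (FF_nonneg V n), FF_apply]
        have h2 := Minor.norm_le_one hq hφ n
        split_ifs with h
        · have h3 : Λ n ≤ Real.log x := by
            refine ArithmeticFunction.vonMangoldt_le_log.trans ?_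
            exact Real.log_le_log (by exact_mod_cast (mem_Icc.mp hn).1)
              (by exact_mod_cast (mem_Icc.mp hn).2)
          calc Λ n * ‖φ n‖ ≤ Real.log x * 1 := by
                gcongr
            _ = _ := mul_one _
        · simp
    _ = ∑ n ∈ (Icc 1 x).filter (fun n => n ≤ V), Real.log x := by rw [sum_filter]
    _ ≤ ∑ n ∈ Icc 1 V, Real.log x := by
        refine sum_le_sum_of_subset_of_nonneg ?_ fun _ _ _ => by positivity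
        intro n hn
        rw [mem_filter, mem_Icc] at hn
        exact mem_Icc.mpr ⟨hn.1.1, hn.2⟩
    _ = V * Real.log x := by
        rw [sum_const, Nat.card_Icc, nsmul_eq_mul, Nat.add_sub_cancel]

lemma general {C₁ C₂ : ℝ} (hC₁ : 0 < C₁) (hC₂ : 0 < C₂) (H₁ : HypI C₁) (H₂ : HypIlog C₂) :
    ∃ C : ℝ, 0 < C ∧ ∀ (x q s U V : ℕ) (φ : ℕ → ℂ) (α : ℝ) (b : ℤ), 3 ≤ x → 1 ≤ q → q ≤ x →
    1 ≤ U → 1 ≤ V → Tw q φ → 1 ≤ s → s ≤ x → IsCoprime b (s : ℤ) →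
    |q * α - b / s| ≤ 1 / (s : ℝ) ^ 2 →
    ‖∑ n ∈ Icc 1 x, FL q n * φ n * e (n * α)‖ ≤
      C * ((x : ℝ) / Real.sqrt q) * (Real.log x) ^ 6 *
        (T x q s U V + Real.sqrt q * (U * V) / x) := by
  obtain ⟨C, hC, HC⟩ := tau_sq_sum
  refine ⟨1 + C₁ + C₂ + 144 * (C + 1), by positivity, ?_⟩
  intro x q s U V φ α b hx hq hqx hU1 hV1 hφ hs hsx hbs hα
  have hL := TypeI.one_le_log hx
  have hx0 : (0 : ℝ) < x := by
    have : (3 : ℝ) ≤ x := by exact_mod_cast hx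
    linarith
  have hq0 : (0 : ℝ) < q := by exact_mod_cast hq
  have hU1' : (1 : ℝ) ≤ U := by exact_mod_cast hU1
  have hV1' : (1 : ℝ) ≤ V := by exact_mod_cast hV1
  have hsq : 0 < Real.sqrt q := Real.sqrt_pos.mpr hq0
  set L := Real.log x with hLd
  set R : ℝ := (x : ℝ) / Real.sqrt q with hR
  have hR0 : 0 ≤ R := by positivity
  have hT0 := T_nonneg x q s U V
  set Z : ℝ := T x q s U V + Real.sqrt q * (U * V) / x with hZ
  have hZ0 : 0 ≤ Z := by positivity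
  have hTZ : T x q s U V ≤ Z := by
    rw [hZ]
    have : 0 ≤ Real.sqrt q * (U * V) / x := by positivity
    linarith
  have hD : ∀ D : ℕ, (D : ℝ) ≤ U * V →
      1 / Real.sqrt s + Real.sqrt (q * s / x) + Real.sqrt q * D / x ≤ Z := by
    intro D hD
    have h1 : Real.sqrt q * D / x ≤ Real.sqrt q * (U * V) / x := by gcongr
    have h2 : 0 ≤ 1 / Real.sqrt (V : ℝ) := by positivity
    have h3 : 0 ≤ Real.sqrt ((q : ℝ) / U) := Real.sqrt_nonneg _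
    rw [hZ]
    unfold T
    linarith
  set h : ℕ → ℂ := fun n => if n ≤ x then φ n * e ((n : ℕ) * α) else 0 with hh
  have hh0 : ∀ n, x < n → h n = 0 := fun n hn => by
    simp only [hh, if_neg (not_le.mpr hn)]
  have e1 : ∑ n ∈ Icc 1 x, FL q n * φ n * e (n * α) =
      ∑ n ∈ Icc 1 x, ((Λ n : ℝ) : ℂ) * h n := by
    refine sum_congr rfl fun n hn => ?_
    rw [Minor.FL_mul hφ, hh]
    simp only [if_pos (mem_Icc.mp hn).2]
    ring
  have e2 : ∑ n ∈ Icc 1 x, ((Λ n : ℝ) : ℂ) * h n =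
      ∑ n ∈ Icc 1 x, ((FF V n : ℝ) : ℂ) * h n +
      ∑ n ∈ Icc 1 x, (((ArithmeticFunction.log * GG U) n : ℝ) : ℂ) * h n -
      ∑ n ∈ Icc 1 x, ((((ζ : ArithmeticFunction ℝ) * CC U V) n : ℝ) : ℂ) * h n +
      ∑ n ∈ Icc 1 x, (((LF V * BB U) n : ℝ) : ℂ) * h n := by
    rw [← sum_add_distrib, ← sum_sub_distrib, ← sum_add_distrib]
    refine sum_congr rfl fun n _ => ?_
    have h1 := congrArg (fun f : ArithmeticFunction ℝ => f n) (vaughan U V)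
    simp only [ArithmeticFunction.add_apply, sub_eq_add_neg, ArithmeticFunction.neg_apply] at h1
    rw [h1]
    push_cast
    ring
  have b1 : ‖∑ n ∈ Icc 1 x, ((FF V n : ℝ) : ℂ) * h n‖ ≤ L * (R * Z) := by
    refine (one hx hq hφ).trans ?_
    have h1 : (V : ℝ) ≤ R * Z := by
      have h2 : R * (Real.sqrt q * (U * V) / x) = U * V := by
        rw [hR]
        field_simp
      have h3 : R * (Real.sqrt q * (U * V) / x) ≤ R * Z := by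
        rw [hZ]
        gcongr
        linarith
      rw [h2] at h3
      nlinarith
    calc (V : ℝ) * L ≤ (R * Z) * L := by gcongr
      _ = _ := by ring
  have b2 : ‖∑ n ∈ Icc 1 x, (((ArithmeticFunction.log * GG U) n : ℝ) : ℂ) * h n‖ ≤
      C₂ * L ^ 4 * (R * Z) := by
    rw [sum_conv _ _ h x hh0]
    have h1 := Minor.rearr x (min U x) φ α (fun k => ((Real.log k : ℝ) : ℂ))
      (fun d => ((GG U d : ℝ) : ℂ)) (min_le_right _ _) (fun d hd hdx => by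
        have : U < d := by
          rcases min_lt_iff.mp hd with h | h
          · exact h
          · omega
        simp [GG_of_lt this])
    have h2 : ∑ a ∈ Icc 1 x, ∑ b ∈ Icc 1 x,
        ((ArithmeticFunction.log a : ℝ) : ℂ) * ((GG U b : ℝ) : ℂ) * h (a * b) =
        ∑ d ∈ Icc 1 (min U x), ((GG U d : ℝ) : ℂ) * ∑ k ∈ Icc 1 (x / d),
          ((Real.log k : ℝ) : ℂ) * (φ (d * k) * e ((d * k : ℕ) * α)) := by
      rw [← h1]
      rfl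
    rw [h2]
    have h3 := H₂ x q (min U x) s φ α b (fun d => ((GG U d : ℝ) : ℂ)) 1 hx hq hqx hφ
      (min_le_right _ _) hs hsx hbs hα zero_le_one (fun d _ => by
        rw [Complex.norm_real, Real.norm_eq_abs]
        exact abs_GG_le U d)
    have h4 : ((min U x : ℕ) : ℝ) ≤ U * V := by
      have h5 : ((min U x : ℕ) : ℝ) ≤ U := by exact_mod_cast min_le_left _ _
      nlinarith
    have h5 := hD _ h4
    refine h3.trans ?_
    calc C₂ * 1 * R * (1 / Real.sqrt s + Real.sqrt (q * s / x) +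
          Real.sqrt q * (min U x : ℕ) / x) * L ^ 4
        ≤ C₂ * 1 * R * Z * L ^ 4 := by gcongr
      _ = _ := by ring
  have b3 : ‖∑ n ∈ Icc 1 x, ((((ζ : ArithmeticFunction ℝ) * CC U V) n : ℝ) : ℂ) * h n‖ ≤
      C₁ * L ^ 4 * (R * Z) := by
    rw [sum_conv _ _ h x hh0]
    have h1 := Minor.rearr x (min (U * V) x) φ α
      (fun k => (((ζ : ArithmeticFunction ℝ) k : ℝ) : ℂ))
      (fun d => ((CC U V d : ℝ) : ℂ)) (min_le_right _ _) (fun d hd hdx => by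
        have : U * V < d := by
          rcases min_lt_iff.mp hd with h | h
          · exact h
          · omega
        simp [CC_of_lt this])
    have h2 : ∑ a ∈ Icc 1 x, ∑ b ∈ Icc 1 x,
        (((ζ : ArithmeticFunction ℝ) a : ℝ) : ℂ) * ((CC U V b : ℝ) : ℂ) * h (a * b) =
        ∑ d ∈ Icc 1 (min (U * V) x), ((CC U V d : ℝ) : ℂ) * ∑ k ∈ Icc 1 (x / d),
          φ (d * k) * e ((d * k : ℕ) * α) := by
      refine h1.trans ?_
      refine sum_congr rfl fun d _ => ?_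
      congr 1
      refine sum_congr rfl fun k hk => ?_
      have hk0 : k ≠ 0 := by
        have := (mem_Icc.mp hk).1
        omega
      rw [ArithmeticFunction.natCoe_apply, ArithmeticFunction.zeta_apply_ne hk0]
      simp
    rw [h2]
    have h3 := H₁ x q (min (U * V) x) s φ α b (fun d => ((CC U V d : ℝ) : ℂ)) L hx hq hqx hφ
      (min_le_right _ _) hs hsx hbs hα (by linarith) (fun d hd => by
        rw [Complex.norm_real, Real.norm_eq_abs]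
        refine (abs_CC_le U V d).trans ?_
        rw [mem_Icc] at hd
        exact Real.log_le_log (by exact_mod_cast hd.1)
          (by exact_mod_cast hd.2.trans (min_le_right _ _)))
    have h4 : ((min (U * V) x : ℕ) : ℝ) ≤ U * V := by
      exact_mod_cast min_le_left _ _
    have h5 := hD _ h4
    refine h3.trans ?_
    calc C₁ * L * R * (1 / Real.sqrt s + Real.sqrt (q * s / x) +
          Real.sqrt q * (min (U * V) x : ℕ) / x) * L ^ 3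
        ≤ C₁ * L * R * Z * L ^ 3 := by gcongr
      _ = _ := by ring
  have b4 : ‖∑ n ∈ Icc 1 x, (((LF V * BB U) n : ℝ) : ℂ) * h n‖ ≤
      144 * (C + 1) * L ^ 5 * (R * Z) := by
    rw [sum_conv _ _ h x hh0]
    refine (two hC HC hx hq hφ hs hsx hbs hα hU1 hV1).trans ?_
    gcongr
  rw [e1, e2]
  have key : ∀ a b c d : ℂ, ‖a + b - c + d‖ ≤ ‖a‖ + ‖b‖ + ‖c‖ + ‖d‖ := by
    intro a b c d
    calc ‖a + b - c + d‖ ≤ ‖a + b - c‖ + ‖d‖ := norm_add_le _ _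
      _ ≤ ‖a + b‖ + ‖c‖ + ‖d‖ := by gcongr; exact norm_sub_le _ _
      _ ≤ ‖a‖ + ‖b‖ + ‖c‖ + ‖d‖ := by gcongr; exact norm_add_le _ _
  refine (key _ _ _ _).trans ?_
  have hRZ : 0 ≤ R * Z := mul_nonneg hR0 hZ0
  have c1 : L * (R * Z) ≤ 1 * L ^ 6 * (R * Z) := by
    rw [one_mul]
    gcongr
    exact le_self_pow₀ hL (by norm_num)
  have c2 : C₂ * L ^ 4 * (R * Z) ≤ C₂ * L ^ 6 * (R * Z) := by
    gcongr
    norm_num
  have c3 : C₁ * L ^ 4 * (R * Z) ≤ C₁ * L ^ 6 * (R * Z) := by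
    gcongr
    norm_num
  have c4 : 144 * (C + 1) * L ^ 5 * (R * Z) ≤ 144 * (C + 1) * L ^ 6 * (R * Z) := by
    gcongr
    norm_num
  calc _ ≤ 1 * L ^ 6 * (R * Z) + C₂ * L ^ 6 * (R * Z) +
        C₁ * L ^ 6 * (R * Z) + 144 * (C + 1) * L ^ 6 * (R * Z) := by
        linarith
    _ = _ := by ring

lemma rp_mul {x : ℝ} (hx : 0 < x) (a b : ℝ) : x ^ a * x ^ b = x ^ (a + b) :=
  (Real.rpow_add hx a b).symm

/-- the choice of the parameters -/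
lemma choice {ε : ℝ} (hε : 0 < ε) {x q s : ℕ} (hx : 3 ≤ x) (hq : 1 ≤ q)
    (hqx : (q : ℝ) ≤ (x : ℝ) ^ (2 / 3 - ε)) :
    ∃ U V : ℕ, 1 ≤ U ∧ 1 ≤ V ∧ T x q s U V + Real.sqrt q * (U * V) / x ≤
      6 * (1 / Real.sqrt s + (x : ℝ) ^ (-(ε / 8)) + Real.sqrt (q * s / x)) := by
  have hx3 : (3 : ℝ) ≤ x := by exact_mod_cast hx
  have hx0 : (0 : ℝ) < x := by linarith
  have hx1 : (1 : ℝ) ≤ x := by linarith
  have hq1 : (1 : ℝ) ≤ q := by exact_mod_cast hq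
  have hε2 : ε ≤ 2 / 3 := by
    by_contra h
    push Not at h
    have : (x : ℝ) ^ (2 / 3 - ε) < 1 := Real.rpow_lt_one_of_one_lt_of_neg (by linarith) (by linarith)
    linarith
  set U := ⌊(x : ℝ) ^ (2 / 3 - ε / 2)⌋₊ + 1 with hU
  set V := ⌊(x : ℝ) ^ (ε / 4)⌋₊ + 1 with hV
  have hU1 : (1 : ℝ) ≤ (x : ℝ) ^ (2 / 3 - ε / 2) := Real.one_le_rpow hx1 (by linarith)
  have hV1 : (1 : ℝ) ≤ (x : ℝ) ^ (ε / 4) := Real.one_le_rpow hx1 (by linarith)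
  have hUl : (x : ℝ) ^ (2 / 3 - ε / 2) ≤ U := by
    rw [hU]
    push_cast
    exact (Nat.lt_floor_add_one _).le
  have hVl : (x : ℝ) ^ (ε / 4) ≤ V := by
    rw [hV]
    push_cast
    exact (Nat.lt_floor_add_one _).le
  have hUu : (U : ℝ) ≤ 2 * (x : ℝ) ^ (2 / 3 - ε / 2) := by
    rw [hU]
    push_cast
    have := Nat.floor_le (by positivity : 0 ≤ (x : ℝ) ^ (2 / 3 - ε / 2))
    linarith
  have hVu : (V : ℝ) ≤ 2 * (x : ℝ) ^ (ε / 4) := by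
    rw [hV]
    push_cast
    have := Nat.floor_le (by positivity : 0 ≤ (x : ℝ) ^ (ε / 4))
    linarith
  have hsqrt : ∀ a : ℝ, Real.sqrt ((x : ℝ) ^ a) = (x : ℝ) ^ (a / 2) := fun a => by
    rw [Real.sqrt_eq_rpow, ← Real.rpow_mul hx0.le]
    congr 1
    ring
  refine ⟨U, V, by omega, by omega, ?_⟩
  have t1 : 1 / Real.sqrt V ≤ (x : ℝ) ^ (-(ε / 8)) := by
    have h1 : (x : ℝ) ^ (ε / 8) ≤ Real.sqrt V := by
      have h2 := Real.sqrt_le_sqrt hVl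
      rw [hsqrt] at h2
      convert h2 using 2
      ring
    rw [Real.rpow_neg hx0.le, ← one_div]
    exact one_div_le_one_div_of_le (by positivity) h1
  have t2 : Real.sqrt ((q : ℝ) / U) ≤ (x : ℝ) ^ (-(ε / 8)) := by
    have h1 : (q : ℝ) / U ≤ (x : ℝ) ^ (-(ε / 2)) := by
      rw [div_le_iff₀ (by positivity)]
      calc (q : ℝ) ≤ (x : ℝ) ^ (2 / 3 - ε) := hqx
        _ = (x : ℝ) ^ (-(ε / 2)) * (x : ℝ) ^ (2 / 3 - ε / 2) := by
          rw [rp_mul hx0]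
          congr 1
          ring
        _ ≤ (x : ℝ) ^ (-(ε / 2)) * U := by gcongr
    have h2 := Real.sqrt_le_sqrt h1
    rw [hsqrt] at h2
    refine h2.trans (Real.rpow_le_rpow_of_exponent_le hx1 ?_)
    linarith
  have t3 : Real.sqrt q * (U * V) / x ≤ 4 * (x : ℝ) ^ (-(ε / 8)) := by
    rw [div_le_iff₀ hx0]
    have h1 : Real.sqrt q ≤ (x : ℝ) ^ ((2 / 3 - ε) / 2) := by
      have h2 := Real.sqrt_le_sqrt hqx
      rwa [hsqrt] at h2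
    calc Real.sqrt q * (U * V) ≤ (x : ℝ) ^ ((2 / 3 - ε) / 2) *
          ((2 * (x : ℝ) ^ (2 / 3 - ε / 2)) * (2 * (x : ℝ) ^ (ε / 4))) := by gcongr
      _ = 4 * ((x : ℝ) ^ ((2 / 3 - ε) / 2) * (x : ℝ) ^ (2 / 3 - ε / 2) * (x : ℝ) ^ (ε / 4)) := by
        ring
      _ = 4 * (x : ℝ) ^ ((2 / 3 - ε) / 2 + (2 / 3 - ε / 2) + ε / 4) := by
        rw [rp_mul hx0, rp_mul hx0]
      _ ≤ 4 * (x : ℝ) ^ (-(ε / 8) + 1) := by
        have h2 : (x : ℝ) ^ ((2 / 3 - ε) / 2 + (2 / 3 - ε / 2) + ε / 4) ≤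
            (x : ℝ) ^ (-(ε / 8) + 1) :=
          Real.rpow_le_rpow_of_exponent_le hx1 (by linarith)
        linarith
      _ = 4 * (x : ℝ) ^ (-(ε / 8)) * x := by
        rw [Real.rpow_add hx0, Real.rpow_one]
        ring
  have h5 : 0 ≤ 1 / Real.sqrt (s : ℝ) := by positivity
  have h6 : 0 ≤ Real.sqrt ((q : ℝ) * s / x) := Real.sqrt_nonneg _
  unfold T
  linarith

end Minor2

theorem minorF2 (ε : ℝ) (hε : 0 < ε) : ∃ C : ℝ, 0 < C ∧ ∃ x₀ : ℕ, ∀ (x q s : ℕ) (φ : ℕ → ℂ) (α : ℝ)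
    (b : ℤ), x₀ ≤ x → 1 ≤ q → (q : ℝ) ≤ (x : ℝ) ^ (2 / 3 - ε) → Tw q φ → 1 ≤ s → q * s ≤ x →
    IsCoprime b (s : ℤ) → |q * α - b / s| ≤ 1 / (s : ℝ) ^ 2 →
    ‖∑ n ∈ Icc 1 x, FL q n * φ n * e (n * α)‖ ≤
      C * ((x : ℝ) / Real.sqrt q) * (Real.log x) ^ 6 *
        (1 / Real.sqrt s + (x : ℝ) ^ (-(ε / 8)) + Real.sqrt (q * s / x)) := by
  obtain ⟨C₁, hC₁, H₁⟩ := typeIG
  obtain ⟨C₂, hC₂, H₂⟩ := typeIG_log
  obtain ⟨C, hC, H⟩ := Minor2.general hC₁ hC₂ H₁ H₂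
  refine ⟨6 * C, by positivity, 3, ?_⟩
  intro x q s φ α b hx hq hqx hφ hs hqs hbs hα
  obtain ⟨U, V, hU1, hV1, hUV⟩ := Minor2.choice (s := s) hε hx hq hqx
  have h1 : q ≤ x := (Nat.le_mul_of_pos_right q hs).trans hqs
  have h2 : s ≤ x := (Nat.le_mul_of_pos_left s hq).trans hqs
  refine (H x q s U V φ α b hx hq h1 hU1 hV1 hφ hs h2 hbs hα).trans ?_
  have hL := TypeI.one_le_log hx
  calc C * ((x : ℝ) / Real.sqrt q) * (Real.log x) ^ 6 *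
        (Minor2.T x q s U V + Real.sqrt q * (U * V) / x)
      ≤ C * ((x : ℝ) / Real.sqrt q) * (Real.log x) ^ 6 *
        (6 * (1 / Real.sqrt s + (x : ℝ) ^ (-(ε / 8)) + Real.sqrt (q * s / x))) := by
        gcongr
    _ = _ := by ring

end Pool.Agent.HL
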