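import Pool.Agent.Work.MP_92f640_nt.HL.Defs

/-! # Module Ram: Ramanujan sums

`ram_eq`: `∑_{b < s, (b, s) = 1} = ∑_{d ∣ s} μ(d) ∑_{b < s, d ∣ b}` and the inner sum of `e(n b / s)` is
`s / d` if `s / d ∣ n` and `0` otherwise; then `d ↦ s / d`.
`ram_sqfree`: for squarefree `s` the divisor sum is the product over the primes of `s`
(`Nat.Coprime` induction on the prime factors, or multiplicativity of both sides).
`ram_class_prod`: expand the product over the primes of `s` not dividing `q`; the squarefree divisors of `s`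
coprime to `q` are the products of subsets; `μ(t) ram t c / φ(t)` is the product of
`- c_p(c) / (p - 1)`. The product is `∏_{p ∣ s, p ∤ q} (p / (p - 1))` if `c` is coprime to `s`, and `0` if some
prime `p` divides `c` and `s` (it does not divide `q`), and
`q / φ(q) * ∏_{p ∣ s, p ∤ q} (p / (p - 1)) = q s / φ(q s)`. -/

namespace Pool.Agent.HL

open Finset Pool.Agent.BV
open scoped ArithmeticFunction.Moebius

namespace Ram

/-- the sum of the Moebius function over the divisors -/
theorem mu_sum (N : ℕ) : ∑ d ∈ N.divisors, ((μ d : ℤ) : ℂ) = if N = 1 then 1 else 0 := by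
  have h1 : ∑ d ∈ N.divisors, μ d = if N = 1 then 1 else 0 := by
    rw [← ArithmeticFunction.coe_mul_zeta_apply, ArithmeticFunction.moebius_mul_coe_zeta,
      ArithmeticFunction.one_apply]
  have h2 := congrArg (Int.cast : ℤ → ℂ) h1
  push_cast at h2
  exact h2

/-- complete exponential sums -/
theorem geom (m n : ℕ) (hm : 1 ≤ m) :
    ∑ b ∈ range m, e (n * ((b : ℝ) / m)) = if m ∣ n then (m : ℂ) else 0 := by
  have hm0 : (m : ℝ) ≠ 0 := by positivity
  have h1 : ∀ b : ℕ, e (n * ((b : ℝ) / m)) = e ((n : ℝ) / m) ^ b := by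
    intro b
    rw [← add_e_pow]
    congr 1
    ring
  simp only [h1]
  have hpow : e ((n : ℝ) / m) ^ m = 1 := by
    rw [← add_e_pow]
    have : (m : ℝ) * ((n : ℝ) / m) = ((n : ℤ) : ℝ) := by
      push_cast
      field_simp
    rw [this]
    exact add_e_int _
  split_ifs with h
  · obtain ⟨k, rfl⟩ := h
    have h2 : e (((m * k : ℕ) : ℝ) / m) = 1 := by
      have : ((m * k : ℕ) : ℝ) / m = ((k : ℤ) : ℝ) := by
        push_cast
        field_simp
      rw [this]
      exact add_e_int _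
    rw [Finset.sum_congr rfl fun b _ => by rw [h2, one_pow]]
    simp
  · have hne : e ((n : ℝ) / m) ≠ 1 := by
      intro h2
      unfold e at h2
      rw [Complex.exp_eq_one_iff] at h2
      obtain ⟨k, hk⟩ := h2
      have hpi : (2 * (Real.pi : ℂ) * Complex.I) ≠ 0 := by
        simp [Real.pi_ne_zero]
      have h3 : (((n : ℝ) / m : ℝ) : ℂ) = (k : ℂ) := by
        apply mul_left_cancel₀ hpi
        rw [mul_comm (2 * (Real.pi : ℂ) * Complex.I) (k : ℂ), ← hk]
        ring
      have h4 : (n : ℝ) / m = (k : ℝ) := by exact_mod_cast h3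
      rw [div_eq_iff hm0] at h4
      have h5 : (n : ℤ) = k * m := by exact_mod_cast h4
      apply h
      have h6 : (m : ℤ) ∣ (n : ℤ) := ⟨k, by rw [h5]; ring⟩
      exact_mod_cast h6
    have h3 := geom_sum_mul (e ((n : ℝ) / m)) m
    rw [hpow, sub_self] at h3
    exact (mul_eq_zero.1 h3).resolve_right (sub_ne_zero.2 hne)

/-- the sum over the multiples of a divisor -/
theorem mult_sum (s n d : ℕ) (hs : 1 ≤ s) (hd : d ∣ s) :
    ∑ b ∈ (range s).filter (fun b => d ∣ b), e (n * ((b : ℝ) / s)) =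
      if s / d ∣ n then ((s / d : ℕ) : ℂ) else 0 := by
  obtain ⟨m, rfl⟩ := hd
  have hd0 : 0 < d := Nat.pos_of_ne_zero (by rintro rfl; simp at hs)
  have hm0 : 0 < m := Nat.pos_of_ne_zero (by rintro rfl; simp at hs)
  rw [Nat.mul_div_cancel_left m hd0, ← geom m n hm0]
  refine Finset.sum_nbij' (fun b => b / d) (fun b => d * b) ?_ ?_ ?_ ?_ ?_
  · intro b hb
    rw [mem_filter, mem_range] at hb
    rw [mem_range]
    exact Nat.div_lt_of_lt_mul hb.1
  · intro b hb
    rw [mem_range] at hb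
    rw [mem_filter, mem_range]
    exact ⟨Nat.mul_lt_mul_of_pos_left hb hd0, dvd_mul_right _ _⟩
  · intro b hb
    rw [mem_filter] at hb
    exact Nat.mul_div_cancel' hb.2
  · intro b _
    exact Nat.mul_div_cancel_left b hd0
  · intro b hb
    rw [mem_filter] at hb
    obtain ⟨k, rfl⟩ := hb.2
    rw [Nat.mul_div_cancel_left k hd0]
    congr 2
    push_cast
    have : (d : ℝ) ≠ 0 := by positivity
    field_simp

/-- `d` if `d ∣ n`, else `0` -/
noncomputable def gA (n : ℕ) : ArithmeticFunction ℂ :=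
  ⟨fun d => if d ∣ n then (d : ℂ) else 0, by simp⟩

theorem gA_apply (n d : ℕ) : gA n d = if d ∣ n then (d : ℂ) else 0 := rfl

theorem gA_mult (n : ℕ) : (gA n).IsMultiplicative := by
  refine ⟨by simp [gA_apply], ?_⟩
  intro a b hab
  simp only [gA_apply]
  by_cases ha : a ∣ n
  · by_cases hb : b ∣ n
    · rw [if_pos ha, if_pos hb, if_pos (hab.mul_dvd_of_dvd_of_dvd ha hb)]
      push_cast
      ring
    · rw [if_neg hb, mul_zero, if_neg (fun h => hb ((dvd_mul_left b a).trans h))]
  · rw [if_neg ha, zero_mul, if_neg (fun h => ha ((dvd_mul_right a b).trans h))]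

/-- the Ramanujan sum as an arithmetic function of the modulus -/
noncomputable def RA (n : ℕ) : ArithmeticFunction ℂ := (μ : ArithmeticFunction ℂ) * gA n

theorem RA_mult (n : ℕ) : (RA n).IsMultiplicative :=
  ArithmeticFunction.isMultiplicative_moebius.intCast.mul (gA_mult n)

theorem RA_apply (s n : ℕ) (hs : 1 ≤ s) :
    RA n s = ∑ d ∈ (Nat.gcd s n).divisors, ((μ (s / d) : ℤ) : ℂ) * (d : ℂ) := by
  rw [RA, ArithmeticFunction.mul_apply, Nat.sum_divisorsAntidiagonal'
    (fun a b => (μ : ArithmeticFunction ℂ) a * gA n b)]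
  simp only [gA_apply, ArithmeticFunction.intCoe_apply, mul_ite, mul_zero]
  rw [← Finset.sum_filter]
  refine Finset.sum_congr ?_ fun _ _ => rfl
  ext d
  rw [mem_filter, Nat.mem_divisors, Nat.mem_divisors, Nat.dvd_gcd_iff]
  constructor
  · rintro ⟨⟨h1, -⟩, h2⟩
    exact ⟨⟨h1, h2⟩, Nat.gcd_ne_zero_left (by omega)⟩
  · rintro ⟨⟨h1, h2⟩, -⟩
    exact ⟨⟨h1, by omega⟩, h2⟩

theorem RA_prime (n p : ℕ) (hp : p.Prime) : RA n p = if p ∣ n then (p : ℂ) - 1 else -1 := by
  rw [RA, ArithmeticFunction.mul_apply, Nat.sum_divisorsAntidiagonal'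
    (fun a b => (μ : ArithmeticFunction ℂ) a * gA n b), hp.divisors,
    Finset.sum_pair hp.one_lt.ne]
  rw [Nat.div_one, Nat.div_self hp.pos]
  simp only [gA_apply, ArithmeticFunction.intCoe_apply,
    ArithmeticFunction.moebius_apply_prime hp, ArithmeticFunction.moebius_apply_one]
  simp only [isUnit_one, IsUnit.dvd, if_true]
  push_cast
  split_ifs <;> ring

end Ram

open Ram in
theorem ram_norm_le (s n : ℕ) : ‖ram s n‖ ≤ s.totient := by
  unfold ram
  refine (norm_sum_le _ _).trans ?_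
  simp only [add_norm_e, Finset.sum_const, nsmul_eq_mul, mul_one]
  rw [Nat.totient_eq_card_coprime]
  have : (range s).filter (fun b => b.Coprime s) = (range s).filter (fun b => s.Coprime b) := by
    refine Finset.filter_congr fun b _ => ?_
    exact Nat.coprime_comm
  rw [this]

open Ram in
theorem ram_eq (s n : ℕ) (hs : 1 ≤ s) :
    ram s n = ∑ d ∈ (Nat.gcd s n).divisors, ((μ (s / d) : ℤ) : ℂ) * (d : ℂ) := by
  have h1 : ram s n = ∑ b ∈ range s, ∑ d ∈ s.divisors,
      if d ∣ b then ((μ d : ℤ) : ℂ) * e (n * ((b : ℝ) / s)) else 0 := by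
    unfold ram
    rw [Finset.sum_filter]
    refine Finset.sum_congr rfl fun b _ => ?_
    rw [← Finset.sum_filter, ← Finset.sum_mul]
    have h2 : s.divisors.filter (fun d => d ∣ b) = (Nat.gcd b s).divisors := by
      ext d
      rw [mem_filter, Nat.mem_divisors, Nat.mem_divisors, Nat.dvd_gcd_iff]
      constructor
      · rintro ⟨⟨h1, -⟩, h2⟩
        exact ⟨⟨h2, h1⟩, Nat.gcd_ne_zero_right (by omega)⟩
      · rintro ⟨⟨h1, h2⟩, -⟩
        exact ⟨⟨h2, by omega⟩, h1⟩
    rw [h2, mu_sum, ite_mul, one_mul, zero_mul]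
  rw [h1, Finset.sum_comm]
  have h3 : ∀ d ∈ s.divisors, ∑ b ∈ range s,
      (if d ∣ b then ((μ d : ℤ) : ℂ) * e (n * ((b : ℝ) / s)) else 0) =
      ((μ (s / (s / d)) : ℤ) : ℂ) * gA n (s / d) := by
    intro d hd
    have hd' := (Nat.mem_divisors.1 hd).1
    rw [← Finset.sum_filter, ← Finset.mul_sum, mult_sum s n d hs hd', gA_apply,
      Nat.div_div_self hd' (by omega)]
  rw [Finset.sum_congr rfl h3, Nat.sum_div_divisors s (fun d => ((μ (s / d) : ℤ) : ℂ) * gA n d),
    ← RA_apply s n hs, RA, ArithmeticFunction.mul_apply, Nat.sum_divisorsAntidiagonal'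
    (fun a b => (μ : ArithmeticFunction ℂ) a * gA n b)]
  rfl

namespace Ram

theorem ram_eq_RA (s n : ℕ) (hs : 1 ≤ s) : ram s n = RA n s := by
  rw [ram_eq s n hs, RA_apply s n hs]

end Ram

open Ram in
theorem ram_sqfree (s n : ℕ) (hs : Squarefree s) :
    ram s n = ∏ p ∈ s.primeFactors, (if p ∣ n then (p : ℂ) - 1 else -1) := by
  rw [ram_eq_RA s n (Nat.pos_of_ne_zero hs.ne_zero), ← (RA_mult n).prod_primeFactors hs]
  exact Finset.prod_congr rfl fun p hp => RA_prime n p (Nat.prime_of_mem_primeFactors hp)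

/-- `ram s n` is real for squarefree `s` -/
theorem ram_im (s n : ℕ) (hs : Squarefree s) : (ram s n).im = 0 := by
  rw [ram_sqfree s n hs]
  have : ∏ p ∈ s.primeFactors, (if p ∣ n then (p : ℂ) - 1 else -1) =
      ((∏ p ∈ s.primeFactors, (if p ∣ n then (p : ℝ) - 1 else -1) : ℝ) : ℂ) := by
    push_cast
    refine Finset.prod_congr rfl fun p _ => ?_
    split_ifs <;> simp
  rw [this, Complex.ofReal_im]

namespace Ram

/-- the summand of `ram_class_prod` -/
noncomputable def hA (q c : ℕ) : ArithmeticFunction ℂ :=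
  ⟨fun t => if t.Coprime q then ((μ t : ℤ) : ℂ) / (t.totient : ℂ) * RA c t else 0, by simp⟩

theorem hA_apply (q c t : ℕ) :
    hA q c t = if t.Coprime q then ((μ t : ℤ) : ℂ) / (t.totient : ℂ) * RA c t else 0 := rfl

theorem hA_mult (q c : ℕ) : (hA q c).IsMultiplicative := by
  refine ⟨by simp [hA_apply, (RA_mult c).1], ?_⟩
  intro a b hab
  simp only [hA_apply]
  by_cases ha : a.Coprime q
  · by_cases hb : b.Coprime q
    · rw [if_pos ha, if_pos hb, if_pos (Nat.Coprime.mul_left ha hb),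
        ArithmeticFunction.isMultiplicative_moebius.2 hab, (RA_mult c).2 hab,
        Nat.totient_mul hab]
      push_cast
      rw [mul_div_mul_comm]
      ring
    · rw [if_neg hb, mul_zero, if_neg (fun h => hb (h.coprime_dvd_left (dvd_mul_left b a)))]
  · rw [if_neg ha, zero_mul, if_neg (fun h => ha (h.coprime_dvd_left (dvd_mul_right a b)))]

theorem hA_prime (q c p : ℕ) (hp : p.Prime) :
    1 + hA q c p = if p ∣ q then 1 else if p ∣ c then 0 else (1 - (p : ℂ)⁻¹)⁻¹ := by
  rw [hA_apply]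
  have hp1 : (p : ℂ) - 1 ≠ 0 := by
    have : (p : ℂ) ≠ 1 := by exact_mod_cast hp.one_lt.ne'
    exact sub_ne_zero.2 this
  have hp0 : (p : ℂ) ≠ 0 := by exact_mod_cast hp.ne_zero
  have hc : p.Coprime q ↔ ¬ p ∣ q := hp.coprime_iff_not_dvd
  by_cases hq : p ∣ q
  · rw [if_neg (fun h => hc.1 h hq), if_pos hq, add_zero]
  · rw [if_pos (hc.2 hq), if_neg hq, RA_prime c p hp, ArithmeticFunction.moebius_apply_prime hp,
      Nat.totient_prime hp, Nat.cast_sub hp.one_le]
    split_ifs with h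
    · push_cast
      field_simp
      ring
    · push_cast
      have : (1 - (p : ℂ)⁻¹) ≠ 0 := by
        have : (1 - (p : ℂ)⁻¹) = ((p : ℂ) - 1) / p := by field_simp
        rw [this]
        exact div_ne_zero hp1 hp0
      field_simp
      ring

/-- the sum over all divisors as a product over the primes -/
theorem sum_prod (f : ArithmeticFunction ℂ) (hf : f.IsMultiplicative)
    (h0 : ∀ t, ¬ Squarefree t → f t = 0) (s : ℕ) (hs : s ≠ 0) :
    ∑ t ∈ s.divisors, f t = ∏ p ∈ s.primeFactors, (1 + f p) := by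
  set r := ∏ p ∈ s.primeFactors, p with hr
  have hprime : ∀ p ∈ s.primeFactors, p.Prime := fun p hp => Nat.prime_of_mem_primeFactors hp
  have hrp : r.primeFactors = s.primeFactors := Nat.primeFactors_prod hprime
  have hrsq : Squarefree r := by
    rw [hr]
    refine Finset.squarefree_prod_of_pairwise_isCoprime ?_ fun p hp =>
      (hprime p hp).prime.irreducible.squarefree
    intro p hp p' hp' hne
    simp only [Function.onFun]
    rw [← Nat.coprime_iff_isRelPrime]
    exact (Nat.coprime_primes (hprime p hp) (hprime p' hp')).2 hne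
  have hrs : r ∣ s := Nat.prod_primeFactors_dvd s
  have h1 : ∑ t ∈ s.divisors, f t = ∑ t ∈ r.divisors, f t := by
    symm
    refine Finset.sum_subset (Nat.divisors_subset_of_dvd hs hrs) ?_
    intro t ht1 ht2
    apply h0
    intro hsq
    apply ht2
    rw [Nat.mem_divisors]
    refine ⟨?_, hrsq.ne_zero⟩
    rw [← Nat.prod_primeFactors_of_squarefree hsq, hr]
    exact Finset.prod_dvd_prod_of_subset _ _ _
      (Nat.primeFactors_mono (Nat.mem_divisors.1 ht1).1 hs)
  rw [h1, ← hf.prodPrimeFactors_one_add_of_squarefree hrsq, hrp]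

theorem tot_prod (n : ℕ) (hn : n ≠ 0) :
    (n : ℂ) / (n.totient : ℂ) = ∏ p ∈ n.primeFactors, (1 - (p : ℂ)⁻¹)⁻¹ := by
  have h1 : ((n.totient : ℕ) : ℂ) = n * ∏ p ∈ n.primeFactors, (1 - (p : ℂ)⁻¹) := by
    have := congrArg (Rat.cast : ℚ → ℂ) (Nat.totient_eq_mul_prod_factors n)
    push_cast at this
    exact this
  have h2 : (n : ℂ) ≠ 0 := by exact_mod_cast hn
  rw [h1, Finset.prod_inv_distrib]
  rw [← div_div, div_self h2, one_div]

end Ram

open Ram in
theorem ram_class_prod (q s c : ℕ) (hq : 1 ≤ q) (hs : 1 ≤ s) (hc : c.Coprime q) :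
    ((q : ℂ) / (q.totient : ℂ)) * ∑ t ∈ s.divisors.filter (fun t => t.Coprime q),
        ((μ t : ℤ) : ℂ) / (t.totient : ℂ) * ram t c =
      if c.Coprime (q * s) then ((q * s : ℕ) : ℂ) / ((q * s).totient : ℂ) else 0 := by
  have hq0 : q ≠ 0 := by omega
  have hs0 : s ≠ 0 := by omega
  have h1 : ∑ t ∈ s.divisors.filter (fun t => t.Coprime q),
      ((μ t : ℤ) : ℂ) / (t.totient : ℂ) * ram t c = ∑ t ∈ s.divisors, hA q c t := by
    rw [Finset.sum_filter]
    refine Finset.sum_congr rfl fun t ht => ?_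
    rw [hA_apply]
    split_ifs
    · rw [ram_eq_RA t c (Nat.pos_of_mem_divisors ht)]
    · rfl
  rw [h1, sum_prod (hA q c) (hA_mult q c) (fun t ht => by
    rw [hA_apply, ArithmeticFunction.moebius_eq_zero_of_not_squarefree ht]
    simp) s hs0]
  have h2 : ∏ p ∈ s.primeFactors, (1 + hA q c p) =
      ∏ p ∈ s.primeFactors, (if p ∣ q then 1 else if p ∣ c then 0 else (1 - (p : ℂ)⁻¹)⁻¹) :=
    Finset.prod_congr rfl fun p hp => hA_prime q c p (Nat.prime_of_mem_primeFactors hp)
  rw [h2]
  split_ifs with h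
  · -- all factors are nonzero
    rw [tot_prod (q * s) (Nat.mul_ne_zero hq0 hs0), tot_prod q hq0,
      Nat.primeFactors_mul hq0 hs0, ← Finset.union_sdiff_self_eq_union,
      Finset.prod_union Finset.disjoint_sdiff]
    congr 1
    have h3 : s.primeFactors \ q.primeFactors = s.primeFactors.filter (fun p => ¬ p ∣ q) := by
      ext p
      rw [mem_sdiff, mem_filter, Nat.mem_primeFactors, Nat.mem_primeFactors]
      constructor
      · rintro ⟨h4, h5⟩
        exact ⟨h4, fun h6 => h5 ⟨h4.1, h6, hq0⟩⟩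
      · rintro ⟨h4, h5⟩
        exact ⟨h4, fun h6 => h5 h6.2.1⟩
    rw [h3, Finset.prod_filter]
    refine Finset.prod_congr rfl fun p hp => ?_
    have hpc : ¬ p ∣ c := by
      intro hpc
      have h6 : p ∣ q * s := (Nat.dvd_of_mem_primeFactors hp).mul_left q
      have h7 : p ∣ Nat.gcd c (q * s) := Nat.dvd_gcd hpc h6
      rw [h] at h7
      exact (Nat.prime_of_mem_primeFactors hp).one_lt.ne' (Nat.dvd_one.1 h7)
    by_cases hpq : p ∣ q
    · rw [if_pos hpq, if_neg (not_not.2 hpq)]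
    · rw [if_neg hpq, if_pos hpq, if_neg hpc]
  · -- some factor vanishes
    have h3 : ¬ c.Coprime s := fun h4 => h (Nat.Coprime.mul_right hc h4)
    obtain ⟨p, hp, hpc, hps⟩ := Nat.Prime.not_coprime_iff_dvd.1 h3
    have hpq : ¬ p ∣ q := by
      intro hpq
      have h7 : p ∣ Nat.gcd c q := Nat.dvd_gcd hpc hpq
      rw [hc] at h7
      exact hp.one_lt.ne' (Nat.dvd_one.1 h7)
    rw [Finset.prod_eq_zero (i := p) (Nat.mem_primeFactors.2 ⟨hp, hps, hs0⟩)
      (by rw [if_neg hpq, if_pos hpc]), mul_zero]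

end Pool.Agent.HL
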