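import Pool.Agent.Work.MP_92f640_nt.HL.Mass2
import Pool.Agent.Work.MP_92f640_nt.HL.Var

/-! # Module Var2: as `Var`, for `q ≤ x^(2/3-ε)`, with `mass2`

As `Var`: `k = q s ≤ x^(2/3-ε/2)`; the trivial bound for small `y` needs `k² 4 L^(2+B₆) ≤ x²` only, and the large
`y` satisfy `x^(2/3) ≤ y`. -/

namespace Pool.Agent.HL

open Finset Pool.Agent.BV DirichletCharacter
open scoped ArithmeticFunction.vonMangoldt

/-- the case of small `y` -/
lemma Var2_small (x k y M B₆ : ℕ) (L : ℝ) (hM : M = B₆ + 4) (hx0 : (0 : ℝ) < x) (hL100 : 100 ≤ L)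
    (hk0 : (0 : ℝ) < k) (hkk : (k : ℝ) * k * (4 * L ^ (2 + B₆)) ≤ x * x) (hφ : (0 : ℝ) < k.totient)
    (hφk : (1 : ℝ) / k.totient ≤ 4 * L / k) (hlogy : Real.log y ≤ L)
    (hy : (y : ℝ) < x / L ^ M) :
    ∑ c ∈ (range k).filter (fun c => c.Coprime k), |psiA k c y - (y : ℝ) / k.totient| ^ 2 ≤
      (x : ℝ) ^ 2 / (k * L ^ B₆) := by
  have hL1 : 1 ≤ L := by linarith
  have hL0 : 0 < L := by linarith
  have hy0 : (0 : ℝ) ≤ y := by positivity
  have h1 : ∀ c : ℕ, |psiA k c y - (y : ℝ) / k.totient| ≤ (4 * y / k + 1) * L := by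
    intro c
    have h2 := Var_psiA_le k c y L hlogy hL0.le
    have h3 : 0 ≤ psiA k c y := by
      unfold psiA
      exact sum_nonneg fun _ _ => ArithmeticFunction.vonMangoldt_nonneg
    have h4 : (y : ℝ) / k.totient ≤ 4 * L / k * y := by
      rw [div_eq_mul_one_div, mul_comm]
      exact mul_le_mul_of_nonneg_right hφk hy0
    have h5 : 0 ≤ (y : ℝ) / k.totient := by positivity
    have h6 : 0 ≤ (y : ℝ) / k := by positivity
    have h7 : ((y : ℝ) / k + 1) * L ≤ (4 * y / k + 1) * L := by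
      refine mul_le_mul_of_nonneg_right ?_ hL0.le
      rw [mul_div_assoc]
      linarith
    have h8 : 4 * L / k * y ≤ (4 * y / k + 1) * L := by
      have : (4 * (y : ℝ) / k + 1) * L = 4 * L / k * y + L := by ring
      rw [this]
      linarith
    rw [abs_le]
    constructor <;> linarith
  have hcard : (((range k).filter (fun c => c.Coprime k)).card : ℝ) ≤ k := by
    have := card_filter_le (range k) (fun c => c.Coprime k)
    rw [card_range] at this
    exact_mod_cast this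
  have hk2 : (k : ℝ) * (2 * L ^ 2) ≤ (x : ℝ) ^ 2 / (k * L ^ B₆) / 2 := by
    rw [div_div, le_div_iff₀ (by positivity)]
    calc (k : ℝ) * (2 * L ^ 2) * (k * L ^ B₆ * 2) = (k * k) * (4 * L ^ (2 + B₆)) := by ring
      _ ≤ x * x := hkk
      _ = (x : ℝ) ^ 2 := by ring
  have hy2 : (y : ℝ) ^ 2 ≤ (x / L ^ M) ^ 2 := pow_le_pow_left₀ hy0 hy.le 2
  have hk3 : 32 * L ^ 2 * (y : ℝ) ^ 2 / k ≤ (x : ℝ) ^ 2 / (k * L ^ B₆) / 2 := by
    calc 32 * L ^ 2 * (y : ℝ) ^ 2 / k ≤ 32 * L ^ 2 * (x / L ^ M) ^ 2 / k := by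
          gcongr
      _ = 64 / L ^ (B₆ + 6) * ((x : ℝ) ^ 2 / (k * L ^ B₆) / 2) := by
          have h9 : L ^ M * L ^ M = L ^ 2 * (L ^ (B₆ + 6) * L ^ B₆) := by
            rw [← pow_add, ← pow_add, ← pow_add]
            congr 1
            omega
          rw [div_pow, sq (L ^ M), h9]
          field_simp
          ring
      _ ≤ 1 * ((x : ℝ) ^ 2 / (k * L ^ B₆) / 2) := by
          refine mul_le_mul_of_nonneg_right ?_ (by positivity)
          rw [div_le_one (by positivity)]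
          calc (64 : ℝ) ≤ L := by linarith
            _ = L ^ 1 := (pow_one L).symm
            _ ≤ L ^ (B₆ + 6) := pow_le_pow_right₀ hL1 (by omega)
      _ = _ := one_mul _
  calc ∑ c ∈ (range k).filter (fun c => c.Coprime k), |psiA k c y - (y : ℝ) / k.totient| ^ 2
      ≤ ∑ c ∈ (range k).filter (fun c => c.Coprime k), ((4 * (y : ℝ) / k + 1) * L) ^ 2 :=
        sum_le_sum fun c _ => pow_le_pow_left₀ (abs_nonneg _) (h1 c) 2
    _ = ((range k).filter (fun c => c.Coprime k)).card * ((4 * (y : ℝ) / k + 1) * L) ^ 2 := by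
        rw [sum_const, nsmul_eq_mul]
    _ ≤ k * ((4 * (y : ℝ) / k + 1) * L) ^ 2 :=
        mul_le_mul_of_nonneg_right hcard (by positivity)
    _ ≤ k * (2 * ((4 * (y : ℝ) / k) ^ 2 + 1) * L ^ 2) := by
        refine mul_le_mul_of_nonneg_left ?_ hk0.le
        rw [mul_pow]
        refine mul_le_mul_of_nonneg_right ?_ (by positivity)
        nlinarith [sq_nonneg (4 * (y : ℝ) / k - 1)]
    _ = 32 * L ^ 2 * (y : ℝ) ^ 2 / k + k * (2 * L ^ 2) := by
        field_simp
        ring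
    _ ≤ _ := by linarith

theorem var2 (ε : ℝ) (hε : 0 < ε) (B₁ B₆ : ℕ) : ∃ B₈ B₉ : ℕ, ∀ A₁ : ℕ, ∃ x₀ : ℕ, ∀ x : ℕ, x₀ ≤ x →
    ∀ q : ℕ, 1 ≤ q → (q : ℝ) ≤ (x : ℝ) ^ (2 / 3 - ε) →
    Good x ((x : ℝ) ^ (ε / 8)) ((Real.log x) ^ A₁) ((Real.log x) ^ B₁) B₈ B₉ q →
    ∀ s : ℕ, 1 ≤ s → (s : ℝ) ≤ (Real.log x) ^ B₁ → ∀ y : ℕ, y ≤ x →
    ∑ c ∈ (range (q * s)).filter (fun c => c.Coprime (q * s)),
        |psiA (q * s) c y - (y : ℝ) / (q * s).totient| ^ 2 ≤
      (x : ℝ) ^ 2 / (((q * s : ℕ) : ℝ) * (Real.log x) ^ B₆) := by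
  classical
  obtain ⟨M, hM⟩ : ∃ M : ℕ, M = B₆ + 4 := ⟨_, rfl⟩
  obtain ⟨B₈, B₉, x₁, hmass⟩ := mass2 (ε / 2) (by positivity) M
  refine ⟨B₈, B₉, fun A₁ => ?_⟩
  obtain ⟨A, hA⟩ : ∃ A : ℕ, A = M + A₁ + 1 := ⟨_, rfl⟩
  obtain ⟨C₁, hC₁, hSW⟩ := siegel_walfisz A (A₁ + 1)
  obtain ⟨C₂, hC₂, hPNT⟩ := Pool.Agent.Work.Shared.PNT.psi_sub_self_le (A : ℝ)
  obtain ⟨K, hK⟩ : ∃ K : ℝ, K = 100 + 2 ^ (A₁ + 1) + (C₁ * 2 ^ A + 1) ^ 2 +
    (C₂ * 2 ^ A + 1) ^ 2 := ⟨_, rfl⟩
  have hev : ∀ᶠ x : ℕ in Filter.atTop, (x₁ ≤ x ∧ 3 ≤ x) ∧ K ≤ Real.log x ∧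
      1 * (Real.log x) ^ B₁ ≤ (x : ℝ) ^ (ε / 2) ∧
      1 * (Real.log x) ^ M ≤ (x : ℝ) ^ ((1 : ℝ) / 3) ∧
      2 * (Real.log x) ^ (2 + B₉) ≤ (x : ℝ) ^ (ε / 8) ∧
      4 * (Real.log x) ^ (2 + B₆) ≤ (x : ℝ) ^ ((2 : ℝ) / 3) ∧
      2 * (Real.log x) ^ (2 + A) ≤ (x : ℝ) ^ (1 : ℝ) := by
    have h1 : ∀ᶠ x : ℕ in Filter.atTop, K ≤ Real.log x :=
      (Real.tendsto_log_atTop.comp tendsto_natCast_atTop_atTop).eventually_ge_atTop K
    filter_upwards [Filter.eventually_ge_atTop x₁, Filter.eventually_ge_atTop 3, h1,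
      Var_ev 1 (ε / 2) (by positivity) B₁, Var_ev 1 (1 / 3) (by norm_num) M,
      Var_ev 2 (ε / 8) (by positivity) (2 + B₉), Var_ev 4 (2 / 3) (by norm_num) (2 + B₆),
      Var_ev 2 1 (by norm_num) (2 + A)] with x a1 a2 a3 a4 a5 a6 a7 a8
    exact ⟨⟨a1, a2⟩, a3, a4, a5, a6, a7, a8⟩
  obtain ⟨x₀, hx₀⟩ := Filter.eventually_atTop.1 hev
  refine ⟨x₀, ?_⟩
  intro x hx q hq1 hqx hgood s hs1 hsx y hyx
  obtain ⟨⟨e1, e2⟩, e3, e4, e5, e6, e7, e8⟩ := hx₀ x hx
  rw [one_mul] at e4 e5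
  rw [Real.rpow_one] at e8
  set L : ℝ := Real.log x with hL
  have hx3 : (3 : ℝ) ≤ x := by exact_mod_cast e2
  have hx0 : (0 : ℝ) < x := by linarith
  have hp1 : (0 : ℝ) < 2 ^ (A₁ + 1) := by positivity
  have hp2 : (0 : ℝ) ≤ (C₁ * 2 ^ A + 1) ^ 2 := by positivity
  have hp3 : (0 : ℝ) ≤ (C₂ * 2 ^ A + 1) ^ 2 := by positivity
  have hL100 : 100 ≤ L := by linarith
  have hL1 : 1 ≤ L := by linarith
  have hL0 : 0 < L := by linarith
  obtain ⟨k, hk⟩ : ∃ k : ℕ, k = q * s := ⟨_, rfl⟩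
  rw [← hk]
  have hk1 : 1 ≤ k := by rw [hk]; exact Nat.mul_pos hq1 hs1
  have : NeZero k := ⟨by omega⟩
  have hk0 : (0 : ℝ) < k := by exact_mod_cast hk1
  have hkx' : (k : ℝ) ≤ (x : ℝ) ^ (2 / 3 - ε / 2) := by
    rw [hk]
    push_cast
    calc (q : ℝ) * s ≤ (x : ℝ) ^ (2 / 3 - ε) * (x : ℝ) ^ (ε / 2) :=
          mul_le_mul hqx (hsx.trans e4) (by positivity) (by positivity)
      _ = (x : ℝ) ^ (2 / 3 - ε / 2) := by
          rw [← Real.rpow_add hx0]
          congr 1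
          ring
  have hkx2 : (k : ℝ) ≤ (x : ℝ) ^ ((2 : ℝ) / 3) :=
    hkx'.trans (Real.rpow_le_rpow_of_exponent_le (by linarith) (by linarith))
  have hsq : (x : ℝ) ^ ((2 : ℝ) / 3) * (x : ℝ) ^ ((1 : ℝ) / 3) = x := by
    rw [← Real.rpow_add hx0]
    norm_num
  have hsq3 : (x : ℝ) ^ ((2 : ℝ) / 3) * (x : ℝ) ^ ((2 : ℝ) / 3) * (x : ℝ) ^ ((2 : ℝ) / 3) =
      x * x := by
    rw [← Real.rpow_add hx0, ← Real.rpow_add hx0]
    norm_num
    rw [sq]
  have hs0 : 0 < (x : ℝ) ^ ((2 : ℝ) / 3) := by positivity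
  have hkk : (k : ℝ) * k * (4 * L ^ (2 + B₆)) ≤ x * x := by
    rw [← hsq3]
    exact mul_le_mul (mul_le_mul hkx2 hkx2 hk0.le hs0.le) e7 (by positivity) (by positivity)
  have hkxR : (k : ℝ) ≤ x := by
    refine hkx2.trans ?_
    calc (x : ℝ) ^ ((2 : ℝ) / 3) ≤ (x : ℝ) ^ (1 : ℝ) :=
          Real.rpow_le_rpow_of_exponent_le (by linarith) (by norm_num)
      _ = x := Real.rpow_one _
  have hkx : k ≤ x := by exact_mod_cast hkxR
  have hlogk : Real.log k ≤ L := Real.log_le_log hk0 hkxR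
  have hφ : (0 : ℝ) < k.totient := by exact_mod_cast Nat.totient_pos.2 hk1
  have hφk : (1 : ℝ) / k.totient ≤ 4 * L / k := by
    refine (Var_totient k (by omega)).trans ?_
    rw [div_le_div_iff_of_pos_right hk0]
    linarith
  have hy0 : (0 : ℝ) ≤ y := by positivity
  have hyxR : (y : ℝ) ≤ x := by exact_mod_cast hyx
  by_cases hy : (x : ℝ) / L ^ M ≤ y
  · -- large y
    have hyge : (x : ℝ) ^ ((2 : ℝ) / 3) ≤ y := by
      refine le_trans ?_ hy
      rw [le_div_iff₀ (by positivity)]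
      calc (x : ℝ) ^ ((2 : ℝ) / 3) * L ^ M ≤ (x : ℝ) ^ ((2 : ℝ) / 3) * (x : ℝ) ^ ((1 : ℝ) / 3) :=
            mul_le_mul_of_nonneg_left e5 hs0.le
        _ = x := hsq
    have hlogy : L / 2 ≤ Real.log y := by
      have h1 := Real.log_le_log hs0 hyge
      rw [Real.log_rpow hx0] at h1
      linarith
    have hy1 : (1 : ℝ) ≤ y := by
      have h1 : (1 : ℝ) ≤ (x : ℝ) ^ ((2 : ℝ) / 3) := Real.one_le_rpow (by linarith) (by norm_num)
      linarith
    have hy3 : 3 ≤ y := by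
      by_contra h
      have h2 : (y : ℝ) ≤ 3 := by
        have : y ≤ 3 := by omega
        exact_mod_cast this
      have h3 : Real.log y ≤ Real.log 3 := Real.log_le_log (by linarith) h2
      have h4 : Real.log 3 < 3 := (Real.log_lt_sub_one_of_pos (by norm_num) (by norm_num)).trans
        (by norm_num)
      linarith
    have hky : k ≤ y := by
      have : (k : ℝ) ≤ y := hkx2.trans hyge
      exact_mod_cast this
    have hlogyx : Real.log y ≤ L := Real.log_le_log (by linarith) hyxR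
    have hyA : (y : ℝ) / (Real.log y) ^ A ≤ 2 ^ A * x / L ^ A := by
      have h1 : (L / 2) ^ A ≤ (Real.log y) ^ A := pow_le_pow_left₀ (by positivity) hlogy A
      calc (y : ℝ) / (Real.log y) ^ A ≤ x / (L / 2) ^ A :=
            div_le_div₀ hx0.le hyxR (by positivity) h1
        _ = 2 ^ A * x / L ^ A := by
            rw [div_pow]
            field_simp
    have h2L : 2 * L ^ 2 ≤ x / L ^ A := by
      rw [le_div_iff₀ (by positivity)]
      calc 2 * L ^ 2 * L ^ A = 2 * L ^ (2 + A) := by ring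
        _ ≤ x := e8
    -- the two families of characters
    set X : Finset (DirichletCharacter ℂ k) := univ.erase 1 with hX
    set X₁ := X.filter (fun χ => (χ.conductor : ℝ) ≤ L ^ A₁) with hX₁
    set X₂ := X.filter (fun χ => ¬ (χ.conductor : ℝ) ≤ L ^ A₁) with hX₂
    have hS1 : ∑ χ ∈ X₁, ‖psiC χ y‖ ^ 2 ≤ (x : ℝ) ^ 2 / L ^ M :=
      Var_S1 x k y M A A₁ L C₁ hA hL hC₁ hx0 e2 hL100 hkx hyx hk1 hy3 hp1 (by linarith)
        (by linarith) hlogy hyA h2L hSW X₁ (fun χ hχ => (mem_erase.1 (mem_filter.1 hχ).1).1)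
        (fun χ hχ => (mem_filter.1 hχ).2)
    have hS2 : ∑ χ ∈ X₂, ‖psiC χ y‖ ^ 2 ≤ (x : ℝ) ^ 2 / L ^ M := by
      refine hmass x e1 k hkx' y hyx hy X₂ ?_ ?_
      · intro χ hχ
        exact (mem_erase.1 (mem_filter.1 hχ).1).1
      · intro χ hχ i hi1 hi2
        obtain ⟨hχ1, hχ2⟩ := mem_filter.1 hχ
        have hmem : χ.primitiveCharacter ∈ prim χ.conductor := by
          unfold prim
          rw [mem_filter]
          exact ⟨mem_univ _, primitiveCharacter_isPrimitive χ⟩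
        have hi1' : (x : ℝ) ^ (ε / 8) ≤ gr (1 / L ^ B₈) i := by
          have : ε / 2 / 4 = ε / 8 := by ring
          rw [this] at hi1
          exact hi1
        have hnb := hgood s hs1 hsx χ.conductor
          (by rw [← hk]; exact χ.conductor_dvd_level) (not_le.1 hχ2) χ.primitiveCharacter hmem
        have h1 : ‖psiC χ.primitiveCharacter (gr (1 / L ^ B₈) i)‖ ≤
            (gr (1 / L ^ B₈) i : ℝ) / L ^ B₉ := by
          by_contra h
          exact hnb ⟨i, hi1', hi2, not_le.1 h⟩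
        have h2 := Var_prim χ x (gr (1 / L ^ B₈) i) hkx (by exact_mod_cast hi2) e2
        have h4 : ‖psiC χ (gr (1 / L ^ B₈) i)‖ ≤
            ‖psiC χ.primitiveCharacter (gr (1 / L ^ B₈) i)‖ +
            ‖psiC χ (gr (1 / L ^ B₈) i) - psiC χ.primitiveCharacter (gr (1 / L ^ B₈) i)‖ := by
          calc ‖psiC χ (gr (1 / L ^ B₈) i)‖ = ‖psiC χ.primitiveCharacter (gr (1 / L ^ B₈) i) +
                (psiC χ (gr (1 / L ^ B₈) i) - psiC χ.primitiveCharacter (gr (1 / L ^ B₈) i))‖ := by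
                congr 1; ring
            _ ≤ _ := norm_add_le _ _
        have h3 : 2 * L ^ 2 ≤ (gr (1 / L ^ B₈) i : ℝ) / L ^ B₉ := by
          rw [le_div_iff₀ (by positivity)]
          calc 2 * L ^ 2 * L ^ B₉ = 2 * L ^ (2 + B₉) := by ring
            _ ≤ (x : ℝ) ^ (ε / 8) := e6
            _ ≤ _ := hi1'
        calc ‖psiC χ (gr (1 / L ^ B₈) i)‖ ≤ (gr (1 / L ^ B₈) i : ℝ) / L ^ B₉ +
              (gr (1 / L ^ B₈) i : ℝ) / L ^ B₉ := by linarith
          _ = 2 * (gr (1 / L ^ B₈) i : ℝ) / L ^ B₉ := by ring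
    have hS : ∑ χ ∈ X, ‖psiC χ y‖ ^ 2 ≤ 2 * ((x : ℝ) ^ 2 / L ^ M) := by
      rw [← sum_filter_add_sum_filter_not X (fun χ => (χ.conductor : ℝ) ≤ L ^ A₁)]
      linarith
    -- the principal character
    set P : ℝ := (psiC (1 : DirichletCharacter ℂ k) y).re with hP
    have hE : |P - y| ≤ (C₂ * 2 ^ A + 1) * x / L ^ A := by
      have h1 := psiC_one k y hky hy3
      have h2 := hPNT y (by
        have : (3 : ℝ) ≤ y := by exact_mod_cast hy3
        linarith)
      rw [← primes_psi_eq, Real.rpow_natCast] at h2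
      have h3 : |P - psi y| ≤ ‖psiC (1 : DirichletCharacter ℂ k) y - psi y‖ := by
        have : P - psi y = (psiC (1 : DirichletCharacter ℂ k) y - (psi y : ℂ)).re := by
          rw [Complex.sub_re, Complex.ofReal_re]
        rw [this]
        exact Complex.abs_re_le_norm _
      have h4 : 2 * (Real.log y) ^ 2 ≤ 2 * L ^ 2 := by
        have := pow_le_pow_left₀ (by linarith : 0 ≤ Real.log y) hlogyx 2
        linarith
      have h5 : C₂ * y / (Real.log y) ^ A ≤ C₂ * (2 ^ A * x / L ^ A) := by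
        rw [mul_div_assoc]
        exact mul_le_mul_of_nonneg_left hyA hC₂.le
      have h6 : |P - y| ≤ |P - psi y| + |psi y - y| := by
        have : P - y = (P - psi y) + (psi y - y) := by ring
        rw [this]
        exact abs_add_le _ _
      calc |P - y| ≤ x / L ^ A + C₂ * (2 ^ A * x / L ^ A) := by linarith
        _ = (C₂ * 2 ^ A + 1) * x / L ^ A := by ring
    have hE2 : (P - y) ^ 2 ≤ (x : ℝ) ^ 2 / L ^ M := by
      rw [← sq_abs]
      calc |P - y| ^ 2 ≤ ((C₂ * 2 ^ A + 1) * x / L ^ A) ^ 2 :=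
            pow_le_pow_left₀ (abs_nonneg _) hE 2
        _ = (C₂ * 2 ^ A + 1) ^ 2 * (x ^ 2 / L ^ (2 * A)) := by
            have h7 : L ^ (2 * A) = (L ^ A) ^ 2 := by
              rw [← pow_mul]
              congr 1
              ring
            rw [h7]
            field_simp
        _ ≤ L * (x ^ 2 / L ^ (2 * A)) :=
            mul_le_mul_of_nonneg_right (by linarith) (by positivity)
        _ ≤ L ^ (2 * A - M) * (x ^ 2 / L ^ (2 * A)) := by
            refine mul_le_mul_of_nonneg_right ?_ (by positivity)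
            calc L = L ^ 1 := (pow_one L).symm
              _ ≤ L ^ (2 * A - M) := pow_le_pow_right₀ hL1 (by omega)
        _ = x ^ 2 / L ^ M := by
            have h8 : L ^ (2 * A) = L ^ (2 * A - M) * L ^ M := by
              rw [← pow_add]
              congr 1
              omega
            rw [h8]
            field_simp
    -- put together
    have hV := Var_parseval (k := k) y
    rw [← hP, ← hX] at hV
    have hterm : ∀ c : ℕ, |psiA k c y - (y : ℝ) / k.totient| ^ 2 ≤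
        2 * (psiA k c y - P / k.totient) ^ 2 + 2 * ((P - y) / k.totient) ^ 2 := by
      intro c
      rw [sq_abs]
      have : psiA k c y - (y : ℝ) / k.totient = (psiA k c y - P / k.totient) +
          (P - y) / k.totient := by ring
      rw [this]
      nlinarith [sq_nonneg ((psiA k c y - P / k.totient) - (P - y) / k.totient)]
    have hcard : (((range k).filter (fun c => c.Coprime k)).card : ℝ) = k.totient := by
      have : ((range k).filter (fun c => c.Coprime k)).card = k.totient := by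
        unfold Nat.totient
        congr 1
        refine filter_congr fun c _ => ?_
        exact Nat.coprime_comm
      rw [this]
    calc ∑ c ∈ (range k).filter (fun c => c.Coprime k), |psiA k c y - (y : ℝ) / k.totient| ^ 2
        ≤ ∑ c ∈ (range k).filter (fun c => c.Coprime k),
          (2 * (psiA k c y - P / k.totient) ^ 2 + 2 * ((P - y) / k.totient) ^ 2) :=
          sum_le_sum fun c _ => hterm c
      _ = 2 * ((1 / (k.totient : ℝ)) * ∑ χ ∈ X, ‖psiC χ y‖ ^ 2) +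
          k.totient * (2 * ((P - y) / k.totient) ^ 2) := by
          rw [sum_add_distrib, ← mul_sum, hV, sum_const, nsmul_eq_mul, hcard]
      _ = (1 / (k.totient : ℝ)) * (2 * ∑ χ ∈ X, ‖psiC χ y‖ ^ 2 + 2 * (P - y) ^ 2) := by
          field_simp
      _ ≤ (4 * L / k) * (6 * ((x : ℝ) ^ 2 / L ^ M)) := by
          refine mul_le_mul hφk (by linarith) ?_ (by positivity)
          have : 0 ≤ ∑ χ ∈ X, ‖psiC χ y‖ ^ 2 := sum_nonneg fun _ _ => by positivity
          positivity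
      _ = 24 / L ^ 3 * ((x : ℝ) ^ 2 / (k * L ^ B₆)) := by
          rw [hM, pow_add]
          field_simp
          ring
      _ ≤ 1 * ((x : ℝ) ^ 2 / (k * L ^ B₆)) := by
          refine mul_le_mul_of_nonneg_right ?_ (by positivity)
          rw [div_le_one (by positivity)]
          calc (24 : ℝ) ≤ L := by linarith
            _ = L ^ 1 := (pow_one L).symm
            _ ≤ L ^ 3 := pow_le_pow_right₀ hL1 (by norm_num)
      _ = (x : ℝ) ^ 2 / (k * L ^ B₆) := one_mul _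
  · -- small y
    have hlogy : Real.log y ≤ L := by
      rcases Nat.eq_zero_or_pos y with h | h
      · rw [h]; simp [hL0.le]
      · exact Real.log_le_log (by exact_mod_cast h) hyxR
    exact Var2_small x k y M B₆ L hM hx0 hL100 hk0 hkk hφ hφk hlogy (not_le.1 hy)

end Pool.Agent.HL
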