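import Pool.Agent.Work.MP_92f640_nt.HL.Ram
import Pool.Agent.Work.MP_92f640_nt.HL.MinSum

/-! # Module TClass: the model in residue classes

All `n ≡ c` mod `q s` are coprime to `q`. Exchange the sums:
`∑_n TM q Q n = (q/φ(q)) ∑_{t ≤ Q, (t,q)=1} μ(t)/φ(t) ∑_{b mod t}^* ∑_{n ≤ y, n ≡ c (q s)} e(n b / t)`.
If `t ∤ s`: `q s b / t` is not an integer (`(t, q b) = 1`), so its distance to the integers is `≥ 1/t`
and the inner sum is `≤ t/2` (`class_le`, `gm_le_of_dist`). If `t ∣ s` (then `t ≤ s ≤ Q`): `e(n b/t) = e(c b/t)`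
on the class, and the number of `n` is `y/(q s) + O(1)`; main term by `ram_class_prod`, error
`≤ (q/φ(q)) ∑_{t ≤ Q} ‖ram t c‖/φ(t) ≤ (q/φ(q)) Q`. -/

namespace Pool.Agent.HL

open Finset Pool.Agent.BV
open scoped ArithmeticFunction.Moebius

/-- distance of a fraction which is not an integer to the nearest integer -/
theorem tcl_dist (k : ℤ) (t : ℕ) (ht : 1 ≤ t) (h : ¬ (t : ℤ) ∣ k) :
    1 / (t : ℝ) ≤ |(k : ℝ) / t - round ((k : ℝ) / t)| := by
  have ht' : (0 : ℝ) < t := by exact_mod_cast ht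
  have h1 : (k : ℝ) / t - round ((k : ℝ) / t) = ((k - t * round ((k : ℝ) / t) : ℤ) : ℝ) / t := by
    push_cast
    field_simp
  rw [h1, abs_div, abs_of_pos ht']
  apply div_le_div_of_nonneg_right _ ht'.le
  have h2 : k - t * round ((k : ℝ) / t) ≠ 0 := by
    intro h0
    exact h ⟨_, by linarith⟩
  exact_mod_cast Int.one_le_abs h2

/-- `ram` only depends on the class mod `t` -/
theorem tcl_ram_periodic (t n c : ℕ) (h : n ≡ c [MOD t]) : ram t n = ram t c := by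
  unfold ram
  refine Finset.sum_congr rfl fun b hb => ?_
  have hb1 : b < t := Finset.mem_range.1 (Finset.mem_filter.1 hb).1
  have ht : (0 : ℝ) < t := by
    have : 0 < t := by omega
    exact_mod_cast this
  obtain ⟨j, hj⟩ := (Nat.modEq_iff_dvd.1 h)
  have h1 : ((n : ℝ) * ((b : ℝ) / t)) = (c : ℝ) * ((b : ℝ) / t) - ((j * b : ℤ) : ℝ) := by
    have h2 : (c : ℝ) - n = t * j := by exact_mod_cast hj
    push_cast
    have h3 : (c : ℝ) = n + t * j := by linarith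
    rw [h3]
    field_simp
    ring
  rw [h1, add_e_sub_int]

/-- number of integers in a residue class -/
theorem tcl_count (r c y : ℕ) (hr : 1 ≤ r) :
    |((((Icc 1 y).filter (fun n => n ≡ c [MOD r])).card : ℕ) : ℝ) - (y : ℝ) / r| ≤ 1 := by
  have h1 : Icc 1 y = Ioc 0 y := by
    ext n; simp [Nat.succ_le_iff]
  rw [h1]
  have h2 := Nat.Ioc_filter_modEq_card 0 y (r := r) (by omega) c
  have hr' : (0 : ℝ) < r := by exact_mod_cast hr
  have hmono : ⌊(((0 : ℕ) : ℚ) - c) / (r : ℚ)⌋ ≤ ⌊((y : ℚ) - c) / (r : ℚ)⌋ := by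
    apply Int.floor_le_floor
    apply div_le_div_of_nonneg_right _ (by positivity)
    have : (0 : ℚ) ≤ (y : ℚ) := by positivity
    push_cast
    linarith
  rw [max_eq_left (by linarith)] at h2
  have h3 : ((((Ioc 0 y).filter (fun n => n ≡ c [MOD r])).card : ℕ) : ℝ) =
      ((⌊((y : ℚ) - c) / (r : ℚ)⌋ - ⌊(((0 : ℕ) : ℚ) - c) / (r : ℚ)⌋ : ℤ) : ℝ) := by
    exact_mod_cast h2
  rw [h3]
  have hA1 := Int.floor_le (((y : ℚ) - c) / (r : ℚ))
  have hA2 := Int.lt_floor_add_one (((y : ℚ) - c) / (r : ℚ))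
  have hB1 := Int.floor_le ((((0 : ℕ) : ℚ) - c) / (r : ℚ))
  have hB2 := Int.lt_floor_add_one ((((0 : ℕ) : ℚ) - c) / (r : ℚ))
  have hq : ((y : ℚ) - c) / (r : ℚ) - ((((0 : ℕ) : ℚ) - c) / (r : ℚ)) = (y : ℚ) / r := by
    push_cast; ring
  have hR : |((⌊((y : ℚ) - c) / (r : ℚ)⌋ - ⌊(((0 : ℕ) : ℚ) - c) / (r : ℚ)⌋ : ℤ) : ℚ) - (y : ℚ) / r| ≤ 1 := by
    rw [abs_le]
    push_cast at *
    constructor <;> linarith
  clear hA1 hA2 hB1 hB2 hq h3 hmono h2
  generalize ⌊((y : ℚ) - c) / (r : ℚ)⌋ - ⌊(((0 : ℕ) : ℚ) - c) / (r : ℚ)⌋ = Z at hR ⊢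
  have h8 : ((|((Z : ℤ) : ℚ) - (y : ℚ) / r| : ℚ) : ℝ) ≤ ((1 : ℚ) : ℝ) := by exact_mod_cast hR
  push_cast at h8
  exact h8

theorem tcl_off (q s c y t b : ℕ) (hq : 1 ≤ q) (hs : 1 ≤ s) (ht : 1 ≤ t) (htq : t.Coprime q)
    (hbt : b.Coprime t) (hts : ¬ t ∣ s) :
    ‖∑ n ∈ (Icc 1 y).filter (fun n => n ≡ c [MOD q * s]), e (n * ((b : ℝ) / t))‖ ≤ (t : ℝ) / 2 := by
  have h1 : Icc 1 y = Ioc 0 y := by
    ext n; simp [Nat.succ_le_iff]
  rw [h1]
  have ht' : (0 : ℝ) < t := by exact_mod_cast ht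
  refine (class_le (q * s) c 0 y (Nat.one_le_iff_ne_zero.2 (by positivity)) _).trans ?_
  have h2 : ((q * s : ℕ) : ℝ) * ((b : ℝ) / t) = (((q * s * b : ℕ) : ℤ) : ℝ) / t := by
    push_cast; ring
  rw [h2]
  have h3 : ¬ (t : ℤ) ∣ ((q * s * b : ℕ) : ℤ) := by
    intro h
    have h4 : t ∣ q * s * b := by exact_mod_cast h
    have h5 : t ∣ q * s := hbt.symm.dvd_of_dvd_mul_right h4
    exact hts (htq.dvd_of_dvd_mul_left h5)
  have h4 := tcl_dist _ t ht h3
  have h5 := gm_le_of_dist (Y := (((y - 0 : ℕ) : ℝ) / ((q * s : ℕ) : ℝ) + 1)) (by positivity)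
    (δ := 1 / (t : ℝ)) (by positivity) h4
  refine h5.trans (le_of_eq ?_)
  field_simp

theorem tcl_w (t : ℕ) (ht : 1 ≤ t) : ‖((μ t : ℤ) : ℂ) / (t.totient : ℂ)‖ ≤ 1 / (t.totient : ℝ) := by
  have h0 : (0 : ℝ) < t.totient := by exact_mod_cast Nat.totient_pos.2 ht
  rw [norm_div]
  have h1 : ‖((μ t : ℤ) : ℂ)‖ ≤ 1 := by
    rw [Complex.norm_intCast]
    exact_mod_cast ArithmeticFunction.abs_moebius_le_one
  have h2 : ‖(t.totient : ℂ)‖ = (t.totient : ℝ) := by simp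
  rw [h2]
  exact div_le_div_of_nonneg_right h1 h0.le

theorem T_class (q Q s c y : ℕ) (hq : 1 ≤ q) (hs : 1 ≤ s) (hsQ : s ≤ Q) (hc : c.Coprime q) :
    ‖∑ n ∈ (Icc 1 y).filter (fun n => n ≡ c [MOD q * s]), TM q Q n -
        (if c.Coprime (q * s) then (y : ℂ) / ((q * s).totient : ℂ) else 0)‖ ≤
      4 * ((q : ℝ) / q.totient) * (Q : ℝ) ^ 2 := by
  set K : ℂ := (q : ℂ) / (q.totient : ℂ) with hK
  have hφ : (0 : ℝ) < q.totient := by exact_mod_cast Nat.totient_pos.2 hq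
  have hKn : ‖K‖ = (q : ℝ) / q.totient := by
    rw [hK, norm_div]; simp
  have hQ : 1 ≤ Q := le_trans hs hsQ
  have hQ' : (1 : ℝ) ≤ Q := by exact_mod_cast hQ
  set C := (Icc 1 y).filter (fun n => n ≡ c [MOD q * s]) with hC
  have hmemq : ∀ n ∈ C, n.Coprime q := by
    intro n hn
    have h1 : n ≡ c [MOD q * s] := (Finset.mem_filter.1 hn).2
    have h2 : n ≡ c [MOD q] := h1.of_mul_right s
    have h3 := h2.gcd_eq
    rw [Nat.Coprime, h3]; exact hc
  set A : ℕ → ℂ := fun t => ∑ n ∈ C, ram t n with hA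
  have hsum : ∑ n ∈ C, TM q Q n =
      K * ∑ t ∈ (Icc 1 Q).filter (fun t => t.Coprime q),
        ((μ t : ℤ) : ℂ) / (t.totient : ℂ) * A t := by
    rw [Finset.mul_sum]
    rw [hA]
    simp only [Finset.mul_sum]
    rw [Finset.sum_comm]
    refine Finset.sum_congr rfl fun n hn => ?_
    unfold TM
    rw [if_pos (hmemq n hn), Finset.mul_sum]
  set D := s.divisors.filter (fun t => t.Coprime q) with hD
  have hDsub : D ⊆ (Icc 1 Q).filter (fun t => t.Coprime q) := by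
    intro t ht
    rw [hD, Finset.mem_filter, Nat.mem_divisors] at ht
    rw [Finset.mem_filter, Finset.mem_Icc]
    exact ⟨⟨Nat.pos_of_dvd_of_pos ht.1.1 hs, (Nat.le_of_dvd hs ht.1.1).trans hsQ⟩, ht.2⟩
  rw [hsum, ← Finset.sum_sdiff hDsub, mul_add]
  set N : ℕ := C.card with hN
  have hdiag : ∀ t ∈ D, A t = (N : ℂ) * ram t c := by
    intro t ht
    rw [hD, Finset.mem_filter, Nat.mem_divisors] at ht
    rw [hA]
    simp only
    rw [Finset.sum_congr rfl (fun n hn => tcl_ram_periodic t n c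
      (((Finset.mem_filter.1 hn).2).of_dvd (ht.1.1.trans (dvd_mul_left s q))))]
    rw [Finset.sum_const, nsmul_eq_mul]
  set G : ℂ := K * ∑ t ∈ D, ((μ t : ℤ) : ℂ) / (t.totient : ℂ) * ram t c with hG
  have hG1 : G = if c.Coprime (q * s) then ((q * s : ℕ) : ℂ) / ((q * s).totient : ℂ) else 0 :=
    ram_class_prod q s c hq hs hc
  have hmain : K * ∑ t ∈ D, ((μ t : ℤ) : ℂ) / (t.totient : ℂ) * A t = (N : ℂ) * G := by
    rw [hG, Finset.mul_sum, Finset.mul_sum, Finset.mul_sum]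
    refine Finset.sum_congr rfl fun t ht => ?_
    rw [hdiag t ht]; ring
  rw [hmain]
  have hqs : (0 : ℝ) < ((q * s : ℕ) : ℝ) := by
    have : 0 < q * s := Nat.mul_pos hq hs
    exact_mod_cast this
  have hqsC : ((q * s : ℕ) : ℂ) ≠ 0 := by
    have : q * s ≠ 0 := (Nat.mul_pos hq hs).ne'
    exact_mod_cast this
  have htarget : (if c.Coprime (q * s) then (y : ℂ) / ((q * s).totient : ℂ) else 0) =
      ((y : ℂ) / ((q * s : ℕ) : ℂ)) * G := by
    rw [hG1]
    split_ifs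
    · field_simp
    · simp
  rw [htarget]
  have hGn : ‖G‖ ≤ ‖K‖ * Q := by
    rw [hG, norm_mul]
    apply mul_le_mul_of_nonneg_left _ (norm_nonneg _)
    refine (norm_sum_le _ _).trans ?_
    have h1 : ∀ t ∈ D, ‖((μ t : ℤ) : ℂ) / (t.totient : ℂ) * ram t c‖ ≤ 1 := by
      intro t ht
      have ht1 := (Finset.mem_Icc.1 (Finset.mem_filter.1 (hDsub ht)).1).1
      have h0 : (0 : ℝ) < t.totient := by exact_mod_cast Nat.totient_pos.2 ht1
      rw [norm_mul]
      calc _ ≤ 1 / (t.totient : ℝ) * t.totient :=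
            mul_le_mul (tcl_w t ht1) (ram_norm_le t c) (norm_nonneg _) (by positivity)
        _ = 1 := by field_simp
    refine (Finset.sum_le_sum h1).trans ?_
    rw [Finset.sum_const, nsmul_eq_mul, mul_one]
    have h2 : D.card ≤ Q := by
      refine (Finset.card_le_card hDsub).trans ((Finset.card_filter_le _ _).trans ?_)
      simp
    exact_mod_cast h2
  have hoff : ‖K * ∑ t ∈ (Icc 1 Q).filter (fun t => t.Coprime q) \ D,
      ((μ t : ℤ) : ℂ) / (t.totient : ℂ) * A t‖ ≤ ‖K‖ * (Q * (Q / 2)) := by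
    rw [norm_mul]
    apply mul_le_mul_of_nonneg_left _ (norm_nonneg _)
    refine (norm_sum_le _ _).trans ?_
    have h1 : ∀ t ∈ (Icc 1 Q).filter (fun t => t.Coprime q) \ D,
        ‖((μ t : ℤ) : ℂ) / (t.totient : ℂ) * A t‖ ≤ (Q : ℝ) / 2 := by
      intro t ht
      rw [Finset.mem_sdiff, Finset.mem_filter, Finset.mem_Icc] at ht
      obtain ⟨⟨⟨ht1, htQ⟩, htq⟩, htD⟩ := ht
      have hts : ¬ t ∣ s := by
        intro h
        apply htD
        rw [hD, Finset.mem_filter, Nat.mem_divisors]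
        exact ⟨⟨h, by omega⟩, htq⟩
      have h0 : (0 : ℝ) < t.totient := by exact_mod_cast Nat.totient_pos.2 ht1
      have hAt : ‖A t‖ ≤ t.totient * ((t : ℝ) / 2) := by
        have h2 : A t = ∑ b ∈ (range t).filter (fun b => b.Coprime t),
            ∑ n ∈ C, e (n * ((b : ℝ) / t)) := by
          rw [hA]
          simp only
          unfold ram
          rw [Finset.sum_comm]
        rw [h2]
        refine (norm_sum_le _ _).trans ?_
        refine (Finset.sum_le_sum (fun b hb => tcl_off q s c y t b hq hs ht1 htq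
          (Finset.mem_filter.1 hb).2 hts)).trans ?_
        rw [Finset.sum_const, nsmul_eq_mul]
        apply mul_le_mul_of_nonneg_right _ (by positivity)
        have h3 : ((range t).filter (fun b => b.Coprime t)).card = t.totient := by
          unfold Nat.totient
          congr 1
          ext b
          simp [Nat.coprime_comm]
        rw [h3]
      rw [norm_mul]
      calc _ ≤ 1 / (t.totient : ℝ) * (t.totient * ((t : ℝ) / 2)) :=
            mul_le_mul (tcl_w t ht1) hAt (norm_nonneg _) (by positivity)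
        _ = (t : ℝ) / 2 := by field_simp
        _ ≤ (Q : ℝ) / 2 := by
            have : (t : ℝ) ≤ Q := by exact_mod_cast htQ
            linarith
    refine (Finset.sum_le_sum h1).trans ?_
    rw [Finset.sum_const, nsmul_eq_mul]
    apply mul_le_mul_of_nonneg_right _ (by positivity)
    have h2 : ((Icc 1 Q).filter (fun t => t.Coprime q) \ D).card ≤ Q := by
      refine (Finset.card_le_card Finset.sdiff_subset).trans ((Finset.card_filter_le _ _).trans ?_)
      simp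
    exact_mod_cast h2
  have hcnt : ‖(N : ℂ) - (y : ℂ) / ((q * s : ℕ) : ℂ)‖ ≤ 1 := by
    have h1 := tcl_count (q * s) c y (Nat.mul_pos hq hs)
    have h2 : (N : ℂ) - (y : ℂ) / ((q * s : ℕ) : ℂ) =
        (((N : ℝ) - (y : ℝ) / ((q * s : ℕ) : ℝ) : ℝ) : ℂ) := by push_cast; ring
    rw [h2, Complex.norm_real]
    exact h1
  have hfin : ∀ E : ℂ, ‖E‖ ≤ ‖K‖ * (Q * (Q / 2)) →
      ‖E + (N : ℂ) * G - ((y : ℂ) / ((q * s : ℕ) : ℂ)) * G‖ ≤
        ‖K‖ * (Q * (Q / 2)) + 1 * (‖K‖ * Q) := by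
    intro E hE
    have h1 : E + (N : ℂ) * G - ((y : ℂ) / ((q * s : ℕ) : ℂ)) * G =
        E + ((N : ℂ) - (y : ℂ) / ((q * s : ℕ) : ℂ)) * G := by ring
    rw [h1]
    refine (norm_add_le _ _).trans (add_le_add hE ?_)
    rw [norm_mul]
    exact mul_le_mul hcnt hGn (norm_nonneg _) zero_le_one
  refine (hfin _ hoff).trans ?_
  rw [← hKn]
  have hK0 := norm_nonneg K
  nlinarith [mul_nonneg hK0 (mul_nonneg (by linarith : (0 : ℝ) ≤ Q) (by linarith : (0 : ℝ) ≤ (Q : ℝ) - 1)),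
    mul_nonneg hK0 (by positivity : (0 : ℝ) ≤ (Q : ℝ) ^ 2)]

end Pool.Agent.HL
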