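import Pool.Agent.Work.BV.Reduce
import Pool.Agent.Work.MP_92f640_nt.HL.Defs

/-! # Module VarA: Parseval for the primes in the residue classes mod `k` -/

namespace Pool.Agent.HL

open Finset Pool.Agent.BV
open scoped ArithmeticFunction.vonMangoldt

/-- orthogonality of two characters, summed over the units -/
lemma varA_orth (k : ℕ) [NeZero k] (χ ψ : DirichletCharacter ℂ k) :
    ∑ u : (ZMod k)ˣ, χ (u : ZMod k) * star (ψ (u : ZMod k)) =
      if χ = ψ then (k.totient : ℂ) else 0 := by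
  classical
  have h1 : ∑ u : (ZMod k)ˣ, χ (u : ZMod k) * star (ψ (u : ZMod k)) =
      ∑ a : ZMod k, (χ * ψ⁻¹) a := by
    have h2 : ∑ a : ZMod k, (χ * ψ⁻¹) a = ∑ a ∈ univ.filter (fun a : ZMod k => IsUnit a),
        (χ * ψ⁻¹) a := by
      symm
      apply sum_subset (filter_subset _ _)
      intro a _ ha
      exact MulChar.map_nonunit _ (fun h => ha (mem_filter.2 ⟨mem_univ _, h⟩))
    rw [h2]
    refine sum_bij (fun (u : (ZMod k)ˣ) _ => (u : ZMod k)) ?_ ?_ ?_ ?_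
    · intro u _
      exact mem_filter.2 ⟨mem_univ _, u.isUnit⟩
    · intro u _ v _ h
      exact Units.ext h
    · intro a ha
      obtain ⟨u, hu⟩ := (mem_filter.1 ha).2
      exact ⟨u, mem_univ _, hu⟩
    · intro u _
      rw [MulChar.mul_apply, MulChar.star_apply']
  rw [h1]
  by_cases h : χ = ψ
  · rw [if_pos h, h, mul_inv_cancel, MulChar.sum_one_eq_card_units, ZMod.card_units_eq_totient]
  · rw [if_neg h]
    exact MulChar.sum_eq_zero_of_ne_one (fun h' => h (mul_inv_eq_one.1 h'))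

/-- Parseval over the units -/
lemma varA_parseval (k : ℕ) [NeZero k] (f : DirichletCharacter ℂ k → ℂ) :
    ∑ u : (ZMod k)ˣ, ‖∑ χ : DirichletCharacter ℂ k, χ (u : ZMod k) * f χ‖ ^ 2 =
      k.totient * ∑ χ : DirichletCharacter ℂ k, ‖f χ‖ ^ 2 := by
  classical
  have hC : ((∑ u : (ZMod k)ˣ, ‖∑ χ : DirichletCharacter ℂ k, χ (u : ZMod k) * f χ‖ ^ 2 : ℝ) : ℂ) =
      ((k.totient * ∑ χ : DirichletCharacter ℂ k, ‖f χ‖ ^ 2 : ℝ) : ℂ) := by
    have hn : ∀ z : ℂ, ((‖z‖ ^ 2 : ℝ) : ℂ) = z * star z := by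
      intro z
      have h := Complex.mul_conj z
      rw [Complex.normSq_eq_norm_sq] at h
      exact h.symm
    rw [Complex.ofReal_sum]
    simp only [hn]
    push_cast
    have h1 : ∀ u : (ZMod k)ˣ, (∑ χ : DirichletCharacter ℂ k, χ (u : ZMod k) * f χ) *
        star (∑ χ : DirichletCharacter ℂ k, χ (u : ZMod k) * f χ) =
        ∑ χ : DirichletCharacter ℂ k, ∑ ψ : DirichletCharacter ℂ k,
          f χ * star (f ψ) * (χ (u : ZMod k) * star (ψ (u : ZMod k))) := by
      intro u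
      rw [star_sum, sum_mul_sum]
      refine sum_congr rfl fun χ _ => sum_congr rfl fun ψ _ => ?_
      rw [star_mul']
      ring
    rw [sum_congr rfl fun u _ => h1 u, sum_comm]
    rw [mul_sum]
    refine sum_congr rfl fun χ _ => ?_
    rw [sum_comm]
    have h2 : ∀ ψ : DirichletCharacter ℂ k, ∑ u : (ZMod k)ˣ,
        f χ * star (f ψ) * (χ (u : ZMod k) * star (ψ (u : ZMod k))) =
        if χ = ψ then f χ * star (f ψ) * (k.totient : ℂ) else 0 := by
      intro ψ
      rw [← mul_sum, varA_orth]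
      split_ifs <;> simp
    rw [sum_congr rfl fun ψ _ => h2 ψ, sum_ite_eq, if_pos (mem_univ _)]
    have h3 := hn (f χ)
    push_cast at h3
    rw [h3]
    ring
  exact_mod_cast hC

/-- the residues coprime to `k` are the units mod `k` -/
lemma varA_sum_units (k : ℕ) [NeZero k] (H : ℕ → ℝ) :
    ∑ c ∈ (range k).filter (fun c => c.Coprime k), H c =
      ∑ u : (ZMod k)ˣ, H ((u : ZMod k).val) := by
  symm
  refine sum_bij (fun (u : (ZMod k)ˣ) _ => (u : ZMod k).val) ?_ ?_ ?_ ?_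
  · intro u _
    exact mem_filter.2 ⟨mem_range.2 (ZMod.val_lt _), ZMod.val_coe_unit_coprime u⟩
  · intro u _ v _ h
    exact Units.ext (ZMod.val_injective k h)
  · intro c hc
    obtain ⟨hc1, hc2⟩ := mem_filter.1 hc
    refine ⟨ZMod.unitOfCoprime c hc2, mem_univ _, ?_⟩
    rw [ZMod.coe_unitOfCoprime, ZMod.val_cast_of_lt (mem_range.1 hc1)]
  · intro u _
    rfl

open Classical in
/-- **Parseval.** -/
theorem psiA_parseval (k : ℕ) [NeZero k] (y : ℕ) :
    ∑ c ∈ (range k).filter (fun c => c.Coprime k),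
        ‖(psiA k c y : ℂ) - psiC (1 : DirichletCharacter ℂ k) y / (k.totient : ℂ)‖ ^ 2 =
      1 / (k.totient : ℝ) *
        ∑ χ ∈ (univ : Finset (DirichletCharacter ℂ k)).erase 1, ‖psiC χ y‖ ^ 2 := by
  have hφ : 0 < k.totient := Nat.totient_pos.2 (Nat.pos_of_ne_zero (NeZero.ne k))
  have hφR : (0 : ℝ) < k.totient := by exact_mod_cast hφ
  have hφC : (k.totient : ℂ) ≠ 0 := by exact_mod_cast hφ.ne'
  set f : DirichletCharacter ℂ k → ℂ := fun χ => if χ = 1 then 0 else psiC χ y with hf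
  have h1 : ∀ u : (ZMod k)ˣ,
      ‖(psiA k (u : ZMod k).val y : ℂ) - psiC (1 : DirichletCharacter ℂ k) y / (k.totient : ℂ)‖ ^ 2 =
      (1 / (k.totient : ℝ)) ^ 2 *
        ‖∑ χ : DirichletCharacter ℂ k, χ ((u⁻¹ : (ZMod k)ˣ) : ZMod k) * f χ‖ ^ 2 := by
    intro u
    have h2 : (psiA k (u : ZMod k).val y : ℂ) -
        psiC (1 : DirichletCharacter ℂ k) y / (k.totient : ℂ) =
        (1 / (k.totient : ℂ)) *
          ∑ χ : DirichletCharacter ℂ k, χ ((u⁻¹ : (ZMod k)ˣ) : ZMod k) * f χ := by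
      rw [psiA_eq k _ y (ZMod.val_coe_unit_coprime u), ZMod.natCast_zmod_val, ZMod.inv_coe_unit,
        ← add_sum_erase univ _ (mem_univ (1 : DirichletCharacter ℂ k)),
        ← add_sum_erase univ (fun χ : DirichletCharacter ℂ k =>
          χ ((u⁻¹ : (ZMod k)ˣ) : ZMod k) * f χ) (mem_univ (1 : DirichletCharacter ℂ k)),
        MulChar.one_apply (u⁻¹ : (ZMod k)ˣ).isUnit, one_mul]
      have h3 : ∑ χ ∈ (univ : Finset (DirichletCharacter ℂ k)).erase 1,
          χ ((u⁻¹ : (ZMod k)ˣ) : ZMod k) * f χ =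
          ∑ χ ∈ (univ : Finset (DirichletCharacter ℂ k)).erase 1,
            χ ((u⁻¹ : (ZMod k)ˣ) : ZMod k) * psiC χ y := by
        refine sum_congr rfl fun χ hχ => ?_
        rw [hf]
        simp only
        rw [if_neg (mem_erase.1 hχ).1]
      rw [h3]
      have h4 : f 1 = 0 := by rw [hf]; simp
      rw [h4]
      ring
    rw [h2, norm_mul, mul_pow]
    congr 2
    rw [norm_div, norm_one, Complex.norm_natCast]
  rw [varA_sum_units k (fun c =>
    ‖(psiA k c y : ℂ) - psiC (1 : DirichletCharacter ℂ k) y / (k.totient : ℂ)‖ ^ 2)]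
  rw [sum_congr rfl fun u _ => h1 u, ← mul_sum]
  have h5 : ∑ u : (ZMod k)ˣ,
      ‖∑ χ : DirichletCharacter ℂ k, χ ((u⁻¹ : (ZMod k)ˣ) : ZMod k) * f χ‖ ^ 2 =
      ∑ u : (ZMod k)ˣ, ‖∑ χ : DirichletCharacter ℂ k, χ (u : ZMod k) * f χ‖ ^ 2 :=
    Equiv.sum_comp (Equiv.inv (ZMod k)ˣ)
      (fun u : (ZMod k)ˣ => ‖∑ χ : DirichletCharacter ℂ k, χ (u : ZMod k) * f χ‖ ^ 2)
  rw [h5, varA_parseval]
  have h6 : ∑ χ : DirichletCharacter ℂ k, ‖f χ‖ ^ 2 =
      ∑ χ ∈ (univ : Finset (DirichletCharacter ℂ k)).erase 1, ‖psiC χ y‖ ^ 2 := by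
    rw [← add_sum_erase univ _ (mem_univ (1 : DirichletCharacter ℂ k))]
    have h4 : f 1 = 0 := by rw [hf]; simp
    rw [h4, norm_zero]
    have h7 : ∀ χ ∈ (univ : Finset (DirichletCharacter ℂ k)).erase 1, ‖f χ‖ ^ 2 = ‖psiC χ y‖ ^ 2 := by
      intro χ hχ
      rw [hf]
      simp only
      rw [if_neg (mem_erase.1 hχ).1]
    rw [sum_congr rfl h7]
    simp
  rw [h6]
  field_simp

/-- the principal character: `psiC 1 y` is a real number in `[0, psi y]` -/
lemma psiC_one_real (k : ℕ) (y : ℕ) :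
    psiC (1 : DirichletCharacter ℂ k) y =
      ((psiC (1 : DirichletCharacter ℂ k) y).re : ℂ) := by
  classical
  have h : psiC (1 : DirichletCharacter ℂ k) y =
      ((∑ n ∈ Icc 1 y, (if IsUnit (n : ZMod k) then Λ n else 0) : ℝ) : ℂ) := by
    unfold psiC
    push_cast
    refine sum_congr rfl fun n _ => ?_
    by_cases hn : IsUnit (n : ZMod k)
    · rw [MulChar.one_apply hn, mul_one, if_pos hn]
    · rw [MulChar.map_nonunit _ hn, mul_zero, if_neg hn]
      simp
  rw [h, Complex.ofReal_re]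

open Classical in
/-- **Parseval**, real form. -/
theorem psiA_parseval_real (k : ℕ) [NeZero k] (y : ℕ) :
    ∑ c ∈ (range k).filter (fun c => c.Coprime k),
        |psiA k c y - (psiC (1 : DirichletCharacter ℂ k) y).re / (k.totient : ℝ)| ^ 2 =
      1 / (k.totient : ℝ) *
        ∑ χ ∈ (univ : Finset (DirichletCharacter ℂ k)).erase 1, ‖psiC χ y‖ ^ 2 := by
  rw [← psiA_parseval]
  refine sum_congr rfl fun c _ => ?_
  congr 1
  have h : (psiA k c y : ℂ) - psiC (1 : DirichletCharacter ℂ k) y / (k.totient : ℂ) =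
      ((psiA k c y - (psiC (1 : DirichletCharacter ℂ k) y).re / (k.totient : ℝ) : ℝ) : ℂ) := by
    rw [psiC_one_real]
    push_cast
    simp
  rw [h, Complex.norm_real, Real.norm_eq_abs]

end Pool.Agent.HL
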