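import Pool.Agent.Work.MP_92f640_nt.HL.Mass
import Pool.Agent.Work.MP_92f640_nt.HL.Evt
import Pool.Agent.Work.BV.SW
import Pool.Agent.Work.BV.Reduce

/-! # Module VarB: the sum over the non-principal characters mod `q s` for good `q`

Split by the conductor: small conductors by Siegel-Walfisz, large conductors are not bad, so `mass`. -/

namespace Pool.Agent.HL

open Finset Pool.Agent.BV Filter
open scoped ArithmeticFunction.vonMangoldt

/-- passing to the primitive character, for sums up to `u ≤ x` -/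
theorem psiC_prim' {k : ℕ} [NeZero k] (χ : DirichletCharacter ℂ k) (x u : ℕ) (hu : u ≤ x)
    (hk : k ≤ x) (hx : 3 ≤ x) :
    ‖psiC χ u - psiC χ.primitiveCharacter u‖ ≤ 2 * (Real.log x) ^ 2 := by
  unfold psiC
  rw [← sum_sub_distrib]
  have hc : ∀ n : ℕ, n.Coprime k → χ (n : ZMod k) =
      χ.primitiveCharacter (n : ZMod χ.conductor) := by
    intro n hn
    have h1 : IsCoprime (n : ℤ) (k : ℤ) := Nat.isCoprime_iff_coprime.2 hn
    have h2 := DirichletCharacter.primitiveCharacter_apply_of_isCoprime χ h1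
    simp only [Int.cast_natCast] at h2
    exact h2.symm
  have h1 : ∑ n ∈ Icc 1 u, (((Λ n : ℝ) : ℂ) * χ (n : ZMod k) -
      ((Λ n : ℝ) : ℂ) * χ.primitiveCharacter (n : ZMod χ.conductor)) =
      ∑ n ∈ (Icc 1 u).filter (fun n => ¬ n.Coprime k),
        (((Λ n : ℝ) : ℂ) * χ (n : ZMod k) -
          ((Λ n : ℝ) : ℂ) * χ.primitiveCharacter (n : ZMod χ.conductor)) := by
    symm
    apply sum_subset (filter_subset _ _)
    intro n hn hn'
    have h2 : n.Coprime k := by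
      by_contra h
      exact hn' (mem_filter.2 ⟨hn, h⟩)
    rw [hc n h2, sub_self]
  rw [h1]
  have hf : ∀ n : ℕ, ¬ n.Coprime k → χ (n : ZMod k) = 0 := by
    intro n hn
    apply MulChar.map_nonunit
    rw [ZMod.isUnit_iff_coprime]
    exact hn
  refine (norm_sum_le _ _).trans ?_
  refine le_trans ?_ (coprime_defect k x (Nat.pos_of_ne_zero (NeZero.ne k)) hk hx)
  calc ∑ n ∈ (Icc 1 u).filter (fun n => ¬ n.Coprime k), ‖((Λ n : ℝ) : ℂ) * χ (n : ZMod k) -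
          ((Λ n : ℝ) : ℂ) * χ.primitiveCharacter (n : ZMod χ.conductor)‖
      ≤ ∑ n ∈ (Icc 1 u).filter (fun n => ¬ n.Coprime k), (Λ n : ℝ) := by
        refine sum_le_sum fun n hn => ?_
        rw [hf n (mem_filter.1 hn).2, mul_zero, zero_sub, norm_neg, norm_mul, Complex.norm_real,
          Real.norm_of_nonneg ArithmeticFunction.vonMangoldt_nonneg]
        exact mul_le_of_le_one_right ArithmeticFunction.vonMangoldt_nonneg
          (DirichletCharacter.norm_le_one _ _)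
    _ ≤ ∑ n ∈ (Icc 1 x).filter (fun n => ¬ n.Coprime k), (Λ n : ℝ) := by
        refine sum_le_sum_of_subset_of_nonneg ?_ (fun _ _ _ =>
          ArithmeticFunction.vonMangoldt_nonneg)
        exact filter_subset_filter _ (Icc_subset_Icc_right hu)

open Classical in
theorem prim_char_mem {k : ℕ} (χ : DirichletCharacter ℂ k) :
    χ.primitiveCharacter ∈ prim χ.conductor := by
  unfold prim
  rw [mem_filter]
  exact ⟨mem_univ _, DirichletCharacter.primitiveCharacter_isPrimitive χ⟩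

open Classical in
/-- the number of characters mod `k` of conductor at most `R` -/
theorem card_small_conductor (k : ℕ) [NeZero k] (R : ℝ) (hR : 0 ≤ R)
    (X : Finset (DirichletCharacter ℂ k)) (hX : ∀ χ ∈ X, (χ.conductor : ℝ) ≤ R) :
    (X.card : ℝ) ≤ R ^ 2 := by
  set Φ : DirichletCharacter ℂ k → (Σ r : ℕ, DirichletCharacter ℂ r) :=
    fun χ => ⟨χ.conductor, χ.primitiveCharacter⟩ with hΦ
  have hinj : Function.Injective Φ := by
    have hleft : ∀ χ : DirichletCharacter ℂ k,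
        (fun p : (Σ r : ℕ, DirichletCharacter ℂ r) =>
          if h : p.1 ∣ k then DirichletCharacter.changeLevel h p.2 else 1) (Φ χ) = χ := by
      intro χ
      simp only [hΦ, χ.conductor_dvd_level, dif_pos]
      exact DirichletCharacter.changeLevel_primitiveCharacter χ
    intro a b hab
    rw [← hleft a, ← hleft b, hab]
  have hle : X.card ≤ ((Icc 1 ⌊R⌋₊).sigma (fun r => prim r)).card := by
    rw [← card_image_of_injective X hinj]
    refine card_le_card fun p hp => ?_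
    obtain ⟨χ, hχ, rfl⟩ := mem_image.1 hp
    rw [mem_sigma]
    refine ⟨mem_Icc.2 ⟨?_, Nat.le_floor (hX χ hχ)⟩, ?_⟩
    · exact Nat.pos_of_dvd_of_pos χ.conductor_dvd_level (Nat.pos_of_ne_zero (NeZero.ne k))
    · unfold prim
      rw [mem_filter]
      exact ⟨mem_univ _, DirichletCharacter.primitiveCharacter_isPrimitive χ⟩
  have hpr : ∀ r ∈ Icc 1 ⌊R⌋₊, (prim r).card ≤ ⌊R⌋₊ := by
    intro r hr
    obtain ⟨hr1, hr2⟩ := mem_Icc.1 hr
    have : NeZero r := ⟨by omega⟩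
    calc (prim r).card ≤ (univ : Finset (DirichletCharacter ℂ r)).card := card_filter_le _ _
      _ = r.totient := by
        rw [card_univ, ← Nat.card_eq_fintype_card]
        exact DirichletCharacter.card_eq_totient_of_hasEnoughRootsOfUnity ℂ r
      _ ≤ r := Nat.totient_le r
      _ ≤ ⌊R⌋₊ := hr2
  have h2 : ((Icc 1 ⌊R⌋₊).sigma (fun r => prim r)).card ≤ ⌊R⌋₊ * ⌊R⌋₊ := by
    rw [card_sigma]
    calc ∑ r ∈ Icc 1 ⌊R⌋₊, (prim r).card ≤ ∑ r ∈ Icc 1 ⌊R⌋₊, ⌊R⌋₊ := sum_le_sum hpr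
      _ = ⌊R⌋₊ * ⌊R⌋₊ := by rw [sum_const, Nat.card_Icc, smul_eq_mul]; simp
  have h3 : (X.card : ℝ) ≤ (⌊R⌋₊ : ℝ) * ⌊R⌋₊ := by exact_mod_cast hle.trans h2
  have h4 : (⌊R⌋₊ : ℝ) ≤ R := Nat.floor_le hR
  calc (X.card : ℝ) ≤ (⌊R⌋₊ : ℝ) * ⌊R⌋₊ := h3
    _ ≤ R * R := by gcongr
    _ = R ^ 2 := by ring

/-- the characters of small conductor -/
theorem var_small (A₁ B₆ : ℕ) : ∃ x₀ : ℕ, ∀ x : ℕ, x₀ ≤ x → ∀ (k : ℕ) [NeZero k], k ≤ x →
    ∀ u : ℕ, u ≤ x → (x : ℝ) / (Real.log x) ^ B₆ ≤ u →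
    ∀ X : Finset (DirichletCharacter ℂ k), (∀ χ ∈ X, χ ≠ 1) →
    (∀ χ ∈ X, (χ.conductor : ℝ) ≤ (Real.log x) ^ A₁) →
    ∑ χ ∈ X, ‖psiC χ u‖ ^ 2 ≤ (x : ℝ) ^ 2 / (Real.log x) ^ B₆ := by
  obtain ⟨C, hC, hSW⟩ := siegel_walfisz (A₁ + B₆ + 1) (A₁ + 1)
  set A : ℕ := A₁ + B₆ + 1 with hA
  have hev : ∀ᶠ x : ℕ in atTop, ∀ (k : ℕ) [NeZero k], k ≤ x →
    ∀ u : ℕ, u ≤ x → (x : ℝ) / (Real.log x) ^ B₆ ≤ u →
    ∀ X : Finset (DirichletCharacter ℂ k), (∀ χ ∈ X, χ ≠ 1) →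
    (∀ χ ∈ X, (χ.conductor : ℝ) ≤ (Real.log x) ^ A₁) →
    ∑ χ ∈ X, ‖psiC χ u‖ ^ 2 ≤ (x : ℝ) ^ 2 / (Real.log x) ^ B₆ := by
    filter_upwards [eventually_ge_atTop 16, evt_log 1, evt_log (2 * 2 ^ A₁),
      evt_log ((C * 2 ^ A + 1) ^ 2), evt_pow 1 B₆ (1 / 2) (by norm_num),
      evt_pow 2 (A + 2) 1 (by norm_num)] with x hx hL1 hL2 hL3 hP1 hP2
    intro k _ hk u hu hxu X hX1 hX2
    set L : ℝ := Real.log x with hL
    have hx16 : (16 : ℝ) ≤ x := by exact_mod_cast hx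
    have hx0 : (0 : ℝ) < x := by linarith
    have hL0 : 0 < L := by linarith
    rw [Real.rpow_one] at hP2
    rw [one_mul] at hP1
    -- `u ≥ √x`
    have hsq : (x : ℝ) ^ (1 / 2 : ℝ) * (x : ℝ) ^ (1 / 2 : ℝ) = x := by
      rw [← Real.rpow_add hx0]; norm_num
    have hs0 : 0 < (x : ℝ) ^ (1 / 2 : ℝ) := by positivity
    have hu1 : (x : ℝ) ^ (1 / 2 : ℝ) ≤ u := by
      refine le_trans ?_ hxu
      rw [le_div_iff₀ (by positivity)]
      calc (x : ℝ) ^ (1 / 2 : ℝ) * L ^ B₆ ≤ (x : ℝ) ^ (1 / 2 : ℝ) * (x : ℝ) ^ (1 / 2 : ℝ) := by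
            gcongr
        _ = x := hsq
    have hu4 : (4 : ℝ) ≤ (x : ℝ) ^ (1 / 2 : ℝ) := by
      have h16 : (16 : ℝ) ^ (1 / 2 : ℝ) = 4 := by
        rw [show (16 : ℝ) = 4 ^ (2 : ℝ) by norm_num, ← Real.rpow_mul (by norm_num)]
        norm_num
      rw [← h16]
      exact Real.rpow_le_rpow (by norm_num) hx16 (by norm_num)
    have hu3 : 3 ≤ u := by
      have : (3 : ℝ) ≤ u := by linarith
      exact_mod_cast this
    have hu0 : (0 : ℝ) < u := by linarith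
    have hlu : L / 2 ≤ Real.log u := by
      have h1 : Real.log ((x : ℝ) ^ (1 / 2 : ℝ)) = L / 2 := by
        rw [Real.log_rpow hx0]; ring
      rw [← h1]
      exact Real.log_le_log hs0 hu1
    have hlu1 : 2 ^ A₁ ≤ Real.log u := by linarith
    have hlu0 : 0 < Real.log u := by linarith
    have hbound : ∀ χ ∈ X, ‖psiC χ u‖ ≤ (C * 2 ^ A + 1) * x / L ^ A := by
      intro χ hχ
      have h1 := psiC_prim' χ x u hu hk (by omega)
      have hr1 : 1 < χ.conductor := by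
        have h2 : χ.conductor ≠ 1 := by
          intro h
          exact hX1 χ hχ ((DirichletCharacter.eq_one_iff_conductor_eq_one (χ := χ)).2 h)
        have h3 : 0 < χ.conductor :=
          Nat.pos_of_dvd_of_pos χ.conductor_dvd_level (Nat.pos_of_ne_zero (NeZero.ne k))
        omega
      have hr2 : (χ.conductor : ℝ) ≤ (Real.log u) ^ (A₁ + 1) := by
        calc (χ.conductor : ℝ) ≤ L ^ A₁ := hX2 χ hχ
          _ ≤ (2 * Real.log u) ^ A₁ := by gcongr; linarith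
          _ = 2 ^ A₁ * (Real.log u) ^ A₁ := by rw [mul_pow]
          _ ≤ Real.log u * (Real.log u) ^ A₁ := by gcongr
          _ = (Real.log u) ^ (A₁ + 1) := by ring
      have hpr : χ.primitiveCharacter ∈ prim χ.conductor := prim_char_mem χ
      have h2 := hSW u hu3 χ.conductor hr1 hr2 _ hpr
      have h3 : C * u / (Real.log u) ^ A ≤ C * 2 ^ A * x / L ^ A := by
        have h4 : (L / 2) ^ A ≤ (Real.log u) ^ A := by gcongr
        have h5 : (u : ℝ) ≤ x := by exact_mod_cast hu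
        calc C * u / (Real.log u) ^ A ≤ C * x / (L / 2) ^ A := by gcongr
          _ = C * 2 ^ A * x / L ^ A := by
            rw [div_pow]
            field_simp
      have h6 : 2 * L ^ 2 ≤ x / L ^ A := by
        rw [le_div_iff₀ (by positivity)]
        calc 2 * L ^ 2 * L ^ A = 2 * L ^ (A + 2) := by ring
          _ ≤ x := hP2
      calc ‖psiC χ u‖ = ‖(psiC χ u - psiC χ.primitiveCharacter u) +
            psiC χ.primitiveCharacter u‖ := by congr 1; ring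
        _ ≤ ‖psiC χ u - psiC χ.primitiveCharacter u‖ + ‖psiC χ.primitiveCharacter u‖ :=
            norm_add_le _ _
        _ ≤ 2 * L ^ 2 + C * u / (Real.log u) ^ A := add_le_add h1 h2
        _ ≤ x / L ^ A + C * 2 ^ A * x / L ^ A := add_le_add h6 h3
        _ = (C * 2 ^ A + 1) * x / L ^ A := by ring
    have hcard := card_small_conductor k (L ^ A₁) (by positivity) X hX2
    calc ∑ χ ∈ X, ‖psiC χ u‖ ^ 2 ≤ ∑ χ ∈ X, ((C * 2 ^ A + 1) * x / L ^ A) ^ 2 :=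
          sum_le_sum fun χ hχ => by
            have := hbound χ hχ
            gcongr
      _ = X.card * ((C * 2 ^ A + 1) * x / L ^ A) ^ 2 := by rw [sum_const, nsmul_eq_mul]
      _ ≤ (L ^ A₁) ^ 2 * ((C * 2 ^ A + 1) * x / L ^ A) ^ 2 := by gcongr
      _ = (C * 2 ^ A + 1) ^ 2 * (x : ℝ) ^ 2 * ((L ^ A₁) ^ 2 / (L ^ A) ^ 2) := by
          rw [div_pow, mul_pow]
          ring
      _ = (C * 2 ^ A + 1) ^ 2 * (x : ℝ) ^ 2 * (1 / L ^ (2 * B₆ + 2)) := by
          congr 1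
          have : (L ^ A) ^ 2 = (L ^ A₁) ^ 2 * L ^ (2 * B₆ + 2) := by
            rw [hA]; ring
          rw [this]
          field_simp
      _ ≤ L * (x : ℝ) ^ 2 * (1 / L ^ (2 * B₆ + 2)) := by gcongr
      _ = (x : ℝ) ^ 2 / L ^ (2 * B₆ + 1) := by
          rw [show 2 * B₆ + 2 = (2 * B₆ + 1) + 1 by ring, pow_succ L (2 * B₆ + 1)]
          field_simp
      _ ≤ (x : ℝ) ^ 2 / L ^ B₆ := by
          gcongr
          omega
  obtain ⟨x₀, hx₀⟩ := eventually_atTop.1 hev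
  exact ⟨x₀, hx₀⟩

/-- the sum over all non-principal characters mod `q s` for good `q` -/
theorem var_chars (ε : ℝ) (hε : 0 < ε) (B₁ B₆ : ℕ) : ∃ B₈ B₉ : ℕ, ∀ A₁ : ℕ, ∃ x₀ : ℕ,
    ∀ x : ℕ, x₀ ≤ x → ∀ q : ℕ, 1 ≤ q → (q : ℝ) ≤ (x : ℝ) ^ (1 / 2 - ε) →
    Good x ((x : ℝ) ^ (ε / 8)) ((Real.log x) ^ A₁) ((Real.log x) ^ B₁) B₈ B₉ q →
    ∀ s : ℕ, 1 ≤ s → (s : ℝ) ≤ (Real.log x) ^ B₁ → ∀ [NeZero (q * s)], ∀ y : ℕ, y ≤ x →
    (x : ℝ) / (Real.log x) ^ B₆ ≤ y →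
    ∀ X : Finset (DirichletCharacter ℂ (q * s)), (∀ χ ∈ X, χ ≠ 1) →
    ∑ χ ∈ X, ‖psiC χ y‖ ^ 2 ≤ (x : ℝ) ^ 2 / (Real.log x) ^ B₆ := by
  classical
  obtain ⟨B₈, B₉, x₁, hmass⟩ := mass (ε / 2) (by linarith) (B₆ + 1)
  refine ⟨B₈, B₉, fun A₁ => ?_⟩
  obtain ⟨x₂, hsmall⟩ := var_small A₁ (B₆ + 1)
  have hev : ∀ᶠ x : ℕ in atTop, ∀ q : ℕ, 1 ≤ q → (q : ℝ) ≤ (x : ℝ) ^ (1 / 2 - ε) →
    Good x ((x : ℝ) ^ (ε / 8)) ((Real.log x) ^ A₁) ((Real.log x) ^ B₁) B₈ B₉ q →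
    ∀ s : ℕ, 1 ≤ s → (s : ℝ) ≤ (Real.log x) ^ B₁ → ∀ [NeZero (q * s)], ∀ y : ℕ, y ≤ x →
    (x : ℝ) / (Real.log x) ^ B₆ ≤ y →
    ∀ X : Finset (DirichletCharacter ℂ (q * s)), (∀ χ ∈ X, χ ≠ 1) →
    ∑ χ ∈ X, ‖psiC χ y‖ ^ 2 ≤ (x : ℝ) ^ 2 / (Real.log x) ^ B₆ := by
    filter_upwards [eventually_ge_atTop x₁, eventually_ge_atTop x₂, eventually_ge_atTop 16,
      evt_log 2, evt_pow 1 B₁ (ε / 2) (by linarith),
      evt_pow 2 (B₉ + 2) (ε / 8) (by linarith)] with x hx1 hx2 hx hL2 hP1 hP2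
    intro q hq1 hq2 hgood s hs1 hs2 _ y hy hxy X hX
    set L : ℝ := Real.log x with hL
    have hx16 : (16 : ℝ) ≤ x := by exact_mod_cast hx
    have hx0 : (0 : ℝ) < x := by linarith
    have hL0 : 0 < L := by linarith
    rw [one_mul] at hP1
    have hk : (((q * s : ℕ)) : ℝ) ≤ (x : ℝ) ^ (1 / 2 - ε / 2) := by
      push_cast
      calc (q : ℝ) * s ≤ (x : ℝ) ^ (1 / 2 - ε) * (x : ℝ) ^ (ε / 2) := by
            gcongr
            exact hs2.trans hP1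
        _ = (x : ℝ) ^ (1 / 2 - ε / 2) := by
            rw [← Real.rpow_add hx0]
            congr 1
            ring
    have hkx : q * s ≤ x := by
      have h1 : (((q * s : ℕ)) : ℝ) ≤ x := by
        refine hk.trans ?_
        calc (x : ℝ) ^ (1 / 2 - ε / 2) ≤ (x : ℝ) ^ (1 : ℝ) :=
              Real.rpow_le_rpow_of_exponent_le (by linarith) (by linarith)
          _ = x := Real.rpow_one _
      exact_mod_cast h1
    have hxy' : (x : ℝ) / L ^ (B₆ + 1) ≤ y := by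
      refine le_trans ?_ hxy
      gcongr
      · linarith
      · omega
    have h1 : ∑ χ ∈ X.filter (fun χ => (χ.conductor : ℝ) ≤ L ^ A₁), ‖psiC χ y‖ ^ 2 ≤
        (x : ℝ) ^ 2 / L ^ (B₆ + 1) := by
      refine hsmall x hx2 (q * s) hkx y hy hxy' _ ?_ ?_
      · intro χ hχ
        exact hX χ (mem_filter.1 hχ).1
      · intro χ hχ
        exact (mem_filter.1 hχ).2
    have h2 : ∑ χ ∈ X.filter (fun χ => ¬ (χ.conductor : ℝ) ≤ L ^ A₁), ‖psiC χ y‖ ^ 2 ≤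
        (x : ℝ) ^ 2 / L ^ (B₆ + 1) := by
      refine hmass x hx1 (q * s) hk y hy hxy' _ ?_ ?_
      · intro χ hχ
        exact hX χ (mem_filter.1 hχ).1
      · intro χ hχ i hi1 hi2
        obtain ⟨hχ1, hχ2⟩ := mem_filter.1 hχ
        rw [not_le] at hχ2
        have hpr : χ.primitiveCharacter ∈ prim χ.conductor := prim_char_mem χ
        have hnb := hgood s hs1 hs2 χ.conductor χ.conductor_dvd_level hχ2 _ hpr
        unfold BadC at hnb
        push Not at hnb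
        have hi1' : (x : ℝ) ^ (ε / 8) ≤ gr (1 / L ^ B₈) i := by
          rw [show ε / 8 = ε / 2 / 4 by ring]
          exact hi1
        have h3 := hnb i hi1' hi2
        have h4 := psiC_prim' χ x (gr (1 / L ^ B₈) i) (by exact_mod_cast hi2) hkx (by omega)
        have h5 : 2 * L ^ 2 ≤ (gr (1 / L ^ B₈) i : ℝ) / L ^ B₉ := by
          rw [le_div_iff₀ (by positivity)]
          calc 2 * L ^ 2 * L ^ B₉ = 2 * L ^ (B₉ + 2) := by ring
            _ ≤ (x : ℝ) ^ (ε / 8) := hP2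
            _ ≤ _ := hi1'
        calc ‖psiC χ (gr (1 / L ^ B₈) i)‖ = ‖(psiC χ (gr (1 / L ^ B₈) i) -
              psiC χ.primitiveCharacter (gr (1 / L ^ B₈) i)) +
              psiC χ.primitiveCharacter (gr (1 / L ^ B₈) i)‖ := by congr 1; ring
          _ ≤ ‖psiC χ (gr (1 / L ^ B₈) i) -
              psiC χ.primitiveCharacter (gr (1 / L ^ B₈) i)‖ +
              ‖psiC χ.primitiveCharacter (gr (1 / L ^ B₈) i)‖ := norm_add_le _ _
          _ ≤ 2 * L ^ 2 + (gr (1 / L ^ B₈) i : ℝ) / L ^ B₉ := add_le_add h4 h3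
          _ ≤ (gr (1 / L ^ B₈) i : ℝ) / L ^ B₉ + (gr (1 / L ^ B₈) i : ℝ) / L ^ B₉ := by
              linarith
          _ = 2 * (gr (1 / L ^ B₈) i : ℝ) / L ^ B₉ := by ring
    rw [← sum_filter_add_sum_filter_not X (fun χ => (χ.conductor : ℝ) ≤ L ^ A₁)]
    calc _ ≤ (x : ℝ) ^ 2 / L ^ (B₆ + 1) + (x : ℝ) ^ 2 / L ^ (B₆ + 1) := add_le_add h1 h2
      _ = 2 * ((x : ℝ) ^ 2 / L ^ (B₆ + 1)) := by ring
      _ ≤ L * ((x : ℝ) ^ 2 / L ^ (B₆ + 1)) := by gcongr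
      _ = (x : ℝ) ^ 2 / L ^ B₆ := by
          have h6 : L ^ (B₆ + 1) = L * L ^ B₆ := by ring
          rw [h6]
          field_simp
  obtain ⟨x₀, hx₀⟩ := eventually_atTop.1 hev
  exact ⟨x₀, hx₀⟩

end Pool.Agent.HL
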